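import Pool.Agent.Lib.MP_eeed5c_co_X.XI
import Pool.Agent.Lib.MP_eeed5c_co_X.XS1
import Pool.Agent.Lib.MP_eeed5c_co_N.TB2
import Pool.Agent.Lib.MP_eeed5c_co_U.TGb
import Pool.Agent.Lib.MP_eeed5c_co_M.HLc
import Pool.Agent.Lib.MP_eeed5c_co_M.VB
import Mathlib

/-!
# Definitions (the corner: few blocks, few holes, large blocks)

`Fg G q r x` is `q log Lp r x - log mp G x`, `fg` its derivative with respect to `log x`. `DL`, `CM`
are the sums over all darts of `dl`, `cm`, and `Wt G r = DL / r^2 + CM / r`. `QD N`, `QT N` are the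
quantities of one matching which measure the loss. `Jc p n` are the coefficients of the series
`J_p(z) = ∑ z^(2t+p) / (t! (t+p)!)`, `Jv p z` its value, `cN p l` the coefficient of `z^(2l)` of the
product of the series `J_(p b)`. `zt G c S k` is the number of matchings with `k` edges whose set of
additional edges is `S`.
-/

set_option autoImplicit false

namespace Pool.Agent.Lib.MP_eeed5c_coK

open Finset Pool.Agent.Lib.MP_eeed5c_co Pool.Agent.Lib.MP_eeed5c_coT Pool.Agent.Lib.MP_eeed5c_coX

section

variable {V : Type*} [Fintype V]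

/-- The gap of the logarithms. -/
noncomputable def Fg (G : SimpleGraph V) (q r : ℕ) (x : ℝ) : ℝ :=
  q * Real.log ((Lp r).eval x) - Real.log ((mp G).eval x)

/-- The derivative of the gap with respect to `log x`. -/
noncomputable def fg (G : SimpleGraph V) (q r : ℕ) (x : ℝ) : ℝ :=
  x * (q * ((Lp r).derivative.eval x / (Lp r).eval x) -
    (mp G).derivative.eval x / (mp G).eval x)

/-- The sum over the darts of the numbers of missing pairs. -/
noncomputable def DL (G : SimpleGraph V) : ℝ := ∑ u, ∑ v ∈ Nb G u, (dl G u v : ℝ)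

/-- The sum over the darts of the numbers of common neighbours. -/
noncomputable def CM (G : SimpleGraph V) : ℝ := ∑ u, ∑ v ∈ Nb G u, (cm G u v : ℝ)

/-- The distance from unions of complete bipartite graphs. -/
noncomputable def Wt (G : SimpleGraph V) (r : ℕ) : ℝ := DL G / (r : ℝ) ^ 2 + CM G / r

/-- The sum of the squares of the differences of free degrees. -/
noncomputable def QD (G : SimpleGraph V) (N : Finset (Sym2 V)) : ℝ :=
  ∑ u ∈ free N, ∑ v ∈ nb G N u, ((D G N u : ℝ) - D G N v) ^ 2

open scoped Classical in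
/-- The number of free ordered triangles. -/
noncomputable def QT (G : SimpleGraph V) (N : Finset (Sym2 V)) : ℝ :=
  ∑ v ∈ free N, ∑ a ∈ nb G N v, (((nb G N v).filter (fun b => G.Adj a b)).card : ℝ)

open scoped Classical in
/-- The weighted number of edges of the matchings leaving `S` free. -/
noncomputable def ES (G : SimpleGraph V) (x : ℝ) (S : Finset V) : ℝ :=
  WS G x (fun N => if S ⊆ free N then (N.card : ℝ) else 0)

open scoped Classical in
/-- The slides of the matching `N`: triples `(c, a, c')` with `c` free and not in `S`, `a` adjacent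
to `c`, and `a c'` an edge of `N`. -/
noncomputable def sl (G : SimpleGraph V) (S : Finset V) (N : Finset (Sym2 V)) :
    Finset (V × V × V) :=
  univ.filter fun p => p.1 ∈ free N ∧ p.1 ∉ S ∧ G.Adj p.1 p.2.1 ∧ s(p.2.1, p.2.2) ∈ N

open scoped Classical in
/-- The triples `(c, a, c')` of different vertices outside `S` with `c ~ a ~ c'`. -/
noncomputable def tr (G : SimpleGraph V) (S : Finset V) : Finset (V × V × V) :=
  univ.filter fun p => G.Adj p.1 p.2.1 ∧ G.Adj p.2.1 p.2.2 ∧ p.1 ≠ p.2.2 ∧
    p.1 ∉ S ∧ p.2.1 ∉ S ∧ p.2.2 ∉ S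

open scoped Classical in
/-- The sum of `g` over the free vertices outside `S`. -/
noncomputable def Yg (g : V → ℝ) (S : Finset V) (N : Finset (Sym2 V)) : ℝ :=
  ∑ z ∈ free N \ S, g z

/-- The sum of the changes of `Yg` over all slides. -/
noncomputable def LY (G : SimpleGraph V) (g : V → ℝ) (S : Finset V) (N : Finset (Sym2 V)) : ℝ :=
  ∑ p ∈ sl G S N, (g p.2.2 - g p.1)

open scoped Classical in
/-- The function of the vertices attached to a dart. -/
noncomputable def gu (G : SimpleGraph V) (u v : V) (z : V) : ℝ :=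
  (if G.Adj u z then 1 else 0) - (if G.Adj v z then 1 else 0)

open scoped Classical in
/-- The number of triples which change the difference of the free degrees of `u` and `v`. -/
noncomputable def Pt (G : SimpleGraph V) (u v : V) : ℕ :=
  ((tr G {u, v}).filter fun p => gu G u v p.1 ≠ gu G u v p.2.2).card

open scoped Classical in
/-- The number of matchings with `k` edges whose set of additional edges is `S`. -/
noncomputable def zt {q : ℕ} (G : SimpleGraph V) (c : V → Fin q × Fin 2) (S : Finset (Sym2 V))
    (k : ℕ) : ℝ :=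
  (((mats G k).filter fun M => M ∩ Ys G c = S).card : ℝ)

open scoped Classical in
/-- The vertices covered by `S`. -/
noncomputable def cov (S : Finset (Sym2 V)) : Finset V := univ \ free S

/-- The part in the block `b` of the common edges of `G` and `KG c` which do not meet `S`. -/
def HS {q : ℕ} (G : SimpleGraph V) (c : V → Fin q × Fin 2) (S : Finset (Sym2 V)) (b : Fin q) :
    SimpleGraph V where
  Adj u v := G.Adj u v ∧ (KG c).Adj u v ∧ (c u).1 = b ∧ u ∈ free S ∧ v ∈ free S
  symm := ⟨fun _ _ h => ⟨h.1.symm, h.2.1.symm, h.2.1.1.symm.trans h.2.2.1, h.2.2.2.2, h.2.2.2.1⟩⟩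
  loopless := ⟨fun _ h => h.1.ne rfl⟩

/-- The difference of the numbers of covered vertices of the two sides of the block `b`. -/
noncomputable def pS {q : ℕ} (c : V → Fin q × Fin 2) (S : Finset (Sym2 V)) (b : Fin q) : ℕ :=
  Nat.dist (cnt c (cov S) (b, 0)) (cnt c (cov S) (b, 1))

end

/-- The coefficients of the series `∑ z^(2t+p) / (t! (t+p)!)`. -/
noncomputable def Jc (p n : ℕ) : ℝ :=
  if p ≤ n ∧ (n - p) % 2 = 0 then
    1 / ((((n - p) / 2).factorial : ℝ) * (((n + p) / 2).factorial : ℝ)) else 0

/-- The series `∑ z^(2t+p) / (t! (t+p)!)`. -/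
noncomputable def JS (p : ℕ) : PowerSeries ℝ := PowerSeries.mk (Jc p)

/-- The value of the series. -/
noncomputable def Jv (p : ℕ) (z : ℝ) : ℝ := ∑' n, Jc p n * z ^ n

/-- The coefficient of `z^(2l)` of the product. -/
noncomputable def cN {q : ℕ} (p : Fin q → ℕ) (l : ℕ) : ℝ :=
  PowerSeries.coeff (2 * l) (∏ b, JS (p b))

/-- The coefficients for the zero vector. -/
noncomputable def c0 (q l : ℕ) : ℝ := cN (fun _ : Fin q => 0) l

/-- The likelihood ratio order of coefficient sequences, with a condition on the supports. -/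
def LRS (A B : Polynomial ℝ) : Prop :=
  (∀ i, 0 ≤ A.coeff i) ∧ (∀ i, 0 ≤ B.coeff i) ∧
    (∀ i j, i ≤ j → B.coeff i * A.coeff j ≤ A.coeff i * B.coeff j) ∧
    ∀ j, A.coeff j ≠ 0 → ∀ i, i ≤ j → 0 < B.coeff i

/-- Log-concave coefficients, with support an interval containing `0`. -/
def LCS (A : Polynomial ℝ) : Prop :=
  LC (fun i => A.coeff i) ∧ ∀ j, A.coeff j ≠ 0 → ∀ i, i ≤ j → 0 < A.coeff i

end Pool.Agent.Lib.MP_eeed5c_coK
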