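import Pool.Agent.Lib.MP_eeed5c_co_K.Defs

/-!
# The gap function

PROOFS. For `x > 0` both values `(Lp r).eval x`, `(mp G).eval x` are at least 1 (`Lp_pos`, `mp_eval_pos`).
* `fg_nonneg`: `log_deriv_le` (file T/GA) times `x`.
* `Fg_deriv`: derivative of `log` of a polynomial (`Polynomial.hasDerivAt`, `HasDerivAt.log`); `fg / x` is the difference.
* `Fg_nonneg`: `gap` (file T/GA) with `κ = 0`, `Far G 0` (`TGb_far`), `x0 = min x 1`: `(mp G).eval x ≤ (Lp r).eval x ^ q`; take logarithms.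
* `Fg_int`: the function `t ↦ Fg G q r t - μ * log t` has a nonnegative derivative `(fg t - μ)/t` on `[a, b]`, so it is
  monotone there (`monotoneOn_of_deriv_nonneg`; continuous because differentiable at all points of `[a,b]`).
* `Fg_mono`: `Fg_int` with `μ = 0`.
* `mp_exp`: `exp (- Fg) = exp (log mp - q log Lp) = mp / Lp^q`.
* `mats_le_gap`: `term_le_eval` (one coefficient times `x^k` is at most the value), `mp_exp`, monotonicity of `exp`.
-/

set_option autoImplicit false

namespace Pool.Agent.Lib.MP_eeed5c_coK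

open Finset Pool.Agent.Lib.MP_eeed5c_co Pool.Agent.Lib.MP_eeed5c_coT Pool.Agent.Lib.MP_eeed5c_coX

section

variable {V : Type*} [Fintype V] {G : SimpleGraph V}

theorem FA_L (r : ℕ) {x : ℝ} (hx : 0 < x) : 0 < (Lp r).eval x := by
  linarith [Lp_pos r hx.le]

theorem FA_Z (G : SimpleGraph V) {x : ℝ} (hx : 0 < x) : 0 < (mp G).eval x := by
  linarith [mp_eval_pos (G := G) hx.le]

theorem fg_nonneg {q r : ℕ} (hr : 1 ≤ r) (hV : Fintype.card V = 2 * (q * r)) (hreg : Reg G r)
    {x : ℝ} (hx : 0 < x) : 0 ≤ fg G q r x := by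
  have h := log_deriv_le hr hV hreg hx
  unfold fg
  exact mul_nonneg hx.le (by linarith)

theorem Fg_deriv (q r : ℕ) {x : ℝ} (hx : 0 < x) :
    HasDerivAt (Fg G q r) (fg G q r x / x) x := by
  have h1 : HasDerivAt (fun y : ℝ => (q : ℝ) * Real.log ((Lp r).eval y))
      ((q : ℝ) * ((Lp r).derivative.eval x / (Lp r).eval x)) x :=
    (((Lp r).hasDerivAt x).log (FA_L r hx).ne').const_mul (q : ℝ)
  have h2 : HasDerivAt (fun y : ℝ => Real.log ((mp G).eval y))
      ((mp G).derivative.eval x / (mp G).eval x) x :=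
    ((mp G).hasDerivAt x).log (FA_Z G hx).ne'
  have h3 := h1.sub h2
  have h4 : fg G q r x / x = (q : ℝ) * ((Lp r).derivative.eval x / (Lp r).eval x) -
      (mp G).derivative.eval x / (mp G).eval x := by
    unfold fg
    rw [mul_div_assoc, mul_div_cancel₀ _ hx.ne']
  rw [h4]
  exact h3

theorem Fg_nonneg {q r : ℕ} (hr : 1 ≤ r) (hV : Fintype.card V = 2 * (q * r)) (hreg : Reg G r)
    {x : ℝ} (hx : 0 < x) : 0 ≤ Fg G q r x := by
  have h := gap hr hV hreg (le_refl (0 : ℝ)) (Pool.Agent.Lib.MP_eeed5c_coU.TGb_far G) (x0 := min x 1) (x := x)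
    (lt_min hx one_pos) (min_le_right _ _) (min_le_left _ _)
  have h1 : (mp G).eval x ≤ (Lp r).eval x ^ q := by
    simpa using h
  have h2 := Real.log_le_log (FA_Z G hx) h1
  rw [Real.log_pow] at h2
  unfold Fg
  linarith

theorem Fg_int {q r : ℕ} {μ a b : ℝ} (ha : 0 < a) (hab : a ≤ b)
    (h : ∀ t, a ≤ t → t ≤ b → μ ≤ fg G q r t) :
    μ * Real.log (b / a) ≤ Fg G q r b - Fg G q r a := by
  have hd : ∀ t : ℝ, 0 < t → HasDerivAt (fun y : ℝ => Fg G q r y - μ * Real.log y)
      (fg G q r t / t - μ * t⁻¹) t := fun t ht =>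
    (Fg_deriv q r ht).sub ((Real.hasDerivAt_log ht.ne').const_mul μ)
  have hm : MonotoneOn (fun y : ℝ => Fg G q r y - μ * Real.log y) (Set.Icc a b) := by
    refine monotoneOn_of_deriv_nonneg (convex_Icc a b) ?_ ?_ ?_
    · intro t ht
      exact (hd t (lt_of_lt_of_le ha ht.1)).continuousAt.continuousWithinAt
    · intro t ht
      rw [interior_Icc] at ht
      exact (hd t (lt_trans ha ht.1)).differentiableAt.differentiableWithinAt
    · intro t ht
      rw [interior_Icc] at ht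
      have ht0 : 0 < t := lt_trans ha ht.1
      rw [(hd t ht0).deriv]
      have h1 := h t ht.1.le ht.2.le
      have h2 : fg G q r t / t - μ * t⁻¹ = (fg G q r t - μ) / t := by
        rw [sub_div, div_eq_mul_inv μ t]
      rw [h2]
      exact div_nonneg (by linarith) ht0.le
  have h1 := hm (Set.left_mem_Icc.2 hab) (Set.right_mem_Icc.2 hab) hab
  rw [Real.log_div (lt_of_lt_of_le ha hab).ne' ha.ne']
  have h2 : Fg G q r a - μ * Real.log a ≤ Fg G q r b - μ * Real.log b := h1
  linarith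

theorem Fg_mono {q r : ℕ} (hr : 1 ≤ r) (hV : Fintype.card V = 2 * (q * r)) (hreg : Reg G r)
    {x y : ℝ} (hx : 0 < x) (hxy : x ≤ y) : Fg G q r x ≤ Fg G q r y := by
  have h := Fg_int (G := G) (q := q) (r := r) (μ := 0) hx hxy
    (fun t ht _ => fg_nonneg hr hV hreg (lt_of_lt_of_le hx ht))
  linarith

theorem mp_exp (q r : ℕ) {x : ℝ} (hx : 0 < x) :
    (mp G).eval x = Real.exp (-(Fg G q r x)) * (Lp r).eval x ^ q := by
  have h1 : (Lp r).eval x ^ q = Real.exp ((q : ℝ) * Real.log ((Lp r).eval x)) := by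
    rw [← Real.log_pow, Real.exp_log (pow_pos (FA_L r hx) q)]
  rw [h1, ← Real.exp_add]
  unfold Fg
  rw [show -((q : ℝ) * Real.log ((Lp r).eval x) - Real.log ((mp G).eval x)) +
    (q : ℝ) * Real.log ((Lp r).eval x) = Real.log ((mp G).eval x) by ring,
    Real.exp_log (FA_Z G hx)]

theorem mats_le_gap {q r : ℕ} {x C : ℝ} (hx : 0 < x) (hC : C ≤ Fg G q r x) (k : ℕ) :
    ((mats G k).card : ℝ) * x ^ k ≤ Real.exp (-C) * (Lp r).eval x ^ q := by
  have h1 := term_le_eval (NN_mp (G := G)) hx.le k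
  rw [mp_coeff, mp_exp (G := G) q r hx] at h1
  refine h1.trans (mul_le_mul_of_nonneg_right ?_ (pow_nonneg (FA_L r hx).le q))
  exact Real.exp_le_exp.2 (by linarith)

end

end Pool.Agent.Lib.MP_eeed5c_coK
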