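import Pool.Agent.Lib.MP_eeed5c_co_K.FA
import Pool.Agent.Lib.MP_eeed5c_co_W.IC

/-!
# The exponential moment of the number of holes
-/

set_option autoImplicit false

namespace Pool.Agent.Lib.MP_eeed5c_coK

open Finset Pool.Agent.Lib.MP_eeed5c_co Pool.Agent.Lib.MP_eeed5c_coT Pool.Agent.Lib.MP_eeed5c_coX

theorem hb_sq (r : ℕ) {x : ℝ} (hx : 0 < x) : x * ((r : ℝ) - mb r x) ^ 2 ≤ r := by
  have h1 := Pool.Agent.Lib.MP_eeed5c_coW.holes_block (r := r) hx
  obtain ⟨-, h2, -⟩ := mb_facts r hx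
  have h3 : ((r : ℝ) - mb r x) ^ 2 ≤ r / x := by
    have h4 := pow_le_pow_left₀ (show 0 ≤ (r : ℝ) - mb r x by linarith) h1 2
    rwa [Real.sq_sqrt (by positivity)] at h4
  rw [le_div_iff₀ hx] at h3
  linarith

theorem Lp_half (r : ℕ) {x : ℝ} (hx : 0 < x) : (Lp r).eval (x / 2) * 2 ^ r ≤
    Real.exp (Real.log 2 * √(2 * r / x)) * (Lp r).eval x := by
  obtain ⟨A, hA⟩ : ∃ A, A = √(2 * r / x) := ⟨_, rfl⟩
  have hL : ∀ t : ℝ, 0 < t → 0 < (Lp r).eval t := fun t ht => by
    have := Lp_pos r ht.le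
    linarith
  have hx2 : 0 < x / 2 := by positivity
  have hder : ∀ t : ℝ, 0 < t → HasDerivAt (fun t => Real.log ((Lp r).eval t) -
      ((r : ℝ) - A) * Real.log t)
      ((Lp r).derivative.eval t / (Lp r).eval t - ((r : ℝ) - A) * t⁻¹) t := by
    intro t ht
    exact (((Lp r).hasDerivAt t).log (hL t ht).ne').sub
      ((Real.hasDerivAt_log ht.ne').const_mul _)
  have hmono : MonotoneOn (fun t => Real.log ((Lp r).eval t) -
      ((r : ℝ) - A) * Real.log t) (Set.Icc (x / 2) x) := by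
    refine monotoneOn_of_deriv_nonneg (convex_Icc _ _) ?_ ?_ ?_
    · intro t ht
      exact (hder t (lt_of_lt_of_le hx2 ht.1)).continuousAt.continuousWithinAt
    · intro t ht
      rw [interior_Icc] at ht
      exact (hder t (lt_trans hx2 ht.1)).differentiableAt.differentiableWithinAt
    · intro t ht
      rw [interior_Icc] at ht
      have ht0 : 0 < t := lt_trans hx2 ht.1
      rw [(hder t ht0).deriv]
      have h1 := hb_sq r ht0
      obtain ⟨-, h2, -⟩ := mb_facts r ht0
      have h3 : (r : ℝ) - mb r t ≤ A := by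
        rw [hA]
        refine Real.le_sqrt_of_sq_le ?_
        rw [le_div_iff₀ hx]
        have h4 : 0 ≤ ((r : ℝ) - mb r t) ^ 2 := sq_nonneg _
        have h5 : x ≤ 2 * t := by linarith [ht.1]
        nlinarith [mul_le_mul_of_nonneg_left h5 h4]
      have h4 : mb r t = t * ((Lp r).derivative.eval t / (Lp r).eval t) := by
        unfold mb
        ring
      have h5 : (Lp r).derivative.eval t / (Lp r).eval t - ((r : ℝ) - A) * t⁻¹ =
          (mb r t - ((r : ℝ) - A)) / t := by
        rw [h4]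
        field_simp
      rw [h5]
      exact div_nonneg (by linarith) ht0.le
  have h1 := hmono (Set.left_mem_Icc.2 (by linarith)) (Set.right_mem_Icc.2 (by linarith))
    (show x / 2 ≤ x by linarith)
  dsimp only at h1
  rw [Real.log_div hx.ne' two_ne_zero] at h1
  have h2 : Real.log ((Lp r).eval (x / 2) * 2 ^ r) ≤
      Real.log (Real.exp (Real.log 2 * A) * (Lp r).eval x) := by
    rw [Real.log_mul (hL _ hx2).ne' (by positivity), Real.log_pow,
      Real.log_mul (Real.exp_pos _).ne' (hL _ hx).ne', Real.log_exp]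
    linarith
  rw [hA] at h2
  exact (Real.log_le_log_iff (mul_pos (hL _ hx2) (by positivity))
    (mul_pos (Real.exp_pos _) (hL _ hx))).1 h2

theorem four_pow (h : ℕ) : (2 * (h : ℝ)) ^ 4 ≤ 30000 * Real.exp (h * (Real.log 2 / 2)) := by
  have h1 := Real.log_two_gt_d9
  have h2 := Real.pow_div_factorial_le_exp (h * (Real.log 2 / 2)) (by positivity) 4
  have h3 : ((4 : ℕ).factorial : ℝ) = 24 := by norm_num [Nat.factorial]
  rw [h3, div_le_iff₀ (by norm_num)] at h2
  have h4 : (0.34 : ℝ) ≤ Real.log 2 / 2 := by linarith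
  have h5 : (0.34 : ℝ) ^ 4 ≤ (Real.log 2 / 2) ^ 4 := pow_le_pow_left₀ (by norm_num) h4 4
  have h6 : (0 : ℝ) ≤ (h : ℝ) ^ 4 := by positivity
  rw [mul_pow] at h2
  have h7 := mul_le_mul_of_nonneg_left h5 h6
  have h8 : (2 * (h : ℝ)) ^ 4 = 16 * (h : ℝ) ^ 4 := by ring
  rw [h8]
  norm_num at h7
  nlinarith

section

variable {V : Type*} [Fintype V] {G : SimpleGraph V}

theorem two_moment {q r : ℕ} (hr : 1 ≤ r) (hV : Fintype.card V = 2 * (q * r)) (hreg : Reg G r)
    {x C : ℝ} (hx : 0 < x) (hC : Fg G q r x ≤ C) :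
    WS G x (fun N => (2 : ℝ) ^ (q * r - N.card)) ≤
      Real.exp (C + q * (Real.log 2 * √(2 * r / x))) * (mp G).eval x := by
  have hx2 : 0 < x / 2 := by positivity
  have h1 : WS G x (fun N => (2 : ℝ) ^ (q * r - N.card)) = 2 ^ (q * r) * (mp G).eval (x / 2) := by
    rw [← WS_one, ← WS_smul]
    unfold WS
    refine Finset.sum_congr rfl fun N hN => ?_
    have h2 : N.card ≤ q * r := by
      have := card_le_of_mem hN
      omega
    have h3 : (2 : ℝ) ^ (q * r) = 2 ^ (q * r - N.card) * 2 ^ N.card := by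
      rw [← pow_add, Nat.sub_add_cancel h2]
    dsimp only
    rw [h3, div_pow]
    field_simp
  rw [h1]
  have h2 : (mp G).eval (x / 2) ≤ (Lp r).eval (x / 2) ^ q := by
    rw [mp_exp q r hx2]
    have h3 := Fg_nonneg hr hV hreg hx2
    have h4 : Real.exp (-(Fg G q r (x / 2))) ≤ 1 := Real.exp_le_one_iff.2 (by linarith)
    have h5 : 0 ≤ (Lp r).eval (x / 2) ^ q := pow_nonneg (by linarith [Lp_pos r hx2.le]) _
    calc _ ≤ 1 * (Lp r).eval (x / 2) ^ q := mul_le_mul_of_nonneg_right h4 h5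
      _ = _ := one_mul _
  have h3 := Lp_half r hx
  have h4 : (2 : ℝ) ^ (q * r) * (Lp r).eval (x / 2) ^ q =
      ((Lp r).eval (x / 2) * 2 ^ r) ^ q := by
    rw [mul_pow, ← pow_mul, mul_comm r q]
    ring
  have h5 : (Lp r).eval x ^ q = Real.exp (Fg G q r x) * (mp G).eval x := by
    rw [mp_exp q r hx, ← mul_assoc, ← Real.exp_add]
    simp
  have hL2 := Lp_pos r hx2.le
  have hM := mp_eval_pos (G := G) hx.le
  calc (2 : ℝ) ^ (q * r) * (mp G).eval (x / 2) ≤ 2 ^ (q * r) * (Lp r).eval (x / 2) ^ q :=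
        mul_le_mul_of_nonneg_left h2 (by positivity)
    _ = ((Lp r).eval (x / 2) * 2 ^ r) ^ q := h4
    _ ≤ (Real.exp (Real.log 2 * √(2 * r / x)) * (Lp r).eval x) ^ q :=
        pow_le_pow_left₀ (by positivity) h3 q
    _ = Real.exp (q * (Real.log 2 * √(2 * r / x))) * (Real.exp (Fg G q r x) * (mp G).eval x) := by
        rw [mul_pow, ← Real.exp_nat_mul, h5]
    _ ≤ Real.exp (q * (Real.log 2 * √(2 * r / x))) * (Real.exp C * (mp G).eval x) := by
        refine mul_le_mul_of_nonneg_left ?_ (Real.exp_pos _).le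
        exact mul_le_mul_of_nonneg_right (Real.exp_le_exp.2 hC) (by linarith)
    _ = _ := by
        rw [Real.exp_add]
        ring

theorem tail_bound {q r : ℕ} (hr : 1 ≤ r) (hV : Fintype.card V = 2 * (q * r)) (hreg : Reg G r)
    {x C : ℝ} (hx : 0 < x) (hC : Fg G q r x ≤ C) :
    WS G x (fun N => if 8 * q * √(r / x) < ((free N).card : ℝ) then
      ((free N).card : ℝ) ^ 4 else 0) ≤
      30000 * Real.exp (C - q * √(r / x) / 4) * (mp G).eval x := by
  obtain ⟨w, hw⟩ : ∃ w, w = √((r : ℝ) / x) := ⟨_, rfl⟩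
  have hw0 : 0 ≤ w := by rw [hw]; exact Real.sqrt_nonneg _
  have hM := mp_eval_pos (G := G) hx.le
  have hq0 : (0 : ℝ) ≤ q := Nat.cast_nonneg q
  have hl := Real.log_two_gt_d9
  rw [← hw]
  have h1 : WS G x (fun N => if 8 * q * w < ((free N).card : ℝ) then
      ((free N).card : ℝ) ^ 4 else 0) ≤ WS G x (fun N =>
        (30000 * Real.exp (-(2 * q * w * Real.log 2))) * (2 : ℝ) ^ (q * r - N.card)) := by
    refine WS_mono hx.le fun N hN => ?_
    have h2 : (free N).card = 2 * (q * r - N.card) := by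
      have := card_free (mem_Mt.1 hN)
      omega
    obtain ⟨h, hh⟩ : ∃ h, h = q * r - N.card := ⟨_, rfl⟩
    rw [← hh] at h2 ⊢
    rw [h2]
    split_ifs with h3
    · push_cast at h3 ⊢
      have h4 := four_pow h
      have h5 : Real.exp (h * (Real.log 2 / 2)) ≤
          Real.exp (-(2 * q * w * Real.log 2)) * 2 ^ h := by
        have e : (2 : ℝ) ^ h = Real.exp (h * Real.log 2) := by
          rw [mul_comm, Real.exp_mul, Real.exp_log (by norm_num), Real.rpow_natCast]
        rw [e, ← Real.exp_add]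
        refine Real.exp_le_exp.2 ?_
        have h6 : 4 * (q : ℝ) * w ≤ h := by linarith
        have h7 := mul_le_mul_of_nonneg_right h6 (show 0 ≤ Real.log 2 by linarith)
        linarith
      calc _ ≤ _ := h4
        _ ≤ 30000 * (Real.exp (-(2 * q * w * Real.log 2)) * 2 ^ h) := by linarith
        _ = _ := by ring
    · positivity
  refine h1.trans ?_
  rw [WS_smul]
  have h2 := two_moment hr hV hreg hx hC
  have h3 : √(2 * r / x) = √2 * w := by
    rw [hw, ← Real.sqrt_mul (by norm_num)]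
    congr 1
    ring
  rw [h3] at h2
  have h4 : √(2 : ℝ) ≤ 1.4143 := by
    rw [show (1.4143 : ℝ) = √(1.4143 ^ 2) by rw [Real.sqrt_sq (by norm_num)]]
    exact Real.sqrt_le_sqrt (by norm_num)
  calc 30000 * Real.exp (-(2 * q * w * Real.log 2)) * WS G x (fun N => (2 : ℝ) ^ (q * r - N.card))
      ≤ 30000 * Real.exp (-(2 * q * w * Real.log 2)) *
        (Real.exp (C + q * (Real.log 2 * (√2 * w))) * (mp G).eval x) :=
        mul_le_mul_of_nonneg_left h2 (by positivity)
    _ = 30000 * Real.exp (-(2 * q * w * Real.log 2) + (C + q * (Real.log 2 * (√2 * w)))) *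
        (mp G).eval x := by rw [Real.exp_add (-(2 * q * w * Real.log 2))]; ring
    _ ≤ _ := by
        refine mul_le_mul_of_nonneg_right ?_ (by linarith)
        refine mul_le_mul_of_nonneg_left (Real.exp_le_exp.2 ?_) (by norm_num)
        have h5 : 0 ≤ (q : ℝ) * w := mul_nonneg hq0 hw0
        have h6 : (1 : ℝ) / 4 ≤ Real.log 2 * (2 - √2) := by nlinarith
        have h7 := mul_le_mul_of_nonneg_left h6 h5
        nlinarith

end

end Pool.Agent.Lib.MP_eeed5c_coK
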