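import Pool.Agent.Lib.MP_eeed5c_co_K.Defs
import Pool.Agent.Lib.MP_eeed5c_co_W.IC

/-!
# The mean number of edges of the matchings leaving a set free

The proofs are in the file IC of the library MP_eeed5c_co_W.
-/

set_option autoImplicit false

namespace Pool.Agent.Lib.MP_eeed5c_coK

open Finset Pool.Agent.Lib.MP_eeed5c_co Pool.Agent.Lib.MP_eeed5c_coT Pool.Agent.Lib.MP_eeed5c_coX

section

variable {V : Type*} [Fintype V] {G : SimpleGraph V}

theorem IB1_ES (x : ℝ) (S : Finset V) : ES G x S = Pool.Agent.Lib.MP_eeed5c_coW.ES G x S := rfl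

open scoped Classical in
theorem ZS_rec (x : ℝ) (S : Finset V) {v : V} (hv : v ∉ S) : ZS G x S = ZS G x (insert v S) +
    x * ∑ u ∈ univ.filter (fun u => G.Adj v u ∧ u ∉ S), ZS G x (insert u (insert v S)) := by
  rw [Pool.Agent.Lib.MP_eeed5c_coW.ZS_rec hv, Finset.sum_filter]

open scoped Classical in
theorem ES_rec (x : ℝ) (S : Finset V) {v : V} (hv : v ∉ S) : ES G x S = ES G x (insert v S) +
    x * ∑ u ∈ univ.filter (fun u => G.Adj v u ∧ u ∉ S),
      (ES G x (insert u (insert v S)) + ZS G x (insert u (insert v S))) := by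
  rw [IB1_ES, Pool.Agent.Lib.MP_eeed5c_coW.ES_rec hv, Finset.sum_filter]
  rfl

theorem ZS_pos {x : ℝ} (hx : 0 ≤ x) (S : Finset V) : 0 < ZS G x S := by
  classical
  have := Pool.Agent.Lib.MP_eeed5c_coW.ZS_one_le (G := G) hx S
  linarith

theorem ES_nonneg {x : ℝ} (hx : 0 ≤ x) (S : Finset V) : 0 ≤ ES G x S :=
  Pool.Agent.Lib.MP_eeed5c_coW.ES_nonneg hx S

open scoped Classical in
theorem ES_low {x : ℝ} (hx : 0 ≤ x) (S : Finset V) {v : V} (hv : v ∉ S) :
    ES G x (insert v S) * ZS G x S ≤ ES G x S * ZS G x (insert v S) :=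
  (Pool.Agent.Lib.MP_eeed5c_coW.mean_step hx _ S le_rfl v hv).1

open scoped Classical in
theorem ES_up {x : ℝ} (hx : 0 ≤ x) (S : Finset V) {v : V} (hv : v ∉ S) :
    ES G x S * ZS G x (insert v S) ≤ (ES G x (insert v S) + ZS G x (insert v S)) * ZS G x S :=
  (Pool.Agent.Lib.MP_eeed5c_coW.mean_step hx _ S le_rfl v hv).2

theorem ES_all {x : ℝ} (hx : 0 ≤ x) (S : Finset V) :
    ES G x ∅ * ZS G x S ≤ (ES G x S + S.card * ZS G x S) * ZS G x ∅ := by
  classical
  induction S using Finset.induction_on with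
  | empty => simp
  | insert v S hv ih =>
    have h1 := ES_up (G := G) hx S hv
    have h2 := ZS_pos (G := G) hx S
    have h3 := ZS_pos (G := G) hx (insert v S)
    have h4 := ZS_pos (G := G) hx (∅ : Finset V)
    rw [Finset.card_insert_of_notMem hv]
    push_cast
    have h5 : ZS G x S * (ES G x ∅ * ZS G x (insert v S)) ≤
        ZS G x S * ((ES G x (insert v S) + (S.card + 1) * ZS G x (insert v S)) * ZS G x ∅) := by
      have h6 := mul_le_mul_of_nonneg_right ih h3.le
      have h7 := mul_le_mul_of_nonneg_right h1 h4.le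
      nlinarith
    exact le_of_mul_le_mul_left h5 h2

end

end Pool.Agent.Lib.MP_eeed5c_coK
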