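import Pool.Agent.Lib.MP_eeed5c_co_K.IB1
import Pool.Agent.Lib.MP_eeed5c_co_K.IA

/-!
# Lower bounds for the weight of the matchings leaving few vertices free

Let `n = q r`, `y = r x`.

PROOFS.
* `ES_empty`: `∑_N x^|N| |N| = x M'(x)` (`WS_levels`, `mp_eval` or `mp_coeff` and the derivative of a monomial).
* `ES_ge`: for `x > 0` and `fg G q r x ≤ 1`: `ES ∅ = x M' = (q mb - fg) M ≥ (q (r - √(r/x)) - 1) M` (`hb_sq` gives `r - mb ≤ √(r/x)`; `fg = q mb - x M'/M` with
  `mb r x = x Lp'/Lp`). With `ES_all`: `(n - |S| - 1 - q √(r/x)) ZS S ≤ ES S` (divide by `M = ZS ∅ > 0`, `ZS_empty`).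
* `ZS_ratio`: let `S' = insert v S`, `|S'| ≤ 5`. `ZS_rec` and `∑_{u ~ v, u ∉ S} ZS (insert u S') = ∑_{N : S' free} x^|N| #{u free, u ~ v, u ∉ S}` (the vertex `u` is different from `v`)
  `≤ ∑_{N : S' free} x^|N| |free N| = ∑_{N : S' free} x^|N| 2 (n - |N|) = 2 (n ZS S' - ES S')` (`card_free`), and by `ES_ge` (for `S'`) this is
  `≤ 2 (|S'| + 1 + q √(r/x)) ZS S' ≤ 2 (6 + q √(r/x)) ZS S'`. So `ZS S ≤ (1 + 12 x + 2 q x √(r/x)) ZS S'`, `x √(r/x) = √(r x)`, and `1 + 12 x + 2 q √y ≤ 4 q √y` because `12 x ≤ 1` and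
  `2 ≤ 2 q √y` (`y ≥ 1`, `q ≥ 1`).
* `ZS_low`: add the elements of `S` one after another (`Finset.induction_on`, all subsets have at most 5 elements, so `|S| ≤ 4` before each step); `ZS ∅ = M` (`ZS_empty`).
-/

set_option autoImplicit false
set_option linter.unusedSectionVars false

namespace Pool.Agent.Lib.MP_eeed5c_coK

open Finset Pool.Agent.Lib.MP_eeed5c_co Pool.Agent.Lib.MP_eeed5c_coT Pool.Agent.Lib.MP_eeed5c_coX

section

variable {V : Type*} [Fintype V] {G : SimpleGraph V}

theorem ES_empty (x : ℝ) : ES G x ∅ = x * (mp G).derivative.eval x := by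
  have h1 : ES G x ∅ = WS G x (fun N => (N.card : ℝ)) := by
    unfold ES
    exact WS_congr x fun N _ => if_pos (Finset.empty_subset _)
  rw [h1, WS_levels x _ (K := Fintype.card V + 1) (by omega)]
  unfold mp
  rw [Polynomial.derivative_sum, Polynomial.eval_finsetSum, Finset.mul_sum]
  refine Finset.sum_congr rfl fun j _ => ?_
  have h2 : ∑ N ∈ mats G j, (N.card : ℝ) = ((mats G j).card : ℝ) * j := by
    rw [Finset.sum_congr rfl fun N hN => by rw [(mem_mats.1 hN).2.1], Finset.sum_const, nsmul_eq_mul]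
  rw [h2, Polynomial.derivative_monomial, Polynomial.eval_monomial]
  rcases Nat.eq_zero_or_pos j with rfl | hj
  · simp
  · obtain ⟨i, rfl⟩ : ∃ i, j = i + 1 := ⟨j - 1, by omega⟩
    rw [Nat.add_sub_cancel, pow_succ]
    push_cast
    ring

theorem ES_ge {q r : ℕ} (hV : Fintype.card V = 2 * (q * r)) {x : ℝ} (hx : 0 < x)
    (hf : fg G q r x ≤ 1) (S : Finset V) :
    ((q : ℝ) * r - S.card - 1 - q * √(r / x)) * ZS G x S ≤ ES G x S := by
  have hM : 1 ≤ (mp G).eval x := mp_eval_pos hx.le
  have hM0 : 0 < (mp G).eval x := by linarith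
  have hZ := ZS_pos (G := G) hx.le S
  have hq0 : (0 : ℝ) ≤ q := Nat.cast_nonneg q
  have h1 : (r : ℝ) - mb r x ≤ √(r / x) := by
    refine Real.le_sqrt_of_sq_le ?_
    rw [le_div_iff₀ hx]
    have := hb_sq r hx
    linarith
  have h2 : fg G q r x = q * mb r x - x * (mp G).derivative.eval x / (mp G).eval x := by
    unfold fg mb
    ring
  have h3 : (q : ℝ) * r - q * √(r / x) - 1 ≤ x * (mp G).derivative.eval x / (mp G).eval x := by
    have h4 := mul_le_mul_of_nonneg_left h1 hq0
    rw [h2] at hf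
    linarith
  rw [le_div_iff₀ hM0, ← ES_empty] at h3
  have h5 := ES_all (G := G) hx.le S
  rw [ZS_empty] at h5
  have h6 : (((q : ℝ) * r - q * √(r / x) - 1) * ZS G x S) * (mp G).eval x ≤
      (ES G x S + S.card * ZS G x S) * (mp G).eval x := by
    calc (((q : ℝ) * r - q * √(r / x) - 1) * ZS G x S) * (mp G).eval x =
        (((q : ℝ) * r - q * √(r / x) - 1) * (mp G).eval x) * ZS G x S := by ring
      _ ≤ ES G x ∅ * ZS G x S := mul_le_mul_of_nonneg_right h3 hZ.le
      _ ≤ _ := h5
  have h7 := le_of_mul_le_mul_right h6 hM0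
  linarith

open scoped Classical in
theorem ZS_ratio {q r : ℕ} (hq : 1 ≤ q) (hV : Fintype.card V = 2 * (q * r)) {x : ℝ} (hx : 0 < x)
    (hx1 : 12 * x ≤ 1) (hy : 1 ≤ r * x) (hf : fg G q r x ≤ 1) (S : Finset V) (hS : S.card ≤ 4)
    {v : V} (hv : v ∉ S) : ZS G x S ≤ (4 * q * √(r * x)) * ZS G x (insert v S) := by
  have hZ := ZS_pos (G := G) hx.le (insert v S)
  have hq1 : (1 : ℝ) ≤ q := by exact_mod_cast hq
  -- the sum over the neighbours
  have h1 : ∑ u ∈ univ.filter (fun u => G.Adj v u ∧ u ∉ S), ZS G x (insert u (insert v S)) ≤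
      WS G x (fun N => if insert v S ⊆ free N then ((free N).card : ℝ) else 0) := by
    unfold ZS
    rw [← WS_sum]
    refine WS_mono hx.le fun N _ => ?_
    by_cases h : insert v S ⊆ free N
    · rw [if_pos h]
      calc ∑ u ∈ univ.filter (fun u => G.Adj v u ∧ u ∉ S),
            (if insert u (insert v S) ⊆ free N then (1 : ℝ) else 0)
          ≤ ∑ u ∈ univ.filter (fun u => G.Adj v u ∧ u ∉ S), (if u ∈ free N then (1 : ℝ) else 0) := by
            refine Finset.sum_le_sum fun u _ => ?_
            by_cases h2 : insert u (insert v S) ⊆ free N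
            · rw [if_pos h2, if_pos (h2 (Finset.mem_insert_self _ _))]
            · rw [if_neg h2]
              split_ifs <;> norm_num
        _ ≤ ∑ u : V, (if u ∈ free N then (1 : ℝ) else 0) := by
            refine Finset.sum_le_sum_of_subset_of_nonneg (Finset.filter_subset _ _) fun u _ _ => ?_
            split_ifs <;> norm_num
        _ = ((free N).card : ℝ) := by
            rw [← Finset.sum_filter, Finset.sum_const, nsmul_eq_mul, mul_one]
            congr 2
            ext u
            simp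
    · rw [if_neg h]
      refine le_of_eq (Finset.sum_eq_zero fun u _ => if_neg fun h2 => h ?_)
      exact (Finset.subset_insert _ _).trans h2
  have h2 : WS G x (fun N => if insert v S ⊆ free N then ((free N).card : ℝ) else 0) =
      2 * (q * r) * ZS G x (insert v S) - 2 * ES G x (insert v S) := by
    unfold ZS ES
    rw [← WS_smul, ← WS_smul, ← WS_sub]
    refine WS_congr x fun N hN => ?_
    have h3 := card_free (mem_Mt.1 hN)
    rw [hV] at h3
    have h4 : ((free N).card : ℝ) = 2 * (q * r) - 2 * N.card := by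
      have : (((free N).card + 2 * N.card : ℕ) : ℝ) = ((2 * (q * r) : ℕ) : ℝ) := by rw [h3]
      push_cast at this
      linarith
    by_cases h : insert v S ⊆ free N
    · rw [if_pos h, if_pos h, if_pos h, h4]
      ring
    · rw [if_neg h, if_neg h, if_neg h]
      ring
  have h3 := ES_ge hV hx hf (insert v S)
  have h4 : ((insert v S).card : ℝ) ≤ 5 := by
    have : (insert v S).card ≤ 5 := by
      rw [Finset.card_insert_of_notMem hv]
      omega
    exact_mod_cast this
  have h5 : ∑ u ∈ univ.filter (fun u => G.Adj v u ∧ u ∉ S), ZS G x (insert u (insert v S)) ≤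
      2 * (6 + q * √(r / x)) * ZS G x (insert v S) := by
    have h6 := mul_le_mul_of_nonneg_right h4 hZ.le
    rw [h2] at h1
    nlinarith
  have h6 : x * √(r / x) = √(r * x) := by
    have h7 : (r : ℝ) * x = x ^ 2 * (r / x) := by
      field_simp
    rw [h7, Real.sqrt_mul (by positivity), Real.sqrt_sq hx.le]
  have h7 : 1 ≤ √(r * x) := Real.one_le_sqrt.2 hy
  have h8 : 1 ≤ q * √(r * x) := by nlinarith
  have h9 := mul_le_mul_of_nonneg_left h5 hx.le
  rw [ZS_rec (G := G) x S hv]
  have h10 : x * (2 * (6 + q * √(r / x)) * ZS G x (insert v S)) =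
      (12 * x + 2 * (q * √(r * x))) * ZS G x (insert v S) := by
    rw [← h6]
    ring
  have h11 : (1 + (12 * x + 2 * (q * √(r * x)))) * ZS G x (insert v S) ≤
      (4 * q * √(r * x)) * ZS G x (insert v S) := by
    refine mul_le_mul_of_nonneg_right ?_ hZ.le
    nlinarith
  linarith

theorem ZS_low {q r : ℕ} (hq : 1 ≤ q) (hV : Fintype.card V = 2 * (q * r)) {x : ℝ} (hx : 0 < x)
    (hx1 : 12 * x ≤ 1) (hy : 1 ≤ r * x) (hf : fg G q r x ≤ 1) (S : Finset V) (hS : S.card ≤ 5) :
    (mp G).eval x ≤ (4 * q * √(r * x)) ^ S.card * ZS G x S := by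
  classical
  revert hS
  induction S using Finset.induction_on with
  | empty =>
    intro _
    rw [Finset.card_empty, pow_zero, one_mul, ZS_empty]
  | insert v S hv ih =>
    intro hS
    rw [Finset.card_insert_of_notMem hv] at hS ⊢
    have h1 := ih (by omega)
    have h2 := ZS_ratio hq hV hx hx1 hy hf S (by omega) hv
    have h3 : (0 : ℝ) ≤ (4 * q * √(r * x)) ^ S.card := by positivity
    have h4 := mul_le_mul_of_nonneg_left h2 h3
    rw [pow_succ, mul_assoc]
    exact h1.trans h4

end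

end Pool.Agent.Lib.MP_eeed5c_coK
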