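import Pool.Agent.Lib.MP_eeed5c_co_K.Defs
import Pool.Agent.Lib.MP_eeed5c_co_W.SL

/-!
# The slide inequality

The theorem `slide` of the library MP_eeed5c_co_W in the notation of this library.
-/

set_option autoImplicit false

namespace Pool.Agent.Lib.MP_eeed5c_coK

open Finset Pool.Agent.Lib.MP_eeed5c_co Pool.Agent.Lib.MP_eeed5c_coT Pool.Agent.Lib.MP_eeed5c_coX

section

variable {V : Type*} [Fintype V] {G : SimpleGraph V}

open scoped Classical in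
theorem slide_ineq {r : ℕ} (hreg : Reg G r) {x : ℝ} (hx : 0 ≤ x) (S : Finset V) {g : V → ℝ}
    (hg : ∀ z, g z = -1 ∨ g z = 0 ∨ g z = 1) :
    x * ∑ p ∈ (tr G S).filter (fun p => g p.1 ≠ g p.2.2),
        ZS G x (insert p.1 (insert p.2.1 (insert p.2.2 S))) ≤
      20 * r * WS G x (fun N => if S ⊆ free N then (Yg g S N) ^ 2 else 0) := by
  have h := Pool.Agent.Lib.MP_eeed5c_coW.slide (G := G) (r := r) (fun v => (hreg v).le) hg S hx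
  have e1 : ∑ p ∈ (tr G S).filter (fun p => g p.1 ≠ g p.2.2),
        ZS G x (insert p.1 (insert p.2.1 (insert p.2.2 S))) =
      ∑ a, ∑ b, ∑ c, (if a ∉ S ∧ b ∉ S ∧ c ∉ S ∧ G.Adj a b ∧ G.Adj a c ∧ b ≠ c ∧ g b ≠ g c then
        ZS G x (S ∪ {a, b, c}) else 0) := by
    have e2 : ∑ a, ∑ b, ∑ c, (if a ∉ S ∧ b ∉ S ∧ c ∉ S ∧ G.Adj a b ∧ G.Adj a c ∧ b ≠ c ∧
          g b ≠ g c then ZS G x (S ∪ {a, b, c}) else 0) =
        ∑ b, ∑ a, ∑ c, (if a ∉ S ∧ b ∉ S ∧ c ∉ S ∧ G.Adj a b ∧ G.Adj a c ∧ b ≠ c ∧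
          g b ≠ g c then ZS G x (S ∪ {a, b, c}) else 0) := Finset.sum_comm
    rw [e2]
    have e3 : ∀ F : V × V × V → ℝ, ∑ b, ∑ a, ∑ c, F (b, a, c) = ∑ p, F p := by
      intro F
      rw [Fintype.sum_prod_type]
      refine Finset.sum_congr rfl fun b _ => ?_
      rw [Fintype.sum_prod_type]
    rw [e3 (fun p => if p.2.1 ∉ S ∧ p.1 ∉ S ∧ p.2.2 ∉ S ∧ G.Adj p.2.1 p.1 ∧ G.Adj p.2.1 p.2.2 ∧
          p.1 ≠ p.2.2 ∧ g p.1 ≠ g p.2.2 then ZS G x (S ∪ {p.2.1, p.1, p.2.2}) else 0)]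
    unfold tr
    rw [Finset.filter_filter, Finset.sum_filter]
    refine Finset.sum_congr rfl fun p _ => ?_
    have hset : (insert p.1 (insert p.2.1 (insert p.2.2 S)) : Finset V) =
        S ∪ {p.2.1, p.1, p.2.2} := by
      ext w
      simp only [Finset.mem_insert, Finset.mem_union, Finset.mem_singleton]
      tauto
    by_cases hp : (G.Adj p.1 p.2.1 ∧ G.Adj p.2.1 p.2.2 ∧ p.1 ≠ p.2.2 ∧
        p.1 ∉ S ∧ p.2.1 ∉ S ∧ p.2.2 ∉ S) ∧ g p.1 ≠ g p.2.2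
    · rw [if_pos hp, if_pos, hset]
      obtain ⟨⟨h1, h2, h3, h4, h5, h6⟩, h7⟩ := hp
      exact ⟨h5, h4, h6, h1.symm, h2, h3, h7⟩
    · rw [if_neg hp, if_neg]
      rintro ⟨h1, h2, h3, h4, h5, h6, h7⟩
      exact hp ⟨⟨h4.symm, h5, h6, h2, h1, h3⟩, h7⟩
  rw [e1]
  unfold Yg
  exact h

end

end Pool.Agent.Lib.MP_eeed5c_coK
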