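import Pool.Agent.Lib.MP_eeed5c_co_K.IC3
import Pool.Agent.Lib.MP_eeed5c_co_K.IB2

/-!
# The variance of the difference of the free degrees
-/

set_option autoImplicit false

namespace Pool.Agent.Lib.MP_eeed5c_coK

open Finset Pool.Agent.Lib.MP_eeed5c_co Pool.Agent.Lib.MP_eeed5c_coT Pool.Agent.Lib.MP_eeed5c_coX

section

variable {V : Type*} [Fintype V] {G : SimpleGraph V}

open scoped Classical in
/-- The indicator of adjacency. -/
private noncomputable def ID_ad (G : SimpleGraph V) (a b : V) : ℝ := if G.Adj a b then 1 else 0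

private theorem ID_ad_nonneg (a b : V) : 0 ≤ ID_ad G a b := by
  unfold ID_ad
  split_ifs <;> norm_num

private theorem ID_ad_le (a b : V) : ID_ad G a b ≤ 1 := by
  unfold ID_ad
  split_ifs <;> norm_num

private theorem ID_ad_symm (a b : V) : ID_ad G a b = ID_ad G b a := by
  unfold ID_ad
  by_cases h : G.Adj a b
  · rw [if_pos h, if_pos h.symm]
  · rw [if_neg h, if_neg fun h' => h h'.symm]

private theorem ID_row {r : ℕ} (hreg : Reg G r) (a : V) : ∑ b, ID_ad G a b = r := by
  classical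
  unfold ID_ad
  rw [Finset.sum_boole]
  have := hreg a
  exact_mod_cast this

private theorem ID_Nb (u : V) (f : V → ℝ) : ∑ c ∈ Nb G u, f c = ∑ c, ID_ad G u c * f c := by
  classical
  unfold Nb ID_ad
  rw [Finset.sum_filter]
  refine Finset.sum_congr rfl fun c _ => ?_
  split_ifs <;> simp

private theorem ID_dl (u c : V) : (dl G u c : ℝ) =
    ∑ a, ∑ c', ID_ad G c a * (ID_ad G a c' * (1 - ID_ad G u c')) := by
  classical
  unfold dl
  push_cast
  rw [ID_Nb]
  refine Finset.sum_congr rfl fun a _ => ?_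
  rw [← Finset.mul_sum]
  congr 1
  have e : Nb G a \ Nb G u = univ.filter fun c' => G.Adj a c' ∧ ¬ G.Adj u c' := by
    ext z
    simp [Nb]
  rw [e, ← Finset.sum_boole]
  refine Finset.sum_congr rfl fun z _ => ?_
  unfold ID_ad
  by_cases h1 : G.Adj a z <;> by_cases h2 : G.Adj u z <;> simp [h1, h2]

private theorem ID_cm (u v : V) : (cm G u v : ℝ) = ∑ z, ID_ad G u z * ID_ad G v z := by
  classical
  unfold cm
  have e : Nb G v ∩ Nb G u = univ.filter fun z => G.Adj u z ∧ G.Adj v z := by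
    ext z
    simp only [Nb, Finset.mem_inter, Finset.mem_filter, Finset.mem_univ, true_and]
    tauto
  rw [e, ← Finset.sum_boole]
  refine Finset.sum_congr rfl fun z _ => ?_
  unfold ID_ad
  by_cases h1 : G.Adj u z <;> by_cases h2 : G.Adj v z <;> simp [h1, h2]

open scoped Classical in
private theorem ID_Pt (u v : V) : (Pt G u v : ℝ) = ∑ c, ∑ a, ∑ c',
    (if (G.Adj c a ∧ G.Adj a c' ∧ c ≠ c' ∧ c ∉ ({u, v} : Finset V) ∧ a ∉ ({u, v} : Finset V) ∧
      c' ∉ ({u, v} : Finset V)) ∧ gu G u v c ≠ gu G u v c' then (1 : ℝ) else 0) := by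
  unfold Pt tr
  rw [Finset.filter_filter, ← Finset.sum_boole, Fintype.sum_prod_type]
  simp only [Fintype.sum_prod_type]

private theorem ID_point (u v : V) (huv : G.Adj u v) (c a c' : V) :
    ID_ad G u c * (ID_ad G c a * (ID_ad G a c' * (1 - ID_ad G u c'))) ≤
      (by classical exact if (G.Adj c a ∧ G.Adj a c' ∧ c ≠ c' ∧ c ∉ ({u, v} : Finset V) ∧
        a ∉ ({u, v} : Finset V) ∧ c' ∉ ({u, v} : Finset V)) ∧ gu G u v c ≠ gu G u v c' then (1 : ℝ)
        else 0) + (ID_ad G u c * ID_ad G v c) * (ID_ad G c a * ID_ad G a c') +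
      (by classical exact if c = v then (1 : ℝ) else 0) * (ID_ad G v a * ID_ad G a c') +
      (by classical exact if c' = u then (1 : ℝ) else 0) * (ID_ad G u c * ID_ad G c a) := by
  classical
  have n1 : 0 ≤ (ID_ad G u c * ID_ad G v c) * (ID_ad G c a * ID_ad G a c') :=
    mul_nonneg (mul_nonneg (ID_ad_nonneg _ _) (ID_ad_nonneg _ _))
      (mul_nonneg (ID_ad_nonneg _ _) (ID_ad_nonneg _ _))
  have n2 : 0 ≤ (if c = v then (1 : ℝ) else 0) * (ID_ad G v a * ID_ad G a c') := by
    refine mul_nonneg ?_ (mul_nonneg (ID_ad_nonneg _ _) (ID_ad_nonneg _ _))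
    split_ifs <;> norm_num
  have n3 : 0 ≤ (if c' = u then (1 : ℝ) else 0) * (ID_ad G u c * ID_ad G c a) := by
    refine mul_nonneg ?_ (mul_nonneg (ID_ad_nonneg _ _) (ID_ad_nonneg _ _))
    split_ifs <;> norm_num
  have n0 : (0 : ℝ) ≤ (if (G.Adj c a ∧ G.Adj a c' ∧ c ≠ c' ∧ c ∉ ({u, v} : Finset V) ∧
        a ∉ ({u, v} : Finset V) ∧ c' ∉ ({u, v} : Finset V)) ∧ gu G u v c ≠ gu G u v c' then (1 : ℝ)
        else 0) := by
    split_ifs <;> norm_num
  by_cases h : G.Adj u c ∧ G.Adj c a ∧ G.Adj a c' ∧ ¬ G.Adj u c'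
  · obtain ⟨h1, h2, h3, h4⟩ := h
    have e : ID_ad G u c * (ID_ad G c a * (ID_ad G a c' * (1 - ID_ad G u c'))) = 1 := by
      unfold ID_ad
      rw [if_pos h1, if_pos h2, if_pos h3, if_neg h4]
      norm_num
    rw [e]
    by_cases k1 : G.Adj v c
    · have : (ID_ad G u c * ID_ad G v c) * (ID_ad G c a * ID_ad G a c') = 1 := by
        unfold ID_ad
        rw [if_pos h1, if_pos h2, if_pos h3, if_pos k1]
        norm_num
      linarith
    · by_cases k2 : c = v
      · have : (if c = v then (1 : ℝ) else 0) * (ID_ad G v a * ID_ad G a c') = 1 := by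
          unfold ID_ad
          rw [if_pos k2, ← k2, if_pos h2, if_pos h3]
          norm_num
        linarith
      · by_cases k3 : c' = u
        · have : (if c' = u then (1 : ℝ) else 0) * (ID_ad G u c * ID_ad G c a) = 1 := by
            unfold ID_ad
            rw [if_pos k3, if_pos h1, if_pos h2]
            norm_num
          linarith
        · have k4 : c' ≠ v := fun h => h4 (h ▸ huv)
          have k5 : a ≠ v := fun h => k1 (h ▸ h2.symm)
          have k6 : a ≠ u := fun h => h4 (h ▸ h3)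
          have : (if (G.Adj c a ∧ G.Adj a c' ∧ c ≠ c' ∧ c ∉ ({u, v} : Finset V) ∧
              a ∉ ({u, v} : Finset V) ∧ c' ∉ ({u, v} : Finset V)) ∧ gu G u v c ≠ gu G u v c' then
              (1 : ℝ) else 0) = 1 := by
            rw [if_pos]
            refine ⟨⟨h2, h3, fun h => h4 (h ▸ h1), ?_, ?_, ?_⟩, ?_⟩
            · simp only [Finset.mem_insert, Finset.mem_singleton, not_or]
              exact ⟨h1.ne.symm, k2⟩
            · simp only [Finset.mem_insert, Finset.mem_singleton, not_or]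
              exact ⟨k6, k5⟩
            · simp only [Finset.mem_insert, Finset.mem_singleton, not_or]
              exact ⟨k3, k4⟩
            · unfold gu
              rw [if_pos h1, if_neg k1, if_neg h4]
              split_ifs <;> norm_num
          linarith
  · have e : ID_ad G u c * (ID_ad G c a * (ID_ad G a c' * (1 - ID_ad G u c'))) = 0 := by
      unfold ID_ad
      by_cases h1 : G.Adj u c <;> by_cases h2 : G.Adj c a <;> by_cases h3 : G.Adj a c' <;>
        by_cases h4 : G.Adj u c' <;> simp [h1, h2, h3, h4]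
      exact h ⟨h1, h2, h3, h4⟩
    rw [e]
    linarith

theorem Pt_ge {r : ℕ} (hreg : Reg G r) {u v : V} (huv : G.Adj u v) :
    ∑ c ∈ Nb G u, (dl G u c : ℝ) ≤ Pt G u v + ((cm G u v : ℝ) + 2) * (r : ℝ) ^ 2 := by
  classical
  have h1 : ∑ c ∈ Nb G u, (dl G u c : ℝ) = ∑ c, ∑ a, ∑ c',
      ID_ad G u c * (ID_ad G c a * (ID_ad G a c' * (1 - ID_ad G u c'))) := by
    rw [ID_Nb]
    refine Finset.sum_congr rfl fun c _ => ?_
    rw [ID_dl, Finset.mul_sum]
    refine Finset.sum_congr rfl fun a _ => ?_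
    rw [Finset.mul_sum]
  have h2 := Finset.sum_le_sum (s := univ) fun c (_ : c ∈ univ) => Finset.sum_le_sum (s := univ)
    fun a (_ : a ∈ univ) => Finset.sum_le_sum (s := univ) fun c' (_ : c' ∈ univ) =>
      ID_point (G := G) u v huv c a c'
  rw [h1]
  refine h2.trans ?_
  simp only [Finset.sum_add_distrib]
  rw [← ID_Pt]
  -- the three remainders
  have e1 : ∑ c, ∑ a, ∑ c', (ID_ad G u c * ID_ad G v c) * (ID_ad G c a * ID_ad G a c') =
      (cm G u v : ℝ) * (r : ℝ) ^ 2 := by
    simp only [← Finset.mul_sum, ID_row hreg]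
    simp only [← Finset.sum_mul, ID_row hreg]
    rw [ID_cm]
    ring
  have e2 : ∑ c, ∑ a, ∑ c', (if c = v then (1 : ℝ) else 0) * (ID_ad G v a * ID_ad G a c') =
      (r : ℝ) ^ 2 := by
    simp only [← Finset.mul_sum, ID_row hreg]
    simp only [← Finset.sum_mul, ID_row hreg]
    simp
    ring
  have e3 : ∑ c, ∑ a, ∑ c', (if c' = u then (1 : ℝ) else 0) * (ID_ad G u c * ID_ad G c a) =
      (r : ℝ) ^ 2 := by
    simp only [← Finset.sum_mul]
    simp only [Finset.sum_ite_eq', Finset.mem_univ, if_true, one_mul]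
    simp only [← Finset.mul_sum, ID_row hreg]
    simp only [← Finset.sum_mul, ID_row hreg]
    ring
  rw [e1, e2, e3]
  linarith

theorem Pt_sum {q r : ℕ} (hV : Fintype.card V = 2 * (q * r)) (hreg : Reg G r) :
    (r : ℝ) * DL G ≤ ∑ u, ∑ v ∈ Nb G u, (Pt G u v : ℝ) + (r : ℝ) ^ 2 * CM G +
      4 * q * (r : ℝ) ^ 4 := by
  classical
  have hcard : ∀ u, ((Nb G u).card : ℝ) = r := by
    intro u
    have := hreg u
    unfold Nb
    exact_mod_cast this
  have h1 : ∀ u, (r : ℝ) * ∑ c ∈ Nb G u, (dl G u c : ℝ) ≤ ∑ v ∈ Nb G u, (Pt G u v : ℝ) +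
      (r : ℝ) ^ 2 * ∑ v ∈ Nb G u, (cm G u v : ℝ) + 2 * (r : ℝ) ^ 3 := by
    intro u
    have h2 := Finset.sum_le_sum fun v (hv : v ∈ Nb G u) =>
      Pt_ge hreg (show G.Adj u v by simpa [Nb] using hv)
    rw [Finset.sum_const, nsmul_eq_mul, hcard, Finset.sum_add_distrib, ← Finset.sum_mul,
      Finset.sum_add_distrib, Finset.sum_const, nsmul_eq_mul, hcard] at h2
    linarith
  have h2 := Finset.sum_le_sum (s := univ) fun u (_ : u ∈ univ) => h1 u
  rw [← Finset.mul_sum, Finset.sum_add_distrib, Finset.sum_add_distrib, ← Finset.mul_sum,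
    Finset.sum_const, nsmul_eq_mul, Finset.card_univ, hV] at h2
  unfold DL CM
  push_cast at h2
  linarith

theorem D_diff {N : Finset (Sym2 V)} {u v : V} (huv : G.Adj u v) (hu : u ∈ free N)
    (hv : v ∈ free N) : (D G N u : ℝ) - D G N v =
      Yg (gu G u v) (by classical exact {u, v}) N := by
  classical
  have h3 : ({u, v} : Finset V) ⊆ free N := by
    intro z hz
    rw [Finset.mem_insert, Finset.mem_singleton] at hz
    rcases hz with rfl | rfl
    · exact hu
    · exact hv
  unfold Yg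
  have hS := Finset.sum_sdiff (f := gu G u v) h3
  rw [Finset.sum_pair huv.ne] at hS
  have e1 : ∑ z ∈ free N, gu G u v z = ((D G N u : ℕ) : ℝ) - (D G N v : ℕ) := by
    unfold gu
    rw [Finset.sum_sub_distrib, Finset.sum_boole, Finset.sum_boole]
    rfl
  have e2 : gu G u v u = -1 := by
    unfold gu
    rw [if_neg (G.loopless.irrefl u), if_pos huv.symm]
    ring
  have e3 : gu G u v v = 1 := by
    unfold gu
    rw [if_neg (G.loopless.irrefl v), if_pos huv]
    ring
  rw [← e1]
  linarith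

open scoped Classical in
theorem var_dart {q r : ℕ} (hq : 1 ≤ q) (hr : 1 ≤ r) (hV : Fintype.card V = 2 * (q * r))
    (hreg : Reg G r) {x : ℝ} (hx : 0 < x) (hx1 : 12 * x ≤ 1) (hy : 1 ≤ r * x)
    (hf : fg G q r x ≤ 1) {u v : V} (huv : G.Adj u v) :
    (Pt G u v : ℝ) * (x * (mp G).eval x / (20 * r * (4 * q * √(r * x)) ^ 5)) ≤
      WS G x (fun N => if u ∈ free N ∧ v ∈ free N then ((D G N u : ℝ) - D G N v) ^ 2 else 0) := by
  have hg : ∀ z, gu G u v z = -1 ∨ gu G u v z = 0 ∨ gu G u v z = 1 := by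
    intro z
    unfold gu
    split_ifs <;> norm_num
  have h1 := slide_ineq hreg hx.le {u, v} hg
  have hq1 : (1 : ℝ) ≤ q := by exact_mod_cast hq
  have hy1 : 1 ≤ √(r * x) := by
    rw [show (1 : ℝ) = √1 by simp]
    exact Real.sqrt_le_sqrt hy
  obtain ⟨B, hB⟩ : ∃ B, B = 4 * (q : ℝ) * √(r * x) := ⟨_, rfl⟩
  have hB1 : 1 ≤ B := by rw [hB]; nlinarith
  have hr0 : (0 : ℝ) < r := by exact_mod_cast hr
  have hM := mp_eval_pos (G := G) hx.le
  rw [← hB]
  have h2 : WS G x (fun N => if {u, v} ⊆ free N then (Yg (gu G u v) {u, v} N) ^ 2 else 0) =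
      WS G x (fun N => if u ∈ free N ∧ v ∈ free N then ((D G N u : ℝ) - D G N v) ^ 2 else 0) := by
    refine WS_congr x fun N _ => ?_
    by_cases h3 : u ∈ free N ∧ v ∈ free N
    · have h4 : ({u, v} : Finset V) ⊆ free N := by
        intro z hz
        rw [Finset.mem_insert, Finset.mem_singleton] at hz
        rcases hz with rfl | rfl
        · exact h3.1
        · exact h3.2
      rw [if_pos h3, if_pos h4, D_diff huv h3.1 h3.2]
    · rw [if_neg h3, if_neg fun h => h3 ⟨h (by simp), h (by simp)⟩]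
  rw [h2] at h1
  have h3 : (Pt G u v : ℝ) * ((mp G).eval x / B ^ 5) ≤
      ∑ p ∈ (tr G {u, v}).filter (fun p => gu G u v p.1 ≠ gu G u v p.2.2),
        ZS G x (insert p.1 (insert p.2.1 (insert p.2.2 {u, v}))) := by
    unfold Pt
    rw [← nsmul_eq_mul, ← Finset.sum_const]
    refine Finset.sum_le_sum fun p _ => ?_
    obtain ⟨S, hS⟩ : ∃ S : Finset V, S = insert p.1 (insert p.2.1 (insert p.2.2 {u, v})) :=
      ⟨_, rfl⟩
    have hS5 : S.card ≤ 5 := by
      rw [hS]
      refine (Finset.card_insert_le _ _).trans ?_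
      have k1 := Finset.card_insert_le p.2.1 (insert p.2.2 ({u, v} : Finset V))
      have k2 := Finset.card_insert_le p.2.2 ({u, v} : Finset V)
      have k3 := Finset.card_insert_le u ({v} : Finset V)
      rw [Finset.card_singleton] at k3
      omega
    rw [← hS]
    have h4 := ZS_low hq hV hx hx1 hy hf S hS5
    rw [← hB] at h4
    have h5 : B ^ S.card ≤ B ^ 5 := pow_le_pow_right₀ hB1 hS5
    have h6 := ZS_pos (G := G) hx.le S
    rw [div_le_iff₀ (by positivity)]
    calc (mp G).eval x ≤ _ := h4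
      _ ≤ B ^ 5 * ZS G x S := mul_le_mul_of_nonneg_right h5 h6.le
      _ = _ := by ring
  have h4 := mul_le_mul_of_nonneg_left h3 hx.le
  have h5 := h4.trans h1
  have h6 : (Pt G u v : ℝ) * (x * (mp G).eval x / (20 * r * B ^ 5)) =
      (x * ((Pt G u v : ℝ) * ((mp G).eval x / B ^ 5))) / (20 * r) := by
    field_simp
  rw [h6, div_le_iff₀ (by positivity)]
  linarith

end

end Pool.Agent.Lib.MP_eeed5c_coK
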