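import Pool.Agent.Lib.MP_eeed5c_co_K.ID

/-!
# Sums over all darts
-/

set_option autoImplicit false

namespace Pool.Agent.Lib.MP_eeed5c_coK

open Finset Pool.Agent.Lib.MP_eeed5c_co Pool.Agent.Lib.MP_eeed5c_coT Pool.Agent.Lib.MP_eeed5c_coX

section

variable {V : Type*} [Fintype V] {G : SimpleGraph V}

private theorem IF_mem_Nb {u v : V} : v ∈ Nb G u ↔ G.Adj u v := by
  classical
  simp [Nb]

open scoped Classical in
private theorem IF_QD (N : Finset (Sym2 V)) : QD G N = ∑ u, ∑ v ∈ Nb G u,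
    (if u ∈ free N ∧ v ∈ free N then ((D G N u : ℝ) - D G N v) ^ 2 else 0) := by
  unfold QD
  have e1 : ∀ u, ∑ v ∈ Nb G u, (if u ∈ free N ∧ v ∈ free N then ((D G N u : ℝ) - D G N v) ^ 2
      else 0) = if u ∈ free N then ∑ v ∈ nb G N u, ((D G N u : ℝ) - D G N v) ^ 2 else 0 := by
    intro u
    by_cases hu : u ∈ free N
    · rw [if_pos hu]
      have e : nb G N u = (Nb G u).filter fun v => v ∈ free N := by
        ext v
        rw [mem_nb, Finset.mem_filter, IF_mem_Nb]
        tauto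
      rw [e, Finset.sum_filter]
      refine Finset.sum_congr rfl fun v _ => ?_
      by_cases hv : v ∈ free N
      · rw [if_pos ⟨hu, hv⟩, if_pos hv]
      · rw [if_neg fun h => hv h.2, if_neg hv]
    · rw [if_neg hu]
      exact Finset.sum_eq_zero fun v _ => if_neg fun h => hu h.1
  simp only [e1]
  rw [← Finset.sum_filter]
  refine Finset.sum_congr ?_ fun _ _ => rfl
  ext u
  simp

theorem QD_sum {q r : ℕ} (hq : 1 ≤ q) (hr : 1 ≤ r) (hV : Fintype.card V = 2 * (q * r))
    (hreg : Reg G r) {x : ℝ} (hx : 0 < x) (hx1 : 12 * x ≤ 1) (hy : 1 ≤ r * x)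
    (hf : fg G q r x ≤ 1) :
    ((r : ℝ) * DL G - (r : ℝ) ^ 2 * CM G - 4 * q * (r : ℝ) ^ 4) *
      (x * (mp G).eval x / (20 * r * (4 * q * √(r * x)) ^ 5)) ≤ WS G x (QD G) := by
  classical
  obtain ⟨K, hK⟩ : ∃ K, K = x * (mp G).eval x / (20 * r * (4 * q * √(r * x)) ^ 5) := ⟨_, rfl⟩
  have hM := mp_eval_pos (G := G) hx.le
  have hK0 : 0 ≤ K := by
    rw [hK]
    positivity
  have h1 : WS G x (QD G) = ∑ u, ∑ v ∈ Nb G u, WS G x (fun N =>
      if u ∈ free N ∧ v ∈ free N then ((D G N u : ℝ) - D G N v) ^ 2 else 0) := by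
    rw [WS_congr x (fun N _ => IF_QD (G := G) N), WS_sum]
    refine Finset.sum_congr rfl fun u _ => ?_
    rw [WS_sum]
  have h2 : (∑ u, ∑ v ∈ Nb G u, (Pt G u v : ℝ)) * K ≤ WS G x (QD G) := by
    rw [h1, Finset.sum_mul]
    refine Finset.sum_le_sum fun u _ => ?_
    rw [Finset.sum_mul]
    refine Finset.sum_le_sum fun v hv => ?_
    rw [hK]
    exact var_dart hq hr hV hreg hx hx1 hy hf (IF_mem_Nb.1 hv)
  have h3 := Pt_sum hV hreg
  rw [← hK]
  refine le_trans (mul_le_mul_of_nonneg_right ?_ hK0) h2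
  linarith

open scoped Classical in
private theorem IF_QT (N : Finset (Sym2 V)) : QT G N = ∑ v, ∑ a ∈ Nb G v, ∑ b ∈ Nb G v ∩ Nb G a,
    (if {v, a, b} ⊆ free N then (1 : ℝ) else 0) := by
  unfold QT
  have e0 : ∀ v a b : V, ({v, a, b} : Finset V) ⊆ free N ↔ v ∈ free N ∧ a ∈ free N ∧ b ∈ free N := by
    intro v a b
    rw [Finset.insert_subset_iff, Finset.insert_subset_iff, Finset.singleton_subset_iff]
  have e1 : ∀ v, ∑ a ∈ Nb G v, ∑ b ∈ Nb G v ∩ Nb G a,
      (if {v, a, b} ⊆ free N then (1 : ℝ) else 0) = if v ∈ free N then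
        ∑ a ∈ nb G N v, (((nb G N v).filter (fun b => G.Adj a b)).card : ℝ) else 0 := by
    intro v
    by_cases hv : v ∈ free N
    · rw [if_pos hv]
      have e : nb G N v = (Nb G v).filter fun a => a ∈ free N := by
        ext a
        rw [mem_nb, Finset.mem_filter, IF_mem_Nb]
        tauto
      nth_rewrite 1 [e]
      rw [Finset.sum_filter]
      refine Finset.sum_congr rfl fun a _ => ?_
      by_cases ha : a ∈ free N
      · rw [if_pos ha, Finset.sum_boole]
        congr 2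
        ext b
        simp only [Finset.mem_filter, Finset.mem_inter, IF_mem_Nb, mem_nb, e0]
        tauto
      · rw [if_neg ha]
        exact Finset.sum_eq_zero fun b _ => if_neg fun h => ha ((e0 v a b).1 h).2.1
    · rw [if_neg hv]
      refine Finset.sum_eq_zero fun a _ => Finset.sum_eq_zero fun b _ => if_neg fun h =>
        hv ((e0 v a b).1 h).1
  simp only [e1]
  rw [← Finset.sum_filter]
  refine Finset.sum_congr ?_ fun _ _ => rfl
  ext u
  simp

theorem QT_sum {q r : ℕ} (hq : 1 ≤ q) (hV : Fintype.card V = 2 * (q * r))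
    {x : ℝ} (hx : 0 < x) (hx1 : 12 * x ≤ 1) (hy : 1 ≤ r * x) (hf : fg G q r x ≤ 1) :
    CM G * ((mp G).eval x / (4 * q * √(r * x)) ^ 3) ≤ WS G x (QT G) := by
  classical
  have hq1 : (1 : ℝ) ≤ q := by exact_mod_cast hq
  have hy1 : 1 ≤ √(r * x) := by
    rw [show (1 : ℝ) = √1 by simp]
    exact Real.sqrt_le_sqrt hy
  obtain ⟨B, hB⟩ : ∃ B, B = 4 * (q : ℝ) * √(r * x) := ⟨_, rfl⟩
  have hB1 : 1 ≤ B := by rw [hB]; nlinarith
  rw [← hB]
  have h1 : WS G x (QT G) = ∑ v, ∑ a ∈ Nb G v, ∑ b ∈ Nb G v ∩ Nb G a, ZS G x {v, a, b} := by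
    rw [WS_congr x (fun N _ => IF_QT (G := G) N), WS_sum]
    refine Finset.sum_congr rfl fun v _ => ?_
    rw [WS_sum]
    refine Finset.sum_congr rfl fun a _ => ?_
    rw [WS_sum]
    rfl
  rw [h1]
  unfold CM
  rw [Finset.sum_mul]
  refine Finset.sum_le_sum fun v _ => ?_
  rw [Finset.sum_mul]
  refine Finset.sum_le_sum fun a _ => ?_
  unfold cm
  rw [← nsmul_eq_mul, ← Finset.sum_const, Finset.inter_comm]
  refine Finset.sum_le_sum fun b _ => ?_
  obtain ⟨S, hS⟩ : ∃ S : Finset V, S = {v, a, b} := ⟨_, rfl⟩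
  have hS3 : S.card ≤ 3 := by
    rw [hS]
    exact Finset.card_le_three
  rw [← hS]
  have h4 := ZS_low hq hV hx hx1 hy hf S (hS3.trans (by norm_num))
  rw [← hB] at h4
  have h5 : B ^ S.card ≤ B ^ 3 := pow_le_pow_right₀ hB1 hS3
  have h6 := ZS_pos (G := G) hx.le S
  rw [div_le_iff₀ (by positivity)]
  calc (mp G).eval x ≤ _ := h4
    _ ≤ B ^ 3 * ZS G x S := mul_le_mul_of_nonneg_right h5 h6.le
    _ = _ := by ring

private theorem IF_D (N : Finset (Sym2 V)) (u : V) : (D G N u : ℝ) ≤ (free N).card := by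
  classical
  have h1 : D G N u ≤ (free N).card := by
    unfold D nb
    exact Finset.card_le_card (Finset.filter_subset _ _)
  exact_mod_cast h1

theorem QD_le (N : Finset (Sym2 V)) : QD G N ≤ ((free N).card : ℝ) ^ 4 := by
  classical
  unfold QD
  obtain ⟨F, hF⟩ : ∃ F : ℝ, F = ((free N).card : ℝ) := ⟨_, rfl⟩
  have hF0 : 0 ≤ F := by rw [hF]; exact Nat.cast_nonneg _
  have h1 : ∀ u v, ((D G N u : ℝ) - D G N v) ^ 2 ≤ F ^ 2 := by
    intro u v
    have h2 := IF_D (G := G) N u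
    have h3 := IF_D (G := G) N v
    have h4 : (0 : ℝ) ≤ D G N u := Nat.cast_nonneg _
    have h5 : (0 : ℝ) ≤ D G N v := Nat.cast_nonneg _
    rw [← hF] at h2 h3
    exact sq_le_sq' (by linarith) (by linarith)
  have h2 : ∀ u ∈ free N, ∑ v ∈ nb G N u, ((D G N u : ℝ) - D G N v) ^ 2 ≤ F * F ^ 2 := by
    intro u _
    refine (Finset.sum_le_sum fun v _ => h1 u v).trans ?_
    rw [Finset.sum_const, nsmul_eq_mul]
    refine mul_le_mul_of_nonneg_right ?_ (by positivity)
    have := IF_D (G := G) N u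
    rw [hF]
    exact this
  refine (Finset.sum_le_sum h2).trans ?_
  rw [Finset.sum_const, nsmul_eq_mul, ← hF]
  exact le_of_eq (by ring)

theorem QT_le (N : Finset (Sym2 V)) : QT G N ≤ ((free N).card : ℝ) ^ 4 := by
  classical
  unfold QT
  obtain ⟨F, hF⟩ : ∃ F : ℝ, F = ((free N).card : ℝ) := ⟨_, rfl⟩
  have hF0 : 0 ≤ F := by rw [hF]; exact Nat.cast_nonneg _
  have h2 : ∀ v ∈ free N, ∑ a ∈ nb G N v, (((nb G N v).filter (fun b => G.Adj a b)).card : ℝ) ≤
      F * F := by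
    intro v _
    have h3 : ∀ a ∈ nb G N v, (((nb G N v).filter (fun b => G.Adj a b)).card : ℝ) ≤ F := by
      intro a _
      have h4 : ((nb G N v).filter (fun b => G.Adj a b)).card ≤ (nb G N v).card :=
        Finset.card_le_card (Finset.filter_subset _ _)
      have h5 : (((nb G N v).filter (fun b => G.Adj a b)).card : ℝ) ≤ D G N v := by
        exact_mod_cast h4
      have h6 := IF_D (G := G) N v
      rw [hF]
      linarith
    refine (Finset.sum_le_sum h3).trans ?_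
    rw [Finset.sum_const, nsmul_eq_mul]
    refine mul_le_mul_of_nonneg_right ?_ hF0
    have := IF_D (G := G) N v
    rw [hF]
    exact this
  refine (Finset.sum_le_sum h2).trans ?_
  rw [Finset.sum_const, nsmul_eq_mul, ← hF]
  rcases Nat.eq_zero_or_pos (free N).card with h | h
  · have hF1 : F = 0 := by rw [hF, h]; simp
    rw [hF1]
    norm_num
  · have hF1 : 1 ≤ F := by rw [hF]; exact_mod_cast h
    have h3 : 0 ≤ F ^ 3 := by positivity
    nlinarith

theorem QD_nonneg (N : Finset (Sym2 V)) : 0 ≤ QD G N := by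
  unfold QD
  exact Finset.sum_nonneg fun u _ => Finset.sum_nonneg fun v _ => sq_nonneg _

theorem QT_nonneg (N : Finset (Sym2 V)) : 0 ≤ QT G N := by
  unfold QT
  exact Finset.sum_nonneg fun u _ => Finset.sum_nonneg fun v _ => Nat.cast_nonneg _

end

end Pool.Agent.Lib.MP_eeed5c_coK
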