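import Pool.Agent.Lib.MP_eeed5c_co_K.Defs
import Pool.Agent.Lib.MP_eeed5c_co_W.WC

/-!
# The lower bound of `fg` by the quantities of the matchings

This is the part (IV7), (IV8) of the paper proof: theorem `W_lower` of the library
MP_eeed5c_co_W.
-/

set_option autoImplicit false

namespace Pool.Agent.Lib.MP_eeed5c_coK

open Finset Pool.Agent.Lib.MP_eeed5c_co Pool.Agent.Lib.MP_eeed5c_coT Pool.Agent.Lib.MP_eeed5c_coX

section

variable {V : Type*} [Fintype V] {G : SimpleGraph V}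

theorem W_lower {q r : ℕ} {x y : ℝ} (hq : 1 ≤ q) (hr : 2 ≤ r)
    (hV : Fintype.card V = 2 * (q * r)) (hreg : Reg G r) (hxy : r * x = y)
    (hy : (32 * (q : ℝ)) ^ 2 ≤ y) (hry : 100 * y ≤ r) :
    x ^ 3 * (Real.exp (-(154 * (q : ℝ))) / (54 * (√y) ^ 3)) *
      WS G x (fun N => if ((free N).card : ℝ) * √y ≤ 8 * q * r then
        QD G N / 4 + QT G N / 2 else 0) ≤ fg G q r x * (mp G).eval x := by
  have h := Pool.Agent.Lib.MP_eeed5c_coW.W_lower hq hr hV hreg hxy hy hry
  unfold fg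
  refine le_trans (le_of_eq ?_) h
  have e : (fun N => if ((free N).card : ℝ) * √y ≤ 8 * q * r then
        QD G N / 4 + QT G N / 2 else 0) = (fun N => if ((free N).card : ℝ) * √y ≤ 8 * q * r then
        (∑ u ∈ free N, ∑ v ∈ nb G N u, (((D G N u : ℕ) : ℝ) - (D G N v : ℕ)) ^ 2) / 4 +
        (∑ v ∈ free N, ∑ a ∈ nb G N v,
          ((by classical exact ((nb G N v).filter (fun b => G.Adj a b)).card : ℕ) : ℝ)) / 2
          else 0) := by
    funext N
    unfold QD QT
    rfl
  rw [e]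

end

end Pool.Agent.Lib.MP_eeed5c_coK
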