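import Pool.Agent.Lib.MP_eeed5c_co_K.IF
import Pool.Agent.Lib.MP_eeed5c_co_K.IA
import Pool.Agent.Lib.MP_eeed5c_co_K.WZ

/-!
# The lower bound of `fg` by `Wt`
-/

set_option autoImplicit false

namespace Pool.Agent.Lib.MP_eeed5c_coK

open Finset Pool.Agent.Lib.MP_eeed5c_co Pool.Agent.Lib.MP_eeed5c_coT Pool.Agent.Lib.MP_eeed5c_coX

section

variable {V : Type*} [Fintype V] {G : SimpleGraph V}

theorem fg_main {q r : ℕ} {y C : ℝ} (hq : 1 ≤ q) (hV : Fintype.card V = 2 * (q * r))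
    (hreg : Reg G r) (hy : (32 * (q : ℝ)) ^ 2 ≤ y) (hry : 100 * y ≤ r)
    (hC : Fg G q r (y / r) ≤ C) (hf : fg G q r (y / r) ≤ 1) :
    Real.exp (-(154 * (q : ℝ))) / 54 * ((Wt G r / (r : ℝ) ^ 2 - 4 * q / r) / (81920 * (q : ℝ) ^ 5) -
      30000 * Real.exp (C - q * r / (4 * √y))) ≤ fg G q r (y / r) := by
  have hq1 : (1 : ℝ) ≤ q := by exact_mod_cast hq
  have hy1024 : 1024 ≤ y := by nlinarith
  have hr0 : (0 : ℝ) < r := by linarith
  have hr1 : 1 ≤ r := by exact_mod_cast hr0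
  have hr2 : 2 ≤ r := by
    have : (2 : ℝ) ≤ r := by linarith
    exact_mod_cast this
  obtain ⟨x, hxd⟩ : ∃ x, x = y / (r : ℝ) := ⟨_, rfl⟩
  obtain ⟨s, hs⟩ : ∃ s, s = √y := ⟨_, rfl⟩
  obtain ⟨K0, hK0⟩ : ∃ K0, K0 = Real.exp (-(154 * (q : ℝ))) := ⟨_, rfl⟩
  obtain ⟨M, hMd⟩ : ∃ M, M = (mp G).eval x := ⟨_, rfl⟩
  have hx : 0 < x := by rw [hxd]; positivity
  have hrx : (r : ℝ) * x = y := by rw [hxd]; field_simp
  have hx1 : 100 * x ≤ 1 := by
    rw [hxd, mul_div_assoc', div_le_one hr0]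
    exact hry
  have hs1 : 1 ≤ s := by
    rw [hs, show (1 : ℝ) = √1 by simp]
    exact Real.sqrt_le_sqrt (by linarith)
  have hs0 : 0 < s := by linarith
  have hs2 : s ^ 2 = y := by rw [hs, Real.sq_sqrt (by linarith)]
  have hK0p : 0 < K0 := by rw [hK0]; exact Real.exp_pos _
  have hM : 1 ≤ M := by rw [hMd]; exact mp_eval_pos hx.le
  have hM0 : 0 < M := by linarith
  have hsq : √((r : ℝ) / x) = r / s := by
    have e : (r : ℝ) / x = (r / s) ^ 2 := by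
      rw [div_pow, hs2, ← hrx]
      field_simp
    rw [e, Real.sqrt_sq (by positivity)]
  have hsy : √((r : ℝ) * x) = s := by rw [hrx, hs]
  rw [← hxd] at hC hf ⊢
  rw [← hK0, ← hs]
  -- the three ingredients
  have w1 := W_lower hq hr2 hV hreg hrx hy hry
  have w2 := tail_bound hr1 hV hreg hx hC
  have w3 := QD_sum hq hr1 hV hreg hx (by linarith) (by linarith) hf
  have w4 := QT_sum hq hV hx (by linarith) (by linarith) hf
  rw [← hK0, ← hs, ← hMd] at w1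
  rw [hsq, ← hMd] at w2
  rw [hsy, ← hMd] at w3 w4
  obtain ⟨W1, hW1⟩ : ∃ W1, W1 = WS G x (fun N => if ((free N).card : ℝ) * s ≤ 8 * q * r then
        QD G N / 4 + QT G N / 2 else 0) := ⟨_, rfl⟩
  obtain ⟨W2, hW2⟩ : ∃ W2, W2 = WS G x (fun N => if 8 * q * (r / s) < ((free N).card : ℝ) then
      ((free N).card : ℝ) ^ 4 else 0) := ⟨_, rfl⟩
  obtain ⟨Q1, hQ1⟩ : ∃ Q1, Q1 = WS G x (QD G) := ⟨_, rfl⟩
  obtain ⟨Q2, hQ2⟩ : ∃ Q2, Q2 = WS G x (QT G) := ⟨_, rfl⟩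
  have hsum : Q1 / 4 + Q2 / 2 ≤ W1 + W2 := by
    have e : Q1 / 4 + Q2 / 2 = WS G x (fun N => (1 / 4) * QD G N + (1 / 2) * QT G N) := by
      rw [WS_add, WS_smul, WS_smul, hQ1, hQ2]
      ring
    rw [e, hW1, hW2, ← WS_add]
    refine WS_mono hx.le fun N _ => ?_
    have n1 := QD_le (G := G) N
    have n2 := QT_le (G := G) N
    have n3 : (0 : ℝ) ≤ ((free N).card : ℝ) ^ 4 := by positivity
    by_cases hc : ((free N).card : ℝ) * s ≤ 8 * q * r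
    · rw [if_pos hc]
      split_ifs
      · linarith
      · linarith
    · rw [if_neg hc, if_pos]
      · linarith
      · push Not at hc
        rw [mul_div_assoc', div_lt_iff₀ hs0]
        exact hc
  rw [← hW1] at w1
  rw [← hW2] at w2
  rw [← hQ1] at w3
  rw [← hQ2] at w4
  obtain ⟨E, hE⟩ : ∃ E, E = Real.exp (C - q * r / (4 * s)) := ⟨_, rfl⟩
  have hE0 : 0 < E := by rw [hE]; exact Real.exp_pos _
  have eE : C - q * (r / s) / 4 = C - q * r / (4 * s) := by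
    field_simp
  rw [eE, ← hE] at w2
  rw [← hE]
  obtain ⟨P, hP⟩ : ∃ P, P = (r : ℝ) * DL G - (r : ℝ) ^ 2 * CM G - 4 * q * (r : ℝ) ^ 4 := ⟨_, rfl⟩
  rw [← hP] at w3
  have hCM : 0 ≤ CM G := by
    unfold CM
    exact Finset.sum_nonneg fun u _ => Finset.sum_nonneg fun v _ => Nat.cast_nonneg _
  -- combine
  obtain ⟨c3, hc3⟩ : ∃ c3, c3 = x ^ 3 * (K0 / (54 * s ^ 3)) := ⟨_, rfl⟩
  have hc30 : 0 ≤ c3 := by rw [hc3]; positivity
  rw [← hc3] at w1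
  have h1 : c3 * (P * (x * M / (20 * r * (4 * q * s) ^ 5)) / 4 +
      CM G * (M / (4 * q * s) ^ 3) / 2 - 30000 * E * M) ≤ fg G q r x * M := by
    refine le_trans (mul_le_mul_of_nonneg_left ?_ hc30) w1
    linarith
  have hxr : x = s ^ 2 / r := by rw [hs2, hxd]
  have e1 : c3 * (P * (x * M / (20 * r * (4 * q * s) ^ 5)) / 4 +
      CM G * (M / (4 * q * s) ^ 3) / 2 - 30000 * E * M) =
      (K0 / 54 * (P / (r : ℝ) ^ 5 / (81920 * (q : ℝ) ^ 5) + CM G / (r : ℝ) ^ 3 / (128 * (q : ℝ) ^ 3) -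
        30000 * (x ^ 3 / s ^ 3) * E)) * M := by
    rw [hc3, hxr]
    field_simp
    ring
  rw [e1] at h1
  have h2 := le_of_mul_le_mul_right h1 hM0
  refine le_trans ?_ h2
  refine mul_le_mul_of_nonneg_left ?_ (by positivity)
  have e2 : Wt G r / (r : ℝ) ^ 2 - 4 * q / r = P / (r : ℝ) ^ 5 + 2 * (CM G / (r : ℝ) ^ 3) := by
    rw [hP]
    unfold Wt
    field_simp
    ring
  rw [e2, add_div]
  have h3 : 2 * (CM G / (r : ℝ) ^ 3) / (81920 * (q : ℝ) ^ 5) ≤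
      CM G / (r : ℝ) ^ 3 / (128 * (q : ℝ) ^ 3) := by
    rw [div_le_div_iff₀ (by positivity) (by positivity)]
    have h4 : 0 ≤ CM G / (r : ℝ) ^ 3 := by positivity
    have h5 : 2 * (128 * (q : ℝ) ^ 3) ≤ 81920 * (q : ℝ) ^ 5 := by
      have h6 : (q : ℝ) ^ 3 ≤ (q : ℝ) ^ 5 := pow_le_pow_right₀ hq1 (by norm_num)
      have h7 : (0 : ℝ) ≤ (q : ℝ) ^ 3 := by positivity
      linarith
    nlinarith [mul_le_mul_of_nonneg_left h5 h4]
  have h4 : x ^ 3 / s ^ 3 ≤ 1 := by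
    rw [div_le_one (by positivity)]
    exact pow_le_pow_left₀ hx.le (by linarith) 3
  have h5 : 30000 * (x ^ 3 / s ^ 3) * E ≤ 30000 * E := by nlinarith
  linarith

end

end Pool.Agent.Lib.MP_eeed5c_coK
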