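import Pool.Agent.Lib.MP_eeed5c_co_K.IG1

/-!
# Macroscopically far graphs

PROOF of `far`. We may assume `C3 ≥ 0` (replace `C3` by `max C3 0`). Let `K0 = exp (-154 q)`, `c = K0 / (54 * 81920 q^5)`, `μ = min 1 (c ε / 2) > 0`, `y0 = (32 q)^2`, `X = y0 * exp (C3 / μ) ≥ 1`. Choose `r1 ≥ 1` such that for all `r ≥ r1`:
`100 X ≤ r`, `c * 4 q / r ≤ c ε / 4` and `(K0/54) * 30000 * exp (C3 - q r / (4 √X)) ≤ c ε / 4` (the left sides tend to 0: `Filter.Tendsto`, or explicitly `exp (-t) ≤ 1/t`).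
Let `r ≥ r1`, `Wt G r ≥ ε r^2` and suppose `Fg G q r (X / r) < C3`. For `y0 ≤ y ≤ X`: `Fg (y/r) ≤ Fg (X/r) ≤ C3` (`Fg_mono`), and either `fg (y/r) > 1 ≥ μ` or `fg_main` gives
`fg (y/r) ≥ c (ε - 4 q/r) - (K0/54) 30000 exp (C3 - q r/(4 √y)) ≥ c ε - c ε/4 - c ε/4 = c ε/2 ≥ μ` (`√y ≤ √X`).
Apply `Fg_int` on the interval from `y0/r` to `X/r` (every `t` there is `y/r` with `y = t r`): `Fg (X/r) ≥ Fg (y0/r) + μ log (X/y0) ≥ 0 + μ * C3/μ = C3` (`Fg_nonneg`), a contradiction.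
-/

set_option autoImplicit false

namespace Pool.Agent.Lib.MP_eeed5c_coK

open Finset Pool.Agent.Lib.MP_eeed5c_co Pool.Agent.Lib.MP_eeed5c_coT Pool.Agent.Lib.MP_eeed5c_coX

private theorem IG2_nonneg {q : ℕ} (hq : 1 ≤ q) {ε : ℝ} (hε : 0 < ε) (C3 : ℝ) (hC3 : 0 ≤ C3) :
    ∃ (X : ℝ) (r1 : ℕ), 1 ≤ X ∧ 1 ≤ r1 ∧ ∀ (r : ℕ) (V : Type) [Fintype V] (G : SimpleGraph V),
      r1 ≤ r → Fintype.card V = 2 * (q * r) → Reg G r → ε * (r : ℝ) ^ 2 ≤ Wt G r →
      C3 ≤ Fg G q r (X / r) := by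
  have hqR : (1 : ℝ) ≤ q := by exact_mod_cast hq
  have hq0 : (0 : ℝ) < q := by linarith
  obtain ⟨K0, hK0⟩ : ∃ K0 : ℝ, K0 = Real.exp (-(154 * (q : ℝ))) := ⟨_, rfl⟩
  have hK0p : 0 < K0 := by rw [hK0]; exact Real.exp_pos _
  obtain ⟨P, hP⟩ : ∃ P : ℝ, P = 81920 * (q : ℝ) ^ 5 := ⟨_, rfl⟩
  have hPp : 0 < P := by rw [hP]; positivity
  obtain ⟨c, hc⟩ : ∃ c : ℝ, c = K0 / 54 / P := ⟨_, rfl⟩
  have hcp : 0 < c := by rw [hc]; positivity
  obtain ⟨μ, hμ⟩ : ∃ μ : ℝ, μ = min 1 (c * ε / 2) := ⟨_, rfl⟩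
  have hμp : 0 < μ := by rw [hμ]; exact lt_min one_pos (by positivity)
  have hμ1 : μ ≤ 1 := by rw [hμ]; exact min_le_left _ _
  have hμ2 : μ ≤ c * ε / 2 := by rw [hμ]; exact min_le_right _ _
  obtain ⟨y0, hy0⟩ : ∃ y0 : ℝ, y0 = (32 * (q : ℝ)) ^ 2 := ⟨_, rfl⟩
  have hy01 : 1 ≤ y0 := by rw [hy0]; nlinarith
  obtain ⟨X, hX⟩ : ∃ X : ℝ, X = y0 * Real.exp (C3 / μ) := ⟨_, rfl⟩
  have hXy : y0 ≤ X := by
    rw [hX]
    have h1 : 1 ≤ Real.exp (C3 / μ) := Real.one_le_exp (div_nonneg hC3 hμp.le)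
    nlinarith
  have hX1 : 1 ≤ X := hy01.trans hXy
  obtain ⟨T3, hT3⟩ : ∃ T3 : ℝ, T3 = K0 / 54 * 30000 * Real.exp C3 * (4 * √X) / (c * ε / 4) :=
    ⟨_, rfl⟩
  have hT30 : 0 ≤ T3 := by rw [hT3]; positivity
  have hqe : 0 ≤ 16 * (q : ℝ) / ε := by positivity
  obtain ⟨r1, hr1⟩ := exists_nat_gt (100 * X + 16 * (q : ℝ) / ε + T3)
  refine ⟨X, r1, hX1, ?_, ?_⟩
  · have : (0 : ℝ) < r1 := by linarith
    exact_mod_cast this
  intro r V _ G hr hV hreg hW
  by_contra hcon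
  rw [not_le] at hcon
  have hrR : (r1 : ℝ) ≤ r := by exact_mod_cast hr
  have hr0 : (0 : ℝ) < r := by linarith
  have hr1' : 1 ≤ r := by
    have : (0 : ℝ) < r := hr0
    exact_mod_cast this
  have hrX : 100 * X ≤ r := by linarith
  have hrq : 16 * (q : ℝ) / ε ≤ r := by linarith
  have hrT : T3 ≤ r := by linarith
  -- the three small terms
  have s2 : 4 * (q : ℝ) / r ≤ ε / 4 := by
    rw [div_le_iff₀ hε] at hrq
    rw [div_le_iff₀ hr0]
    linarith
  have hsX : 0 < √X := Real.sqrt_pos.mpr (by linarith)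
  have s3 : K0 / 54 * (30000 * Real.exp (C3 - q * r / (4 * √X))) ≤ c * ε / 4 := by
    have hce : 0 < c * ε / 4 := by positivity
    rw [hT3, div_le_iff₀ hce] at hrT
    have ht : 0 < (q : ℝ) * r / (4 * √X) := by positivity
    have h1 : Real.exp (C3 - q * r / (4 * √X)) ≤ Real.exp C3 * ((4 * √X) / r) := by
      rw [sub_eq_add_neg, Real.exp_add]
      refine mul_le_mul_of_nonneg_left ?_ (Real.exp_pos _).le
      rw [Real.exp_neg]
      have h2 : (q : ℝ) * r / (4 * √X) ≤ Real.exp (q * r / (4 * √X)) := by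
        have := Real.add_one_le_exp ((q : ℝ) * r / (4 * √X))
        linarith
      have h3 : (r : ℝ) / (4 * √X) ≤ q * r / (4 * √X) := by
        apply div_le_div_of_nonneg_right _ (by positivity)
        nlinarith
      have h4 : 0 < (r : ℝ) / (4 * √X) := by positivity
      calc (Real.exp (q * r / (4 * √X)))⁻¹ ≤ ((r : ℝ) / (4 * √X))⁻¹ :=
            inv_anti₀ h4 (h3.trans h2)
        _ = (4 * √X) / r := by rw [inv_div]
    calc K0 / 54 * (30000 * Real.exp (C3 - q * r / (4 * √X)))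
        ≤ K0 / 54 * (30000 * (Real.exp C3 * ((4 * √X) / r))) := by
          apply mul_le_mul_of_nonneg_left _ (by positivity)
          apply mul_le_mul_of_nonneg_left h1 (by norm_num)
      _ = K0 / 54 * 30000 * Real.exp C3 * (4 * √X) / r := by ring
      _ ≤ c * ε / 4 := by
          rw [div_le_iff₀ hr0]
          linarith
  have hkey : ∀ t, y0 / r ≤ t → t ≤ X / r → μ ≤ fg G q r t := by
    intro t ht1 ht2
    have hy0r : 0 < y0 / r := by positivity
    have ht0 : 0 < t := hy0r.trans_le ht1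
    by_cases hf : fg G q r t ≤ 1
    · rw [div_le_iff₀ hr0] at ht1
      rw [le_div_iff₀ hr0] at ht2
      have e1 : t * r / r = t := by field_simp
      have hC : Fg G q r (t * r / r) ≤ C3 := by
        rw [e1]
        have : t ≤ X / r := by rw [le_div_iff₀ hr0]; exact ht2
        exact (Fg_mono hr1' hV hreg ht0 this).trans hcon.le
      have h1 := fg_main (q := q) (r := r) (y := t * r) (C := C3) (G := G) hq hV hreg
        (by rw [← hy0]; exact ht1) (by linarith) hC (by rw [e1]; exact hf)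
      rw [e1, ← hK0, ← hP] at h1
      have hst : 0 < √(t * r) := Real.sqrt_pos.mpr (by positivity)
      have hst2 : √(t * r) ≤ √X := Real.sqrt_le_sqrt ht2
      have h2 : Real.exp (C3 - q * r / (4 * √(t * r))) ≤ Real.exp (C3 - q * r / (4 * √X)) := by
        apply Real.exp_le_exp.mpr
        have : (q : ℝ) * r / (4 * √X) ≤ q * r / (4 * √(t * r)) := by
          apply div_le_div_of_nonneg_left (by positivity) (by positivity)
          linarith
        linarith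
      have h3 : ε ≤ Wt G r / (r : ℝ) ^ 2 := by
        rw [le_div_iff₀ (by positivity)]
        exact hW
      have h4 : (ε - ε / 4) / P ≤ (Wt G r / (r : ℝ) ^ 2 - 4 * q / r) / P :=
        div_le_div_of_nonneg_right (by linarith) hPp.le
      have h5 : K0 / 54 * ((ε - ε / 4) / P - 30000 * Real.exp (C3 - q * r / (4 * √X))) ≤
          K0 / 54 * ((Wt G r / (r : ℝ) ^ 2 - 4 * q / r) / P -
            30000 * Real.exp (C3 - q * r / (4 * √(t * r)))) := by
        apply mul_le_mul_of_nonneg_left _ (by positivity)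
        linarith
      have h6 : K0 / 54 * ((ε - ε / 4) / P - 30000 * Real.exp (C3 - q * r / (4 * √X))) =
          c * ε - c * ε / 4 - K0 / 54 * (30000 * Real.exp (C3 - q * r / (4 * √X))) := by
        rw [hc]; ring
      rw [h6] at h5
      linarith
    · linarith
  have h1 := Fg_int (G := G) (q := q) (r := r) (μ := μ) (a := y0 / r) (b := X / r)
    (by positivity) (div_le_div_of_nonneg_right hXy hr0.le) hkey
  have h2 : X / r / (y0 / r) = Real.exp (C3 / μ) := by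
    rw [hX]
    have : y0 ≠ 0 := by linarith
    field_simp
  rw [h2, Real.log_exp, mul_div_cancel₀ C3 hμp.ne'] at h1
  have h3 := Fg_nonneg (G := G) hr1' hV hreg (x := y0 / r) (by positivity)
  linarith

theorem far {q : ℕ} (hq : 1 ≤ q) {ε : ℝ} (hε : 0 < ε) (C3 : ℝ) :
    ∃ (X : ℝ) (r1 : ℕ), 1 ≤ X ∧ 1 ≤ r1 ∧ ∀ (r : ℕ) (V : Type) [Fintype V] (G : SimpleGraph V),
      r1 ≤ r → Fintype.card V = 2 * (q * r) → Reg G r → ε * (r : ℝ) ^ 2 ≤ Wt G r →
      C3 ≤ Fg G q r (X / r) := by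
  obtain ⟨X, r1, h1, h2, h3⟩ := IG2_nonneg hq hε (max C3 0) (le_max_right _ _)
  refine ⟨X, r1, h1, h2, fun r V _ G hr hV hreg hW => ?_⟩
  exact (le_max_left C3 0).trans (h3 r V G hr hV hreg hW)

end Pool.Agent.Lib.MP_eeed5c_coK
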