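import Pool.Agent.Lib.MP_eeed5c_co_K.Defs

/-!
# The coefficients `Jc`

`Jc p n = 1/(t! (t+p)!)` if `n = 2 t + p`, and 0 otherwise.

PROOFS.
* `Jc_at`: `Jc p (2 t + p) = 1/(t! (t+p)!)`. `Jc_off`: `Jc p n = 0` if `n` is not of this form (`n < p` or `(n - p) % 2 = 1`). Use these two in everything below.
* `Jc_le`: for `n = 2 t + p`: `n!/(t! (t+p)!) = C(n, t) ≤ 2^n` (`Nat.choose_le_two_pow`, `Nat.add_choose_mul_factorial_mul_factorial`).
* `Jc_two`: let `n = 2 t + p + 2` (otherwise the left side is 0): `Jc (p+2) n = 1/(t! (t+p+2)!)`, `Jc p n = 1/((t+1)! (t+1+p)!)`, so `Jc (p+2) n = (t+1)/(t+p+2) Jc p n` and `(t+1)/(t+p+2) ≤ (t+1)/(t+2) ≤ (M+1)/(M+2)` because `t ≤ M`.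
* `Jc_diff`: `n = 2 t + p`: for `t = 0` it is `1/p! = (p+1)/(p+1)!`; for `t ≥ 1`, `Jc (p+2) n = 1/((t-1)! (t+p+1)!)`, and `(t+p+1) - t = p + 1`. If `n` is not of the form `2 t + p` then `n + 1` is not `2 t + (p+1)` and everything is 0.
* `J_oo`, `J_zz`: `PowerSeries.coeff_mul`, the sum over `antidiagonal (2 l)`; only the pairs `(2 t + 1, 2 s + 1)`, `t + s = l - 1`, resp. `(2 t, 2 s)`, `t + s = l`, count. `l! l! /(t! (t+1)! s! (s+1)!) = C(l,t) C(l,t+1)` (with `s + 1 = l - t`, `s = l - (t+1)`) and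
  `∑_t C(l,t) C(l, l-1-t) = C(2l, l-1)` (Vandermonde, `Nat.add_choose_eq`), `∑_t C(l,t)^2 = C(2l, l)` (`Nat.sum_range_choose_sq` or Vandermonde). For odd `n` both coefficients are 0 (`J_odd`).
* `J_oo_le`: for `n = 2 l`, `C(2l, l-1) (l+1) = C(2l, l) l` (`Nat.succ_mul_choose_eq` or `Nat.choose_succ_right_eq`), and `l/(l+1) ≤ (M+1)/(M+2)` for `l ≤ M`; `l = 0`: the left side is 0.
-/

set_option autoImplicit false

namespace Pool.Agent.Lib.MP_eeed5c_coK

open Finset Pool.Agent.Lib.MP_eeed5c_co Pool.Agent.Lib.MP_eeed5c_coT Pool.Agent.Lib.MP_eeed5c_coX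

theorem Jc_at (p t : ℕ) : Jc p (2 * t + p) = 1 / ((t.factorial : ℝ) * ((t + p).factorial : ℝ)) := by
  have h1 : (2 * t + p - p) / 2 = t := by omega
  have h2 : (2 * t + p + p) / 2 = t + p := by omega
  rw [Jc, if_pos ⟨by omega, by omega⟩, h1, h2]

theorem Jc_off {p n : ℕ} (h : ∀ t, n ≠ 2 * t + p) : Jc p n = 0 := by
  rw [Jc, if_neg]
  rintro ⟨h1, h2⟩
  exact h ((n - p) / 2) (by omega)

theorem Jc_nonneg (p n : ℕ) : 0 ≤ Jc p n := by
  rw [Jc]
  split
  · positivity
  · exact le_refl _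

theorem Jc_le (p n : ℕ) : Jc p n ≤ 2 ^ n / (n.factorial : ℝ) := by
  by_cases h : ∃ t, n = 2 * t + p
  · obtain ⟨t, rfl⟩ := h
    rw [Jc_at, div_le_div_iff₀ (by positivity) (by positivity), one_mul]
    have h1 := Nat.choose_mul_factorial_mul_factorial (show t ≤ 2 * t + p by omega)
    have h2 : 2 * t + p - t = t + p := by omega
    rw [h2] at h1
    have h3 := Nat.choose_le_two_pow (2 * t + p) t
    have h4 : (2 * t + p).factorial ≤ 2 ^ (2 * t + p) * (t.factorial * (t + p).factorial) := by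
      rw [← h1, mul_assoc]
      exact Nat.mul_le_mul_right _ h3
    exact_mod_cast h4
  · rw [Jc_off fun t ht => h ⟨t, ht⟩]
    positivity

theorem Jc_two {p n M : ℕ} (h : n ≤ 2 * M) : Jc (p + 2) n ≤ ((M : ℝ) + 1) / (M + 2) * Jc p n := by
  by_cases h1 : ∃ t, n = 2 * t + (p + 2)
  · obtain ⟨t, rfl⟩ := h1
    have e1 : 2 * t + (p + 2) = 2 * (t + 1) + p := by omega
    rw [Jc_at]
    rw [e1, Jc_at]
    have htM : (t : ℝ) ≤ M := by
      have : t ≤ M := by omega
      exact_mod_cast this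
    have e2 : t + (p + 2) = (t + 1 + p) + 1 := by omega
    rw [e2, Nat.factorial_succ (t + 1 + p), Nat.factorial_succ t]
    push_cast
    have hp : (0 : ℝ) ≤ p := Nat.cast_nonneg p
    have ht : (0 : ℝ) ≤ t := Nat.cast_nonneg t
    have hM : (0 : ℝ) ≤ M := Nat.cast_nonneg M
    have f1 : (0 : ℝ) < t.factorial := by exact_mod_cast t.factorial_pos
    have f2 : (0 : ℝ) < (t + 1 + p).factorial := by exact_mod_cast (t + 1 + p).factorial_pos
    rw [div_mul_div_comm, mul_one, div_le_div_iff₀ (by positivity) (by positivity), one_mul]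
    have h2 : ((M : ℝ) + 2) * ((t : ℝ) + 1) ≤ ((M : ℝ) + 1) * ((t : ℝ) + 1 + p + 1) := by
      have : 0 ≤ (M : ℝ) * p := mul_nonneg hM hp
      nlinarith
    have h3 : 0 ≤ (t.factorial : ℝ) * ((t + 1 + p).factorial : ℝ) := by positivity
    have h4 := mul_le_mul_of_nonneg_right h2 h3
    nlinarith
  · rw [Jc_off fun t ht => h1 ⟨t, ht⟩]
    exact mul_nonneg (by positivity) (Jc_nonneg p n)

theorem Jc_diff (p n : ℕ) : Jc p n - Jc (p + 2) n = ((p : ℝ) + 1) * Jc (p + 1) (n + 1) := by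
  by_cases h : ∃ t, n = 2 * t + p
  · obtain ⟨t, rfl⟩ := h
    have e1 : 2 * t + p + 1 = 2 * t + (p + 1) := by omega
    rw [e1, Jc_at, Jc_at]
    rcases t with _ | s
    · rw [Jc_off (p := p + 2) (n := 2 * 0 + p) (fun t ht => by omega)]
      have e2 : 0 + (p + 1) = (0 + p) + 1 := by omega
      rw [e2, Nat.factorial_succ (0 + p)]
      have f2 : (0 : ℝ) < (0 + p).factorial := by exact_mod_cast (0 + p).factorial_pos
      have hp : (0 : ℝ) < (p : ℝ) + 1 := by positivity
      push_cast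
      rw [zero_add]
      field_simp
      ring
    · have e2 : 2 * (s + 1) + p = 2 * s + (p + 2) := by omega
      have e3 : s + 1 + (p + 1) = (s + 1 + p) + 1 := by omega
      have e4 : s + (p + 2) = (s + 1 + p) + 1 := by omega
      have e5 : Jc (p + 2) (2 * (s + 1) + p) = 1 / ((s.factorial : ℝ) * ((s + (p + 2)).factorial : ℝ)) := by
        rw [e2, Jc_at]
      rw [e5, e3, e4, Nat.factorial_succ (s + 1 + p), Nat.factorial_succ s]
      have f1 : (0 : ℝ) < s.factorial := by exact_mod_cast s.factorial_pos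
      have f2 : (0 : ℝ) < (s + 1 + p).factorial := by exact_mod_cast (s + 1 + p).factorial_pos
      have hs : (0 : ℝ) < (s : ℝ) + 1 := by positivity
      have hs2 : (0 : ℝ) < (s : ℝ) + 1 + p + 1 := by positivity
      push_cast
      field_simp
      ring
  · rw [Jc_off fun t ht => h ⟨t, ht⟩, Jc_off (p := p + 2) (n := n) fun t ht => h ⟨t + 1, by omega⟩,
      Jc_off (p := p + 1) (n := n + 1) fun t ht => h ⟨t, by omega⟩, sub_zero, mul_zero]

theorem JA_form {p n : ℕ} (h : Jc p n ≠ 0) : ∃ t, n = 2 * t + p := by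
  by_contra h1
  exact h (Jc_off fun t ht => h1 ⟨t, ht⟩)

theorem JA_conv (a b l : ℕ) : PowerSeries.coeff (2 * l + a + b) (JS a * JS b) =
    ∑ p ∈ antidiagonal l, 1 / ((p.1.factorial : ℝ) * ((p.1 + a).factorial : ℝ)) *
      (1 / ((p.2.factorial : ℝ) * ((p.2 + b).factorial : ℝ))) := by
  rw [PowerSeries.coeff_mul]
  symm
  refine Finset.sum_of_injOn (fun p : ℕ × ℕ => (2 * p.1 + a, 2 * p.2 + b)) ?_ ?_ ?_ ?_
  · rintro ⟨t, s⟩ _ ⟨t', s'⟩ _ h
    have h1 : 2 * t + a = 2 * t' + a := congrArg Prod.fst h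
    have h2 : 2 * s + b = 2 * s' + b := congrArg Prod.snd h
    exact Prod.ext (by omega) (by omega)
  · rintro ⟨t, s⟩ h
    have h0 : t + s = l := mem_antidiagonal.1 h
    exact mem_coe.2 (mem_antidiagonal.2 (show 2 * t + a + (2 * s + b) = 2 * l + a + b by omega))
  · rintro ⟨i, j⟩ h h'
    have h0 : i + j = 2 * l + a + b := mem_antidiagonal.1 h
    by_contra h1
    have h2 : Jc a i * Jc b j ≠ 0 := by
      rw [JS, JS, PowerSeries.coeff_mk, PowerSeries.coeff_mk] at h1
      exact h1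
    obtain ⟨t, rfl⟩ := JA_form (left_ne_zero_of_mul h2)
    obtain ⟨s, rfl⟩ := JA_form (right_ne_zero_of_mul h2)
    exact h' ⟨(t, s), mem_coe.2 (mem_antidiagonal.2 (show t + s = l by omega)), rfl⟩
  · rintro ⟨t, s⟩ _
    show _ = PowerSeries.coeff (2 * t + a) (JS a) * PowerSeries.coeff (2 * s + b) (JS b)
    rw [JS, JS, PowerSeries.coeff_mk, PowerSeries.coeff_mk, Jc_at, Jc_at]

theorem JA_ch (t s a : ℕ) : ((t + s + a).choose t : ℝ) =
    ((t + s + a).factorial : ℝ) / ((t.factorial : ℝ) * ((s + a).factorial : ℝ)) := by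
  have h1 := Nat.choose_mul_factorial_mul_factorial (show t ≤ t + s + a by omega)
  have h2 : t + s + a - t = s + a := by omega
  rw [h2] at h1
  have f1 : (0 : ℝ) < t.factorial := by exact_mod_cast t.factorial_pos
  have f2 : (0 : ℝ) < (s + a).factorial := by exact_mod_cast (s + a).factorial_pos
  rw [eq_div_iff (by positivity), ← mul_assoc]
  exact_mod_cast h1

theorem J_zz (l : ℕ) : PowerSeries.coeff (2 * l) (JS 0 * JS 0) =
    ((2 * l).choose l : ℝ) / (l.factorial : ℝ) ^ 2 := by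
  have h1 := JA_conv 0 0 l
  have e0 : 2 * l + 0 + 0 = 2 * l := by omega
  rw [e0] at h1
  rw [h1, two_mul, Nat.add_choose_eq]
  push_cast
  rw [Finset.sum_div]
  refine Finset.sum_congr rfl fun p hp => ?_
  obtain ⟨t, s⟩ := p
  have h0 : t + s = l := mem_antidiagonal.1 hp
  have h2 := JA_ch t s 0
  have h3 := JA_ch s t 0
  rw [add_comm s t] at h3
  rw [Nat.add_zero, h0] at h2 h3
  have f1 : (0 : ℝ) < t.factorial := by exact_mod_cast t.factorial_pos
  have f2 : (0 : ℝ) < s.factorial := by exact_mod_cast s.factorial_pos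
  have f3 : (0 : ℝ) < l.factorial := by exact_mod_cast l.factorial_pos
  simp only [Nat.add_zero] at h2 h3 ⊢
  rw [h2, h3]
  field_simp

theorem J_oo (l : ℕ) : PowerSeries.coeff (2 * (l + 1)) (JS 1 * JS 1) =
    ((2 * (l + 1)).choose l : ℝ) / ((l + 1).factorial : ℝ) ^ 2 := by
  have h1 := JA_conv 1 1 l
  have e0 : 2 * l + 1 + 1 = 2 * (l + 1) := by omega
  rw [e0] at h1
  rw [h1, two_mul, Nat.add_choose_eq]
  push_cast
  rw [Finset.sum_div]
  refine Finset.sum_congr rfl fun p hp => ?_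
  obtain ⟨t, s⟩ := p
  have h0 : t + s = l := mem_antidiagonal.1 hp
  have h2 := JA_ch t s 1
  have h3 := JA_ch s t 1
  rw [add_comm s t] at h3
  rw [h0] at h2 h3
  have f1 : (0 : ℝ) < t.factorial := by exact_mod_cast t.factorial_pos
  have f2 : (0 : ℝ) < s.factorial := by exact_mod_cast s.factorial_pos
  have f3 : (0 : ℝ) < (l + 1).factorial := by exact_mod_cast (l + 1).factorial_pos
  have f4 : (0 : ℝ) < (t + 1).factorial := by exact_mod_cast (t + 1).factorial_pos
  have f5 : (0 : ℝ) < (s + 1).factorial := by exact_mod_cast (s + 1).factorial_pos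
  simp only []
  rw [h2, h3]
  field_simp

theorem J_odd {n : ℕ} (h : n % 2 = 1) : PowerSeries.coeff n (JS 1 * JS 1) = 0 ∧
    PowerSeries.coeff n (JS 0 * JS 0) = 0 := by
  have key : ∀ a : ℕ, PowerSeries.coeff n (JS a * JS a) = 0 := by
    intro a
    rw [PowerSeries.coeff_mul]
    refine Finset.sum_eq_zero fun p hp => ?_
    obtain ⟨i, j⟩ := p
    have h0 : i + j = n := mem_antidiagonal.1 hp
    by_contra h1
    have h2 : Jc a i * Jc a j ≠ 0 := by
      rw [JS, PowerSeries.coeff_mk, PowerSeries.coeff_mk] at h1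
      exact h1
    obtain ⟨t, rfl⟩ := JA_form (left_ne_zero_of_mul h2)
    obtain ⟨s, rfl⟩ := JA_form (right_ne_zero_of_mul h2)
    omega
  exact ⟨key 1, key 0⟩

theorem J_oo_le {n M : ℕ} (h : n ≤ 2 * M) : PowerSeries.coeff n (JS 1 * JS 1) ≤
    ((M : ℝ) + 1) / (M + 2) * PowerSeries.coeff n (JS 0 * JS 0) := by
  rcases Nat.even_or_odd' n with ⟨k, rfl | rfl⟩
  · rcases k with _ | l
    · have h1 : PowerSeries.coeff (2 * 0) (JS 1 * JS 1) = 0 := by
        rw [PowerSeries.coeff_mul]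
        refine Finset.sum_eq_zero fun p hp => ?_
        obtain ⟨i, j⟩ := p
        have h0 : i + j = 2 * 0 := mem_antidiagonal.1 hp
        show PowerSeries.coeff i (JS 1) * PowerSeries.coeff j (JS 1) = 0
        rw [JS, PowerSeries.coeff_mk, Jc_off (fun t ht => by omega), zero_mul]
      rw [h1, J_zz]
      positivity
    · rw [J_oo, J_zz]
      have h1 := Nat.choose_succ_right_eq (2 * (l + 1)) l
      have h2 : 2 * (l + 1) - l = l + 2 := by omega
      rw [h2] at h1
      have h3 : ((2 * (l + 1)).choose (l + 1) : ℝ) * ((l : ℝ) + 1) =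
          ((2 * (l + 1)).choose l : ℝ) * ((l : ℝ) + 2) := by exact_mod_cast h1
      have hl : (l : ℝ) ≤ M := by
        have : l ≤ M := by omega
        exact_mod_cast this
      have hl0 : (0 : ℝ) ≤ l := Nat.cast_nonneg l
      have hM : (0 : ℝ) ≤ M := Nat.cast_nonneg M
      have hc : (0 : ℝ) ≤ ((2 * (l + 1)).choose (l + 1) : ℝ) := Nat.cast_nonneg _
      have h4 : ((2 * (l + 1)).choose l : ℝ) ≤
          ((M : ℝ) + 1) / (M + 2) * ((2 * (l + 1)).choose (l + 1) : ℝ) := by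
        have h5 : ((2 * (l + 1)).choose l : ℝ) =
            ((l : ℝ) + 1) / (l + 2) * ((2 * (l + 1)).choose (l + 1) : ℝ) := by
          rw [div_mul_eq_mul_div, eq_div_iff (by positivity)]
          linarith
        rw [h5]
        refine mul_le_mul_of_nonneg_right ?_ hc
        rw [div_le_div_iff₀ (by positivity) (by positivity)]
        nlinarith
      rw [← mul_div_assoc]
      exact div_le_div_of_nonneg_right h4 (by positivity)
  · obtain ⟨h1, h2⟩ := J_odd (n := 2 * k + 1) (by omega)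
    rw [h1, h2, mul_zero]

end Pool.Agent.Lib.MP_eeed5c_coK
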