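import Pool.Agent.Lib.MP_eeed5c_co_K.JA

/-!
# Comparison of the coefficients `cN`

PROOFS. All the series `JS p` have nonnegative coefficients, so have their products (`PowerSeries.coeff_mul`). Multiplication lemma (`JB_mul`): if `A, B, C` have nonnegative coefficients and `A_n ≤ θ B_n` for all `n ≤ N`, then
`(A C)_n ≤ θ (B C)_n` for `n ≤ N`.
* `cN_nonneg`: immediate. `cN_zero`: the coefficient of `z^n` of `JS p` is 0 for `n < p`, so `∏ JS (p b)` has only terms of degree at least `∑ p b`
  (`Finset.prod_induction`-like induction on finite sets: all coefficients of `∏_{b ∈ s} JS (p b)` below `∑_{b ∈ s} p b` vanish).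
* `cN_step`: let `θ = (m+1)/(m+2)`, `p ≠ 0`, `∑ p` even. Then there is `p'` with `∑ p'` even, `∑ p' < ∑ p`, `cN p m ≤ θ cN p' m`. Case 1: some `p b ≥ 2`: `p' = Function.update p b (p b - 2)`: write the product as
  `JS (p b) * ∏_{others}` (`Finset.mul_prod_erase`), `Jc_two` with `M = m` and `JB_mul`. Case 2: all `p b ≤ 1`: the number of `b` with `p b = 1` is even and not 0, so there are `b ≠ b'` with `p b = p b' = 1`;
  `p' = update (update p b 0) b' 0`; take out both factors and use `J_oo_le`.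
* `cN_le`: strong induction on `∑ p`: `p = 0` is `c0` by definition; otherwise `cN_step` and `θ ≤ 1`.
* `cN_theta`: `cN_step` once, then `cN_le` for `p'`.
* `c0_pos`: by `c0_succ`: one term `(p.1, p.2) = (l, 0)` and `c0 q 0 = 1 > 0`.
* `c0_succ`: `Fin.prod_univ_succ`: `coeff (2 m) (JS 0 * P) = ∑_{i + j = 2 m} Jc 0 i * P_j`; the odd `i` vanish, `i = 2 t`, `j = 2 (m - t)`, `Jc 0 (2 t) = 1/(t!)^2` (`Jc_at`).
* `c0_zero`: the empty product is 1.
-/

set_option autoImplicit false

namespace Pool.Agent.Lib.MP_eeed5c_coK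

open Finset Pool.Agent.Lib.MP_eeed5c_co Pool.Agent.Lib.MP_eeed5c_coT Pool.Agent.Lib.MP_eeed5c_coX

theorem JB_coeff (p n : ℕ) : PowerSeries.coeff n (JS p) = Jc p n := by
  rw [JS, PowerSeries.coeff_mk]

theorem JB_nn {ι : Type*} (p : ι → ℕ) (s : Finset ι) (n : ℕ) :
    0 ≤ PowerSeries.coeff n (∏ b ∈ s, JS (p b)) := by
  classical
  induction s using Finset.induction_on generalizing n with
  | empty =>
    rw [Finset.prod_empty, PowerSeries.coeff_one]
    split
    · exact zero_le_one
    · exact le_refl _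
  | insert b s hb ih =>
    rw [Finset.prod_insert hb, PowerSeries.coeff_mul]
    refine Finset.sum_nonneg fun q _ => mul_nonneg ?_ (ih _)
    rw [JB_coeff]
    exact Jc_nonneg _ _

theorem JB_zero {ι : Type*} (p : ι → ℕ) (s : Finset ι) (n : ℕ) (h : n < ∑ b ∈ s, p b) :
    PowerSeries.coeff n (∏ b ∈ s, JS (p b)) = 0 := by
  classical
  induction s using Finset.induction_on generalizing n with
  | empty =>
    rw [Finset.sum_empty] at h
    omega
  | insert b s hb ih =>
    rw [Finset.sum_insert hb] at h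
    rw [Finset.prod_insert hb, PowerSeries.coeff_mul]
    refine Finset.sum_eq_zero fun q hq => ?_
    have hq' : q.1 + q.2 = n := mem_antidiagonal.1 hq
    by_cases h1 : q.1 < p b
    · rw [JB_coeff, Jc_off (fun t ht => by omega), zero_mul]
    · rw [ih q.2 (by omega), mul_zero]

theorem JB_mul {A B C : PowerSeries ℝ} {θ : ℝ} {N : ℕ} (hC : ∀ n, 0 ≤ PowerSeries.coeff n C)
    (h : ∀ n ≤ N, PowerSeries.coeff n A ≤ θ * PowerSeries.coeff n B) (n : ℕ) (hn : n ≤ N) :
    PowerSeries.coeff n (A * C) ≤ θ * PowerSeries.coeff n (B * C) := by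
  rw [PowerSeries.coeff_mul, PowerSeries.coeff_mul, Finset.mul_sum]
  refine Finset.sum_le_sum fun q hq => ?_
  have hq' : q.1 + q.2 = n := mem_antidiagonal.1 hq
  rw [← mul_assoc]
  exact mul_le_mul_of_nonneg_right (h q.1 (by omega)) (hC q.2)

theorem cN_nonneg {q : ℕ} (p : Fin q → ℕ) (l : ℕ) : 0 ≤ cN p l := by
  exact JB_nn p Finset.univ _

theorem cN_zero {q : ℕ} {p : Fin q → ℕ} {l : ℕ} (h : 2 * l < ∑ b, p b) : cN p l = 0 := by
  exact JB_zero p Finset.univ _ h

theorem cN_step {q : ℕ} {p : Fin q → ℕ} (hp : Even (∑ b, p b)) (h0 : p ≠ fun _ => 0) (m : ℕ) :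
    ∃ p' : Fin q → ℕ, Even (∑ b, p' b) ∧ ∑ b, p' b < ∑ b, p b ∧
      cN p m ≤ ((m : ℝ) + 1) / (m + 2) * cN p' m := by
  classical
  by_cases hc : ∃ b, 2 ≤ p b
  · obtain ⟨b, hb⟩ := hc
    have hs := Finset.sum_update_of_mem (Finset.mem_univ b) p (p b - 2)
    have hs' := Finset.add_sum_erase Finset.univ p (Finset.mem_univ b)
    have he : Finset.univ \ {b} = Finset.univ.erase b := Finset.sdiff_singleton_eq_erase b _
    rw [he] at hs
    have hsum : ∑ a, Function.update p b (p b - 2) a + 2 = ∑ a, p a := by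
      omega
    refine ⟨Function.update p b (p b - 2), ?_, by omega, ?_⟩
    · rw [← hsum, Nat.even_add] at hp
      exact hp.2 even_two
    · have h1 : ∏ a, JS (p a) = JS (p b) * ∏ a ∈ Finset.univ.erase b, JS (p a) :=
        (Finset.mul_prod_erase Finset.univ (fun a => JS (p a)) (Finset.mem_univ b)).symm
      have h2 : ∏ a, JS (Function.update p b (p b - 2) a) =
          JS (p b - 2) * ∏ a ∈ Finset.univ.erase b, JS (p a) := by
        rw [← Finset.mul_prod_erase Finset.univ
          (fun a => JS (Function.update p b (p b - 2) a)) (Finset.mem_univ b)]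
        rw [Function.update_self]
        congr 1
        refine Finset.prod_congr rfl fun a ha => ?_
        rw [Function.update_of_ne (Finset.ne_of_mem_erase ha)]
      rw [cN, cN, h1, h2]
      refine JB_mul (N := 2 * m) (JB_nn p _) (fun n hn => ?_) _ le_rfl
      rw [JB_coeff, JB_coeff]
      have h3 := Jc_two (p := p b - 2) hn
      have h4 : p b - 2 + 2 = p b := by omega
      rw [h4] at h3
      exact h3
  · have hle : ∀ b, p b ≤ 1 := by
      intro b
      by_contra h
      exact hc ⟨b, by omega⟩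
    obtain ⟨b, hb⟩ : ∃ b, p b ≠ 0 := by
      by_contra h
      apply h0
      funext b
      by_contra h1
      exact h ⟨b, h1⟩
    have hb1 : p b = 1 := by
      have := hle b
      omega
    have hs' := Finset.add_sum_erase Finset.univ p (Finset.mem_univ b)
    obtain ⟨b', hb', hb0⟩ : ∃ b' ∈ Finset.univ.erase b, p b' ≠ 0 := by
      by_contra h
      have h1 : ∑ a ∈ Finset.univ.erase b, p a = 0 := by
        refine Finset.sum_eq_zero fun a ha => ?_
        by_contra h2
        exact h ⟨a, ha, h2⟩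
      rw [h1, hb1] at hs'
      rw [← hs'] at hp
      exact absurd hp (by decide)
    have hb'1 : p b' = 1 := by
      have := hle b'
      omega
    have hne : b' ≠ b := Finset.ne_of_mem_erase hb'
    have hs'' := Finset.add_sum_erase (Finset.univ.erase b) p hb'
    set p' : Fin q → ℕ := Function.update (Function.update p b 0) b' 0 with hp'
    have hpb' : p' b' = 0 := Function.update_self _ _ _
    have hpb : p' b = 0 := by
      rw [hp', Function.update_of_ne hne.symm, Function.update_self]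
    have hpo : ∀ a ∈ (Finset.univ.erase b).erase b', p' a = p a := by
      intro a ha
      rw [hp', Function.update_of_ne (Finset.ne_of_mem_erase ha),
        Function.update_of_ne (Finset.ne_of_mem_erase (Finset.mem_of_mem_erase ha))]
    have ht' := Finset.add_sum_erase Finset.univ p' (Finset.mem_univ b)
    have ht'' := Finset.add_sum_erase (Finset.univ.erase b) p' hb'
    have ho : ∑ a ∈ (Finset.univ.erase b).erase b', p' a =
        ∑ a ∈ (Finset.univ.erase b).erase b', p a := Finset.sum_congr rfl hpo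
    have hsum : ∑ a, p' a + 2 = ∑ a, p a := by omega
    refine ⟨p', ?_, by omega, ?_⟩
    · rw [← hsum, Nat.even_add] at hp
      exact hp.2 even_two
    · have key : ∀ f : Fin q → ℕ, ∏ a, JS (f a) =
          (JS (f b) * JS (f b')) * ∏ a ∈ (Finset.univ.erase b).erase b', JS (f a) := by
        intro f
        rw [← Finset.mul_prod_erase Finset.univ (fun a => JS (f a)) (Finset.mem_univ b),
          ← Finset.mul_prod_erase (Finset.univ.erase b) (fun a => JS (f a)) hb', mul_assoc]
      rw [cN, cN, key p, key p', hb1, hb'1, hpb, hpb']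
      have h3 : ∏ a ∈ (Finset.univ.erase b).erase b', JS (p' a) =
          ∏ a ∈ (Finset.univ.erase b).erase b', JS (p a) :=
        Finset.prod_congr rfl fun a ha => by rw [hpo a ha]
      rw [h3]
      exact JB_mul (N := 2 * m) (JB_nn p _) (fun n hn => J_oo_le hn) _ le_rfl

theorem cN_le {q : ℕ} {p : Fin q → ℕ} (hp : Even (∑ b, p b)) (l : ℕ) : cN p l ≤ c0 q l := by
  obtain ⟨N, hN⟩ : ∃ N, N = ∑ b, p b := ⟨_, rfl⟩
  induction N using Nat.strong_induction_on generalizing p with
  | _ N ih =>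
    by_cases h0 : p = fun _ => 0
    · rw [h0]
      exact le_refl _
    · obtain ⟨p', h1, h2, h3⟩ := cN_step hp h0 l
      have h4 := ih (∑ b, p' b) (by omega) h1 rfl
      have h5 : ((l : ℝ) + 1) / (l + 2) ≤ 1 := by
        rw [div_le_one (by positivity)]
        linarith
      have h6 := mul_le_of_le_one_left (cN_nonneg p' l) h5
      linarith

theorem cN_theta {q : ℕ} {p : Fin q → ℕ} (hp : Even (∑ b, p b)) (h0 : p ≠ fun _ => 0) (m : ℕ) :
    cN p m ≤ ((m : ℝ) + 1) / (m + 2) * c0 q m := by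
  obtain ⟨p', h1, _, h3⟩ := cN_step hp h0 m
  exact h3.trans (mul_le_mul_of_nonneg_left (cN_le h1 m) (by positivity))

theorem c0_zero (m : ℕ) : c0 0 m = if m = 0 then 1 else 0 := by
  rw [c0, cN, Finset.univ_eq_empty, Finset.prod_empty, PowerSeries.coeff_one]
  by_cases h : m = 0
  · rw [if_pos h, if_pos (by omega)]
  · rw [if_neg h, if_neg (by omega)]

theorem c0_succ (q m : ℕ) : c0 (q + 1) m =
    ∑ p ∈ antidiagonal m, 1 / (p.1.factorial : ℝ) ^ 2 * c0 q p.2 := by
  rw [c0, cN, Fin.prod_univ_succ, PowerSeries.coeff_mul]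
  symm
  refine Finset.sum_of_injOn (fun p : ℕ × ℕ => (2 * p.1, 2 * p.2)) ?_ ?_ ?_ ?_
  · rintro ⟨t, s⟩ _ ⟨t', s'⟩ _ h
    have h1 : 2 * t = 2 * t' := congrArg Prod.fst h
    have h2 : 2 * s = 2 * s' := congrArg Prod.snd h
    exact Prod.ext (by omega) (by omega)
  · rintro ⟨t, s⟩ h
    have h0 : t + s = m := mem_antidiagonal.1 h
    exact mem_coe.2 (mem_antidiagonal.2 (show 2 * t + 2 * s = 2 * m by omega))
  · rintro ⟨i, j⟩ h h'
    have h0 : i + j = 2 * m := mem_antidiagonal.1 h
    show PowerSeries.coeff i (JS 0) * _ = 0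
    rw [JB_coeff, Jc_off, zero_mul]
    intro t ht
    exact h' ⟨(t, m - t), mem_coe.2 (mem_antidiagonal.2 (show t + (m - t) = m by omega)),
      Prod.ext (show 2 * t = i by omega) (show 2 * (m - t) = j by omega)⟩
  · rintro ⟨t, s⟩ _
    show _ = PowerSeries.coeff (2 * t) (JS 0) * PowerSeries.coeff (2 * s) (∏ _b : Fin q, JS 0)
    have h1 := Jc_at 0 t
    rw [Nat.add_zero] at h1
    rw [JB_coeff, h1, Nat.add_zero, ← pow_two]
    rfl

theorem c0_pos {q : ℕ} (hq : 1 ≤ q) (l : ℕ) : 0 < c0 q l := by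
  have h0 : ∀ q : ℕ, 0 < c0 q 0 := by
    intro q
    induction q with
    | zero =>
      rw [c0_zero, if_pos rfl]
      exact one_pos
    | succ q ih =>
      rw [c0_succ, Finset.Nat.antidiagonal_zero, Finset.sum_singleton]
      exact mul_pos (by positivity) ih
  obtain ⟨k, rfl⟩ : ∃ k, q = k + 1 := ⟨q - 1, by omega⟩
  rw [c0_succ]
  have h1 : 0 < 1 / (l.factorial : ℝ) ^ 2 * c0 k 0 := mul_pos (by positivity) (h0 k)
  refine lt_of_lt_of_le h1 (Finset.single_le_sum
    (f := fun p : ℕ × ℕ => 1 / (p.1.factorial : ℝ) ^ 2 * c0 k p.2) (fun p _ => ?_)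
    (show ((l, 0) : ℕ × ℕ) ∈ antidiagonal l from mem_antidiagonal.2 rfl))
  exact mul_nonneg (by positivity) (cN_nonneg _ _)

end Pool.Agent.Lib.MP_eeed5c_coK
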