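import Pool.Agent.Lib.MP_eeed5c_co_K.JB

/-!
# Values of the series

PROOFS. `z ≥ 0`.
* `Jv_summable`: `Jc p n z^n ≤ (2 z)^n / n!` (`Jc_le`), `Real.summable_pow_div_factorial`.
* `Jv_prod`: for finite sets `s` of indices: `HasSum (fun n => coeff n (∏_{b ∈ s} JS (p b)) * z^n) (∏_{b ∈ s} Jv (p b) z)`, by induction on `s`. Empty: only `n = 0` counts (`hasSum_single` / `hasSum_ite_eq`). Step: Cauchy product of two summable
  nonnegative series (`tsum_mul_tsum_eq_tsum_sum_antidiagonal_of_summable_norm`, `summable_norm_sum_mul_antidiagonal_of_summable_norm`), and `coeff n (A * B) z^n = ∑_{i+j=n} (A_i z^i)(B_j z^j)` (`PowerSeries.coeff_mul`).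
* `odd_zero`: for `∑ p` even the coefficient of `z^n`, `n` odd, of `∏ JS (p b)` is 0: by induction on the finite set, the coefficient of `z^n` of `∏_{b ∈ s} JS (p b)` vanishes unless `n ≡ ∑_{b ∈ s} p b` mod 2.
* `cN_sum`: `Jv_prod`, restricted to even `n` (`Function.Injective.hasSum_iff` for `l ↦ 2 * l`, the other terms vanish by `odd_zero`).
* `c0_sum`: `cN_sum` with `p = 0`, `Finset.prod_const`.
* `Jv_ge`: one term (`Summable.le_tsum`): `Jc 0 (2 j) z^(2j) = z^(2j)/(j!)^2`. `one_le_Jv`: `j = 0`.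
-/

set_option autoImplicit false

namespace Pool.Agent.Lib.MP_eeed5c_coK

open Finset Pool.Agent.Lib.MP_eeed5c_co Pool.Agent.Lib.MP_eeed5c_coT Pool.Agent.Lib.MP_eeed5c_coX

theorem Jv_summable (p : ℕ) {z : ℝ} (hz : 0 ≤ z) : Summable (fun n => Jc p n * z ^ n) := by
  refine Summable.of_nonneg_of_le (fun n => mul_nonneg (Jc_nonneg p n) (pow_nonneg hz n)) (fun n => ?_)
    (Real.summable_pow_div_factorial (2 * z))
  calc Jc p n * z ^ n ≤ 2 ^ n / (n.factorial : ℝ) * z ^ n := mul_le_mul_of_nonneg_right (Jc_le p n) (pow_nonneg hz n)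
    _ = (2 * z) ^ n / (n.factorial : ℝ) := by
      rw [mul_pow]
      ring

theorem Jv_nonneg (p : ℕ) {z : ℝ} (hz : 0 ≤ z) : 0 ≤ Jv p z := by
  exact tsum_nonneg fun n => mul_nonneg (Jc_nonneg p n) (pow_nonneg hz n)

private theorem JC_cauchy {f g : ℕ → ℝ} (hf : ∀ n, 0 ≤ f n) (hg : ∀ n, 0 ≤ g n) {a b : ℝ} (ha : HasSum f a) (hb : HasSum g b) :
    HasSum (fun n => ∑ x ∈ antidiagonal n, f x.1 * g x.2) (a * b) := by
  have hf' : Summable fun n => ‖f n‖ := ha.summable.congr fun n => (Real.norm_of_nonneg (hf n)).symm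
  have hg' : Summable fun n => ‖g n‖ := hb.summable.congr fun n => (Real.norm_of_nonneg (hg n)).symm
  have h1 := tsum_mul_tsum_eq_tsum_sum_antidiagonal_of_summable_norm hf' hg'
  have h2 := (summable_norm_sum_mul_antidiagonal_of_summable_norm hf' hg').of_norm
  rw [ha.tsum_eq, hb.tsum_eq] at h1
  rw [h1]
  exact h2.hasSum

private theorem JC_coeff (p n : ℕ) : PowerSeries.coeff n (JS p) = Jc p n := by
  unfold JS
  rw [PowerSeries.coeff_mk]

private theorem JC_prod {ι : Type*} [DecidableEq ι] (p : ι → ℕ) {z : ℝ} (hz : 0 ≤ z) (s : Finset ι) :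
    (∀ n, 0 ≤ PowerSeries.coeff n (∏ b ∈ s, JS (p b))) ∧
      HasSum (fun n => PowerSeries.coeff n (∏ b ∈ s, JS (p b)) * z ^ n) (∏ b ∈ s, Jv (p b) z) := by
  induction s using Finset.induction_on with
  | empty =>
    rw [Finset.prod_empty, Finset.prod_empty]
    refine ⟨fun n => ?_, ?_⟩
    · rw [PowerSeries.coeff_one]
      split_ifs
      · exact zero_le_one
      · exact le_rfl
    · have h1 := hasSum_single (f := fun n => PowerSeries.coeff n (1 : PowerSeries ℝ) * z ^ n) 0 (fun n hn => by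
        show PowerSeries.coeff n (1 : PowerSeries ℝ) * z ^ n = 0
        rw [PowerSeries.coeff_one, if_neg hn, zero_mul])
      rw [PowerSeries.coeff_one, if_pos rfl, pow_zero, one_mul] at h1
      exact h1
  | insert a s ha ih =>
    obtain ⟨h1, h2⟩ := ih
    rw [Finset.prod_insert ha, Finset.prod_insert ha]
    refine ⟨fun n => ?_, ?_⟩
    · rw [PowerSeries.coeff_mul]
      refine Finset.sum_nonneg fun x _ => mul_nonneg ?_ (h1 _)
      rw [JC_coeff]
      exact Jc_nonneg _ _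
    · have h3 : HasSum (fun n => Jc (p a) n * z ^ n) (Jv (p a) z) := (Jv_summable (p a) hz).hasSum
      have h4 := JC_cauchy (fun n => mul_nonneg (Jc_nonneg (p a) n) (pow_nonneg hz n))
        (fun n => mul_nonneg (h1 n) (pow_nonneg hz n)) h3 h2
      have h5 : (fun n => PowerSeries.coeff n (JS (p a) * ∏ b ∈ s, JS (p b)) * z ^ n) =
          fun n => ∑ x ∈ antidiagonal n, Jc (p a) x.1 * z ^ x.1 * (PowerSeries.coeff x.2 (∏ b ∈ s, JS (p b)) * z ^ x.2) := by
        funext n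
        rw [PowerSeries.coeff_mul, Finset.sum_mul]
        refine Finset.sum_congr rfl fun x hx => ?_
        rw [JC_coeff, ← Finset.HasAntidiagonal.mem_antidiagonal.1 hx, pow_add]
        ring
      rw [h5]
      exact h4

private theorem JC_odd {ι : Type*} [DecidableEq ι] (p : ι → ℕ) (s : Finset ι) :
    ∀ n, n % 2 ≠ (∑ b ∈ s, p b) % 2 → PowerSeries.coeff n (∏ b ∈ s, JS (p b)) = 0 := by
  induction s using Finset.induction_on with
  | empty =>
    intro n hn
    rw [Finset.prod_empty, PowerSeries.coeff_one, if_neg]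
    rintro rfl
    exact hn rfl
  | insert a s ha ih =>
    intro n hn
    rw [Finset.prod_insert ha, PowerSeries.coeff_mul]
    rw [Finset.sum_insert ha] at hn
    refine Finset.sum_eq_zero fun x hx => ?_
    have h1 := Finset.HasAntidiagonal.mem_antidiagonal.1 hx
    by_cases h2 : x.1 % 2 = p a % 2
    · rw [ih x.2 (by omega), mul_zero]
    · rw [JC_coeff, Jc_off (fun t ht => h2 (by omega)), zero_mul]

theorem Jv_prod {q : ℕ} (p : Fin q → ℕ) {z : ℝ} (hz : 0 ≤ z) :
    HasSum (fun n => PowerSeries.coeff n (∏ b, JS (p b)) * z ^ n) (∏ b, Jv (p b) z) := by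
  exact (JC_prod p hz Finset.univ).2

theorem odd_zero {q : ℕ} {p : Fin q → ℕ} (hp : Even (∑ b, p b)) {n : ℕ} (hn : n % 2 = 1) :
    PowerSeries.coeff n (∏ b, JS (p b)) = 0 := by
  refine JC_odd p Finset.univ n ?_
  rw [hn, Nat.even_iff.1 hp]
  exact one_ne_zero

theorem cN_sum {q : ℕ} {p : Fin q → ℕ} (hp : Even (∑ b, p b)) {z : ℝ} (hz : 0 ≤ z) :
    HasSum (fun l => cN p l * z ^ (2 * l)) (∏ b, Jv (p b) z) := by
  have h1 := Jv_prod p hz
  have hinj : Function.Injective fun l : ℕ => 2 * l := fun a b h => by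
    have h2 : 2 * a = 2 * b := h
    omega
  have h2 := (hinj.hasSum_iff (f := fun n => PowerSeries.coeff n (∏ b, JS (p b)) * z ^ n) (a := ∏ b, Jv (p b) z) (by
    intro n hn
    have h3 : n % 2 = 1 := by
      by_contra h4
      exact hn ⟨n / 2, by
        show 2 * (n / 2) = n
        omega⟩
    show PowerSeries.coeff n (∏ b, JS (p b)) * z ^ n = 0
    rw [odd_zero hp h3, zero_mul])).2 h1
  exact h2

theorem c0_sum (q : ℕ) {z : ℝ} (hz : 0 ≤ z) :
    HasSum (fun l => c0 q l * z ^ (2 * l)) (Jv 0 z ^ q) := by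
  have h1 := cN_sum (q := q) (p := fun _ => 0) (by
    rw [Finset.sum_const_zero]
    exact Even.zero) hz
  rw [Finset.prod_const, Finset.card_univ, Fintype.card_fin] at h1
  exact h1

theorem Jv_ge (j : ℕ) {z : ℝ} (hz : 0 ≤ z) : z ^ (2 * j) / (j.factorial : ℝ) ^ 2 ≤ Jv 0 z := by
  have h1 := (Jv_summable 0 hz).le_tsum (2 * j) (fun n _ => mul_nonneg (Jc_nonneg 0 n) (pow_nonneg hz n))
  have h2 : Jc 0 (2 * j) = 1 / ((j.factorial : ℝ) * (j.factorial : ℝ)) := Jc_at 0 j
  rw [h2] at h1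
  refine le_trans (le_of_eq ?_) h1
  rw [pow_two (j.factorial : ℝ)]
  ring

theorem one_le_Jv {z : ℝ} (hz : 0 ≤ z) : 1 ≤ Jv 0 z := by
  have h1 := Jv_ge 0 hz
  simp at h1
  exact h1

end Pool.Agent.Lib.MP_eeed5c_coK
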