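import Pool.Agent.Lib.MP_eeed5c_co_K.JC

/-!
# The quotients `J_p / J_0` for large `z`

PROOFS.
* `Jv_rec`: `∑_n (Jc p n - Jc (p+2) n) z^n = (p+1) ∑_n Jc (p+1) (n+1) z^n` (`Jc_diff`) and `z ∑_n Jc (p+1) (n+1) z^n = Jv (p+1) z` because `Jc (p+1) 0 = 0` (`Summable.tsum_eq_zero_add`).
* `Jv_anti`: `Jc (p+1) (n+1) z^(n+1) ≤ (Jc p n z^n + Jc p (n+2) z^(n+2)) / 2` for every `n`: for `n = 2 t + p` (otherwise all are 0): with `u = z^n/(t! (t+p)!)`, `u' = z^(n+2)/((t+1)! (t+p+1)!)`, `v = z^(n+1)/(t! (t+p+1)!)`: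
  `v^2 / (u u') = (t+1)/(t+p+1) ≤ 1`, so `v ≤ √(u u') ≤ (u + u')/2` (equivalently `4 v^2 ≤ 4 u u' ≤ (u+u')^2`, `abs_le_of_sq_le_sq`). Sum over `n`: `Jv (p+1) z ≤ (Jv p z + Jv p z)/2` (`∑_n Jc p (n+2) z^(n+2) ≤ Jv p z`).
* `Jv_low`: induction on `p`: `Jv (p+1) ≥ Jv (p+2) = Jv p - (p+1)/z Jv (p+1) ≥ Jv p - (p+1)/z Jv 0` (`Jv_anti`, `Jv_rec`, `Jv (p+1) ≤ Jv 0`), and `p(p+1)/2 + (p+1) = (p+1)(p+2)/2`.
* `Jv_prod_low`: let `ρ_b = Jv (p b) z / Jv 0 z ∈ [0,1]`, `1 - ρ_b ≤ p_b (p_b+1)/(2 z)`. `∏ ρ_b ≥ 1 - ∑ (1 - ρ_b)` (`Finset.prod_add_prod_le`-like; by induction: for numbers in `[0,1]`, or Mathlib `one_sub_sum_le_prod_one_sub`/Weierstrass), and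
  `∑ p_b (p_b+1)/2 ≤ P (P+1)/2 ≤ m (2m+1)` with `P = ∑ p_b ≤ 2 m` (`p_b ≤ P`).
-/

set_option autoImplicit false

namespace Pool.Agent.Lib.MP_eeed5c_coK

open Finset Pool.Agent.Lib.MP_eeed5c_co Pool.Agent.Lib.MP_eeed5c_coT Pool.Agent.Lib.MP_eeed5c_coX

private theorem JD_zero (p : ℕ) : Jc (p + 1) 0 = 0 := Jc_off (fun t h => by omega)

private theorem JD_shift (p : ℕ) {z : ℝ} (hz : 0 ≤ z) :
    Jv (p + 1) z = ∑' n, Jc (p + 1) (n + 1) * z ^ (n + 1) := by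
  have s1 := Jv_summable (p + 1) hz
  rw [Jv, s1.tsum_eq_zero_add, JD_zero, zero_mul, zero_add]

theorem Jv_rec (p : ℕ) {z : ℝ} (hz : 0 < z) :
    Jv p z - Jv (p + 2) z = ((p : ℝ) + 1) / z * Jv (p + 1) z := by
  have s0 := Jv_summable p hz.le
  have s2 := Jv_summable (p + 2) hz.le
  have h1 : Jv p z - Jv (p + 2) z = ∑' n, (Jc p n * z ^ n - Jc (p + 2) n * z ^ n) := by
    rw [Jv, Jv, s0.tsum_sub s2]
  rw [h1, JD_shift p hz.le, ← tsum_mul_left]
  refine tsum_congr fun n => ?_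
  have h3 := Jc_diff p n
  have h4 : ((p : ℝ) + 1) / z * (Jc (p + 1) (n + 1) * z ^ (n + 1)) =
      ((p : ℝ) + 1) * Jc (p + 1) (n + 1) * z ^ n := by
    rw [pow_succ]
    field_simp
  rw [h4, ← h3, sub_mul]

private theorem JD_real {z a b F y : ℝ} (ha : 0 < a) (hab : a ≤ b) (hF : 0 ≤ F) (hy : 0 ≤ y) :
    F / b * (y * z) ≤ (F * y + F / (a * b) * (y * z ^ 2)) / 2 := by
  have hb : 0 < b := ha.trans_le hab
  have h1 : F / b * (y * z) = F * y * (2 * a * z) / (2 * a * b) := by field_simp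
  have h2 : (F * y + F / (a * b) * (y * z ^ 2)) / 2 = F * y * (a * b + z ^ 2) / (2 * a * b) := by
    field_simp
  rw [h1, h2]
  have h3 : 2 * a * z ≤ a * b + z ^ 2 := by nlinarith [sq_nonneg (a - z), mul_le_mul_of_nonneg_left hab ha.le]
  have h4 : 0 ≤ F * y := mul_nonneg hF hy
  exact div_le_div_of_nonneg_right (mul_le_mul_of_nonneg_left h3 h4) (by positivity)

private theorem JD_term (p n : ℕ) {z : ℝ} (hz : 0 ≤ z) : Jc (p + 1) (n + 1) * z ^ (n + 1) ≤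
    (Jc p n * z ^ n + Jc p (n + 2) * z ^ (n + 2)) / 2 := by
  by_cases h : ∃ t, n = 2 * t + p
  · obtain ⟨t, rfl⟩ := h
    have e1 : 2 * t + p + 1 = 2 * t + (p + 1) := by ring
    have e2 : 2 * t + p + 2 = 2 * (t + 1) + p := by ring
    have f1 : Jc (p + 1) (2 * t + p + 1) =
        (1 / ((t.factorial : ℝ) * ((t + p).factorial : ℝ))) / ((t : ℝ) + p + 1) := by
      rw [e1, Jc_at, ← add_assoc, Nat.factorial_succ (t + p)]
      push_cast
      have := Nat.factorial_pos t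
      have := Nat.factorial_pos (t + p)
      field_simp
    have f2 : Jc p (2 * t + p + 2) =
        (1 / ((t.factorial : ℝ) * ((t + p).factorial : ℝ))) / (((t : ℝ) + 1) * ((t : ℝ) + p + 1)) := by
      rw [e2, Jc_at, Nat.factorial_succ t, show t + 1 + p = (t + p) + 1 by ring,
        Nat.factorial_succ (t + p)]
      push_cast
      have := Nat.factorial_pos t
      have := Nat.factorial_pos (t + p)
      field_simp
    rw [f1, f2, Jc_at]
    have h5 := JD_real (z := z) (a := (t : ℝ) + 1) (b := (t : ℝ) + p + 1)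
      (F := 1 / ((t.factorial : ℝ) * ((t + p).factorial : ℝ))) (y := z ^ (2 * t + p))
      (by positivity) (by have : (0 : ℝ) ≤ p := Nat.cast_nonneg p
                          linarith) (by positivity) (pow_nonneg hz _)
    rw [← pow_succ, ← pow_add] at h5
    exact h5
  · have h1 : Jc (p + 1) (n + 1) = 0 := Jc_off (fun t ht => h ⟨t, by omega⟩)
    rw [h1, zero_mul]
    have h2 := mul_nonneg (Jc_nonneg p n) (pow_nonneg hz n)
    have h3 := mul_nonneg (Jc_nonneg p (n + 2)) (pow_nonneg hz (n + 2))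
    linarith

theorem Jv_anti (p : ℕ) {z : ℝ} (hz : 0 ≤ z) : Jv (p + 1) z ≤ Jv p z := by
  have s0 := Jv_summable p hz
  have s1 := Jv_summable (p + 1) hz
  have s1' : Summable (fun n => Jc (p + 1) (n + 1) * z ^ (n + 1)) :=
    (summable_nat_add_iff (f := fun n => Jc (p + 1) n * z ^ n) 1).2 s1
  have s2 : Summable (fun n => Jc p (n + 2) * z ^ (n + 2)) :=
    (summable_nat_add_iff (f := fun n => Jc p n * z ^ n) 2).2 s0
  have h2 : ∑' n, Jc p (n + 2) * z ^ (n + 2) ≤ Jv p z := by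
    have h3 := s0.sum_add_tsum_nat_add 2
    have h4 : 0 ≤ ∑ i ∈ range 2, Jc p i * z ^ i :=
      Finset.sum_nonneg fun i _ => mul_nonneg (Jc_nonneg p i) (pow_nonneg hz i)
    rw [Jv]
    linarith
  have h5 : Jv (p + 1) z ≤ ∑' n, (Jc p n * z ^ n + Jc p (n + 2) * z ^ (n + 2)) / 2 := by
    rw [JD_shift p hz]
    exact s1'.tsum_le_tsum (fun n => JD_term p n hz) ((s0.add s2).div_const 2)
  rw [tsum_div_const, s0.tsum_add s2] at h5
  have h6 : ∑' n, Jc p n * z ^ n = Jv p z := rfl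
  rw [h6] at h5
  linarith

private theorem JD_le0 (p : ℕ) {z : ℝ} (hz : 0 ≤ z) : Jv p z ≤ Jv 0 z := by
  induction p with
  | zero => exact le_refl _
  | succ p ih => exact (Jv_anti p hz).trans ih

theorem Jv_low (p : ℕ) {z : ℝ} (hz : 0 < z) :
    (1 - (p : ℝ) * (p + 1) / (2 * z)) * Jv 0 z ≤ Jv p z := by
  induction p with
  | zero => simp
  | succ p ih =>
    have h1 := Jv_anti (p + 1) hz.le
    have h2 := Jv_rec p hz
    have h3 := JD_le0 (p + 1) hz.le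
    have h4 : ((p : ℝ) + 1) / z * Jv (p + 1) z ≤ ((p : ℝ) + 1) / z * Jv 0 z :=
      mul_le_mul_of_nonneg_left h3 (by positivity)
    have h5 : (1 - ((p + 1 : ℕ) : ℝ) * ((p + 1 : ℕ) + 1) / (2 * z)) * Jv 0 z =
        (1 - (p : ℝ) * (p + 1) / (2 * z)) * Jv 0 z - ((p : ℝ) + 1) / z * Jv 0 z := by
      push_cast
      field_simp
      ring
    rw [h5]
    have h6 : p + 1 + 1 = p + 2 := rfl
    rw [h6] at h1
    linarith

private theorem JD_weier {q : ℕ} (p : Fin q → ℕ) {z : ℝ} (hz : 0 < z) (s : Finset (Fin q)) :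
    (1 - ∑ b ∈ s, (p b : ℝ) * (p b + 1) / (2 * z)) * Jv 0 z ^ s.card ≤ ∏ b ∈ s, Jv (p b) z ∧
      ∏ b ∈ s, Jv (p b) z ≤ Jv 0 z ^ s.card := by
  classical
  induction s using Finset.induction_on with
  | empty => simp
  | insert a s ha ih =>
    obtain ⟨ih1, ih2⟩ := ih
    have hJ : 0 ≤ Jv 0 z := Jv_nonneg 0 hz.le
    rw [Finset.sum_insert ha, Finset.prod_insert ha, Finset.card_insert_of_notMem ha]
    have h1 := Jv_low (p a) hz
    have h2 := JD_le0 (p a) hz.le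
    have h3 := Jv_nonneg (p a) hz.le
    have h4 : 0 ≤ Jv 0 z ^ s.card := pow_nonneg hJ _
    have h5 : 0 ≤ ∏ b ∈ s, Jv (p b) z := Finset.prod_nonneg fun b _ => Jv_nonneg (p b) hz.le
    generalize (∏ b ∈ s, Jv (p b) z) = P at *
    generalize (∑ b ∈ s, (p b : ℝ) * (p b + 1) / (2 * z)) = S at *
    generalize ((p a : ℝ) * (p a + 1) / (2 * z)) = E at *
    generalize Jv (p a) z = X at *
    rw [pow_succ]
    generalize Jv 0 z ^ s.card = Q at *
    generalize Jv 0 z = J at *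
    constructor
    · have h6 : 0 ≤ (J - X) * (Q - P) := mul_nonneg (by linarith) (by linarith)
      have h7 : (1 - E) * J * Q ≤ X * Q := mul_le_mul_of_nonneg_right h1 h4
      have h8 : J * ((1 - S) * Q) ≤ J * P := mul_le_mul_of_nonneg_left ih1 hJ
      linarith
    · calc X * P ≤ J * Q := mul_le_mul h2 ih2 h5 hJ
        _ = Q * J := mul_comm _ _

theorem Jv_prod_low {q m : ℕ} {p : Fin q → ℕ} (hp : ∑ b, p b ≤ 2 * m) {z : ℝ} (hz : 0 < z) :
    (1 - (m : ℝ) * (2 * m + 1) / z) * Jv 0 z ^ q ≤ ∏ b, Jv (p b) z := by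
  have h1 := (JD_weier p hz Finset.univ).1
  rw [Finset.card_univ, Fintype.card_fin] at h1
  refine le_trans (mul_le_mul_of_nonneg_right ?_ (pow_nonneg (Jv_nonneg 0 hz.le) q)) h1
  have h2 : ∑ b, p b * (p b + 1) ≤ 2 * m * (2 * m + 1) := by
    calc ∑ b, p b * (p b + 1) ≤ ∑ b, p b * (2 * m + 1) := by
          refine Finset.sum_le_sum fun b hb => Nat.mul_le_mul_left _ ?_
          have h3 : p b ≤ ∑ c, p c := Finset.single_le_sum (fun c _ => Nat.zero_le _) hb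
          omega
      _ = (∑ b, p b) * (2 * m + 1) := by rw [Finset.sum_mul]
      _ ≤ 2 * m * (2 * m + 1) := Nat.mul_le_mul_right _ hp
  have h3 : ∑ b, (p b : ℝ) * (p b + 1) / (2 * z) = ((∑ b, p b * (p b + 1) : ℕ) : ℝ) / (2 * z) := by
    rw [← Finset.sum_div]
    push_cast
    rfl
  have h4 : ((∑ b, p b * (p b + 1) : ℕ) : ℝ) ≤ 2 * m * (2 * m + 1) := by exact_mod_cast h2
  have h5 : ((∑ b, p b * (p b + 1) : ℕ) : ℝ) / (2 * z) ≤ 2 * m * (2 * m + 1) / (2 * z) :=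
    div_le_div_of_nonneg_right h4 (by positivity)
  have h6 : 2 * (m : ℝ) * (2 * m + 1) / (2 * z) = (m : ℝ) * (2 * m + 1) / z := by
    field_simp
  rw [h3]
  rw [h6] at h5
  linarith

end Pool.Agent.Lib.MP_eeed5c_coK
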