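import Pool.Agent.Lib.MP_eeed5c_co_K.JD

/-!
# Truncated sums

PROOFS.
* `trunc`: `c0_sum` is summable, so there is `m1` such that for all `M ≥ m1` the tail `∑_{l ≥ M+1} c0 q l z^(2l) ≤ η Jv 0 z ^ q` (`Jv 0 z ^ q ≥ 1 > 0`; e.g. the partial sums tend to the total: `HasSum.tendsto_sum_nat`, `Metric.tendsto_atTop`). For `p` with `∑ p` even:
  `∏ Jv (p b) z = ∑_l cN p l z^(2l) = ∑_{l < m} + ∑_{m ≤ l ≤ M} + tail` with `∑_{l<m} cN p l z^(2l) ≤ ∑_{l<m} c0 q l z^(2l)` and `tail ≤ ∑_{l > M} c0 q l z^(2l)` (`cN_le`, `cN_sum`; `Summable.sum_add_tsum_nat_add`).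
* `head_small`: for `z ≥ 1`: `∑_{l<m} c0 q l z^(2l) ≤ C z^(2m-2)`, `C = ∑_{l<m} c0 q l` (if `m = 0` the sum is empty), and `Jv 0 z ^ q ≥ c0 q m z^(2m)` (one term of `c0_sum`), `c0 q m > 0`. So `Z0 = max 1 (√(C/(η c0 q m)))` works; simpler `Z0 = 1 + C/(η c0 q m)`
  (`z^2 ≥ z ≥ C/(η c0 q m)`).
-/

set_option autoImplicit false

namespace Pool.Agent.Lib.MP_eeed5c_coK

open Finset Pool.Agent.Lib.MP_eeed5c_co Pool.Agent.Lib.MP_eeed5c_coT Pool.Agent.Lib.MP_eeed5c_coX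

private theorem JE_nonneg {q : ℕ} (p : Fin q → ℕ) {z : ℝ} (hz : 0 ≤ z) (l : ℕ) : 0 ≤ cN p l * z ^ (2 * l) :=
  mul_nonneg (cN_nonneg p l) (pow_nonneg hz _)

theorem trunc (q m : ℕ) {z η : ℝ} (hz : 0 ≤ z) (hη : 0 < η) :
    ∃ m1 : ℕ, ∀ M, m1 ≤ M → ∀ p : Fin q → ℕ, Even (∑ b, p b) →
      ∏ b, Jv (p b) z - ∑ l ∈ range m, c0 q l * z ^ (2 * l) - η * Jv 0 z ^ q ≤
        ∑ l ∈ Ico m (M + 1), cN p l * z ^ (2 * l) := by
  set S : ℝ := Jv 0 z ^ q with hS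
  have hS1 : 1 ≤ S := one_le_pow₀ (one_le_Jv hz)
  have hηS : 0 < η * S := mul_pos hη (by linarith)
  have h0 := c0_sum q hz
  obtain ⟨N0, hN0⟩ := (Metric.tendsto_atTop.1 h0.tendsto_sum_nat) (η * S) hηS
  refine ⟨max N0 m, fun M hM p hp => ?_⟩
  have hM1 : N0 ≤ M + 1 := (le_max_left _ _).trans (hM.trans (Nat.le_succ M))
  have hM2 : m ≤ M + 1 := (le_max_right _ _).trans (hM.trans (Nat.le_succ M))
  have h1 := hN0 (M + 1) hM1
  rw [Real.dist_eq, ← hS] at h1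
  have h2 := (abs_lt.1 h1).1
  -- comparison of the tails
  have h3 := cN_sum hp hz
  have h4 : HasSum (fun l => c0 q l * z ^ (2 * l) - cN p l * z ^ (2 * l)) (S - ∏ b, Jv (p b) z) := h0.sub h3
  have h5 : ∑ l ∈ range (M + 1), (c0 q l * z ^ (2 * l) - cN p l * z ^ (2 * l)) ≤ S - ∏ b, Jv (p b) z := by
    refine sum_le_hasSum _ (fun l _ => ?_) h4
    exact sub_nonneg.2 (mul_le_mul_of_nonneg_right (cN_le hp l) (pow_nonneg hz _))
  rw [Finset.sum_sub_distrib] at h5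
  have h6 : ∑ l ∈ Ico m (M + 1), cN p l * z ^ (2 * l) =
      ∑ l ∈ range (M + 1), cN p l * z ^ (2 * l) - ∑ l ∈ range m, cN p l * z ^ (2 * l) :=
    Finset.sum_Ico_eq_sub _ hM2
  have h7 : ∑ l ∈ range m, cN p l * z ^ (2 * l) ≤ ∑ l ∈ range m, c0 q l * z ^ (2 * l) :=
    Finset.sum_le_sum fun l _ => mul_le_mul_of_nonneg_right (cN_le hp l) (pow_nonneg hz _)
  rw [h6]
  linarith

theorem head_small {q : ℕ} (hq : 1 ≤ q) (m : ℕ) {η : ℝ} (hη : 0 < η) :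
    ∃ Z0 : ℝ, 1 ≤ Z0 ∧ ∀ z, Z0 ≤ z →
      ∑ l ∈ range m, c0 q l * z ^ (2 * l) ≤ η * Jv 0 z ^ q := by
  set C : ℝ := ∑ l ∈ range m, c0 q l with hC
  have hC0 : 0 ≤ C := Finset.sum_nonneg fun l _ => cN_nonneg _ l
  have hc := c0_pos hq m
  refine ⟨1 + C / (η * c0 q m), ?_, fun z hz => ?_⟩
  · have : 0 ≤ C / (η * c0 q m) := by positivity
    linarith
  have hq0 : 0 ≤ C / (η * c0 q m) := by positivity
  have hz1 : 1 ≤ z := by linarith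
  have hz0 : 0 ≤ z := by linarith
  have h0 := c0_sum q hz0
  have h1 : c0 q m * z ^ (2 * m) ≤ Jv 0 z ^ q := le_hasSum h0 m fun l _ => JE_nonneg _ hz0 l
  rcases Nat.eq_zero_or_pos m with rfl | hm
  · rw [Finset.range_zero, Finset.sum_empty]
    exact mul_nonneg hη.le (pow_nonneg (Jv_nonneg 0 hz0) q)
  · obtain ⟨k, rfl⟩ : ∃ k, m = k + 1 := ⟨m - 1, by omega⟩
    have h2 : ∑ l ∈ range (k + 1), c0 q l * z ^ (2 * l) ≤ C * z ^ (2 * k) := by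
      rw [hC, Finset.sum_mul]
      refine Finset.sum_le_sum fun l hl => ?_
      have h3 := Finset.mem_range.1 hl
      exact mul_le_mul_of_nonneg_left (pow_le_pow_right₀ hz1 (by omega)) (cN_nonneg _ l)
    have h3 : C ≤ η * c0 q (k + 1) * z ^ 2 := by
      have h4 : C / (η * c0 q (k + 1)) ≤ z := by linarith
      rw [div_le_iff₀ (by positivity)] at h4
      have h5 : z ≤ z ^ 2 := by nlinarith
      have h6 : z * (η * c0 q (k + 1)) ≤ z ^ 2 * (η * c0 q (k + 1)) := mul_le_mul_of_nonneg_right h5 (by positivity)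
      linarith
    calc ∑ l ∈ range (k + 1), c0 q l * z ^ (2 * l) ≤ C * z ^ (2 * k) := h2
      _ ≤ η * c0 q (k + 1) * z ^ 2 * z ^ (2 * k) := mul_le_mul_of_nonneg_right h3 (pow_nonneg hz0 _)
      _ = η * (c0 q (k + 1) * z ^ (2 * (k + 1))) := by ring
      _ ≤ η * Jv 0 z ^ q := mul_le_mul_of_nonneg_left h1 hη.le

end Pool.Agent.Lib.MP_eeed5c_coK
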