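import Pool.Agent.Lib.MP_eeed5c_co_K.Defs

/-!
# Macroscopic structure: a good dart

`NU G U v = Nb G v ∩ U` is the neighbourhood inside `U`. `df G U r` is the sum of `r - |NU v|` over `U`, `WU G U r` the sum over all darts `(u, v)` inside `U` of
`∑_{a ∈ NU v} |NU a \ NU u| / r^2 + |NU u ∩ NU v| / r`. Write `N v` for `NU G U v`, `d v = |N v| ≤ r` for `v ∈ U`.

PROOFS.
* `WU_mono`: the darts of `U'` are darts of `U`, `NU U' v ⊆ NU U v`, `NU U' a \ NU U' u ⊆ NU U a \ NU U u` for all `a, u` (an element of the first set is in `U'`, so it is in `NU U u` only if it is in `NU U' u`), and `NU U' u ∩ NU U' v ⊆ NU U u ∩ NU U v`; all terms are nonnegative.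
* `good_dart`: (`50 α ≤ 1`, `q ≥ 1`) the number of darts in `U` is `∑_{v ∈ U} d v = 2 q r^2 - df ≥ 2 q r^2 - α r^2 ≥ r^2 > 0`. For a dart `(u,v)` put
  `s(u,v) = ∑_{a ∈ N v} |N a \ N u|/r^2 + |N u ∩ N v|/r + (r - d u)/r + (r - d v)/r + ∑_{a ∈ N v} (r - d a)/r^2`, all terms `≥ 0`.
  Sum over all darts: the first two terms give `WU ≤ α r^2`; `∑_{(u,v)} (r - d u)/r = ∑_u d u (r - d u)/r ≤ df ≤ α r^2`, the same for `v` (swap the darts); `∑_{(u,v)} ∑_{a ∈ N v} (r - d a)/r^2 = ∑_v d v ∑_{a ∈ N v} (r - d a)/r^2 ≤ ∑_v ∑_{a ∈ N v} (r - d a)/r = ∑_a d a (r - d a)/r ≤ df`.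
  Total at most `4 α r^2`. If all darts had `s > 4 α` the sum would be `> 4 α r^2` (there are at least `r^2 > 0` darts). So some dart has `s(u,v) ≤ 4 α`, and each of its five terms is `≤ 4 α`.
-/

set_option autoImplicit false

namespace Pool.Agent.Lib.MP_eeed5c_coK

open Finset Pool.Agent.Lib.MP_eeed5c_co Pool.Agent.Lib.MP_eeed5c_coT Pool.Agent.Lib.MP_eeed5c_coX

section

variable {V : Type*} [Fintype V]

open scoped Classical in
/-- The neighbourhood inside `U`. -/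
noncomputable def NU (G : SimpleGraph V) (U : Finset V) (v : V) : Finset V := Nb G v ∩ U

/-- The total defect of the degrees. -/
noncomputable def df (G : SimpleGraph V) (U : Finset V) (r : ℕ) : ℝ :=
  ∑ v ∈ U, ((r : ℝ) - (NU G U v).card)

open scoped Classical in
/-- The weight of the darts inside `U`. -/
noncomputable def WU (G : SimpleGraph V) (U : Finset V) (r : ℕ) : ℝ :=
  ∑ u ∈ U, ∑ v ∈ NU G U u, ((∑ a ∈ NU G U v, ((NU G U a \ NU G U u).card : ℝ)) / (r : ℝ) ^ 2 +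
    ((NU G U u ∩ NU G U v).card : ℝ) / r)

open scoped Classical in
/-- The number of missing pairs between two sets. -/
noncomputable def ms (G : SimpleGraph V) (A B : Finset V) : ℝ :=
  (((A ×ˢ B).filter fun p => ¬ G.Adj p.1 p.2).card : ℝ)

variable {G : SimpleGraph V}

theorem MA1_mem {U : Finset V} {u v : V} : v ∈ NU G U u ↔ G.Adj u v ∧ v ∈ U := by
  classical
  unfold NU
  rw [Finset.mem_inter, XS1_mem]

theorem MA1_swap {U : Finset V} (f : V → V → ℝ) :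
    ∑ u ∈ U, ∑ v ∈ NU G U u, f u v = ∑ v ∈ U, ∑ u ∈ NU G U v, f u v := by
  refine Finset.sum_comm' ?_
  intro u v
  rw [MA1_mem, MA1_mem]
  constructor
  · rintro ⟨h1, h2, h3⟩
    exact ⟨⟨h2.symm, h1⟩, h3⟩
  · rintro ⟨⟨h1, h2⟩, h3⟩
    exact ⟨h2, h1.symm, h3⟩

theorem MA1_sub {U U' : Finset V} (h : U' ⊆ U) (v : V) : NU G U' v ⊆ NU G U v := by
  intro a ha
  rw [MA1_mem] at ha ⊢
  exact ⟨ha.1, h ha.2⟩

open scoped Classical in
theorem WU_mono {U U' : Finset V} (h : U' ⊆ U) (r : ℕ) : WU G U' r ≤ WU G U r := by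
  unfold WU
  have h1 : ∀ u v, (∑ a ∈ NU G U' v, ((NU G U' a \ NU G U' u).card : ℝ)) / (r : ℝ) ^ 2 +
      ((NU G U' u ∩ NU G U' v).card : ℝ) / r ≤
      (∑ a ∈ NU G U v, ((NU G U a \ NU G U u).card : ℝ)) / (r : ℝ) ^ 2 +
      ((NU G U u ∩ NU G U v).card : ℝ) / r := by
    intro u v
    refine add_le_add ?_ ?_
    · refine div_le_div_of_nonneg_right ?_ (by positivity)
      refine (Finset.sum_le_sum fun a _ => ?_).trans
        (Finset.sum_le_sum_of_subset_of_nonneg (MA1_sub h v) fun a _ _ => Nat.cast_nonneg _)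
      refine Nat.cast_le.2 (Finset.card_le_card ?_)
      intro b hb
      rw [Finset.mem_sdiff, MA1_mem, MA1_mem] at hb ⊢
      exact ⟨⟨hb.1.1, h hb.1.2⟩, fun hc => hb.2 ⟨hc.1, hb.1.2⟩⟩
    · refine div_le_div_of_nonneg_right ?_ (by positivity)
      exact Nat.cast_le.2 (Finset.card_le_card
        (Finset.inter_subset_inter (MA1_sub h u) (MA1_sub h v)))
  have h0 : ∀ u v, 0 ≤ (∑ a ∈ NU G U v, ((NU G U a \ NU G U u).card : ℝ)) / (r : ℝ) ^ 2 +
      ((NU G U u ∩ NU G U v).card : ℝ) / r := fun u v => by positivity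
  calc ∑ u ∈ U', ∑ v ∈ NU G U' u, ((∑ a ∈ NU G U' v, ((NU G U' a \ NU G U' u).card : ℝ)) /
        (r : ℝ) ^ 2 + ((NU G U' u ∩ NU G U' v).card : ℝ) / r)
      ≤ ∑ u ∈ U', ∑ v ∈ NU G U u, ((∑ a ∈ NU G U v, ((NU G U a \ NU G U u).card : ℝ)) /
        (r : ℝ) ^ 2 + ((NU G U u ∩ NU G U v).card : ℝ) / r) := by
        refine Finset.sum_le_sum fun u _ => ?_
        exact (Finset.sum_le_sum fun v _ => h1 u v).trans
          (Finset.sum_le_sum_of_subset_of_nonneg (MA1_sub h u) fun v _ _ => h0 u v)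
    _ ≤ _ := Finset.sum_le_sum_of_subset_of_nonneg h
        fun u _ _ => Finset.sum_nonneg fun v _ => h0 u v

open scoped Classical in
theorem MA1_main {q r : ℕ} (hr : 1 ≤ r) (hq : 1 ≤ q) {U : Finset V} {α : ℝ} (hα0 : 0 ≤ α)
    (hα : 50 * α ≤ 1) (hU : U.card = 2 * (q * r)) (hdeg : ∀ v ∈ U, (NU G U v).card ≤ r)
    (hdf : df G U r ≤ α * (r : ℝ) ^ 2) (hW : WU G U r ≤ α * (r : ℝ) ^ 2) :
    ∃ u ∈ U, ∃ v ∈ NU G U u,
      ((∑ a ∈ NU G U v, ((NU G U a \ NU G U u).card : ℝ)) / (r : ℝ) ^ 2 +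
      ((NU G U u ∩ NU G U v).card : ℝ) / r) + ((r : ℝ) - (NU G U u).card) / r +
      ((r : ℝ) - (NU G U v).card) / r +
      (∑ a ∈ NU G U v, ((r : ℝ) - (NU G U a).card)) / (r : ℝ) ^ 2 ≤ 4 * α := by
  have hr0 : (0 : ℝ) < r := by exact_mod_cast hr
  by_contra hcon
  push Not at hcon
  have hd : ∀ v ∈ U, (0 : ℝ) ≤ (r : ℝ) - (NU G U v).card := fun v hv => by
    have : ((NU G U v).card : ℝ) ≤ r := by exact_mod_cast hdeg v hv
    linarith
  have hsum : ∑ u ∈ U, ∑ v ∈ NU G U u, (4 * α) = 4 * α * ∑ u ∈ U, ((NU G U u).card : ℝ) := by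
    rw [Finset.mul_sum]
    refine Finset.sum_congr rfl fun u _ => ?_
    rw [Finset.sum_const, nsmul_eq_mul, mul_comm]
  have hdf2 : ∑ u ∈ U, ((NU G U u).card : ℝ) = 2 * q * (r : ℝ) ^ 2 - df G U r := by
    unfold df
    rw [Finset.sum_sub_distrib, Finset.sum_const, hU, nsmul_eq_mul]
    push_cast
    ring
  have hcount : (r : ℝ) ^ 2 ≤ ∑ u ∈ U, ((NU G U u).card : ℝ) := by
    rw [hdf2]
    have hqR : (1 : ℝ) ≤ q := by exact_mod_cast hq
    have h1 : (r : ℝ) ^ 2 ≤ q * (r : ℝ) ^ 2 := le_mul_of_one_le_left (by positivity) hqR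
    have h2 : α * (r : ℝ) ^ 2 ≤ 1 * (r : ℝ) ^ 2 :=
      mul_le_mul_of_nonneg_right (by linarith) (by positivity)
    linarith
  have hpos : 0 < ∑ u ∈ U, ((NU G U u).card : ℝ) := lt_of_lt_of_le (by positivity) hcount
  -- the third term
  have e3 : ∑ u ∈ U, ∑ v ∈ NU G U u, ((r : ℝ) - (NU G U u).card) / r ≤ df G U r := by
    unfold df
    refine Finset.sum_le_sum fun u hu => ?_
    rw [Finset.sum_const, nsmul_eq_mul]
    have h1 : ((NU G U u).card : ℝ) ≤ r := by exact_mod_cast hdeg u hu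
    calc ((NU G U u).card : ℝ) * (((r : ℝ) - (NU G U u).card) / r)
        ≤ r * (((r : ℝ) - (NU G U u).card) / r) :=
          mul_le_mul_of_nonneg_right h1 (div_nonneg (hd u hu) hr0.le)
      _ = (r : ℝ) - (NU G U u).card := by field_simp
  have e4 : ∑ u ∈ U, ∑ v ∈ NU G U u, ((r : ℝ) - (NU G U v).card) / r ≤ df G U r := by
    rw [MA1_swap (G := G) (U := U) fun u v => ((r : ℝ) - (NU G U v).card) / r]
    exact e3
  have e5 : ∑ u ∈ U, ∑ v ∈ NU G U u,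
      (∑ a ∈ NU G U v, ((r : ℝ) - (NU G U a).card)) / (r : ℝ) ^ 2 ≤ df G U r := by
    rw [MA1_swap (G := G) (U := U) fun u v =>
      (∑ a ∈ NU G U v, ((r : ℝ) - (NU G U a).card)) / (r : ℝ) ^ 2]
    refine le_trans (Finset.sum_le_sum fun v hv => ?_) e4
    rw [Finset.sum_const, nsmul_eq_mul]
    have h1 : ((NU G U v).card : ℝ) ≤ r := by exact_mod_cast hdeg v hv
    have h2 : 0 ≤ ∑ a ∈ NU G U v, ((r : ℝ) - (NU G U a).card) :=
      Finset.sum_nonneg fun a ha => hd a (MA1_mem.1 ha).2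
    calc ((NU G U v).card : ℝ) * ((∑ a ∈ NU G U v, ((r : ℝ) - (NU G U a).card)) / (r : ℝ) ^ 2)
        ≤ r * ((∑ a ∈ NU G U v, ((r : ℝ) - (NU G U a).card)) / (r : ℝ) ^ 2) :=
          mul_le_mul_of_nonneg_right h1 (div_nonneg h2 (by positivity))
      _ = (∑ a ∈ NU G U v, ((r : ℝ) - (NU G U a).card)) / r := by field_simp
      _ = ∑ a ∈ NU G U v, ((r : ℝ) - (NU G U a).card) / r := by rw [Finset.sum_div]
  have htot : ∑ u ∈ U, ∑ v ∈ NU G U u,
      (((∑ a ∈ NU G U v, ((NU G U a \ NU G U u).card : ℝ)) / (r : ℝ) ^ 2 +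
      ((NU G U u ∩ NU G U v).card : ℝ) / r) + ((r : ℝ) - (NU G U u).card) / r +
      ((r : ℝ) - (NU G U v).card) / r +
      (∑ a ∈ NU G U v, ((r : ℝ) - (NU G U a).card)) / (r : ℝ) ^ 2) ≤ 4 * α * (r : ℝ) ^ 2 := by
    simp only [Finset.sum_add_distrib] at e3 e4 e5 hW ⊢
    unfold WU at hW
    simp only [Finset.sum_add_distrib] at hW
    linarith
  have hlt : ∑ u ∈ U, ∑ v ∈ NU G U u, (4 * α) < ∑ u ∈ U, ∑ v ∈ NU G U u,
      (((∑ a ∈ NU G U v, ((NU G U a \ NU G U u).card : ℝ)) / (r : ℝ) ^ 2 +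
      ((NU G U u ∩ NU G U v).card : ℝ) / r) + ((r : ℝ) - (NU G U u).card) / r +
      ((r : ℝ) - (NU G U v).card) / r +
      (∑ a ∈ NU G U v, ((r : ℝ) - (NU G U a).card)) / (r : ℝ) ^ 2) := by
    obtain ⟨u, hu, hu0⟩ := Finset.exists_ne_zero_of_sum_ne_zero hpos.ne'
    have hne : (NU G U u).Nonempty := by
      rw [← Finset.card_ne_zero]
      intro h0
      apply hu0
      rw [h0, Nat.cast_zero]
    refine Finset.sum_lt_sum (fun u hu => Finset.sum_le_sum fun v hv => (hcon u hu v hv).le)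
      ⟨u, hu, Finset.sum_lt_sum_of_nonempty hne fun v hv => hcon u hu v hv⟩
  rw [hsum] at hlt
  have h1 : 4 * α * (r : ℝ) ^ 2 ≤ 4 * α * ∑ u ∈ U, ((NU G U u).card : ℝ) :=
    mul_le_mul_of_nonneg_left hcount (by linarith)
  linarith

theorem good_dart {q r : ℕ} (hr : 1 ≤ r) (hq : 1 ≤ q) {U : Finset V} {α : ℝ} (hα0 : 0 ≤ α)
    (hα : 50 * α ≤ 1) (hU : U.card = 2 * (q * r)) (hdeg : ∀ v ∈ U, (NU G U v).card ≤ r)
    (hdf : df G U r ≤ α * (r : ℝ) ^ 2) (hW : WU G U r ≤ α * (r : ℝ) ^ 2) :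
    ∃ u ∈ U, ∃ v ∈ NU G U u,
      (by classical exact ∑ a ∈ NU G U v, ((NU G U a \ NU G U u).card : ℝ)) ≤
        4 * α * (r : ℝ) ^ 2 ∧
      (by classical exact ((NU G U u ∩ NU G U v).card : ℝ)) ≤ 4 * α * r ∧
      (r : ℝ) - (NU G U u).card ≤ 4 * α * r ∧ (r : ℝ) - (NU G U v).card ≤ 4 * α * r ∧
      ∑ a ∈ NU G U v, ((r : ℝ) - (NU G U a).card) ≤ 4 * α * (r : ℝ) ^ 2 := by
  classical
  have hr0 : (0 : ℝ) < r := by exact_mod_cast hr
  obtain ⟨u, hu, v, hv, h⟩ := MA1_main hr hq hα0 hα hU hdeg hdf hW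
  have hd : ∀ v ∈ U, (0 : ℝ) ≤ (r : ℝ) - (NU G U v).card := fun v hv => by
    have : ((NU G U v).card : ℝ) ≤ r := by exact_mod_cast hdeg v hv
    linarith
  have t1 : 0 ≤ (∑ a ∈ NU G U v, ((NU G U a \ NU G U u).card : ℝ)) / (r : ℝ) ^ 2 := by positivity
  have t2 : 0 ≤ ((NU G U u ∩ NU G U v).card : ℝ) / r := by positivity
  have t3 : 0 ≤ ((r : ℝ) - (NU G U u).card) / r := div_nonneg (hd u hu) hr0.le
  have t4 : 0 ≤ ((r : ℝ) - (NU G U v).card) / r := div_nonneg (hd v (MA1_mem.1 hv).2) hr0.le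
  have t5 : 0 ≤ (∑ a ∈ NU G U v, ((r : ℝ) - (NU G U a).card)) / (r : ℝ) ^ 2 :=
    div_nonneg (Finset.sum_nonneg fun a ha => hd a (MA1_mem.1 ha).2) (by positivity)
  refine ⟨u, hu, v, hv, ?_, ?_, ?_, ?_, ?_⟩
  · have h1 : (∑ a ∈ NU G U v, ((NU G U a \ NU G U u).card : ℝ)) / (r : ℝ) ^ 2 ≤ 4 * α := by
      linarith
    exact (div_le_iff₀ (by positivity)).1 h1
  · have h1 : ((NU G U u ∩ NU G U v).card : ℝ) / r ≤ 4 * α := by linarith
    exact (div_le_iff₀ hr0).1 h1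
  · have h1 : ((r : ℝ) - (NU G U u).card) / r ≤ 4 * α := by linarith
    exact (div_le_iff₀ hr0).1 h1
  · have h1 : ((r : ℝ) - (NU G U v).card) / r ≤ 4 * α := by linarith
    exact (div_le_iff₀ hr0).1 h1
  · have h1 : (∑ a ∈ NU G U v, ((r : ℝ) - (NU G U a).card)) / (r : ℝ) ^ 2 ≤ 4 * α := by
      linarith
    exact (div_le_iff₀ (by positivity)).1 h1

end

end Pool.Agent.Lib.MP_eeed5c_coK
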