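import Pool.Agent.Lib.MP_eeed5c_co_K.MA1

/-!
# Macroscopic structure: one block

PROOF of `one_cell`. (`α ≤ 1/50`, `q ≥ 1`.) Write `N v` for `NU G U v`, `d v = |N v| ≤ r`. Take the dart `(u, v)` of `good_dart`.
`A0 = N v \ N u`, `B0 = N u` are disjoint subsets of `U`, `|B0| = d u ≥ (1 - 4 α) r`, `|A0| = d v - |N u ∩ N v| ≥ r - 4 α r - 4 α r`; both have at most `r` elements. `|U| = 2 q r ≥ 2 r`, so there are disjoint `A ⊇ A0`, `B ⊇ B0` inside `U` with `r` elements each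
(`Finset.exists_subsuperset_card_eq` twice: first `A` with `A0 ⊆ A ⊆ U \ B0`, then `B` with `B0 ⊆ B ⊆ U \ A`).
The number of adjacent pairs in `A × B` is at least
`∑_{a ∈ A0} |N a ∩ N u| ≥ ∑_{a ∈ N v} |N a ∩ N u| - |N u ∩ N v| r = ∑_{a ∈ N v} (d a - |N a \ N u|) - r |N u ∩ N v|
 = d v * r - ∑_{a ∈ N v} (r - d a) - ∑_{a ∈ N v} |N a \ N u| - r |N u ∩ N v| ≥ (r - 4 α r) r - 4 α r^2 - 4 α r^2 - 4 α r^2 = (1 - 16 α) r^2`, so the number of missing pairs is at most `16 α r^2`.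
The rest `U' = U \ (A ∪ B)`: for `w ∈ U'` the degree inside `U'` is `d w - |N w ∩ (A ∪ B)|`, so `df G U' r = ∑_{w ∈ U'} (r - d w) + #{(w, z) : w ∈ U', z ∈ A ∪ B, w ~ z} ≤ df G U r + #{..}`, and the number of these pairs is at most
`∑_{z ∈ A ∪ B} (r - |N z ∩ (A ∪ B)|) ≤ 2 r^2 - 2 (1 - 16 α) r^2 = 32 α r^2` (`|N z ∩ (A ∪ B)| ≥ |N z ∩ B|` for `z ∈ A`, and the same for `z ∈ B`; both sums count the adjacent pairs of `A × B`). So `df G U' r ≤ 33 α r^2`.
-/

set_option autoImplicit false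
set_option linter.unusedSectionVars false

namespace Pool.Agent.Lib.MP_eeed5c_coK

open Finset Pool.Agent.Lib.MP_eeed5c_co Pool.Agent.Lib.MP_eeed5c_coT Pool.Agent.Lib.MP_eeed5c_coX

section

variable {V : Type*} [Fintype V] {G : SimpleGraph V}

open scoped Classical in
/-- The indicator of adjacency. -/
private noncomputable def MA2_i (G : SimpleGraph V) (a b : V) : ℝ := if G.Adj a b then 1 else 0

private theorem MA2_i_nonneg (a b : V) : 0 ≤ MA2_i G a b := by
  unfold MA2_i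
  split_ifs
  · exact zero_le_one
  · exact le_rfl

private theorem MA2_i_comm (a b : V) : MA2_i G a b = MA2_i G b a := by
  unfold MA2_i
  by_cases h : G.Adj a b
  · rw [if_pos h, if_pos h.symm]
  · rw [if_neg h, if_neg (fun h' => h h'.symm)]

open scoped Classical in
private theorem MA2_inter (a : V) (U T : Finset V) (hT : T ⊆ U) :
    ((NU G U a ∩ T).card : ℝ) = ∑ b ∈ T, MA2_i G a b := by
  have h1 : NU G U a ∩ T = T.filter fun b => G.Adj a b := by
    ext b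
    unfold NU Nb
    simp only [Finset.mem_inter, Finset.mem_filter, Finset.mem_univ, true_and]
    constructor
    · rintro ⟨⟨h1, _⟩, h2⟩
      exact ⟨h2, h1⟩
    · rintro ⟨h1, h2⟩
      exact ⟨⟨h2, hT h1⟩, h1⟩
  rw [h1, Finset.card_filter]
  push_cast
  rfl

private theorem MA2_card (a : V) (U : Finset V) : ((NU G U a).card : ℝ) = ∑ b ∈ U, MA2_i G a b := by
  classical
  rw [← MA2_inter a U U (Finset.Subset.refl U)]
  congr 2
  unfold NU
  rw [Finset.inter_assoc, Finset.inter_self]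

private theorem MA2_comm (S T : Finset V) :
    ∑ a ∈ S, ∑ b ∈ T, MA2_i G a b = ∑ b ∈ T, ∑ a ∈ S, MA2_i G b a := by
  rw [Finset.sum_comm]
  exact Finset.sum_congr rfl fun b _ => Finset.sum_congr rfl fun a _ => MA2_i_comm a b

private theorem MA2_ms (A B : Finset V) :
    ms G A B = (A.card : ℝ) * B.card - ∑ a ∈ A, ∑ b ∈ B, MA2_i G a b := by
  classical
  unfold ms
  rw [Finset.card_filter, Nat.cast_sum, Finset.sum_product]
  have h1 : (A.card : ℝ) * B.card = ∑ a ∈ A, ∑ b ∈ B, (1 : ℝ) := by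
    rw [Finset.sum_const, Finset.sum_const, nsmul_eq_mul, nsmul_eq_mul, mul_one]
  rw [h1, ← Finset.sum_sub_distrib]
  refine Finset.sum_congr rfl fun a _ => ?_
  rw [← Finset.sum_sub_distrib]
  refine Finset.sum_congr rfl fun b _ => ?_
  unfold MA2_i
  by_cases h : G.Adj a b
  · rw [if_neg (fun h' => h' h), if_pos h, Nat.cast_zero, sub_self]
  · rw [if_pos h, if_neg h, Nat.cast_one, sub_zero]

open scoped Classical in
theorem one_cell {q r : ℕ} (hr : 1 ≤ r) (hq : 1 ≤ q) {U : Finset V} {α : ℝ} (hα0 : 0 ≤ α)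
    (hα : 50 * α ≤ 1) (hU : U.card = 2 * (q * r)) (hdeg : ∀ v ∈ U, (NU G U v).card ≤ r)
    (hdf : df G U r ≤ α * (r : ℝ) ^ 2) (hW : WU G U r ≤ α * (r : ℝ) ^ 2) :
    ∃ A B : Finset V, A ⊆ U ∧ B ⊆ U ∧ Disjoint A B ∧ A.card = r ∧ B.card = r ∧
      ms G A B ≤ 16 * α * (r : ℝ) ^ 2 ∧ df G (U \ (A ∪ B)) r ≤ 33 * α * (r : ℝ) ^ 2 := by
  obtain ⟨u, hu, v, hv, g1, g2, g3, g4, g5⟩ := good_dart hr hq hα0 hα hU hdeg hdf hW
  have hNU : ∀ a, NU G U a ⊆ U := fun a => Finset.inter_subset_right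
  have hvU : v ∈ U := hNU u hv
  have hr0 : (0 : ℝ) ≤ r := Nat.cast_nonneg r
  have hUr : 2 * r ≤ U.card := by
    rw [hU]
    exact Nat.mul_le_mul_left 2 (Nat.le_mul_of_pos_left r hq)
  -- the two sides
  have hB0 : (NU G U u).card ≤ r := hdeg u hu
  have hA0 : (NU G U v \ NU G U u).card ≤ r := (Finset.card_le_card Finset.sdiff_subset).trans (hdeg v hvU)
  obtain ⟨A, hA1, hA2, hA3⟩ := Finset.exists_subsuperset_card_eq
    (s := NU G U v \ NU G U u) (t := U \ NU G U u) (n := r)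
    (Finset.sdiff_subset_sdiff (hNU v) (Finset.Subset.refl _)) hA0 (by
      rw [Finset.card_sdiff_of_subset (hNU u)]
      omega)
  have hAU : A ⊆ U := hA2.trans Finset.sdiff_subset
  obtain ⟨B, hB1, hB2, hB3⟩ := Finset.exists_subsuperset_card_eq
    (s := NU G U u) (t := U \ A) (n := r) (by
      intro z hz
      rw [Finset.mem_sdiff]
      refine ⟨hNU u hz, fun hzA => ?_⟩
      exact (Finset.mem_sdiff.1 (hA2 hzA)).2 hz) hB0 (by
      rw [Finset.card_sdiff_of_subset hAU]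
      omega)
  have hBU : B ⊆ U := hB2.trans Finset.sdiff_subset
  have hAB : Disjoint A B := by
    rw [Finset.disjoint_left]
    intro z hzA hzB
    exact (Finset.mem_sdiff.1 (hB2 hzB)).2 hzA
  -- the number of adjacent pairs
  obtain ⟨E, hE⟩ : ∃ E : ℝ, E = ∑ a ∈ A, ∑ b ∈ B, MA2_i G a b := ⟨_, rfl⟩
  have hE1 : (r : ℝ) ^ 2 - 16 * α * (r : ℝ) ^ 2 ≤ E := by
    have e1 : ∑ a ∈ NU G U v \ NU G U u, ((NU G U a ∩ NU G U u).card : ℝ) ≤ E := by
      rw [hE]
      refine le_trans (Finset.sum_le_sum fun a _ => ?_) (Finset.sum_le_sum_of_subset_of_nonneg hA1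
        fun a _ _ => Finset.sum_nonneg fun b _ => MA2_i_nonneg a b)
      rw [MA2_inter a U (NU G U u) (hNU u)]
      exact Finset.sum_le_sum_of_subset_of_nonneg hB1 fun b _ _ => MA2_i_nonneg a b
    have e2 : ∑ a ∈ NU G U v \ NU G U u, ((NU G U a ∩ NU G U u).card : ℝ) +
        ∑ a ∈ NU G U u ∩ NU G U v, ((NU G U a ∩ NU G U u).card : ℝ) =
        ∑ a ∈ NU G U v, ((NU G U a ∩ NU G U u).card : ℝ) := by
      have h := Finset.sum_sdiff (f := fun a => ((NU G U a ∩ NU G U u).card : ℝ))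
        (Finset.inter_subset_right : NU G U u ∩ NU G U v ⊆ NU G U v)
      rw [Finset.sdiff_inter_self_right] at h
      exact h
    have e3 : ∑ a ∈ NU G U u ∩ NU G U v, ((NU G U a ∩ NU G U u).card : ℝ) ≤ 4 * α * r * r := by
      have h1 : ∀ a ∈ NU G U u ∩ NU G U v, ((NU G U a ∩ NU G U u).card : ℝ) ≤ r := by
        intro a _
        have h2 : (NU G U a ∩ NU G U u).card ≤ r := (Finset.card_le_card Finset.inter_subset_right).trans hB0
        exact_mod_cast h2
      refine (Finset.sum_le_card_nsmul _ _ _ h1).trans ?_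
      rw [nsmul_eq_mul]
      exact mul_le_mul_of_nonneg_right g2 hr0
    have e4 : ∑ a ∈ NU G U v, ((NU G U a ∩ NU G U u).card : ℝ) =
        ∑ a ∈ NU G U v, ((NU G U a).card : ℝ) - ∑ a ∈ NU G U v, ((NU G U a \ NU G U u).card : ℝ) := by
      rw [← Finset.sum_sub_distrib]
      refine Finset.sum_congr rfl fun a _ => ?_
      have h := Finset.card_inter_add_card_sdiff (NU G U a) (NU G U u)
      have h' : ((NU G U a ∩ NU G U u).card : ℝ) + ((NU G U a \ NU G U u).card : ℝ) = ((NU G U a).card : ℝ) := by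
        exact_mod_cast h
      linarith
    have e5 : ∑ a ∈ NU G U v, ((r : ℝ) - (NU G U a).card) =
        ((NU G U v).card : ℝ) * r - ∑ a ∈ NU G U v, ((NU G U a).card : ℝ) := by
      rw [Finset.sum_sub_distrib, Finset.sum_const, nsmul_eq_mul]
    have e6 : ((r : ℝ) - (NU G U v).card) * r ≤ 4 * α * r * r := mul_le_mul_of_nonneg_right g4 hr0
    rw [e5] at g5
    have e7 : 4 * α * (r : ℝ) * r = 4 * α * (r : ℝ) ^ 2 := by ring
    have e8 : ((r : ℝ) - (NU G U v).card) * r = (r : ℝ) ^ 2 - ((NU G U v).card : ℝ) * r := by ring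
    rw [e7] at e3 e6
    rw [e8] at e6
    linarith
  refine ⟨A, B, hAU, hBU, hAB, hA3, hB3, ?_, ?_⟩
  · rw [MA2_ms, hA3, hB3, ← hE]
    have e1 : (r : ℝ) * r = (r : ℝ) ^ 2 := by ring
    rw [e1]
    linarith
  -- the rest
  · obtain ⟨C, hC⟩ : ∃ C, C = A ∪ B := ⟨_, rfl⟩
    have hCU : C ⊆ U := by
      rw [hC]
      exact Finset.union_subset hAU hBU
    rw [← hC]
    have hCc : (C.card : ℝ) = 2 * r := by
      rw [hC, Finset.card_union_of_disjoint hAB, hA3, hB3]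
      push_cast
      ring
    have hsplit : ∀ w, ∑ b ∈ U \ C, MA2_i G w b + ∑ b ∈ C, MA2_i G w b = ∑ b ∈ U, MA2_i G w b := fun w =>
      Finset.sum_sdiff hCU
    have hdU : ∀ w ∈ U, ∑ b ∈ U, MA2_i G w b ≤ r := by
      intro w hw
      rw [← MA2_card]
      exact_mod_cast hdeg w hw
    have f1 : df G (U \ C) r = ∑ w ∈ U \ C, ((r : ℝ) - ∑ b ∈ U, MA2_i G w b) +
        ∑ w ∈ U \ C, ∑ b ∈ C, MA2_i G w b := by
      unfold df
      rw [← Finset.sum_add_distrib]
      refine Finset.sum_congr rfl fun w _ => ?_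
      rw [MA2_card, ← hsplit w]
      ring
    have f2 : ∑ w ∈ U \ C, ((r : ℝ) - ∑ b ∈ U, MA2_i G w b) ≤ df G U r := by
      unfold df
      simp only [MA2_card]
      refine Finset.sum_le_sum_of_subset_of_nonneg Finset.sdiff_subset fun w hw _ => ?_
      linarith [hdU w hw]
    have f3 : ∑ w ∈ U \ C, ∑ b ∈ C, MA2_i G w b ≤ 2 * (r : ℝ) ^ 2 - ∑ z ∈ C, ∑ w ∈ C, MA2_i G z w := by
      rw [MA2_comm]
      have h1 : ∀ z ∈ C, ∑ w ∈ U \ C, MA2_i G z w ≤ r - ∑ w ∈ C, MA2_i G z w := by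
        intro z hz
        have h2 := hsplit z
        have h3 := hdU z (hCU hz)
        linarith
      refine (Finset.sum_le_sum h1).trans (le_of_eq ?_)
      rw [Finset.sum_sub_distrib, Finset.sum_const, nsmul_eq_mul, hCc]
      ring
    have f4 : 2 * E ≤ ∑ z ∈ C, ∑ w ∈ C, MA2_i G z w := by
      have h1 : ∀ S : Finset V, S ⊆ C → ∀ z, ∑ w ∈ S, MA2_i G z w ≤ ∑ w ∈ C, MA2_i G z w := fun S hS z =>
        Finset.sum_le_sum_of_subset_of_nonneg hS fun w _ _ => MA2_i_nonneg z w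
      have hA4 : A ⊆ C := by
        rw [hC]
        exact Finset.subset_union_left
      have hB4 : B ⊆ C := by
        rw [hC]
        exact Finset.subset_union_right
      have h2 : ∑ z ∈ C, ∑ w ∈ C, MA2_i G z w = ∑ z ∈ A, ∑ w ∈ C, MA2_i G z w + ∑ z ∈ B, ∑ w ∈ C, MA2_i G z w := by
        conv_lhs => rw [hC]
        rw [Finset.sum_union hAB, ← hC]
      have h3 : E ≤ ∑ z ∈ A, ∑ w ∈ C, MA2_i G z w := by
        rw [hE]
        exact Finset.sum_le_sum fun z _ => h1 B hB4 z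
      have h4 : E ≤ ∑ z ∈ B, ∑ w ∈ C, MA2_i G z w := by
        rw [hE, MA2_comm]
        exact Finset.sum_le_sum fun z _ => h1 A hA4 z
      linarith
    rw [f1]
    linarith

end

end Pool.Agent.Lib.MP_eeed5c_coK
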