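import Pool.Agent.Lib.MP_eeed5c_co_K.MA2
import Pool.Agent.Lib.MP_eeed5c_co_X.XE

/-!
# Macroscopic structure: all blocks

PROOFS.
* `cells_ind`: induction on `q` for all `U`, `α`. The partition is described by `f : V → ℕ × Fin 2`. `q = 0`: `U = ∅`, any `f`, the sum is empty. Step `q + 1`: if `50 α ≥ 1` then `50^(q+1) α ≥ 50^q ≥ q + 1`, and every partition of `U` into
  `2 (q+1)` sets of `r` elements works, because each block has at most `r^2` missing pairs (such a partition exists: induction, `Finset.exists_subset_card_eq` twice; prove it first as a separate lemma `MB_exists`).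
  If `50 α < 1`: `one_cell` (with `q + 1`) gives `A, B`; `U' = U \ (A ∪ B)` has `2 q r` elements, degrees inside `U'` at most `r`, `df ≤ 33 α r^2`, `WU G U' r ≤ α r^2 ≤ 33 α r^2` (`WU_mono`).
  The induction hypothesis for `U'` and `33 α` gives `f'`. Put `f v = (q, 0)` on `A`, `(q, 1)` on `B`, `f' v` otherwise. The block `q` contributes `≤ 16 α r^2`, the others `≤ 50^q * 33 α r^2`, and `16 + 33 * 50^q ≤ 50^(q+1)`.
* `WU_univ`: for `U = univ`, `NU G univ v = Nb G v`, so `WU G univ r = Wt G r` (`dl G u v = ∑_{a ∈ Nb G v} |Nb G a \ Nb G u|`, `cm G u v = |Nb G v ∩ Nb G u|`); `df G univ r = 0` for a regular graph.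
* `Xs_card_ms`: an element of `Xs G c` is `s(a, a')` with `a` in the cell `(b, 0)`, `a'` in the cell `(b, 1)`, not adjacent in `G`, for a unique `b` and unique `a, a'`: so `|Xs G c| = ∑_b ms G (cell (b,0)) (cell (b,1))`
  (`Finset.card_bij` from the sigma/product sets to `Xs`; compare `card_Xs` in X/XS3).
* `cells_of_Wt`: `α = Wt G r / r^2` (`Wt ≥ 0`), `U = univ`, `cells_ind` gives `f`; because `q ≥ 1` define `c v = (⟨(f v).1, _⟩, (f v).2)` (all `(f v).1 < q`). `50^q α r^2 = 50^q Wt G r`.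
-/

set_option autoImplicit false

set_option linter.unusedSectionVars false

namespace Pool.Agent.Lib.MP_eeed5c_coK

open Finset Pool.Agent.Lib.MP_eeed5c_co Pool.Agent.Lib.MP_eeed5c_coT Pool.Agent.Lib.MP_eeed5c_coX

section

variable {V : Type*} [Fintype V] {G : SimpleGraph V}

open scoped Classical in
/-- The glued partition. -/
noncomputable def MBg (q : ℕ) (A B : Finset V) (f : V → ℕ × Fin 2) (v : V) : ℕ × Fin 2 :=
  if v ∈ A then (q, 0) else if v ∈ B then (q, 1) else f v

open scoped Classical in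
theorem MB_glue {r q : ℕ} {U A B : Finset V} (hA : A ⊆ U) (hB : B ⊆ U) (hAB : Disjoint A B)
    (hAc : A.card = r) (hBc : B.card = r) {f : V → ℕ × Fin 2}
    (hf : ∀ v ∈ U \ (A ∪ B), (f v).1 < q)
    (hfc : ∀ b, b < q → ∀ i, ((U \ (A ∪ B)).filter fun v => f v = (b, i)).card = r) :
    (∀ v ∈ U, (MBg q A B f v).1 < q + 1) ∧
      (∀ b, b < q + 1 → ∀ i, (U.filter fun v => MBg q A B f v = (b, i)).card = r) ∧
      (U.filter fun v => MBg q A B f v = (q, 0)) = A ∧
      (U.filter fun v => MBg q A B f v = (q, 1)) = B ∧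
      ∀ b, b < q → ∀ i, (U.filter fun v => MBg q A B f v = (b, i)) =
        (U \ (A ∪ B)).filter fun v => f v = (b, i) := by
  have hd : ∀ v, v ∈ A → v ∉ B := fun v h1 h2 => Finset.disjoint_left.1 hAB h1 h2
  have h1 : ∀ v ∈ U, v ∉ A → v ∉ B → (f v).1 < q := by
    intro v hv h1 h2
    refine hf v ?_
    simp only [Finset.mem_sdiff, Finset.mem_union, not_or]
    exact ⟨hv, h1, h2⟩
  have e0 : (U.filter fun v => MBg q A B f v = (q, 0)) = A := by
    ext v
    rw [Finset.mem_filter]
    constructor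
    · rintro ⟨hv, h⟩
      by_contra hvA
      by_cases hvB : v ∈ B
      · rw [MBg, if_neg hvA, if_pos hvB, Prod.mk.injEq] at h
        exact absurd h.2 (by decide)
      · rw [MBg, if_neg hvA, if_neg hvB] at h
        have := h1 v hv hvA hvB
        rw [h] at this
        exact lt_irrefl _ this
    · intro hv
      refine ⟨hA hv, ?_⟩
      rw [MBg, if_pos hv]
  have e1 : (U.filter fun v => MBg q A B f v = (q, 1)) = B := by
    ext v
    rw [Finset.mem_filter]
    constructor
    · rintro ⟨hv, h⟩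
      by_contra hvB
      by_cases hvA : v ∈ A
      · rw [MBg, if_pos hvA, Prod.mk.injEq] at h
        exact absurd h.2 (by decide)
      · rw [MBg, if_neg hvA, if_neg hvB] at h
        have := h1 v hv hvA hvB
        rw [h] at this
        exact lt_irrefl _ this
    · intro hv
      refine ⟨hB hv, ?_⟩
      have : v ∉ A := fun h => hd v h hv
      rw [MBg, if_neg this, if_pos hv]
  have e2 : ∀ b, b < q → ∀ i, (U.filter fun v => MBg q A B f v = (b, i)) =
      (U \ (A ∪ B)).filter fun v => f v = (b, i) := by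
    intro b hb i
    ext v
    simp only [Finset.mem_filter, Finset.mem_sdiff, Finset.mem_union, not_or]
    constructor
    · rintro ⟨hv, h⟩
      have hvA : v ∉ A := by
        intro hvA
        rw [MBg, if_pos hvA, Prod.mk.injEq] at h
        omega
      have hvB : v ∉ B := by
        intro hvB
        rw [MBg, if_neg hvA, if_pos hvB, Prod.mk.injEq] at h
        omega
      rw [MBg, if_neg hvA, if_neg hvB] at h
      exact ⟨⟨hv, hvA, hvB⟩, h⟩
    · rintro ⟨⟨hv, hvA, hvB⟩, h⟩
      refine ⟨hv, ?_⟩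
      rw [MBg, if_neg hvA, if_neg hvB, h]
  refine ⟨?_, ?_, e0, e1, e2⟩
  · intro v hv
    by_cases hvA : v ∈ A
    · rw [MBg, if_pos hvA]
      exact Nat.lt_succ_self q
    · by_cases hvB : v ∈ B
      · rw [MBg, if_neg hvA, if_pos hvB]
        exact Nat.lt_succ_self q
      · rw [MBg, if_neg hvA, if_neg hvB]
        exact (h1 v hv hvA hvB).trans (Nat.lt_succ_self q)
  · intro b hb i
    by_cases hbq : b = q
    · subst hbq
      have hi : i = 0 ∨ i = 1 := by omega
      rcases hi with hi | hi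
      · rw [hi, e0, hAc]
      · rw [hi, e1, hBc]
    · rw [e2 b (by omega) i]
      exact hfc b (by omega) i

open scoped Classical in
theorem MB_card {r q : ℕ} {U A B : Finset V} (hA : A ⊆ U) (hB : B ⊆ U) (hAB : Disjoint A B)
    (hAc : A.card = r) (hBc : B.card = r) (hU : U.card = 2 * ((q + 1) * r)) :
    (U \ (A ∪ B)).card = 2 * (q * r) := by
  rw [Finset.card_sdiff_of_subset (Finset.union_subset hA hB), Finset.card_union_of_disjoint hAB,
    hAc, hBc, hU]
  have : 2 * ((q + 1) * r) = 2 * (q * r) + (r + r) := by ring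
  omega

open scoped Classical in
theorem MB_exists (r q : ℕ) : ∀ U : Finset V, U.card = 2 * (q * r) →
    ∃ f : V → ℕ × Fin 2, (∀ v ∈ U, (f v).1 < q) ∧
      ∀ b, b < q → ∀ i, (U.filter fun v => f v = (b, i)).card = r := by
  induction q with
  | zero =>
    intro U hU
    have h0 : U = ∅ := by
      rw [← Finset.card_eq_zero, hU]
      simp
    refine ⟨fun _ => (0, 0), ?_, ?_⟩
    · intro v hv
      rw [h0] at hv
      exact absurd hv (Finset.notMem_empty v)
    · intro b hb
      exact absurd hb (Nat.not_lt_zero b)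
  | succ q ih =>
    intro U hU
    have e1 : 2 * ((q + 1) * r) = 2 * (q * r) + (r + r) := by ring
    obtain ⟨A, hA, hAc⟩ := Finset.exists_subset_card_eq (s := U) (n := r) (by omega)
    obtain ⟨B, hB, hBc⟩ := Finset.exists_subset_card_eq (s := U \ A) (n := r) (by
      rw [Finset.card_sdiff_of_subset hA]
      omega)
    have hB' : B ⊆ U := hB.trans Finset.sdiff_subset
    have hAB : Disjoint A B := by
      rw [Finset.disjoint_left]
      intro v h1 h2
      exact (Finset.mem_sdiff.1 (hB h2)).2 h1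
    obtain ⟨f, hf, hfc⟩ := ih (U \ (A ∪ B)) (MB_card hA hB' hAB hAc hBc hU)
    obtain ⟨g1, g2, -⟩ := MB_glue hA hB' hAB hAc hBc hf hfc
    exact ⟨_, g1, g2⟩

open scoped Classical in
theorem MB_ms_le (A B : Finset V) : ms G A B ≤ (A.card : ℝ) * B.card := by
  rw [ms]
  have h := Finset.card_filter_le (A ×ˢ B) (fun p => ¬ G.Adj p.1 p.2)
  rw [Finset.card_product] at h
  exact_mod_cast h

theorem MB_pow (q : ℕ) : ((q : ℝ) + 1) ≤ 50 ^ q := by
  induction q with
  | zero => norm_num
  | succ q ih =>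
    rw [pow_succ]
    push_cast
    have : (0 : ℝ) ≤ q := Nat.cast_nonneg q
    linarith

open scoped Classical in
theorem cells_ind {r : ℕ} (hr : 1 ≤ r) (q : ℕ) : ∀ (U : Finset V) (α : ℝ), 0 ≤ α →
    U.card = 2 * (q * r) → (∀ v ∈ U, (NU G U v).card ≤ r) →
    df G U r ≤ α * (r : ℝ) ^ 2 → WU G U r ≤ α * (r : ℝ) ^ 2 →
    ∃ f : V → ℕ × Fin 2, (∀ v ∈ U, (f v).1 < q) ∧
      (∀ b, b < q → ∀ i, (U.filter fun v => f v = (b, i)).card = r) ∧
      ∑ b ∈ range q, ms G (U.filter fun v => f v = (b, 0)) (U.filter fun v => f v = (b, 1)) ≤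
        50 ^ q * α * (r : ℝ) ^ 2 := by
  induction q with
  | zero =>
    intro U α hα hU _ _ _
    obtain ⟨f, hf, hfc⟩ := MB_exists r 0 U hU
    refine ⟨f, hf, hfc, ?_⟩
    simp only [Finset.range_zero, Finset.sum_empty]
    positivity
  | succ q ih =>
    intro U α hα hU hdeg hdf hW
    have hr2 : (0 : ℝ) ≤ (r : ℝ) ^ 2 := by positivity
    by_cases h50 : 50 * α ≤ 1
    · obtain ⟨A, B, hA, hB, hAB, hAc, hBc, hm, hd⟩ :=
        one_cell hr (Nat.succ_le_succ (Nat.zero_le q)) hα h50 hU hdeg hdf hW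
      have hsub : U \ (A ∪ B) ⊆ U := Finset.sdiff_subset
      have hdeg' : ∀ v ∈ U \ (A ∪ B), (NU G (U \ (A ∪ B)) v).card ≤ r := by
        intro v hv
        refine le_trans (Finset.card_le_card ?_) (hdeg v (hsub hv))
        exact Finset.inter_subset_inter_left hsub
      have hW' : WU G (U \ (A ∪ B)) r ≤ 33 * α * (r : ℝ) ^ 2 := by
        refine (WU_mono hsub r).trans (hW.trans ?_)
        exact mul_le_mul_of_nonneg_right (by linarith) hr2
      obtain ⟨f, hf, hfc, hs⟩ := ih (U \ (A ∪ B)) (33 * α) (by positivity)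
        (MB_card hA hB hAB hAc hBc hU) hdeg' hd hW'
      obtain ⟨g1, g2, g3, g4, g5⟩ := MB_glue hA hB hAB hAc hBc hf hfc
      refine ⟨_, g1, g2, ?_⟩
      rw [Finset.sum_range_succ, g3, g4]
      have h1 : ∑ b ∈ range q, ms G (U.filter fun v => MBg q A B f v = (b, 0))
          (U.filter fun v => MBg q A B f v = (b, 1)) =
          ∑ b ∈ range q, ms G ((U \ (A ∪ B)).filter fun v => f v = (b, 0))
            ((U \ (A ∪ B)).filter fun v => f v = (b, 1)) := by
        refine Finset.sum_congr rfl fun b hb => ?_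
        rw [g5 b (Finset.mem_range.1 hb) 0, g5 b (Finset.mem_range.1 hb) 1]
      rw [h1]
      have h2 : (1 : ℝ) ≤ 50 ^ q := one_le_pow₀ (by norm_num)
      have h3 : (0 : ℝ) ≤ α * (r : ℝ) ^ 2 := by positivity
      have h4 : (50 : ℝ) ^ (q + 1) * α * (r : ℝ) ^ 2 = 50 * (50 ^ q * (α * (r : ℝ) ^ 2)) := by ring
      have h5 : (50 : ℝ) ^ q * (33 * α) * (r : ℝ) ^ 2 = 33 * (50 ^ q * (α * (r : ℝ) ^ 2)) := by ring
      have h6 : α * (r : ℝ) ^ 2 ≤ 50 ^ q * (α * (r : ℝ) ^ 2) := le_mul_of_one_le_left h3 h2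
      rw [h5] at hs
      rw [h4]
      have h7 : 16 * α * (r : ℝ) ^ 2 = 16 * (α * (r : ℝ) ^ 2) := by ring
      rw [h7] at hm
      linarith
    · obtain ⟨f, hf, hfc⟩ := MB_exists r (q + 1) U hU
      refine ⟨f, hf, hfc, ?_⟩
      have h1 : ∀ b ∈ range (q + 1), ms G (U.filter fun v => f v = (b, 0))
          (U.filter fun v => f v = (b, 1)) ≤ (r : ℝ) ^ 2 := by
        intro b hb
        refine (MB_ms_le _ _).trans (le_of_eq ?_)
        rw [hfc b (Finset.mem_range.1 hb) 0, hfc b (Finset.mem_range.1 hb) 1, sq]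
      refine (Finset.sum_le_card_nsmul _ _ _ h1).trans ?_
      rw [Finset.card_range, nsmul_eq_mul]
      refine mul_le_mul_of_nonneg_right ?_ hr2
      have h2 := MB_pow q
      push_cast
      have h3 : (50 : ℝ) ^ (q + 1) * α = 50 ^ q * (50 * α) := by ring
      rw [h3]
      have h4 : (0 : ℝ) < 50 ^ q := by positivity
      nlinarith

open scoped Classical in
theorem MB_NU (v : V) : NU G univ v = Nb G v := Finset.inter_univ _

theorem WU_univ (r : ℕ) : WU G univ r = Wt G r := by
  classical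
  simp only [WU, MB_NU, Wt, DL, CM, dl, cm, Finset.sum_div, Nat.cast_sum]
  rw [← Finset.sum_add_distrib]
  refine Finset.sum_congr rfl fun u _ => ?_
  rw [← Finset.sum_add_distrib]
  refine Finset.sum_congr rfl fun v _ => ?_
  rw [Finset.inter_comm (Nb G v) (Nb G u)]

theorem MB_Wt_nonneg (r : ℕ) : 0 ≤ Wt G r := by
  have h1 : 0 ≤ DL G := Finset.sum_nonneg fun u _ => Finset.sum_nonneg fun v _ => Nat.cast_nonneg _
  have h2 : 0 ≤ CM G := Finset.sum_nonneg fun u _ => Finset.sum_nonneg fun v _ => Nat.cast_nonneg _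
  rw [Wt]
  positivity

open scoped Classical in
/-- The missing pairs, oriented. -/
noncomputable def MBP {q : ℕ} (G : SimpleGraph V) (c : V → Fin q × Fin 2) : Finset (V × V) :=
  univ.filter fun p => (c p.1).1 = (c p.2).1 ∧ (c p.1).2 = 0 ∧ (c p.2).2 = 1 ∧ ¬ G.Adj p.1 p.2

open scoped Classical in
theorem MB_Xs {q : ℕ} (c : V → Fin q × Fin 2) : (Xs G c).card = (MBP G c).card := by
  symm
  refine Finset.card_bij (fun p _ => s(p.1, p.2)) ?_ ?_ ?_
  · intro p hp
    rw [MBP, Finset.mem_filter] at hp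
    obtain ⟨-, h1, h2, h3, h4⟩ := hp
    rw [Xs, Finset.mem_filter]
    refine ⟨Finset.mem_univ _, ?_, ?_⟩
    · rw [SimpleGraph.mem_edgeSet]
      refine ⟨h1, ?_⟩
      rw [h2, h3]
      decide
    · rw [SimpleGraph.mem_edgeSet]
      exact h4
  · intro p hp p' hp' h
    rw [MBP, Finset.mem_filter] at hp hp'
    rw [Sym2.eq_iff] at h
    rcases h with ⟨h1, h2⟩ | ⟨h1, h2⟩
    · exact Prod.ext h1 h2
    · exfalso
      have h3 := hp.2.2.1
      rw [h1, hp'.2.2.2.1] at h3
      exact absurd h3 (by decide)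
  · intro e he
    rw [Xs, Finset.mem_filter] at he
    obtain ⟨-, h1, h2⟩ := he
    induction e using Sym2.ind with
    | _ a b =>
      rw [SimpleGraph.mem_edgeSet] at h1 h2
      have h3 : (c a).1 = (c b).1 := h1.1
      have h4 : (c a).2 ≠ (c b).2 := h1.2
      by_cases h5 : (c a).2 = 0
      · refine ⟨(a, b), ?_, rfl⟩
        rw [MBP, Finset.mem_filter]
        refine ⟨Finset.mem_univ _, h3, h5, ?_, h2⟩
        rw [h5] at h4
        show (c b).2 = 1
        omega
      · refine ⟨(b, a), ?_, Sym2.eq_swap⟩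
        rw [MBP, Finset.mem_filter]
        refine ⟨Finset.mem_univ _, h3.symm, ?_, ?_, fun h => h2 h.symm⟩
        · show (c b).2 = 0
          omega
        · show (c a).2 = 1
          omega

open scoped Classical in
theorem Xs_card_ms {q : ℕ} (c : V → Fin q × Fin 2) : ((Xs G c).card : ℝ) =
    ∑ b : Fin q, ms G (univ.filter fun v => c v = (b, 0)) (univ.filter fun v => c v = (b, 1)) := by
  rw [MB_Xs, Finset.card_eq_sum_card_fiberwise (f := fun p : V × V => (c p.1).1)
    (t := (univ : Finset (Fin q))) (fun _ _ => Finset.mem_coe.2 (Finset.mem_univ _))]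
  rw [Nat.cast_sum]
  refine Finset.sum_congr rfl fun b _ => ?_
  rw [ms]
  have h : (MBP G c).filter (fun p => (c p.1).1 = b) =
      ((univ.filter fun v => c v = (b, 0)) ×ˢ (univ.filter fun v => c v = (b, 1))).filter
        fun p => ¬ G.Adj p.1 p.2 := by
    ext p
    simp only [MBP, Finset.mem_filter, Finset.mem_univ, true_and, Finset.mem_product]
    constructor
    · rintro ⟨⟨h1, h2, h3, h4⟩, h5⟩
      exact ⟨⟨Prod.ext h5 h2, Prod.ext (h1.symm.trans h5) h3⟩, h4⟩
    · rintro ⟨⟨h1, h2⟩, h3⟩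
      rw [h1, h2]
      exact ⟨⟨rfl, rfl, rfl, h3⟩, rfl⟩
  rw [h]

theorem cells_of_Wt {q r : ℕ} (hr : 1 ≤ r) (hq : 1 ≤ q) (hV : Fintype.card V = 2 * (q * r))
    (hreg : Reg G r) : ∃ c : V → Fin q × Fin 2, Cells r c ∧
      ((Xs G c).card : ℝ) ≤ 50 ^ q * Wt G r := by
  classical
  have hr0 : (0 : ℝ) < (r : ℝ) ^ 2 := by
    have : (0 : ℝ) < r := by exact_mod_cast hr
    positivity
  have hα : Wt G r / (r : ℝ) ^ 2 * (r : ℝ) ^ 2 = Wt G r := div_mul_cancel₀ _ hr0.ne'
  have hW0 := MB_Wt_nonneg (G := G) r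
  have hNb : ∀ v : V, (Nb G v).card = r := fun v => hreg v
  have hdf : df G univ r = 0 := by
    rw [df]
    refine Finset.sum_eq_zero fun v _ => ?_
    rw [MB_NU, hNb v, sub_self]
  obtain ⟨f, hf, hfc, hs⟩ := cells_ind (G := G) hr q univ (Wt G r / (r : ℝ) ^ 2)
    (by positivity) (by rw [Finset.card_univ]; exact hV)
    (fun v _ => by rw [MB_NU, hNb v]) (by rw [hα, hdf]; exact hW0)
    (by rw [hα, WU_univ])
  have hfv : ∀ v, (f v).1 < q := fun v => hf v (Finset.mem_univ v)
  have hc : ∀ (b : Fin q) (i : Fin 2),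
      (univ.filter fun v => ((⟨(f v).1, hfv v⟩, (f v).2) : Fin q × Fin 2) = (b, i)) =
        univ.filter fun v => f v = ((b : ℕ), i) := by
    intro b i
    ext v
    simp only [Finset.mem_filter, Finset.mem_univ, true_and, Prod.ext_iff, Fin.ext_iff]
  refine ⟨fun v => (⟨(f v).1, hfv v⟩, (f v).2), ?_, ?_⟩
  · rintro ⟨b, i⟩
    rw [hc b i]
    exact hfc b b.2 i
  · rw [Xs_card_ms]
    simp only [hc]
    rw [← Fin.sum_univ_eq_sum_range (fun b => ms G (univ.filter fun v => f v = (b, 0))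
      (univ.filter fun v => f v = (b, 1)))] at hs
    refine hs.trans (le_of_eq ?_)
    rw [mul_assoc, hα]

end

end Pool.Agent.Lib.MP_eeed5c_coK
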