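import Pool.Agent.Lib.MP_eeed5c_co_K.Defs

/-!
# The likelihood ratio order and products of polynomials

`LRS A B`: nonnegative coefficients, `B_i A_j ≤ A_i B_j` for all `i ≤ j`, and if `A_j ≠ 0` then `B_i > 0` for all `i ≤ j`. `LCS A`: log-concave (`LC`, file T/PB: nonnegative, `a_i a_{j+1} ≤ a_{i+1} a_j` for `i ≤ j`), and the support is
an interval starting at 0.

PROOFS.
* `LCS_one`, `LCS_lin`: coefficients of `1` and of `1 + μ X`, `μ ≥ 0`.
* `LCS_mul`: `LC_conv` (with `Polynomial.coeff_mul`) gives the first part. Support: if `(A B)_n ≠ 0` some `A_i ≠ 0`, `B_j ≠ 0`, `i + j = n`; for `n' ≤ n` choose `i' ≤ i`, `j' ≤ j` with `i' + j' = n'`; the term `A_{i'} B_{j'}` is positive and all terms are nonnegative.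
* `LCS_rp`: induction on the multiset, `LCS_lin`, `LCS_mul`.
* `LRS_mul`: write `C = D`. For `m ≤ n`: `(A C)_m (B C)_n - (B C)_m (A C)_n = ∑_{i, j} (A_i B_j - B_i A_j) C_{m-i} C_{n-j}` where `C` with negative index is 0 (sum over all natural `i, j`, finitely many terms). Symmetrise in `(i, j)`: it is
  `∑_{i < j} (A_i B_j - B_i A_j) (C_{m-i} C_{n-j} - C_{m-j} C_{n-i})`, the first bracket is `≥ 0` by `LRS A B`, the second because `C` is log-concave: `m - j ≤ m - i, n - j ≤ n - i` with the same sum (`LC_shift`, file T/PB; if `m < j` the subtracted term is 0).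
  (In Lean extend `C` by 0: use a function `cc (k : ℕ) (i : ℕ) := if i ≤ k then C.coeff (k - i) else 0`, so that `(A C)_k = ∑_{i ≤ N} A_i cc k i` for `N ≥ k`.) The support condition as in `LCS_mul`.
* `LRS_trans`: let `i ≤ j`. If `A_j = 0` then `C_i A_j = 0 ≤ A_i C_j`. Otherwise `B_i, B_j > 0`; multiply `B_i A_j ≤ A_i B_j` and `C_i B_j ≤ B_i C_j`: `C_i A_j B_i B_j ≤ A_i C_j B_i B_j`. Support: `A_j ≠ 0` implies `B_j > 0`, so `C_i > 0` for all `i ≤ j`.
* `LRS_refl`: for `LCS A`.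
* `LRS_prod`: for finite sets `s` of indices, induction: `∏_{insert b s} A = A_b * ∏_s A`, `LRS (A_b ∏_s A) (A_b ∏_s B)` (`LRS_mul` with the factor `A_b`, `mul_comm`), `LRS (A_b ∏_s B) (B_b ∏_s B)` (`LRS_mul` with the factor `∏_s B`, which is `LCS`), `LRS_trans`.
* `LCS_Kab`: if `s, t`: `Kab s t` has the coefficients `C(s,j) C(t,j) j!`; products of log-concave sequences with positive terms: for `i ≤ j`: `C(s,i) C(s,j+1) ≤ C(s,i+1) C(s,j)` and the same for `t`, and with the factorials: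
  `a_{j+1}/a_j = (s-j)(t-j)/(j+1)` is nonincreasing in `j` (for `j ≤ min s t`): `a_i a_{j+1} (j+1) = a_i a_j (s-j)(t-j) ≤ a_i a_j (s-i)(t-i) = a_j a_{i+1} (i+1) ≤ a_j a_{i+1} (j+1)`. Coefficients are positive exactly for `j ≤ min s t`.
* `Kab_coeff_succ`: `(j+1) a_{j+1} = (s-j)(t-j) a_j` for `j ≤ min s t`.
-/

set_option autoImplicit false

namespace Pool.Agent.Lib.MP_eeed5c_coK

open Finset Pool.Agent.Lib.MP_eeed5c_co Pool.Agent.Lib.MP_eeed5c_coT Pool.Agent.Lib.MP_eeed5c_coX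
  Pool.Agent.Lib.MP_eeed5c_coM

/-- Matrix of the sequence `a`. -/
private def NA_A (a : ℕ → ℝ) (i k : ℕ) : ℝ := if k ≤ i then a (i - k) else 0

private theorem NA_A_nonneg {a : ℕ → ℝ} (ha : LC a) (i k : ℕ) : 0 ≤ NA_A a i k := by
  unfold NA_A
  split_ifs
  · exact ha.1 _
  · exact le_rfl

private theorem NA_A_minor {a : ℕ → ℝ} (ha : LC a) {i1 i2 k l : ℕ} (hi : i1 ≤ i2) (hk : k ≤ l) :
    NA_A a i1 l * NA_A a i2 k ≤ NA_A a i1 k * NA_A a i2 l := by
  by_cases hl : l ≤ i1
  · unfold NA_A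
    rw [if_pos hl, if_pos (show k ≤ i2 by omega), if_pos (show k ≤ i1 by omega),
      if_pos (show l ≤ i2 by omega)]
    have h1 := LC_shift ha (i := i1 - l) (j := i2 - l) (by omega) (l - k)
    have h2 : i2 - l + (l - k) = i2 - k := by omega
    have h3 : i1 - l + (l - k) = i1 - k := by omega
    rwa [h2, h3] at h1
  · have h1 : NA_A a i1 l = 0 := by
      unfold NA_A
      rw [if_neg hl]
    rw [h1, zero_mul]
    exact mul_nonneg (NA_A_nonneg ha _ _) (NA_A_nonneg ha _ _)

private theorem NA_cb (s : Finset ℕ) (x y u v : ℕ → ℝ)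
    (h1 : ∀ k l, k ≤ l → x l * y k ≤ x k * y l) (h2 : ∀ k l, k ≤ l → v k * u l ≤ u k * v l) :
    (∑ k ∈ s, x k * v k) * (∑ l ∈ s, y l * u l) ≤ (∑ k ∈ s, x k * u k) * (∑ l ∈ s, y l * v l) := by
  have e1 : (∑ k ∈ s, x k * u k) * (∑ l ∈ s, y l * v l) -
      (∑ k ∈ s, x k * v k) * (∑ l ∈ s, y l * u l) =
      ∑ k ∈ s, ∑ l ∈ s, (x k * y l) * (u k * v l - v k * u l) := by
    rw [Finset.sum_mul_sum, Finset.sum_mul_sum, ← Finset.sum_sub_distrib]
    refine Finset.sum_congr rfl fun k _ => ?_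
    rw [← Finset.sum_sub_distrib]
    exact Finset.sum_congr rfl fun l _ => by ring
  have e2 : (∑ k ∈ s, x k * u k) * (∑ l ∈ s, y l * v l) -
      (∑ k ∈ s, x k * v k) * (∑ l ∈ s, y l * u l) =
      ∑ k ∈ s, ∑ l ∈ s, (x l * y k) * (u l * v k - v l * u k) := by
    rw [e1, Finset.sum_comm]
  have e3 : 2 * ((∑ k ∈ s, x k * u k) * (∑ l ∈ s, y l * v l) -
      (∑ k ∈ s, x k * v k) * (∑ l ∈ s, y l * u l)) =
      ∑ k ∈ s, ∑ l ∈ s, (x k * y l - x l * y k) * (u k * v l - v k * u l) := by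
    rw [two_mul]
    nth_rewrite 1 [e1]
    rw [e2, ← Finset.sum_add_distrib]
    refine Finset.sum_congr rfl fun k _ => ?_
    rw [← Finset.sum_add_distrib]
    exact Finset.sum_congr rfl fun l _ => by ring
  have h3 : 0 ≤ ∑ k ∈ s, ∑ l ∈ s, (x k * y l - x l * y k) * (u k * v l - v k * u l) := by
    refine Finset.sum_nonneg fun k _ => Finset.sum_nonneg fun l _ => ?_
    rcases le_total k l with h | h
    · exact mul_nonneg (sub_nonneg.2 (h1 k l h)) (sub_nonneg.2 (h2 k l h))
    · refine mul_nonneg_of_nonpos_of_nonpos ?_ ?_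
      · have := h1 l k h
        linarith
      · have := h2 l k h
        linarith [mul_comm (v l) (u k), mul_comm (u l) (v k)]
  linarith

private theorem NA_coeff (A D : Polynomial ℝ) {n M : ℕ} (h : n < M) :
    (A * D).coeff n = ∑ k ∈ range M, NA_A (fun i => D.coeff i) n k * A.coeff k := by
  rw [Polynomial.coeff_mul, Finset.Nat.sum_antidiagonal_eq_sum_range_succ_mk]
  have hsub : range n.succ ⊆ range M := Finset.range_mono h
  rw [← Finset.sum_subset hsub]
  · refine Finset.sum_congr rfl fun k hk => ?_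
    have hk' : k ≤ n := Nat.lt_succ_iff.1 (Finset.mem_range.1 hk)
    unfold NA_A
    rw [if_pos hk', mul_comm]
  · intro k _ hk
    have hk' : ¬ k ≤ n := fun h1 => hk (Finset.mem_range.2 (Nat.lt_succ_of_le h1))
    unfold NA_A
    rw [if_neg hk', zero_mul]

/-- Positivity of the coefficients of a product. -/
private theorem NA_supp {A B A' B' : Polynomial ℝ} (hA : ∀ i, 0 ≤ A'.coeff i)
    (hB : ∀ i, 0 ≤ B'.coeff i) (h1 : ∀ j, A.coeff j ≠ 0 → ∀ i, i ≤ j → 0 < A'.coeff i)
    (h2 : ∀ j, B.coeff j ≠ 0 → ∀ i, i ≤ j → 0 < B'.coeff i) (n : ℕ) (hn : (A * B).coeff n ≠ 0)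
    (m : ℕ) (hm : m ≤ n) : 0 < (A' * B').coeff m := by
  rw [Polynomial.coeff_mul] at hn ⊢
  obtain ⟨p, hp, hp0⟩ := Finset.exists_ne_zero_of_sum_ne_zero hn
  rw [Finset.HasAntidiagonal.mem_antidiagonal] at hp
  have hp1 : A.coeff p.1 ≠ 0 := fun h => hp0 (by rw [h, zero_mul])
  have hp2 : B.coeff p.2 ≠ 0 := fun h => hp0 (by rw [h, mul_zero])
  refine Finset.sum_pos' (fun x _ => mul_nonneg (hA _) (hB _))
    ⟨(min p.1 m, m - min p.1 m), ?_, ?_⟩
  · rw [Finset.HasAntidiagonal.mem_antidiagonal]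
    show min p.1 m + (m - min p.1 m) = m
    omega
  · exact mul_pos (h1 _ hp1 _ (min_le_left _ _)) (h2 _ hp2 _ (show m - min p.1 m ≤ p.2 by omega))

theorem LCS_one : LCS 1 := by
  refine ⟨⟨fun i => ?_, fun i j _ => ?_⟩, fun j hj i hi => ?_⟩
  · show 0 ≤ (1 : Polynomial ℝ).coeff i
    rw [Polynomial.coeff_one]
    split_ifs <;> norm_num
  · show (1 : Polynomial ℝ).coeff i * (1 : Polynomial ℝ).coeff (j + 1) ≤
      (1 : Polynomial ℝ).coeff (i + 1) * (1 : Polynomial ℝ).coeff j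
    rw [Polynomial.coeff_one (n := j + 1), Polynomial.coeff_one (n := i + 1),
      if_neg (Nat.succ_ne_zero _), if_neg (Nat.succ_ne_zero _), mul_zero, zero_mul]
  · rw [Polynomial.coeff_one] at hj
    have hj0 : j = 0 := by
      by_contra h
      exact hj (if_neg h)
    have hi0 : i = 0 := by omega
    rw [hi0, Polynomial.coeff_one, if_pos rfl]
    norm_num

private theorem NA_lin_coeff (μ : ℝ) (i : ℕ) :
    (1 + Polynomial.C μ * Polynomial.X).coeff i = if i = 0 then 1 else if i = 1 then μ else 0 := by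
  rw [Polynomial.coeff_add, Polynomial.coeff_one, Polynomial.coeff_C_mul, Polynomial.coeff_X]
  rcases i with _ | _ | i
  · simp
  · simp
  · have h1 : ¬ (i + 1 + 1 = 0) := Nat.succ_ne_zero _
    have h2 : ¬ (i + 1 + 1 = 1) := by omega
    have h3 : ¬ (1 = i + 1 + 1) := by omega
    rw [if_neg h1, if_neg h3, if_neg h1, if_neg h2, mul_zero, add_zero]

theorem NA_LCS_lin {μ : ℝ} (hμ : 0 ≤ μ) : LCS (1 + Polynomial.C μ * Polynomial.X) := by
  have h0 : ∀ i, 0 ≤ (1 + Polynomial.C μ * Polynomial.X).coeff i := by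
    intro i
    rw [NA_lin_coeff]
    split_ifs
    · norm_num
    · exact hμ
    · exact le_rfl
  refine ⟨⟨h0, fun i j hij => ?_⟩, fun j hj i hi => ?_⟩
  · show (1 + Polynomial.C μ * Polynomial.X).coeff i *
        (1 + Polynomial.C μ * Polynomial.X).coeff (j + 1) ≤
      (1 + Polynomial.C μ * Polynomial.X).coeff (i + 1) *
        (1 + Polynomial.C μ * Polynomial.X).coeff j
    rcases Nat.eq_zero_or_pos j with hj | hj
    · have hi : i = 0 := by omega
      rw [hi, hj, mul_comm]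
    · have h1 : (1 + Polynomial.C μ * Polynomial.X).coeff (j + 1) = 0 := by
        rw [NA_lin_coeff, if_neg (Nat.succ_ne_zero _), if_neg (by omega)]
      rw [h1, mul_zero]
      exact mul_nonneg (h0 _) (h0 _)
  · rw [NA_lin_coeff] at hj
    rw [NA_lin_coeff]
    by_cases hi0 : i = 0
    · rw [if_pos hi0]
      norm_num
    · have hj0 : j ≠ 0 := by omega
      rw [if_neg hj0] at hj
      by_cases hj1 : j = 1
      · rw [if_pos hj1] at hj
        rw [if_neg hi0, if_pos (by omega)]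
        exact lt_of_le_of_ne hμ (Ne.symm hj)
      · rw [if_neg hj1] at hj
        exact absurd rfl hj

theorem LCS_mul {A B : Polynomial ℝ} (hA : LCS A) (hB : LCS B) : LCS (A * B) := by
  refine ⟨?_, fun n hn m hm => NA_supp hA.1.1 hB.1.1 hA.2 hB.2 n hn m hm⟩
  have h1 := LC_conv hA.1 hB.1
  have h2 : (fun n => ∑ p ∈ antidiagonal n, A.coeff p.1 * B.coeff p.2) =
      fun n => (A * B).coeff n := by
    funext n
    rw [Polynomial.coeff_mul]
  rwa [h2] at h1

theorem LCS_rp {s : Multiset ℝ} (hs : Nn s) : LCS (rp s) := by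
  induction s using Multiset.induction_on with
  | empty =>
    have h1 : rp (0 : Multiset ℝ) = 1 := by
      unfold rp
      rw [Multiset.map_zero, Multiset.prod_zero]
    rw [h1]
    exact LCS_one
  | cons a s ih =>
    have h1 : rp (a ::ₘ s) = (1 + Polynomial.C a * Polynomial.X) * rp s := by
      unfold rp
      rw [Multiset.map_cons, Multiset.prod_cons]
    rw [h1]
    exact LCS_mul (NA_LCS_lin (hs a (Multiset.mem_cons_self a s)))
      (ih fun μ hμ => hs μ (Multiset.mem_cons_of_mem hμ))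

theorem LRS_mul {A B D : Polynomial ℝ} (h : LRS A B) (hD : LCS D) : LRS (A * D) (B * D) := by
  obtain ⟨hA, hB, hAB, hs⟩ := h
  refine ⟨fun n => ?_, fun n => ?_, fun m n hmn => ?_, fun n hn m hm => ?_⟩
  · rw [Polynomial.coeff_mul]
    exact Finset.sum_nonneg fun p _ => mul_nonneg (hA _) (hD.1.1 _)
  · rw [Polynomial.coeff_mul]
    exact Finset.sum_nonneg fun p _ => mul_nonneg (hB _) (hD.1.1 _)
  · rw [NA_coeff B D (show m < n + 1 by omega), NA_coeff A D (show n < n + 1 by omega),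
      NA_coeff A D (show m < n + 1 by omega), NA_coeff B D (show n < n + 1 by omega)]
    exact NA_cb (range (n + 1)) (NA_A (fun i => D.coeff i) m) (NA_A (fun i => D.coeff i) n)
      (fun k => A.coeff k) (fun k => B.coeff k) (fun k l hkl => NA_A_minor hD.1 hmn hkl)
      (fun k l hkl => hAB k l hkl)
  · exact NA_supp hB hD.1.1 hs hD.2 n hn m hm

theorem NA_LRS_refl {A : Polynomial ℝ} (h : LCS A) : LRS A A :=
  ⟨h.1.1, h.1.1, fun _ _ _ => le_rfl, h.2⟩

theorem LRS_trans {A B C : Polynomial ℝ} (h1 : LRS A B) (h2 : LRS B C) : LRS A C := by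
  obtain ⟨hA, hB, hAB, hs1⟩ := h1
  obtain ⟨_, hC, hBC, hs2⟩ := h2
  refine ⟨hA, hC, fun i j hij => ?_, fun j hj i hi => ?_⟩
  · by_cases h0 : A.coeff j = 0
    · rw [h0, mul_zero]
      exact mul_nonneg (hA _) (hC _)
    · have hBi : 0 < B.coeff i := hs1 j h0 i hij
      have hBj : 0 < B.coeff j := hs1 j h0 j le_rfl
      have e1 := hAB i j hij
      have e2 := hBC i j hij
      have e3 : (C.coeff i * A.coeff j) * (B.coeff i * B.coeff j) ≤
          (A.coeff i * C.coeff j) * (B.coeff i * B.coeff j) := by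
        calc (C.coeff i * A.coeff j) * (B.coeff i * B.coeff j)
            = (B.coeff i * A.coeff j) * (C.coeff i * B.coeff j) := by ring
          _ ≤ (A.coeff i * B.coeff j) * (B.coeff i * C.coeff j) :=
              mul_le_mul e1 e2 (mul_nonneg (hC _) (hB _)) (mul_nonneg (hA _) (hB _))
          _ = (A.coeff i * C.coeff j) * (B.coeff i * B.coeff j) := by ring
      exact le_of_mul_le_mul_right e3 (mul_pos hBi hBj)
  · exact hs2 j (hs1 j hj j le_rfl).ne' i hi

theorem LRS_prod {q : ℕ} {A B : Fin q → Polynomial ℝ} (hA : ∀ b, LCS (A b))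
    (hB : ∀ b, LCS (B b)) (h : ∀ b, LRS (A b) (B b)) : LRS (∏ b, A b) (∏ b, B b) := by
  have key : ∀ s : Finset (Fin q), LCS (∏ b ∈ s, B b) ∧ LRS (∏ b ∈ s, A b) (∏ b ∈ s, B b) := by
    intro s
    induction s using Finset.induction_on with
    | empty =>
      rw [Finset.prod_empty, Finset.prod_empty]
      exact ⟨LCS_one, NA_LRS_refl LCS_one⟩
    | insert b s hb ih =>
      rw [Finset.prod_insert hb, Finset.prod_insert hb]
      refine ⟨LCS_mul (hB b) ih.1, ?_⟩
      have e1 : LRS (A b * ∏ b ∈ s, A b) (A b * ∏ b ∈ s, B b) := by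
        rw [mul_comm (A b), mul_comm (A b)]
        exact LRS_mul ih.2 (hA b)
      exact LRS_trans e1 (LRS_mul (h b) ih.1)
  exact (key Finset.univ).2

private theorem NA_Kab_coeff (s t j : ℕ) :
    (Kab s t).coeff j = (s.choose j : ℝ) * (t.choose j : ℝ) * (j.factorial : ℝ) := by
  unfold Kab
  rw [Polynomial.finsetSum_coeff]
  by_cases hj : j < s + 1
  · rw [Finset.sum_eq_single j]
    · rw [Polynomial.coeff_monomial, if_pos rfl]
    · intro i _ hi
      rw [Polynomial.coeff_monomial, if_neg hi]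
    · intro h
      exact absurd (Finset.mem_range.2 hj) h
  · rw [Finset.sum_eq_zero]
    · rw [Nat.choose_eq_zero_of_lt (show s < j by omega), Nat.cast_zero, zero_mul, zero_mul]
    · intro i hi
      have := Finset.mem_range.1 hi
      rw [Polynomial.coeff_monomial, if_neg (by omega)]

theorem Kab_coeff_succ (s t j : ℕ) (h1 : j ≤ s) (h2 : j ≤ t) :
    ((j : ℝ) + 1) * (Kab s t).coeff (j + 1) = ((s : ℝ) - j) * ((t : ℝ) - j) * (Kab s t).coeff j := by
  rw [NA_Kab_coeff, NA_Kab_coeff]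
  have e1 : ((s.choose (j + 1) : ℝ)) * ((j : ℝ) + 1) = (s.choose j : ℝ) * ((s : ℝ) - j) := by
    have := Nat.choose_succ_right_eq s j
    rw [← Nat.cast_sub h1]
    exact_mod_cast this
  have e2 : ((t.choose (j + 1) : ℝ)) * ((j : ℝ) + 1) = (t.choose j : ℝ) * ((t : ℝ) - j) := by
    have := Nat.choose_succ_right_eq t j
    rw [← Nat.cast_sub h2]
    exact_mod_cast this
  have e3 : ((j + 1).factorial : ℝ) = ((j : ℝ) + 1) * (j.factorial : ℝ) := by
    rw [Nat.factorial_succ]
    push_cast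
    ring
  rw [e3]
  calc ((j : ℝ) + 1) * ((s.choose (j + 1) : ℝ) * (t.choose (j + 1) : ℝ) *
        (((j : ℝ) + 1) * (j.factorial : ℝ)))
      = ((s.choose (j + 1) : ℝ) * ((j : ℝ) + 1)) * ((t.choose (j + 1) : ℝ) * ((j : ℝ) + 1)) *
        (j.factorial : ℝ) := by ring
    _ = ((s.choose j : ℝ) * ((s : ℝ) - j)) * ((t.choose j : ℝ) * ((t : ℝ) - j)) *
        (j.factorial : ℝ) := by rw [e1, e2]
    _ = _ := by ring

theorem LCS_Kab (s t : ℕ) : LCS (Kab s t) := by
  have h0 : ∀ i, 0 ≤ (Kab s t).coeff i := by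
    intro i
    rw [NA_Kab_coeff]
    positivity
  refine ⟨⟨h0, fun i j hij => ?_⟩, fun j hj i hi => ?_⟩
  · show (Kab s t).coeff i * (Kab s t).coeff (j + 1) ≤ (Kab s t).coeff (i + 1) * (Kab s t).coeff j
    by_cases hj : j ≤ s ∧ j ≤ t
    · obtain ⟨hs, ht⟩ := hj
      have hi1 := Kab_coeff_succ s t i (hij.trans hs) (hij.trans ht)
      have hj1 := Kab_coeff_succ s t j hs ht
      have hi0 : (0 : ℝ) ≤ i := Nat.cast_nonneg i
      have hij' : (i : ℝ) ≤ j := by exact_mod_cast hij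
      have hjs : (j : ℝ) ≤ s := by exact_mod_cast hs
      have hjt : (j : ℝ) ≤ t := by exact_mod_cast ht
      have hc : (0 : ℝ) < ((i : ℝ) + 1) * ((j : ℝ) + 1) := by positivity
      refine le_of_mul_le_mul_left ?_ hc
      have e1 : ((i : ℝ) + 1) * ((j : ℝ) + 1) * ((Kab s t).coeff i * (Kab s t).coeff (j + 1)) =
          (((i : ℝ) + 1) * (((s : ℝ) - j) * ((t : ℝ) - j))) *
            ((Kab s t).coeff i * (Kab s t).coeff j) := by
        calc ((i : ℝ) + 1) * ((j : ℝ) + 1) * ((Kab s t).coeff i * (Kab s t).coeff (j + 1))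
            = ((i : ℝ) + 1) * (Kab s t).coeff i * (((j : ℝ) + 1) * (Kab s t).coeff (j + 1)) := by
              ring
          _ = _ := by rw [hj1]; ring
      have e2 : ((i : ℝ) + 1) * ((j : ℝ) + 1) * ((Kab s t).coeff (i + 1) * (Kab s t).coeff j) =
          (((j : ℝ) + 1) * (((s : ℝ) - i) * ((t : ℝ) - i))) *
            ((Kab s t).coeff i * (Kab s t).coeff j) := by
        calc ((i : ℝ) + 1) * ((j : ℝ) + 1) * ((Kab s t).coeff (i + 1) * (Kab s t).coeff j)
            = ((j : ℝ) + 1) * (Kab s t).coeff j * (((i : ℝ) + 1) * (Kab s t).coeff (i + 1)) := by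
              ring
          _ = _ := by rw [hi1]; ring
      rw [e1, e2]
      refine mul_le_mul_of_nonneg_right ?_ (mul_nonneg (h0 _) (h0 _))
      have f1 : (0 : ℝ) ≤ (s : ℝ) - j := by linarith
      have f2 : (0 : ℝ) ≤ (t : ℝ) - j := by linarith
      refine mul_le_mul (by linarith) ?_ (mul_nonneg f1 f2) (by linarith)
      exact mul_le_mul (by linarith) (by linarith) f2 (by linarith)
    · have h1 : (Kab s t).coeff (j + 1) = 0 := by
        rw [NA_Kab_coeff]
        rcases not_and_or.1 hj with h | h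
        · rw [Nat.choose_eq_zero_of_lt (show s < j + 1 by omega), Nat.cast_zero, zero_mul, zero_mul]
        · rw [Nat.choose_eq_zero_of_lt (show t < j + 1 by omega), Nat.cast_zero, mul_zero, zero_mul]
      rw [h1, mul_zero]
      exact mul_nonneg (h0 _) (h0 _)
  · rw [NA_Kab_coeff] at hj
    rw [NA_Kab_coeff]
    have hjs : j ≤ s := by
      by_contra h
      apply hj
      rw [Nat.choose_eq_zero_of_lt (show s < j by omega), Nat.cast_zero, zero_mul, zero_mul]
    have hjt : j ≤ t := by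
      by_contra h
      apply hj
      rw [Nat.choose_eq_zero_of_lt (show t < j by omega), Nat.cast_zero, mul_zero, zero_mul]
    have f1 : (0 : ℝ) < (s.choose i : ℝ) := by exact_mod_cast Nat.choose_pos (hi.trans hjs)
    have f2 : (0 : ℝ) < (t.choose i : ℝ) := by exact_mod_cast Nat.choose_pos (hi.trans hjt)
    have f3 : (0 : ℝ) < (i.factorial : ℝ) := by exact_mod_cast Nat.factorial_pos i
    exact mul_pos (mul_pos f1 f2) f3

end Pool.Agent.Lib.MP_eeed5c_coK
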