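import Pool.Agent.Lib.MP_eeed5c_co_K.NA

/-!
# One block

`H = HS G c S b` is the graph of the common edges of `G` and `KG c` in the block `b` between vertices which are not covered by `S`. Let `s = r - cnt c (cov S) (b,0)`, `t = r - cnt c (cov S) (b,1)`: these are the numbers of vertices not covered by `S` of the
two cells of the block (`Cells`, `cov S = univ \ free S`).

PROOFS.
* `HS_LCS`: `mp_rp` (file M/HLc; `Fintype.card V = 2 n`), `LCS_rp`.
* `HS_grow`: pairs (matching `M` of `H` with `e+1` edges, edge of `M`): `(e+1) |mats H (e+1)|`. Each such pair gives the matching `M` minus the edge with `e` edges and an edge of `H` between two free vertices, one in each cell of the block (orient the edge from the cell `(b,0)` to the cell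
  `(b,1)`; `sum_insert` with a function which is 1 if `(c p.1).2 = 0` and 0 otherwise). A matching `N` of `H` with `e` edges covers exactly `e` vertices in each of the cells, all outside `cov S`; so it has `s - e` and `t - e` free vertices outside `cov S` in the two cells, and the number of
  possible edges is at most `(s - e)(t - e)`. In particular `e ≤ s`, `e ≤ t` if there is such a matching.
* `HS_supp`: from this: `mats H e` nonempty implies `e ≤ s`, `e ≤ t`.
* `HS_LRS`: let `a_e = |mats H e|` (`mp_coeff`), `k_e = (Kab s t).coeff e`, positive exactly for `e ≤ min s t`. `k_i a_j ≤ a_i k_j` for `i ≤ j`: if `j > min s t` then `a_j = 0`. Otherwise by induction on `j - i`: `(e+1) a_{e+1} ≤ (s-e)(t-e) a_e` and `(e+1) k_{e+1} = (s-e)(t-e) k_e` (`Kab_coeff_succ`)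
  give `a_{e+1} k_e ≤ a_e k_{e+1}` (if `(s-e)(t-e) > 0`, else `a_{e+1} = 0`), so `a_e / k_e` is nonincreasing for `e ≤ min s t`. Support: `a_j ≠ 0` implies `j ≤ min s t`, so `k_i > 0` for `i ≤ j`.
-/

set_option autoImplicit false

namespace Pool.Agent.Lib.MP_eeed5c_coK

open Finset Pool.Agent.Lib.MP_eeed5c_co Pool.Agent.Lib.MP_eeed5c_coT Pool.Agent.Lib.MP_eeed5c_coX
  Pool.Agent.Lib.MP_eeed5c_coM

section

variable {V : Type*} [Fintype V] {G : SimpleGraph V} {q r : ℕ} {c : V → Fin q × Fin 2}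

theorem HS_LCS (hV : Fintype.card V = 2 * (q * r)) (S : Finset (Sym2 V)) (b : Fin q) :
    LCS (mp (HS G c S b)) := by
  obtain ⟨s, hs, hps, -⟩ := mp_rp (HS G c S b) hV
  rw [hps]
  exact LCS_rp hs

/-- the cell of an end of an edge -/
theorem NB_adj {S : Finset (Sym2 V)} {b : Fin q} {u v : V} (h : (HS G c S b).Adj u v) :
    u ∈ free S ∧ v ∈ free S ∧ ((c u = (b, 0) ∧ c v = (b, 1)) ∨ (c u = (b, 1) ∧ c v = (b, 0))) := by
  obtain ⟨-, h2, h3, h4, h5⟩ := h
  obtain ⟨h6, h7⟩ := h2
  refine ⟨h4, h5, ?_⟩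
  have hv : (c v).1 = b := h6.symm.trans h3
  have e1 : c u = ((c u).1, (c u).2) := rfl
  have e2 : c v = ((c v).1, (c v).2) := rfl
  rw [h3] at e1
  rw [hv] at e2
  have key : ∀ x y : Fin 2, x ≠ y → (x = 0 ∧ y = 1) ∨ (x = 1 ∧ y = 0) := by decide
  rcases key _ _ h7 with ⟨a1, a2⟩ | ⟨a1, a2⟩
  · left
    rw [e1, e2, a1, a2]
    exact ⟨rfl, rfl⟩
  · right
    rw [e1, e2, a1, a2]
    exact ⟨rfl, rfl⟩

open scoped Classical in
/-- the number of edges is the number of darts from one cell -/
theorem NB_darts {S : Finset (Sym2 V)} {b : Fin q} {e : ℕ} {N : Finset (Sym2 V)}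
    (hN : N ∈ mats (HS G c S b) e) (i : Fin 2) :
    ((univ.filter (fun a => a ∉ free N)).filter fun a => c a = (b, i)).card = e ∧
      ∑ p ∈ univ.filter (fun p : V × V => s(p.1, p.2) ∈ N), (if c p.1 = (b, i) then (1 : ℝ) else 0) = e := by
  have hcov := card_covered hN
  have hne01 : ((b, 0) : Fin q × Fin 2) ≠ (b, 1) := by
    intro h
    have h' : (0 : Fin 2) = 1 := congrArg Prod.snd h
    exact absurd h' (by decide)
  -- sum over darts
  have hd : ∀ i : Fin 2, ∑ p ∈ univ.filter (fun p : V × V => s(p.1, p.2) ∈ N), (if c p.1 = (b, i) then (1 : ℝ) else 0)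
      = (((univ.filter (fun a => a ∉ free N)).filter fun a => c a = (b, i)).card : ℝ) := by
    intro i
    rw [sum_darts hN (fun a => if c a = (b, i) then (1 : ℝ) else 0), Finset.sum_ite, Finset.sum_const_zero, add_zero,
      Finset.sum_const, nsmul_eq_mul, mul_one]
  -- symmetry
  have hsym : ∑ p ∈ univ.filter (fun p : V × V => s(p.1, p.2) ∈ N), (if c p.1 = (b, 0) then (1 : ℝ) else 0)
      = ∑ p ∈ univ.filter (fun p : V × V => s(p.1, p.2) ∈ N), (if c p.1 = (b, 1) then (1 : ℝ) else 0) := by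
    refine Finset.sum_bij (fun p _ => (p.2, p.1)) ?_ ?_ ?_ ?_
    · intro p hp
      rw [Finset.mem_filter] at hp ⊢
      refine ⟨Finset.mem_univ _, ?_⟩
      rw [Sym2.eq_swap]
      exact hp.2
    · intro p _ p' _ h
      rw [Prod.mk.injEq] at h
      exact Prod.ext h.2 h.1
    · intro p hp
      rw [Finset.mem_filter] at hp
      refine ⟨(p.2, p.1), ?_, rfl⟩
      rw [Finset.mem_filter]
      refine ⟨Finset.mem_univ _, ?_⟩
      rw [Sym2.eq_swap]
      exact hp.2
    · intro p hp
      rw [Finset.mem_filter] at hp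
      obtain ⟨-, -, h1⟩ := NB_adj (edge_mem hN hp.2)
      rcases h1 with ⟨h1, h2⟩ | ⟨h1, h2⟩
      · rw [h1, h2, if_pos rfl, if_pos rfl]
      · rw [h1, h2, if_neg hne01.symm, if_neg hne01]
  rw [hd 0, hd 1] at hsym
  have hsym' : ((univ.filter (fun a => a ∉ free N)).filter fun a => c a = (b, 0)).card
      = ((univ.filter (fun a => a ∉ free N)).filter fun a => c a = (b, 1)).card := by exact_mod_cast hsym
  -- total
  have htot : ((univ.filter (fun a => a ∉ free N)).filter fun a => c a = (b, 0)).card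
      + ((univ.filter (fun a => a ∉ free N)).filter fun a => c a = (b, 1)).card = 2 * e := by
    rw [← hcov, ← Finset.card_union_of_disjoint]
    · congr 1
      ext a
      simp only [Finset.mem_union, Finset.mem_filter, Finset.mem_univ, true_and]
      constructor
      · rintro (h | h)
        · exact h.1
        · exact h.1
      · intro h
        have h1 := h
        rw [mem_free] at h1
        push Not at h1
        obtain ⟨f, hf, haf⟩ := h1
        have h2 : s(a, Sym2.Mem.other haf) ∈ N := by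
          rw [Sym2.other_spec haf]
          exact hf
        obtain ⟨-, -, h3⟩ := NB_adj (edge_mem hN h2)
        rcases h3 with ⟨h3, -⟩ | ⟨h3, -⟩
        · exact Or.inl ⟨h, h3⟩
        · exact Or.inr ⟨h, h3⟩
    · rw [Finset.disjoint_left]
      intro a ha ha'
      rw [Finset.mem_filter] at ha ha'
      exact hne01 (ha.2.symm.trans ha'.2)
  have hcard : ((univ.filter (fun a => a ∉ free N)).filter fun a => c a = (b, i)).card = e := by
    have key : ∀ x : Fin 2, x = 0 ∨ x = 1 := by decide
    rcases key i with h | h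
    · rw [h]
      omega
    · rw [h]
      omega
  exact ⟨hcard, by rw [hd i, hcard]⟩

open scoped Classical in
/-- the number of free vertices of a cell -/
theorem NB_count (hc : Cells r c) {S : Finset (Sym2 V)} {b : Fin q} {e : ℕ} {N : Finset (Sym2 V)}
    (hN : N ∈ mats (HS G c S b) e) (i : Fin 2) :
    (univ.filter fun a => a ∈ free N ∧ a ∈ free S ∧ c a = (b, i)).card + cnt c (cov S) (b, i) + e = r := by
  have h1 := (NB_darts hN i).1
  rw [← hc (b, i)]
  have hcovN : ∀ a, a ∉ free N → a ∈ free S := by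
    intro a h
    have h1 := h
    rw [mem_free] at h1
    push Not at h1
    obtain ⟨f, hf, haf⟩ := h1
    have h2 : s(a, Sym2.Mem.other haf) ∈ N := by
      rw [Sym2.other_spec haf]
      exact hf
    exact (NB_adj (edge_mem hN h2)).1
  have hU : (univ.filter fun v => c v = (b, i)) =
      ((univ.filter fun a => a ∈ free N ∧ a ∈ free S ∧ c a = (b, i)) ∪ ((cov S).filter fun v => c v = (b, i))) ∪
        ((univ.filter (fun a => a ∉ free N)).filter fun a => c a = (b, i)) := by
    ext a
    unfold cov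
    simp only [Finset.mem_union, Finset.mem_filter, Finset.mem_univ, true_and, Finset.mem_sdiff]
    have := hcovN a
    tauto
  have hd1 : Disjoint (univ.filter fun a => a ∈ free N ∧ a ∈ free S ∧ c a = (b, i))
      ((cov S).filter fun v => c v = (b, i)) := by
    rw [Finset.disjoint_left]
    intro a ha ha'
    unfold cov at ha'
    simp only [Finset.mem_filter, Finset.mem_univ, true_and, Finset.mem_sdiff] at ha ha'
    exact ha'.1 ha.2.1
  have hd2 : Disjoint ((univ.filter fun a => a ∈ free N ∧ a ∈ free S ∧ c a = (b, i)) ∪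
      ((cov S).filter fun v => c v = (b, i)))
      ((univ.filter (fun a => a ∉ free N)).filter fun a => c a = (b, i)) := by
    rw [Finset.disjoint_left]
    intro a ha ha'
    unfold cov at ha
    simp only [Finset.mem_union, Finset.mem_filter, Finset.mem_univ, true_and, Finset.mem_sdiff] at ha ha'
    rcases ha with ha | ha
    · exact ha'.1 ha.1
    · exact ha.1 (hcovN a ha'.1)
  rw [hU, Finset.card_union_of_disjoint hd2, Finset.card_union_of_disjoint hd1, h1]
  rfl

theorem HS_supp (hc : Cells r c) {S : Finset (Sym2 V)} {b : Fin q} {e : ℕ}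
    (h : (mats (HS G c S b) e).card ≠ 0) :
    e + cnt c (cov S) (b, 0) ≤ r ∧ e + cnt c (cov S) (b, 1) ≤ r := by
  classical
  obtain ⟨N, hN⟩ := Finset.card_pos.1 (Nat.pos_of_ne_zero h)
  have h1 := NB_count hc hN 0
  have h2 := NB_count hc hN 1
  omega

theorem HS_grow (hc : Cells r c) (S : Finset (Sym2 V)) (b : Fin q) {e : ℕ}
    (h0 : e + cnt c (cov S) (b, 0) ≤ r) (h1 : e + cnt c (cov S) (b, 1) ≤ r) :
    ((e : ℝ) + 1) * ((mats (HS G c S b) (e + 1)).card : ℝ) ≤
      ((r : ℝ) - cnt c (cov S) (b, 0) - e) * ((r : ℝ) - cnt c (cov S) (b, 1) - e) *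
        ((mats (HS G c S b) e).card : ℝ) := by
  classical
  have hne01 : ((b, 0) : Fin q × Fin 2) ≠ (b, 1) := by
    intro h
    have h' : (0 : Fin 2) = 1 := congrArg Prod.snd h
    exact absurd h' (by decide)
  have hins := sum_insert (G := HS G c S b) e (fun _ p => if c p.1 = (b, 0) then (1 : ℝ) else 0)
  have hL : ∑ M ∈ mats (HS G c S b) (e + 1), ∑ p ∈ univ.filter (fun p : V × V => s(p.1, p.2) ∈ M),
      (if c p.1 = (b, 0) then (1 : ℝ) else 0) = ((e : ℝ) + 1) * ((mats (HS G c S b) (e + 1)).card : ℝ) := by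
    rw [Finset.sum_congr rfl fun M hM => (NB_darts hM 0).2, Finset.sum_const, nsmul_eq_mul]
    push_cast
    ring
  rw [← hL, hins]
  have hR : ∀ N ∈ mats (HS G c S b) e, ∑ p ∈ univ.filter
      (fun p : V × V => p.1 ∈ free N ∧ p.2 ∈ free N ∧ (HS G c S b).Adj p.1 p.2),
        (if c p.1 = (b, 0) then (1 : ℝ) else 0) ≤
        ((r : ℝ) - cnt c (cov S) (b, 0) - e) * ((r : ℝ) - cnt c (cov S) (b, 1) - e) := by
    intro N hN
    have c0 := NB_count hc hN 0
    have c1 := NB_count hc hN 1
    have e0 : (((univ.filter fun a => a ∈ free N ∧ a ∈ free S ∧ c a = (b, 0)).card : ℕ) : ℝ)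
        = (r : ℝ) - cnt c (cov S) (b, 0) - e := by
      rw [← c0]
      push_cast
      ring
    have e1 : (((univ.filter fun a => a ∈ free N ∧ a ∈ free S ∧ c a = (b, 1)).card : ℕ) : ℝ)
        = (r : ℝ) - cnt c (cov S) (b, 1) - e := by
      rw [← c1]
      push_cast
      ring
    rw [← e0, ← e1, ← Nat.cast_mul, ← Finset.card_product, Finset.sum_ite, Finset.sum_const_zero, add_zero,
      Finset.sum_const, nsmul_eq_mul, mul_one]
    have hsub : (univ.filter (fun p : V × V => p.1 ∈ free N ∧ p.2 ∈ free N ∧ (HS G c S b).Adj p.1 p.2)).filter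
        (fun p => c p.1 = (b, 0)) ⊆ (univ.filter fun a => a ∈ free N ∧ a ∈ free S ∧ c a = (b, 0)) ×ˢ
        (univ.filter fun a => a ∈ free N ∧ a ∈ free S ∧ c a = (b, 1)) := by
      intro p hp
      simp only [Finset.mem_filter, Finset.mem_univ, true_and, Finset.mem_product] at hp ⊢
      obtain ⟨⟨f1, f2, f3⟩, f4⟩ := hp
      obtain ⟨g1, g2, g3⟩ := NB_adj f3
      rcases g3 with ⟨_, g3⟩ | ⟨g3, _⟩
      · exact ⟨⟨f1, g1, f4⟩, ⟨f2, g2, g3⟩⟩
      · exact absurd (f4.symm.trans g3) hne01
    exact_mod_cast Finset.card_le_card hsub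
  refine (Finset.sum_le_sum hR).trans (le_of_eq ?_)
  rw [Finset.sum_const, nsmul_eq_mul]
  ring

theorem HS_LRS (hc : Cells r c) (S : Finset (Sym2 V)) (b : Fin q) :
    LRS (mp (HS G c S b)) (Kab (r - cnt c (cov S) (b, 0)) (r - cnt c (cov S) (b, 1))) := by
  have hKnn : ∀ i, 0 ≤ (Kab (r - cnt c (cov S) (b, 0)) (r - cnt c (cov S) (b, 1))).coeff i := by
    intro i
    rw [Kab_coeff]
    positivity
  have hann : ∀ i, 0 ≤ (mp (HS G c S b)).coeff i := by
    intro i
    rw [mp_coeff]
    exact Nat.cast_nonneg _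
  have hsupp : ∀ j, (mp (HS G c S b)).coeff j ≠ 0 → j + cnt c (cov S) (b, 0) ≤ r ∧ j + cnt c (cov S) (b, 1) ≤ r := by
    intro j hj
    rw [mp_coeff] at hj
    exact HS_supp hc (by exact_mod_cast hj)
  have hind : ∀ i k, i + k + cnt c (cov S) (b, 0) ≤ r → i + k + cnt c (cov S) (b, 1) ≤ r →
      (Kab (r - cnt c (cov S) (b, 0)) (r - cnt c (cov S) (b, 1))).coeff i * (mp (HS G c S b)).coeff (i + k) ≤
      (mp (HS G c S b)).coeff i * (Kab (r - cnt c (cov S) (b, 0)) (r - cnt c (cov S) (b, 1))).coeff (i + k) := by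
    intro i k
    induction k with
    | zero =>
      intro _ _
      rw [add_zero, mul_comm]
    | succ k ih =>
      intro h0 h1
      have ih' := ih (by omega) (by omega)
      have hg := HS_grow (G := G) hc S b (e := i + k) (by omega) (by omega)
      have hk := Kab_coeff_succ (r - cnt c (cov S) (b, 0)) (r - cnt c (cov S) (b, 1)) (i + k) (by omega) (by omega)
      rw [Nat.cast_sub (by omega : cnt c (cov S) (b, 0) ≤ r), Nat.cast_sub (by omega : cnt c (cov S) (b, 1) ≤ r)] at hk
      rw [← mp_coeff, ← mp_coeff] at hg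
      rw [← add_assoc]
      have hpos : (0 : ℝ) < ((i + k : ℕ) : ℝ) + 1 := by positivity
      have hs0 : (0 : ℝ) ≤ ((r : ℝ) - cnt c (cov S) (b, 0) - ((i + k : ℕ) : ℝ)) *
          ((r : ℝ) - cnt c (cov S) (b, 1) - ((i + k : ℕ) : ℝ)) := by
        have a0 : (((i + k : ℕ) : ℝ)) + cnt c (cov S) (b, 0) ≤ r := by exact_mod_cast (by omega : i + k + cnt c (cov S) (b, 0) ≤ r)
        have a1 : (((i + k : ℕ) : ℝ)) + cnt c (cov S) (b, 1) ≤ r := by exact_mod_cast (by omega : i + k + cnt c (cov S) (b, 1) ≤ r)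
        exact mul_nonneg (by linarith) (by linarith)
      refine le_of_mul_le_mul_left ?_ hpos
      calc (((i + k : ℕ) : ℝ) + 1) *
            ((Kab (r - cnt c (cov S) (b, 0)) (r - cnt c (cov S) (b, 1))).coeff i *
              (mp (HS G c S b)).coeff (i + k + 1))
          = (Kab (r - cnt c (cov S) (b, 0)) (r - cnt c (cov S) (b, 1))).coeff i *
            ((((i + k : ℕ) : ℝ) + 1) * (mp (HS G c S b)).coeff (i + k + 1)) := by ring
        _ ≤ (Kab (r - cnt c (cov S) (b, 0)) (r - cnt c (cov S) (b, 1))).coeff i *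
            (((r : ℝ) - cnt c (cov S) (b, 0) - ((i + k : ℕ) : ℝ)) *
              ((r : ℝ) - cnt c (cov S) (b, 1) - ((i + k : ℕ) : ℝ)) * (mp (HS G c S b)).coeff (i + k)) :=
            mul_le_mul_of_nonneg_left hg (hKnn i)
        _ = ((r : ℝ) - cnt c (cov S) (b, 0) - ((i + k : ℕ) : ℝ)) *
              ((r : ℝ) - cnt c (cov S) (b, 1) - ((i + k : ℕ) : ℝ)) *
              ((Kab (r - cnt c (cov S) (b, 0)) (r - cnt c (cov S) (b, 1))).coeff i *
                (mp (HS G c S b)).coeff (i + k)) := by ring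
        _ ≤ ((r : ℝ) - cnt c (cov S) (b, 0) - ((i + k : ℕ) : ℝ)) *
              ((r : ℝ) - cnt c (cov S) (b, 1) - ((i + k : ℕ) : ℝ)) *
              ((mp (HS G c S b)).coeff i *
                (Kab (r - cnt c (cov S) (b, 0)) (r - cnt c (cov S) (b, 1))).coeff (i + k)) :=
            mul_le_mul_of_nonneg_left ih' hs0
        _ = (mp (HS G c S b)).coeff i * (((r : ℝ) - cnt c (cov S) (b, 0) - ((i + k : ℕ) : ℝ)) *
              ((r : ℝ) - cnt c (cov S) (b, 1) - ((i + k : ℕ) : ℝ)) *
                (Kab (r - cnt c (cov S) (b, 0)) (r - cnt c (cov S) (b, 1))).coeff (i + k)) := by ring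
        _ = _ := by rw [← hk]; ring
  refine ⟨hann, hKnn, ?_, ?_⟩
  · intro i j hij
    by_cases hj : (mp (HS G c S b)).coeff j = 0
    · rw [hj, mul_zero]
      exact mul_nonneg (hann i) (hKnn j)
    · obtain ⟨h0, h1⟩ := hsupp j hj
      obtain ⟨k, rfl⟩ := Nat.exists_eq_add_of_le hij
      exact hind i k h0 h1
  · intro j hj i hij
    obtain ⟨h0, h1⟩ := hsupp j hj
    rw [Kab_coeff]
    have p1 : 0 < (r - cnt c (cov S) (b, 0)).choose i := Nat.choose_pos (by omega)
    have p2 : 0 < (r - cnt c (cov S) (b, 1)).choose i := Nat.choose_pos (by omega)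
    have p3 : 0 < i.factorial := Nat.factorial_pos i
    have p1' : (0 : ℝ) < ((r - cnt c (cov S) (b, 0)).choose i : ℝ) := by exact_mod_cast p1
    have p2' : (0 : ℝ) < ((r - cnt c (cov S) (b, 1)).choose i : ℝ) := by exact_mod_cast p2
    have p3' : (0 : ℝ) < (i.factorial : ℝ) := by exact_mod_cast p3
    exact mul_pos (mul_pos p1' p2') p3'

end

end Pool.Agent.Lib.MP_eeed5c_coK
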