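import Pool.Agent.Lib.MP_eeed5c_co_K.NB

/-!
# Matching polynomials of unions of graphs without common vertices

PROOFS.
* `mp_disj`: let `H1, H2` be graphs on `V` such that no vertex has a neighbour in both. Then `mp (H1 ⊔ H2) = mp H1 * mp H2`: a matching `M` of `H1 ⊔ H2` with `k` edges corresponds to the pair `(M ∩ E(H1), M ∩ E(H2))` of matchings with `i + j = k` edges (coefficients: `mp_coeff`,
  `Polynomial.coeff_mul`, `Finset.card_sigma`, `Finset.card_bij`; an edge is not in both, because a common edge would give a vertex with neighbours in both; the union of a matching of `H1` and a matching of `H2` is a matching because an edge `s(u,v)` of `H1` and an edge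
  `s(u,w)` of `H2` cannot have a common vertex `u`).
* `mp_bot`: the only matching of the empty graph is the empty one.
* `mp_blocks`: let `H b` (`b : Fin q`) be graphs such that `(H b).Adj u v` implies `(c u).1 = b`. Then `mp (⨆ b, H b) = ∏ b, mp (H b)`: induction on finite sets `s` of blocks: `mp (s.sup H) = ∏_{b ∈ s} mp (H b)` (`mp_disj`: `H b` and `s.sup H` with `b ∉ s` have no common vertex, by the value of
  `(c u).1`); `Finset.sup_univ_eq_iSup`.
-/

set_option autoImplicit false

namespace Pool.Agent.Lib.MP_eeed5c_coK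

open Finset Pool.Agent.Lib.MP_eeed5c_co Pool.Agent.Lib.MP_eeed5c_coT Pool.Agent.Lib.MP_eeed5c_coX
  Pool.Agent.Lib.MP_eeed5c_coM

section

variable {V : Type*} [Fintype V] {G : SimpleGraph V} {q r : ℕ} {c : V → Fin q × Fin 2}

open scoped Classical in
private theorem NC1_ne {H1 H2 : SimpleGraph V} (h : ∀ u v w, H1.Adj u v → ¬ H2.Adj u w)
    {e f : Sym2 V} (he : e ∈ H1.edgeSet) (hf : f ∈ H2.edgeSet) (v : V) (hve : v ∈ e) : v ∉ f := by
  intro hvf
  obtain ⟨a, rfl⟩ := Sym2.mem_iff_exists.1 hve
  obtain ⟨b, rfl⟩ := Sym2.mem_iff_exists.1 hvf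
  exact h v a b he hf

open scoped Classical in
private theorem NC1_not {H1 H2 : SimpleGraph V} (h : ∀ u v w, H1.Adj u v → ¬ H2.Adj u w)
    {e : Sym2 V} (hf : e ∈ H2.edgeSet) : e ∉ H1.edgeSet := by
  intro he
  induction e using Sym2.ind with
  | _ a b => exact h a b b he hf

open scoped Classical in
theorem mp_disj {H1 H2 : SimpleGraph V} (h : ∀ u v w, H1.Adj u v → ¬ H2.Adj u w) :
    mp (H1 ⊔ H2) = mp H1 * mp H2 := by
  ext k
  rw [mp_coeff, Polynomial.coeff_mul]
  simp_rw [mp_coeff]
  have key : (mats (H1 ⊔ H2) k).card =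
      ∑ p ∈ antidiagonal k, (mats H1 p.1).card * (mats H2 p.2).card := by
    simp_rw [← Finset.card_product]
    rw [← Finset.card_sigma]
    refine Finset.card_bij' (fun M _ =>
        (⟨((M.filter fun e => e ∈ H1.edgeSet).card, (M.filter fun e => e ∉ H1.edgeSet).card),
          (M.filter fun e => e ∈ H1.edgeSet, M.filter fun e => e ∉ H1.edgeSet)⟩ :
          Σ _ : ℕ × ℕ, Finset (Sym2 V) × Finset (Sym2 V)))
      (fun x _ => x.2.1 ∪ x.2.2) ?_ ?_ ?_ ?_
    · intro M hM
      obtain ⟨h1, h2, h3⟩ := mem_mats.1 hM
      rw [Finset.mem_sigma, Finset.mem_product]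
      refine ⟨?_, ?_, ?_⟩
      · rw [Finset.HasAntidiagonal.mem_antidiagonal]
        show (M.filter fun e => e ∈ H1.edgeSet).card + (M.filter fun e => e ∉ H1.edgeSet).card = k
        rw [← h2]
        exact Finset.card_filter_add_card_filter_not _
      · refine mem_mats.2 ⟨?_, rfl, ?_⟩
        · intro e he
          exact (Finset.mem_filter.1 (Finset.mem_coe.1 he)).2
        · exact h3.mono fun e he => Finset.mem_of_mem_filter e (Finset.mem_coe.1 he)
      · refine mem_mats.2 ⟨?_, rfl, ?_⟩
        · intro e he
          have he' := Finset.mem_filter.1 (Finset.mem_coe.1 he)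
          have h4 : e ∈ (H1 ⊔ H2).edgeSet := h1 he'.1
          rw [SimpleGraph.edgeSet_sup] at h4
          exact h4.resolve_left he'.2
        · exact h3.mono fun e he => Finset.mem_of_mem_filter e (Finset.mem_coe.1 he)
    · rintro ⟨⟨i, j⟩, ⟨M1, M2⟩⟩ hx
      rw [Finset.mem_sigma, Finset.mem_product, Finset.HasAntidiagonal.mem_antidiagonal] at hx
      obtain ⟨hij, hM1, hM2⟩ := hx
      simp only at hij hM1 hM2
      obtain ⟨a1, a2, a3⟩ := mem_mats.1 hM1
      obtain ⟨b1, b2, b3⟩ := mem_mats.1 hM2
      refine mem_mats.2 ⟨?_, ?_, ?_⟩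
      · intro e he
        rw [SimpleGraph.edgeSet_sup]
        rcases Finset.mem_union.1 (Finset.mem_coe.1 he) with h4 | h4
        · exact Or.inl (a1 h4)
        · exact Or.inr (b1 h4)
      · rw [Finset.card_union_of_disjoint, a2, b2, hij]
        rw [Finset.disjoint_left]
        intro e he hf
        exact NC1_not h (b1 hf) (a1 he)
      · intro e he f hf hne v hve hvf
        rcases Finset.mem_union.1 (Finset.mem_coe.1 he) with h4 | h4 <;>
          rcases Finset.mem_union.1 (Finset.mem_coe.1 hf) with h5 | h5
        · exact a3 h4 h5 hne v hve hvf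
        · exact NC1_ne h (a1 h4) (b1 h5) v hve hvf
        · exact NC1_ne h (a1 h5) (b1 h4) v hvf hve
        · exact b3 h4 h5 hne v hve hvf
    · intro M _
      exact Finset.filter_union_filter_not_eq _ _
    · rintro ⟨⟨i, j⟩, ⟨M1, M2⟩⟩ hx
      rw [Finset.mem_sigma, Finset.mem_product, Finset.HasAntidiagonal.mem_antidiagonal] at hx
      obtain ⟨hij, hM1, hM2⟩ := hx
      simp only at hij hM1 hM2
      obtain ⟨a1, a2, a3⟩ := mem_mats.1 hM1
      obtain ⟨b1, b2, b3⟩ := mem_mats.1 hM2
      have e1 : (M1 ∪ M2).filter (fun e => e ∈ H1.edgeSet) = M1 := by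
        ext e
        rw [Finset.mem_filter, Finset.mem_union]
        constructor
        · rintro ⟨h4 | h4, h5⟩
          · exact h4
          · exact absurd h5 (NC1_not h (b1 h4))
        · intro h4
          exact ⟨Or.inl h4, a1 h4⟩
      have e2 : (M1 ∪ M2).filter (fun e => e ∉ H1.edgeSet) = M2 := by
        ext e
        rw [Finset.mem_filter, Finset.mem_union]
        constructor
        · rintro ⟨h4 | h4, h5⟩
          · exact absurd (a1 h4) h5
          · exact h4
        · intro h4
          exact ⟨Or.inr h4, NC1_not h (b1 h4)⟩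
      simp only [e1, e2, a2, b2]
  rw [key]
  push_cast
  rfl

theorem mp_bot : mp (⊥ : SimpleGraph V) = 1 := by
  classical
  ext k
  rw [mp_coeff, Polynomial.coeff_one]
  have h : mats (⊥ : SimpleGraph V) k = if k = 0 then {∅} else ∅ := by
    ext M
    rw [mem_mats]
    constructor
    · rintro ⟨h1, h2, -⟩
      have h3 : M = ∅ := by
        rw [Finset.eq_empty_iff_forall_notMem]
        intro e he
        have h4 := h1 he
        rw [SimpleGraph.edgeSet_bot] at h4
        exact h4
      rw [h3, Finset.card_empty] at h2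
      rw [if_pos h2.symm, Finset.mem_singleton]
      exact h3
    · intro h1
      by_cases hk : k = 0
      · rw [if_pos hk, Finset.mem_singleton] at h1
        subst h1
        refine ⟨?_, ?_, ?_⟩
        · intro e he
          exact absurd (Finset.mem_coe.1 he) (Finset.notMem_empty e)
        · rw [Finset.card_empty, hk]
        · intro e he
          exact absurd (Finset.mem_coe.1 he) (Finset.notMem_empty e)
      · rw [if_neg hk] at h1
        exact absurd h1 (Finset.notMem_empty M)
  rw [h]
  by_cases hk : k = 0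
  · rw [if_pos hk, if_pos hk, Finset.card_singleton, Nat.cast_one]
  · rw [if_neg hk, if_neg hk, Finset.card_empty, Nat.cast_zero]

private theorem NC1_adj {H : Fin q → SimpleGraph V} (h : ∀ b u v, (H b).Adj u v → (c u).1 = b)
    (s : Finset (Fin q)) {u v : V} (huv : (s.sup H).Adj u v) : (c u).1 ∈ s := by
  classical
  induction s using Finset.induction_on with
  | empty =>
    rw [Finset.sup_empty] at huv
    exact absurd huv (by simp)
  | insert a s ha ih =>
    rw [Finset.sup_insert, SimpleGraph.sup_adj] at huv
    rw [Finset.mem_insert]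
    rcases huv with h1 | h1
    · exact Or.inl (h a u v h1)
    · exact Or.inr (ih h1)

theorem mp_blocks {H : Fin q → SimpleGraph V} (h : ∀ b u v, (H b).Adj u v → (c u).1 = b) :
    mp (⨆ b, H b) = ∏ b, mp (H b) := by
  classical
  have key : ∀ s : Finset (Fin q), mp (s.sup H) = ∏ b ∈ s, mp (H b) := by
    intro s
    induction s using Finset.induction_on with
    | empty => rw [Finset.sup_empty, Finset.prod_empty, mp_bot]
    | insert a s ha ih =>
      rw [Finset.sup_insert, Finset.prod_insert ha, ← ih]
      refine mp_disj ?_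
      intro u v w h1 h2
      have h3 := h a u v h1
      have h4 := NC1_adj h s h2
      rw [h3] at h4
      exact ha h4
  rw [← Finset.sup_univ_eq_iSup]
  exact key univ

end

end Pool.Agent.Lib.MP_eeed5c_coK
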