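import Pool.Agent.Lib.MP_eeed5c_co_K.NC1

/-!
# Matchings with a given set of additional edges

Let `S ⊆ Ys G c` be a matching (`S ∈ mats G S.card`).

PROOFS.
* `zt_eq`: a matching `M` of `G` with `k` edges and `M ∩ Ys G c = S` corresponds to `M' = M \ S`: a set of `k - |S|` edges of `G` which are in `KG c` (edges of `G` not in `Ys G c` are edges of `KG c`), a matching, disjoint from the vertices covered by `S`, i.e. between vertices of `free S`.
  So `M'` is a matching of the graph `⨆ b, HS G c S b` (`SimpleGraph.iSup_adj`; an edge of `KG c` lies in one block) with `k - |S|` edges. Conversely for such an `M'` the set `M' ∪ S` is a matching of `G` with `k` edges and `(M' ∪ S) ∩ Ys G c = S` because the edges of `M'` are in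
  `KG c`. So `zt G c S k = |mats (⨆ b, HS G c S b) (k - |S|)|`, `mp_coeff`, `mp_blocks` (`(HS G c S b).Adj u v → (c u).1 = b`).
* `zt_zero`: if `M ∩ Ys G c = S` then `S ⊆ M`, so `S.card ≤ k` and `S` is a matching.
* `sum_zt`: partition of `mats G k` by the set `M ∩ Ys G c` (`Finset.card_eq_sum_card_fiberwise`), which is a subset of `Ys G c`.
-/

set_option autoImplicit false

namespace Pool.Agent.Lib.MP_eeed5c_coK

open Finset Pool.Agent.Lib.MP_eeed5c_co Pool.Agent.Lib.MP_eeed5c_coT Pool.Agent.Lib.MP_eeed5c_coX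
  Pool.Agent.Lib.MP_eeed5c_coM

section

variable {V : Type*} [Fintype V] {G : SimpleGraph V} {q r : ℕ} {c : V → Fin q × Fin 2}

private theorem NC2_edge {S : Finset (Sym2 V)} {e : Sym2 V} :
    e ∈ (⨆ b, HS G c S b).edgeSet ↔
      e ∈ G.edgeSet ∧ e ∈ (KG c).edgeSet ∧ ∀ v ∈ e, v ∈ free S := by
  induction e using Sym2.ind with
  | _ u v =>
    rw [SimpleGraph.mem_edgeSet, SimpleGraph.iSup_adj, SimpleGraph.mem_edgeSet,
      SimpleGraph.mem_edgeSet]
    constructor
    · rintro ⟨b, h1, h2, -, h4, h5⟩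
      refine ⟨h1, h2, ?_⟩
      intro w hw
      rw [Sym2.mem_iff] at hw
      rcases hw with rfl | rfl
      · exact h4
      · exact h5
    · rintro ⟨h1, h2, h3⟩
      exact ⟨(c u).1, h1, h2, rfl, h3 u (by simp), h3 v (by simp)⟩

private theorem NC2_ys {e : Sym2 V} : e ∈ Ys G c ↔ e ∈ G.edgeSet ∧ e ∉ (KG c).edgeSet := by
  classical
  unfold Ys
  rw [Finset.mem_filter]
  exact ⟨fun h => h.2, fun h => ⟨Finset.mem_univ _, h⟩⟩

theorem zt_eq {S : Finset (Sym2 V)} (hS : S ⊆ Ys G c) (hSm : S ∈ mats G S.card) {k : ℕ}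
    (hk : S.card ≤ k) : zt G c S k = (∏ b, mp (HS G c S b)).coeff (k - S.card) := by
  classical
  have hb : mp (⨆ b, HS G c S b) = ∏ b, mp (HS G c S b) :=
    mp_blocks (c := c) (fun b u v h => h.2.2.1)
  rw [← hb, mp_coeff]
  unfold zt
  have hSM := mem_mats.1 hSm
  have hdisj : ∀ M' ∈ mats (⨆ b, HS G c S b) (k - S.card), Disjoint M' S := by
    intro M' hM'
    rw [Finset.disjoint_left]
    intro e he heS
    have h1 := (NC2_edge.1 ((mem_mats.1 hM').1 he)).2.2
    induction e using Sym2.ind with
    | _ u v => exact mem_free.1 (h1 u (by simp)) _ heS (by simp)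
  have key : ((mats G k).filter fun M => M ∩ Ys G c = S).card =
      (mats (⨆ b, HS G c S b) (k - S.card)).card := by
    refine Finset.card_bij' (fun M _ => M \ S) (fun M' _ => M' ∪ S) ?_ ?_ ?_ ?_
    · intro M hM
      rw [Finset.mem_filter] at hM
      obtain ⟨hM, hMS⟩ := hM
      obtain ⟨h1, h2, h3⟩ := mem_mats.1 hM
      have hSsub : S ⊆ M := by
        rw [← hMS]
        exact Finset.inter_subset_left
      refine mem_mats.2 ⟨?_, ?_, ?_⟩
      · intro e he
        rw [Finset.coe_sdiff, Set.mem_diff, Finset.mem_coe, Finset.mem_coe] at he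
        rw [NC2_edge]
        refine ⟨h1 he.1, ?_, ?_⟩
        · by_contra h4
          apply he.2
          rw [← hMS, Finset.mem_inter]
          exact ⟨he.1, NC2_ys.2 ⟨h1 he.1, h4⟩⟩
        · intro v hv
          rw [mem_free]
          intro f hf hvf
          have h4 : e = f := edge_unique hM he.1 (hSsub hf) hv hvf
          rw [h4] at he
          exact he.2 hf
      · rw [Finset.card_sdiff_of_subset hSsub, h2]
      · exact h3.mono fun e he => (Finset.mem_sdiff.1 (Finset.mem_coe.1 he)).1
    · intro M' hM'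
      obtain ⟨h1, h2, h3⟩ := mem_mats.1 hM'
      have hd := hdisj M' hM'
      rw [Finset.mem_filter]
      refine ⟨mem_mats.2 ⟨?_, ?_, ?_⟩, ?_⟩
      · intro e he
        rcases Finset.mem_union.1 (Finset.mem_coe.1 he) with h4 | h4
        · exact (NC2_edge.1 (h1 h4)).1
        · exact hSM.1 h4
      · rw [Finset.card_union_of_disjoint hd, h2]
        omega
      · intro e he f hf hne v hve hvf
        rcases Finset.mem_union.1 (Finset.mem_coe.1 he) with h4 | h4 <;>
          rcases Finset.mem_union.1 (Finset.mem_coe.1 hf) with h5 | h5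
        · exact h3 h4 h5 hne v hve hvf
        · exact mem_free.1 ((NC2_edge.1 (h1 h4)).2.2 v hve) f h5 hvf
        · exact mem_free.1 ((NC2_edge.1 (h1 h5)).2.2 v hvf) e h4 hve
        · exact hSM.2.2 h4 h5 hne v hve hvf
      · ext e
        rw [Finset.mem_inter, Finset.mem_union]
        constructor
        · rintro ⟨h4 | h4, h5⟩
          · exact absurd (NC2_edge.1 (h1 h4)).2.1 (NC2_ys.1 h5).2
          · exact h4
        · intro h4
          exact ⟨Or.inr h4, hS h4⟩
    · intro M hM
      rw [Finset.mem_filter] at hM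
      have hSsub : S ⊆ M := by
        rw [← hM.2]
        exact Finset.inter_subset_left
      exact Finset.sdiff_union_of_subset hSsub
    · intro M' hM'
      exact Finset.union_sdiff_cancel_right (hdisj M' hM')
  rw [← key]

theorem zt_zero {S : Finset (Sym2 V)} {k : ℕ} (h : zt G c S k ≠ 0) :
    S ⊆ Ys G c ∧ S.card ≤ k ∧ S ∈ mats G S.card := by
  classical
  unfold zt at h
  have h1 : ((mats G k).filter fun M => M ∩ Ys G c = S).card ≠ 0 := by
    intro h0
    apply h
    rw [← Nat.cast_zero]
    exact congrArg _ h0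
  obtain ⟨M, hM⟩ := Finset.card_ne_zero.1 h1
  rw [Finset.mem_filter] at hM
  obtain ⟨hM, hMS⟩ := hM
  obtain ⟨h2, h3, h4⟩ := mem_mats.1 hM
  have hSsub : S ⊆ M := by
    rw [← hMS]
    exact Finset.inter_subset_left
  refine ⟨?_, ?_, mem_mats.2 ⟨?_, rfl, ?_⟩⟩
  · rw [← hMS]
    exact Finset.inter_subset_right
  · rw [← h3]
    exact Finset.card_le_card hSsub
  · intro e he
    exact h2 (hSsub he)
  · exact h4.mono fun e he => hSsub he

theorem sum_zt (k : ℕ) : ((mats G k).card : ℝ) = ∑ S ∈ (Ys G c).powerset, zt G c S k := by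
  classical
  have h := Finset.card_eq_sum_card_fiberwise (s := mats G k) (t := (Ys G c).powerset)
    (f := fun M => M ∩ Ys G c) (fun M _ => Finset.mem_coe.2 (Finset.mem_powerset.2
      Finset.inter_subset_right))
  rw [h]
  push_cast
  refine Finset.sum_congr rfl fun S _ => ?_
  unfold zt
  rfl

theorem zt_nonneg (S : Finset (Sym2 V)) (k : ℕ) : 0 ≤ zt G c S k := by
  unfold zt
  exact Nat.cast_nonneg _

end

end Pool.Agent.Lib.MP_eeed5c_coK
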