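import Pool.Agent.Lib.MP_eeed5c_co_K.NC2

/-!
# Comparison of the numbers of matchings with a given set of additional edges

PROOFS. `mF_KG` (file X/XB, with `W = cov S`): `mF (KG c) (cov S) j` is the coefficient of `X^j` of `∏ b, Kab (r - cnt c (cov S) (b,0)) (r - cnt c (cov S) (b,1))`. `LRS_prod` with `HS_LCS`, `LCS_Kab`, `HS_LRS` gives `LRS (∏ b, mp (HS G c S b)) (∏ b, Kab ..)`. With `zt_eq` (`k - |S| ≤ k' - |S|`) the third part of `LRS` is
`zeta_ratio` and the fourth part (`j = i = k - |S|`) is `zt_supp` (`|S| ≤ k` by `zt_zero`).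
-/

set_option autoImplicit false

namespace Pool.Agent.Lib.MP_eeed5c_coK

open Finset Pool.Agent.Lib.MP_eeed5c_co Pool.Agent.Lib.MP_eeed5c_coT Pool.Agent.Lib.MP_eeed5c_coX
  Pool.Agent.Lib.MP_eeed5c_coM

section

variable {V : Type*} [Fintype V] {G : SimpleGraph V} {q r : ℕ} {c : V → Fin q × Fin 2}

private theorem NC3_LRS (hV : Fintype.card V = 2 * (q * r)) (hc : Cells r c) (S : Finset (Sym2 V)) :
    LRS (∏ b, mp (HS G c S b))
      (∏ b, Kab (r - cnt c (cov S) (b, 0)) (r - cnt c (cov S) (b, 1))) :=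
  LRS_prod (fun b => HS_LCS hV S b) (fun _ => LCS_Kab _ _) (fun b => HS_LRS hc S b)

theorem zeta_ratio (hV : Fintype.card V = 2 * (q * r)) (hc : Cells r c) {S : Finset (Sym2 V)}
    (hS : S ⊆ Ys G c) (hSm : S ∈ mats G S.card) {k k' : ℕ} (hk : S.card ≤ k) (hkk : k ≤ k') :
    mF (KG c) (cov S) (k - S.card) * zt G c S k' ≤
      zt G c S k * mF (KG c) (cov S) (k' - S.card) := by
  have h := (NC3_LRS (G := G) hV hc S).2.2.1 (k - S.card) (k' - S.card) (Nat.sub_le_sub_right hkk _)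
  rw [mF_KG hc, mF_KG hc, zt_eq hS hSm hk, zt_eq hS hSm (hk.trans hkk)]
  exact h

theorem zt_supp (hV : Fintype.card V = 2 * (q * r)) (hc : Cells r c) {S : Finset (Sym2 V)}
    (hS : S ⊆ Ys G c) (hSm : S ∈ mats G S.card) {k : ℕ} (h : zt G c S k ≠ 0) :
    0 < mF (KG c) (cov S) (k - S.card) := by
  have hk := (zt_zero h).2.1
  rw [zt_eq hS hSm hk] at h
  rw [mF_KG hc]
  exact (NC3_LRS (G := G) hV hc S).2.2.2 _ h _ le_rfl

end

end Pool.Agent.Lib.MP_eeed5c_coK
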