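import Pool.Agent.Lib.MP_eeed5c_co_K.NC3

/-!
# Matchings with many additional edges

PROOF of `large_part`. Let `T = |Ys G c|`, `P = T r q k`. For `S ⊆ Ys G c` with `|S| = X ≤ k` the number of matchings `M` of `G` with `k` edges and `M ∩ Ys G c = S` is at most `mF (KG c) (cov S) (k - X)` (`M ↦ M \ S`: a matching of `KG c` leaving
`cov S` free), and `|cov S| = 2 X` if `S` is a matching (`card_free`, otherwise there is no such `M`), so it is at most `(3/r)^X P` (`mF_KG_le`, file X/XC2, with `e = X`).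
Hence the number of `M` with `|M ∩ Ys| ≥ X0` is at most `∑_{X ≥ X0, X ≤ k} C(T, X) (3/r)^X P`. `C(T,X) ≤ T^X / X! ≤ (3T/X)^X` (`Nat.choose_le_pow_div`; `X^X ≤ 3^X X!`, because `X^X/X! ≤ exp X ≤ 3^X`: `Real.pow_div_factorial_le_exp`, `Real.exp_one_lt_d9`).
So each term is at most `(9 T/(X r))^X P ≤ (1/2)^X P` for `X ≥ X0 ≥ 1` because `18 T ≤ X0 r ≤ X r`. Sum of the geometric series: at most `2 (1/2)^X0 P`.
-/

set_option autoImplicit false

namespace Pool.Agent.Lib.MP_eeed5c_coK

open Finset Pool.Agent.Lib.MP_eeed5c_co Pool.Agent.Lib.MP_eeed5c_coT Pool.Agent.Lib.MP_eeed5c_coX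

section

variable {V : Type*} [Fintype V] {G : SimpleGraph V} {q r : ℕ} {c : V → Fin q × Fin 2}

theorem cov_card {S : Finset (Sym2 V)} {k : ℕ} (hS : S ∈ mats G k) : (cov S).card = 2 * k := by
  classical
  unfold cov
  rw [Finset.card_sdiff_of_subset (Finset.subset_univ _), Finset.card_univ]
  have h := card_free hS
  omega

private theorem ND_zt_le {S : Finset (Sym2 V)} {k : ℕ} : zt G c S k ≤ mF (KG c) (cov S) (k - S.card) := by
  classical
  unfold zt mF
  rw [Nat.cast_le]
  have hsub : ∀ M : Finset (Sym2 V), M ∩ Ys G c = S → S ⊆ M := fun M hM => hM ▸ Finset.inter_subset_left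
  apply Finset.card_le_card_of_injOn (fun M => M \ S)
  · intro M hM
    have hM' : M ∈ (mats G k).filter fun M => M ∩ Ys G c = S := by
      rw [← Finset.mem_coe]
      exact hM
    rw [Finset.mem_filter, mem_mats] at hM'
    obtain ⟨⟨h1, h2, h3⟩, h4⟩ := hM'
    have hSM := hsub M h4
    rw [Finset.mem_coe, Finset.mem_filter, mem_mats]
    refine ⟨⟨?_, ?_, ?_⟩, ?_⟩
    · intro e he
      have he' := Finset.mem_sdiff.1 (Finset.mem_coe.1 he)
      by_contra hne
      apply he'.2
      rw [← h4, Finset.mem_inter]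
      refine ⟨he'.1, ?_⟩
      unfold Ys
      rw [Finset.mem_filter]
      exact ⟨Finset.mem_univ _, h1 (Finset.mem_coe.2 he'.1), hne⟩
    · rw [Finset.card_sdiff_of_subset hSM, h2]
    · intro e he f hf hef
      exact h3 (Finset.mem_coe.2 (Finset.mem_sdiff.1 (Finset.mem_coe.1 he)).1)
        (Finset.mem_coe.2 (Finset.mem_sdiff.1 (Finset.mem_coe.1 hf)).1) hef
    · intro v hv
      unfold cov at hv
      rw [Finset.mem_sdiff] at hv
      have h5 : ∃ e ∈ S, v ∈ e := by
        by_contra h6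
        push Not at h6
        apply hv.2
        unfold free
        rw [Finset.mem_filter]
        exact ⟨Finset.mem_univ _, h6⟩
      obtain ⟨e, he, hve⟩ := h5
      unfold free
      rw [Finset.mem_filter]
      refine ⟨Finset.mem_univ _, fun f hf => ?_⟩
      have hf' := Finset.mem_sdiff.1 hf
      refine h3 (Finset.mem_coe.2 (hSM he)) (Finset.mem_coe.2 hf'.1) ?_ v hve
      rintro rfl
      exact hf'.2 he
  · intro M hM M' hM' hMM
    have hM1 : M ∈ (mats G k).filter fun M => M ∩ Ys G c = S := by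
      rw [← Finset.mem_coe]
      exact hM
    have hM2 : M' ∈ (mats G k).filter fun M => M ∩ Ys G c = S := by
      rw [← Finset.mem_coe]
      exact hM'
    have h1 := hsub M (Finset.mem_filter.1 hM1).2
    have h2 := hsub M' (Finset.mem_filter.1 hM2).2
    have h3 : M \ S = M' \ S := hMM
    rw [← Finset.sdiff_union_of_subset h1, ← Finset.sdiff_union_of_subset h2, h3]

private theorem ND_one (hc : Cells r c) (hr : 1 ≤ r) (S : Finset (Sym2 V)) (k : ℕ) :
    zt G c S k ≤ (3 / (r : ℝ)) ^ S.card * T r q k := by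
  by_cases h0 : zt G c S k = 0
  · rw [h0]
    exact mul_nonneg (by positivity) (T_nonneg _ _ _)
  · obtain ⟨-, h2, h3⟩ := zt_zero h0
    exact ND_zt_le.trans (mF_KG_le hc hr (cov_card h3) h2)

/-- One size of the set of additional edges. -/
private theorem ND_choose {t X : ℕ} {r X0 : ℝ} (hr : 0 < r) (hX1 : 1 ≤ X) (hX : X0 ≤ X) (h : 18 * (t : ℝ) ≤ X0 * r) :
    (t.choose X : ℝ) * (3 / r) ^ X ≤ (1 / 2) ^ X := by
  have hXR : (0 : ℝ) < X := by exact_mod_cast hX1
  have h1 : (t.choose X : ℝ) ≤ (t : ℝ) ^ X / (X.factorial : ℝ) := Nat.choose_le_pow_div X t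
  have h2 : (X : ℝ) ^ X / (X.factorial : ℝ) ≤ 3 ^ X := by
    refine (Real.pow_div_factorial_le_exp (X : ℝ) hXR.le X).trans ?_
    have h3 : Real.exp (X : ℝ) = Real.exp 1 ^ X := by
      rw [← Real.exp_nat_mul, mul_one]
    rw [h3]
    exact pow_le_pow_left₀ (Real.exp_pos 1).le (Real.exp_one_lt_d9.le.trans (by norm_num)) X
  have hf : (0 : ℝ) < (X.factorial : ℝ) := by exact_mod_cast Nat.factorial_pos X
  have h3 : 1 / (X.factorial : ℝ) ≤ (3 / X) ^ X := by
    rw [div_pow, div_le_div_iff₀ hf (by positivity), one_mul]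
    rwa [div_le_iff₀ hf] at h2
  have h4 : (t : ℝ) * (3 / X) * (3 / r) ≤ 1 / 2 := by
    have h5 : 18 * (t : ℝ) ≤ X * r := h.trans (mul_le_mul_of_nonneg_right hX hr.le)
    rw [show (t : ℝ) * (3 / X) * (3 / r) = 9 * t / (X * r) by
      field_simp
      norm_num, div_le_div_iff₀ (by positivity) (by norm_num)]
    linarith
  calc (t.choose X : ℝ) * (3 / r) ^ X ≤ (t : ℝ) ^ X / (X.factorial : ℝ) * (3 / r) ^ X :=
        mul_le_mul_of_nonneg_right h1 (by positivity)
    _ = (t : ℝ) ^ X * (1 / (X.factorial : ℝ)) * (3 / r) ^ X := by ring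
    _ ≤ (t : ℝ) ^ X * (3 / X) ^ X * (3 / r) ^ X := by
        apply mul_le_mul_of_nonneg_right _ (by positivity)
        exact mul_le_mul_of_nonneg_left h3 (by positivity)
    _ = ((t : ℝ) * (3 / X) * (3 / r)) ^ X := by rw [mul_pow, mul_pow]
    _ ≤ (1 / 2) ^ X := pow_le_pow_left₀ (by positivity) h4 X

theorem large_part (hc : Cells r c) (hr : 1 ≤ r) {X0 : ℕ} (hX0 : 1 ≤ X0)
    (h18 : 18 * ((Ys G c).card : ℝ) ≤ X0 * r) (k : ℕ) :
    ∑ S ∈ (Ys G c).powerset.filter (fun S => X0 ≤ S.card), zt G c S k ≤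
      2 * (1 / 2) ^ X0 * T r q k := by
  classical
  have hP : 0 ≤ T r q k := T_nonneg _ _ _
  have hrR : (0 : ℝ) < r := by exact_mod_cast hr
  set t : ℕ := (Ys G c).card with ht
  have h1 : ∑ S ∈ (Ys G c).powerset.filter (fun S => X0 ≤ S.card), zt G c S k ≤
      ∑ S ∈ (Ys G c).powerset, (fun X : ℕ => if X0 ≤ X then (3 / (r : ℝ)) ^ X * T r q k else 0) S.card := by
    rw [Finset.sum_filter]
    refine Finset.sum_le_sum fun S _ => ?_
    show (if X0 ≤ S.card then zt G c S k else 0) ≤ if X0 ≤ S.card then (3 / (r : ℝ)) ^ S.card * T r q k else 0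
    by_cases h2 : X0 ≤ S.card
    · rw [if_pos h2, if_pos h2]
      exact ND_one hc hr S k
    · rw [if_neg h2, if_neg h2]
  refine h1.trans ?_
  rw [Finset.sum_powerset_apply_card (fun X : ℕ => if X0 ≤ X then (3 / (r : ℝ)) ^ X * T r q k else 0), ← ht]
  have h2 : ∀ X ∈ range (t + 1), t.choose X • (if X0 ≤ X then (3 / (r : ℝ)) ^ X * T r q k else 0) ≤
      (if X0 ≤ X then (1 / 2 : ℝ) ^ X * T r q k else 0) := by
    intro X _
    by_cases h3 : X0 ≤ X
    · rw [if_pos h3, if_pos h3, nsmul_eq_mul, ← mul_assoc]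
      exact mul_le_mul_of_nonneg_right (ND_choose hrR (hX0.trans h3) (by exact_mod_cast h3) h18) hP
    · rw [if_neg h3, if_neg h3, smul_zero]
  refine (Finset.sum_le_sum h2).trans ?_
  rw [← Finset.sum_filter]
  have h3 : (range (t + 1)).filter (fun X => X0 ≤ X) = Ico X0 (t + 1) := by
    ext X
    rw [Finset.mem_filter, Finset.mem_range, Finset.mem_Ico]
    exact and_comm
  rw [h3, ← Finset.sum_mul]
  apply mul_le_mul_of_nonneg_right _ hP
  have h4 : ∀ n : ℕ, ∑ X ∈ Ico X0 n, (1 / 2 : ℝ) ^ X ≤ 2 * (1 / 2) ^ X0 - 2 * (1 / 2) ^ (max X0 n) := by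
    intro n
    induction n with
    | zero => simp
    | succ n ih =>
      rcases Nat.lt_or_ge n X0 with h5 | h5
      · rw [Finset.Ico_eq_empty (by omega), Finset.sum_empty, max_eq_left (by omega)]
        linarith
      · rw [Finset.sum_Ico_succ_top h5]
        rw [max_eq_right h5] at ih
        rw [max_eq_right (by omega), pow_succ]
        linarith
  have h5 := h4 (t + 1)
  have h6 : (0 : ℝ) < (1 / 2) ^ (max X0 (t + 1)) := by positivity
  linarith

end

end Pool.Agent.Lib.MP_eeed5c_coK
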