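import Pool.Agent.Lib.MP_eeed5c_co_K.JB

/-!
# Products of the polynomials `Kab` and the numbers `cN`

Let `s, t : Fin q → ℕ`, `2 l + 2 E = ∑ s + ∑ t`, `E ≤ ∑ s`, `p b = Nat.dist (s b) (t b)`.

PROOFS. The coefficient of `X^E` of `∏ Kab (s b) (t b)` is the sum over all `e : Fin q → ℕ` with `∑ e = E`, `e b ≤ s b`, `e b ≤ t b` of `∏ C(s,e) C(t,e) e! = ∏ s! t! / ((s-e)! (t-e)! e!)`
(`Polynomial` version of `PowerSeries.coeff_prod`: pass to `PowerSeries` with the coercion; or `Finset.prod_univ_sum`). With `i = s b - e b`, `j = t b - e b`: `i! j!` with `|i - j| = p b` and `s!/e! = (s)_i` (falling factorial, `s.descFactorial i`). So each term is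
`∏ t_b! * ∏ (s_b)_{i_b} * ∏ 1/(i_b! j_b!)`, and `1/(i! j!) = Jc (p b) (i + j)` (`Jc_at` with `t = min i j`). `∑ (i_b + j_b) = ∑ s + ∑ t - 2 E = 2 l`, `∑ i_b = ∑ s - E`.
* `Kab_up`: `(s)_i ≤ r^i` because `s ≤ r`; the product of the `r^(i_b)` is `r^(∑ s - E)`; the sum of `∏ Jc (p b) (i_b + j_b)` over these vectors is at most the sum over all vectors `n` with `∑ n = 2 l` of `∏ Jc (p b) (n b)`, which is `cN p l`
  (`PowerSeries.coeff_prod`): the map `e ↦ n`, `n b = s b + t b - 2 e b`, is injective.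
* `Kab_low`: for a vector `n` with `∑ n = 2 l` and all `Jc (p b) (n b) ≠ 0`: `n b ≥ p b`, `n b ≡ p b ≡ s b + t b` mod 2, `n b ≤ 2 l`, and `2 l + ρ ≤ s b`, `2 l ≤ t b`; put `e b = (s b + t b - n b)/2`: it is `≤ min (s b) (t b)` (because `n b ≥ p b = |s b - t b|`), `∑ e = E`. Then `i_b ≤ n b ≤ 2 l` and
  every factor of `(s)_i` is at least `s - i + 1 > ρ`, so `(s)_i ≥ ρ^i`. So the map `n ↦ e` gives the other inequality.
A convenient way for both: prove for every finite set `A` of indices, by induction, the inequality of the coefficients of `X^E` for all `E`, with the polynomials in two variables avoided by fixing the numbers `∑_{b ∈ A} (s b + t b) - 2E`.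
* Alternatively (recommended): `Kab s t` coefficientwise: `(Kab s t).coeff e = t! * (s)_{s-e} * Jc (dist s t) (s + t - 2 e)` for `e ≤ min s t` (lemma `NF1_one`), then `PowerSeries.coeff_prod` for both products.
-/

set_option autoImplicit false

namespace Pool.Agent.Lib.MP_eeed5c_coK

open Finset Pool.Agent.Lib.MP_eeed5c_co Pool.Agent.Lib.MP_eeed5c_coT Pool.Agent.Lib.MP_eeed5c_coX

theorem NF1_J {s t e : ℕ} (h1 : e ≤ s) (h2 : e ≤ t) : Jc (Nat.dist s t) (s + t - 2 * e) =
    1 / (((s - e).factorial : ℝ) * ((t - e).factorial : ℝ)) := by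
  rcases Nat.le_total s t with h | h
  · have e1 : Nat.dist s t = t - s := Nat.dist_eq_sub_of_le h
    have e2 : s + t - 2 * e = 2 * (s - e) + (t - s) := by omega
    have e3 : s - e + (t - s) = t - e := by omega
    rw [e1, e2, Jc_at, e3]
  · have e1 : Nat.dist s t = s - t := Nat.dist_eq_sub_of_le_right h
    have e2 : s + t - 2 * e = 2 * (t - e) + (s - t) := by omega
    have e3 : t - e + (s - t) = s - e := by omega
    rw [e1, e2, Jc_at, e3, mul_comm]

theorem NF1_one {s t e : ℕ} (h1 : e ≤ s) (h2 : e ≤ t) : (Kab s t).coeff e =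
    (t.factorial : ℝ) * (s.descFactorial (s - e) : ℝ) * Jc (Nat.dist s t) (s + t - 2 * e) := by
  rw [NF1_J h1 h2, Kab_coeff]
  have e1 : (s.choose e : ℝ) * (e.factorial : ℝ) * ((s - e).factorial : ℝ) = (s.factorial : ℝ) := by
    exact_mod_cast Nat.choose_mul_factorial_mul_factorial h1
  have e2 : (t.choose e : ℝ) * (e.factorial : ℝ) * ((t - e).factorial : ℝ) = (t.factorial : ℝ) := by
    exact_mod_cast Nat.choose_mul_factorial_mul_factorial h2
  have e3 : (e.factorial : ℝ) * (s.descFactorial (s - e) : ℝ) = (s.factorial : ℝ) := by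
    have h := Nat.factorial_mul_descFactorial (n := s) (k := s - e) (Nat.sub_le _ _)
    have h' : s - (s - e) = e := by omega
    rw [h'] at h
    exact_mod_cast h
  have p1 : (0 : ℝ) < (e.factorial : ℝ) := by exact_mod_cast Nat.factorial_pos e
  have p2 : (0 : ℝ) < ((s - e).factorial : ℝ) := by exact_mod_cast Nat.factorial_pos _
  have p3 : (0 : ℝ) < ((t - e).factorial : ℝ) := by exact_mod_cast Nat.factorial_pos _
  rw [mul_one_div, eq_div_iff (mul_pos p2 p3).ne']
  have key : (e.factorial : ℝ) * ((s.choose e : ℝ) * (t.choose e : ℝ) * (e.factorial : ℝ) *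
      (((s - e).factorial : ℝ) * ((t - e).factorial : ℝ))) =
      (e.factorial : ℝ) * ((t.factorial : ℝ) * (s.descFactorial (s - e) : ℝ)) := by
    calc (e.factorial : ℝ) * ((s.choose e : ℝ) * (t.choose e : ℝ) * (e.factorial : ℝ) *
        (((s - e).factorial : ℝ) * ((t - e).factorial : ℝ)))
        = ((s.choose e : ℝ) * (e.factorial : ℝ) * ((s - e).factorial : ℝ)) *
          ((t.choose e : ℝ) * (e.factorial : ℝ) * ((t - e).factorial : ℝ)) := by ring
      _ = (s.factorial : ℝ) * (t.factorial : ℝ) := by rw [e1, e2]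
      _ = ((e.factorial : ℝ) * (s.descFactorial (s - e) : ℝ)) * (t.factorial : ℝ) := by rw [e3]
      _ = _ := by ring
  exact mul_left_cancel₀ p1.ne' key

theorem NF1_inj {α β : Type*} [DecidableEq β] (A : Finset α) (B : Finset β) (g : α → β) (f : α → ℝ) (h : β → ℝ)
    (hg : ∀ a ∈ A, f a ≠ 0 → g a ∈ B)
    (hinj : ∀ a ∈ A, ∀ a' ∈ A, f a ≠ 0 → f a' ≠ 0 → g a = g a' → a = a')
    (hle : ∀ a ∈ A, f a ≠ 0 → f a ≤ h (g a)) (h0 : ∀ b ∈ B, 0 ≤ h b) :
    ∑ a ∈ A, f a ≤ ∑ b ∈ B, h b := by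
  classical
  rw [← Finset.sum_filter_ne_zero]
  have h1 : ∑ a ∈ A.filter (fun a => f a ≠ 0), f a ≤ ∑ a ∈ A.filter (fun a => f a ≠ 0), h (g a) := by
    refine Finset.sum_le_sum fun a ha => ?_
    rw [Finset.mem_filter] at ha
    exact hle a ha.1 ha.2
  have h2 : ∑ b ∈ (A.filter (fun a => f a ≠ 0)).image g, h b = ∑ a ∈ A.filter (fun a => f a ≠ 0), h (g a) := by
    refine Finset.sum_image fun a ha a' ha' heq => ?_
    rw [Finset.mem_coe, Finset.mem_filter] at ha ha'
    exact hinj a ha.1 a' ha'.1 ha.2 ha'.2 heq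
  rw [← h2] at h1
  refine h1.trans (Finset.sum_le_sum_of_subset_of_nonneg ?_ fun b hb _ => h0 b hb)
  intro b hb
  obtain ⟨a, ha, rfl⟩ := Finset.mem_image.1 hb
  rw [Finset.mem_filter] at ha
  exact hg a ha.1 ha.2

theorem NF1_coeff_prod {q : ℕ} (P : Fin q → Polynomial ℝ) (E : ℕ) :
    (∏ b, P b).coeff E = ∑ l ∈ finsuppAntidiag (univ : Finset (Fin q)) E, ∏ b, (P b).coeff (l b) := by
  have h := PowerSeries.coeff_prod (fun b => (Polynomial.coeToPowerSeries.ringHom (P b) : PowerSeries ℝ)) E univ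
  rw [← map_prod, Polynomial.coeToPowerSeries.ringHom_apply, Polynomial.coeff_coe] at h
  rw [h]
  refine Finset.sum_congr rfl fun l _ => Finset.prod_congr rfl fun b _ => ?_
  rw [Polynomial.coeToPowerSeries.ringHom_apply, Polynomial.coeff_coe]

theorem NF1_cN {q : ℕ} (p : Fin q → ℕ) (l : ℕ) :
    cN p l = ∑ n ∈ finsuppAntidiag (univ : Finset (Fin q)) (2 * l), ∏ b, Jc (p b) (n b) := by
  unfold cN
  rw [PowerSeries.coeff_prod]
  refine Finset.sum_congr rfl fun n _ => Finset.prod_congr rfl fun b _ => ?_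
  unfold JS
  rw [PowerSeries.coeff_mk]

theorem NF1_mem {q : ℕ} {n : ℕ} {f : Fin q →₀ ℕ} :
    f ∈ finsuppAntidiag (univ : Finset (Fin q)) n ↔ ∑ b, f b = n := by
  rw [mem_finsuppAntidiag]
  simp

theorem NF1_le {s t e : ℕ} (h : (Kab s t).coeff e ≠ 0) : e ≤ s ∧ e ≤ t := by
  rw [Kab_coeff] at h
  constructor
  · by_contra hlt
    push Not at hlt
    apply h
    rw [Nat.choose_eq_zero_of_lt hlt]
    simp
  · by_contra hlt
    push Not at hlt
    apply h
    rw [Nat.choose_eq_zero_of_lt hlt]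
    simp

theorem Kab_up {q r : ℕ} {s t : Fin q → ℕ} (hs : ∀ b, s b ≤ r) {E l : ℕ} (hE : E ≤ ∑ b, s b)
    (h2 : 2 * l + 2 * E = ∑ b, s b + ∑ b, t b) :
    (∏ b, Kab (s b) (t b)).coeff E ≤ (∏ b, ((t b).factorial : ℝ)) *
      (r : ℝ) ^ (∑ b, s b - E) * cN (fun b => Nat.dist (s b) (t b)) l := by
  classical
  rw [NF1_coeff_prod, NF1_cN, Finset.mul_sum]
  have hsupp : ∀ e : Fin q →₀ ℕ, ∏ b, (Kab (s b) (t b)).coeff (e b) ≠ 0 → ∀ b, e b ≤ s b ∧ e b ≤ t b :=
    fun e he b => NF1_le (Finset.prod_ne_zero_iff.1 he b (Finset.mem_univ b))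
  refine NF1_inj _ _ (fun e => Finsupp.equivFunOnFinite.symm fun b => s b + t b - 2 * e b) _ _ ?_ ?_ ?_ ?_
  · intro e he hne
    have h1 := hsupp e hne
    rw [NF1_mem] at he ⊢
    simp only [Finsupp.equivFunOnFinite_symm_apply_apply]
    have h3 : ∑ b, (s b + t b - 2 * e b) + 2 * ∑ b, e b = ∑ b, s b + ∑ b, t b := by
      rw [Finset.mul_sum, ← Finset.sum_add_distrib, ← Finset.sum_add_distrib]
      refine Finset.sum_congr rfl fun b _ => ?_
      have := h1 b
      omega
    rw [he] at h3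
    omega
  · intro e _ e' _ hne hne' heq
    have h1 := hsupp e hne
    have h1' := hsupp e' hne'
    ext b
    have h4 := DFunLike.congr_fun heq b
    simp only [Finsupp.equivFunOnFinite_symm_apply_apply] at h4
    have := h1 b
    have := h1' b
    omega
  · intro e he hne
    have h1 := hsupp e hne
    rw [NF1_mem] at he
    simp only [Finsupp.equivFunOnFinite_symm_apply_apply]
    have h5 : ∑ b, s b - E = ∑ b, (s b - e b) := by
      have : ∑ b, (s b - e b) + ∑ b, e b = ∑ b, s b := by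
        rw [← Finset.sum_add_distrib]
        refine Finset.sum_congr rfl fun b _ => ?_
        have := h1 b
        omega
      rw [he] at this
      omega
    rw [h5, ← Finset.prod_pow_eq_pow_sum, ← Finset.prod_mul_distrib, ← Finset.prod_mul_distrib]
    refine Finset.prod_le_prod (fun b _ => ?_) fun b _ => ?_
    · rw [Kab_coeff]
      positivity
    · rw [NF1_one (h1 b).1 (h1 b).2]
      refine mul_le_mul_of_nonneg_right ?_ (Jc_nonneg _ _)
      refine mul_le_mul_of_nonneg_left ?_ (Nat.cast_nonneg _)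
      have h6 : (s b).descFactorial (s b - e b) ≤ r ^ (s b - e b) :=
        (Nat.descFactorial_le_pow _ _).trans (Nat.pow_le_pow_left (hs b) _)
      exact_mod_cast h6
  · intro n _
    refine mul_nonneg (mul_nonneg (Finset.prod_nonneg fun b _ => Nat.cast_nonneg _) (by positivity)) ?_
    exact Finset.prod_nonneg fun b _ => Jc_nonneg _ _

theorem Kab_low {q ρ : ℕ} {s t : Fin q → ℕ} {E l : ℕ} (hE : E ≤ ∑ b, s b)
    (h2 : 2 * l + 2 * E = ∑ b, s b + ∑ b, t b) (hρ : ∀ b, ρ + 2 * l ≤ s b)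
    (ht : ∀ b, 2 * l ≤ t b) :
    (∏ b, ((t b).factorial : ℝ)) * (ρ : ℝ) ^ (∑ b, s b - E) *
      cN (fun b => Nat.dist (s b) (t b)) l ≤ (∏ b, Kab (s b) (t b)).coeff E := by
  classical
  rw [NF1_coeff_prod, NF1_cN, Finset.mul_sum]
  -- the support
  have hsupp : ∀ n : Fin q →₀ ℕ, ∑ b, n b = 2 * l → ∏ b, Jc (Nat.dist (s b) (t b)) (n b) ≠ 0 →
      ∀ b, (s b + t b - n b) / 2 ≤ s b ∧ (s b + t b - n b) / 2 ≤ t b ∧
        s b + t b = n b + 2 * ((s b + t b - n b) / 2) ∧ n b ≤ 2 * l := by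
    intro n hn hne b
    have h1 := Finset.prod_ne_zero_iff.1 hne b (Finset.mem_univ b)
    have h3 : ∃ k, n b = 2 * k + Nat.dist (s b) (t b) := by
      by_contra hno
      push Not at hno
      exact h1 (Jc_off hno)
    obtain ⟨k, hk⟩ := h3
    have h4 : n b ≤ 2 * l := by
      rw [← hn]
      exact Finset.single_le_sum (f := fun b => n b) (fun _ _ => Nat.zero_le _) (Finset.mem_univ b)
    have h5 := hρ b
    have h6 := ht b
    rcases Nat.le_total (s b) (t b) with h | h
    · have e1 : Nat.dist (s b) (t b) = t b - s b := Nat.dist_eq_sub_of_le h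
      rw [e1] at hk
      omega
    · have e1 : Nat.dist (s b) (t b) = s b - t b := Nat.dist_eq_sub_of_le_right h
      rw [e1] at hk
      omega
  refine NF1_inj _ _ (fun n => Finsupp.equivFunOnFinite.symm fun b => (s b + t b - n b) / 2) _ _ ?_ ?_ ?_ ?_
  · intro n hn hne
    rw [NF1_mem] at hn ⊢
    have h1 := hsupp n hn (right_ne_zero_of_mul hne)
    simp only [Finsupp.equivFunOnFinite_symm_apply_apply]
    have h3 : ∑ b, s b + ∑ b, t b = ∑ b, n b + 2 * ∑ b, (s b + t b - n b) / 2 := by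
      rw [Finset.mul_sum, ← Finset.sum_add_distrib, ← Finset.sum_add_distrib]
      exact Finset.sum_congr rfl fun b _ => (h1 b).2.2.1
    omega
  · intro n hn n' hn' hne hne' heq
    rw [NF1_mem] at hn hn'
    have h1 := hsupp n hn (right_ne_zero_of_mul hne)
    have h1' := hsupp n' hn' (right_ne_zero_of_mul hne')
    ext b
    have h4 := DFunLike.congr_fun heq b
    simp only [Finsupp.equivFunOnFinite_symm_apply_apply] at h4
    have := (h1 b).2.2.1
    have := (h1' b).2.2.1
    omega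
  · intro n hn hne
    rw [NF1_mem] at hn
    have h1 := hsupp n hn (right_ne_zero_of_mul hne)
    simp only [Finsupp.equivFunOnFinite_symm_apply_apply]
    have h3 : ∑ b, s b + ∑ b, t b = ∑ b, n b + 2 * ∑ b, (s b + t b - n b) / 2 := by
      rw [Finset.mul_sum, ← Finset.sum_add_distrib, ← Finset.sum_add_distrib]
      exact Finset.sum_congr rfl fun b _ => (h1 b).2.2.1
    have h5 : ∑ b, s b - E = ∑ b, (s b - (s b + t b - n b) / 2) := by
      have : ∑ b, (s b - (s b + t b - n b) / 2) + ∑ b, (s b + t b - n b) / 2 = ∑ b, s b := by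
        rw [← Finset.sum_add_distrib]
        refine Finset.sum_congr rfl fun b _ => ?_
        have := (h1 b).1
        omega
      omega
    rw [h5, ← Finset.prod_pow_eq_pow_sum, ← Finset.prod_mul_distrib, ← Finset.prod_mul_distrib]
    refine Finset.prod_le_prod (fun b _ => ?_) fun b _ => ?_
    · exact mul_nonneg (mul_nonneg (Nat.cast_nonneg _) (by positivity)) (Jc_nonneg _ _)
    · obtain ⟨e1, e2, e3, e4⟩ := h1 b
      rw [NF1_one e1 e2]
      have e5 : s b + t b - 2 * ((s b + t b - n b) / 2) = n b := by omega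
      rw [e5]
      refine mul_le_mul_of_nonneg_right ?_ (Jc_nonneg _ _)
      refine mul_le_mul_of_nonneg_left ?_ (Nat.cast_nonneg _)
      have h6 : ρ ^ (s b - (s b + t b - n b) / 2) ≤ (s b).descFactorial (s b - (s b + t b - n b) / 2) := by
        refine (Nat.pow_le_pow_left ?_ _).trans (Nat.pow_sub_le_descFactorial _ _)
        have := hρ b
        omega
      exact_mod_cast h6
  · intro e _
    refine Finset.prod_nonneg fun b _ => ?_
    rw [Kab_coeff]
    positivity

end Pool.Agent.Lib.MP_eeed5c_coK
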