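import Pool.Agent.Lib.MP_eeed5c_co_K.NF1
import Pool.Agent.Lib.MP_eeed5c_co_K.ND

/-!
# Lower bound for the number of matchings with a given small set of additional edges

Let `n = q r`, `S ⊆ Ys G c` a matching with `|S| ≤ X0`, `s b = r - cnt c (cov S) (b,0)`, `t b = r - cnt c (cov S) (b,1)`.

PROOFS.
* `even_pS`: `∑_b (cnt (b,0) + cnt (b,1)) = |cov S| = 2 |S|` (`cov_card`; every vertex is in one cell), and `Nat.dist a b ≡ a + b` mod 2.
* `cnt_le`: `cnt c (cov S) z ≤ |cov S| = 2 |S|` and `≤ r` (`Cells`).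
* `kap_sum`: `∑ s + ∑ t = 2 q r - 2 |S|`; `Nat.dist (s b) (t b) = pS c S b` (`Nat.dist` of `r - α`, `r - β` with `α, β ≤ r`).
* `zt_cN`: if `zt G c S (n - m) ≠ 0` then `cN (pS c S) m ≠ 0`: by `zt_supp` the coefficient `E = n - m - |S|` of `∏ Kab (s b) (t b)` (`mF_KG`) is positive; it is at most a product with `cN (pS c S) m` by `Kab_up` with `l = m` (`E ≤ ∑ s` because the coefficient is not 0: the degree of `Kab s t` is at most `s`).
* `zeta_low`: if `zt G c S (n-m) = 0` the left side is 0 and the right side `≥ 0`. Otherwise let `E_m = n - m - |S|`, `E_l = n - l - |S|` (`|S| ≤ X0 ≤ r - l ≤ n - l`), `κ_j = mF (KG c) (cov S) (n - j - |S|)`, `g_j = ∑ s - E_j`, `A = ∏ t_b!`, `ρ = r - 2 X0 - 2 m1`. As in `zt_cN`, `E_m ≤ ∑ s` and `E_m ≤ ∑ t`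
  (the coefficient of `X^(E_m)` of `∏ Kab (s b) (t b)` is positive), so `g_l ≤ 2 l` (`g_l = ∑ s - E_l ≤ ∑ s + ∑ t - 2 E_l = 2 l` because `E_l ≤ E_m ≤ ∑ t`). `g_l = g_m + (l - m)`.
  `Kab_low`: `A ρ^(g_l) cN p l ≤ κ_l` (`ρ + 2 l ≤ r - 2 X0 ≤ s b`, `2 l ≤ r - 2 X0 ≤ t b`), `Kab_up`: `κ_m ≤ A r^(g_m) cN p m`, `zeta_ratio` (`k = n - l`, `k' = n - m`): `κ_l zt(n-m) ≤ zt(n-l) κ_m`. So `A ρ^(g_l) cN p l zt(n-m) ≤ zt(n-l) A r^(g_m) cN p m`.
  Divide by `A r^(g_m)`: `ρ^(g_l) / r^(g_m) = r^(l-m) (ρ/r)^(g_l) ≥ r^(l-m) (ρ/r)^(2 m1)` because `0 ≤ ρ/r ≤ 1`, `g_l ≤ 2 l ≤ 2 m1`.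
-/

set_option autoImplicit false

namespace Pool.Agent.Lib.MP_eeed5c_coK

open Finset Pool.Agent.Lib.MP_eeed5c_co Pool.Agent.Lib.MP_eeed5c_coT Pool.Agent.Lib.MP_eeed5c_coX

section

variable {V : Type*} [Fintype V] {G : SimpleGraph V} {q r : ℕ} {c : V → Fin q × Fin 2}

private theorem NF2_cnt_le (hc : Cells r c) (W : Finset V) (z : Fin q × Fin 2) : cnt c W z ≤ r := by
  classical
  rw [← hc z]
  unfold cnt
  refine Finset.card_le_card ?_
  intro v hv
  rw [Finset.mem_filter] at hv ⊢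
  exact ⟨Finset.mem_univ _, hv.2⟩

omit [Fintype V] in
private theorem NF2_cnt_le_card (W : Finset V) (z : Fin q × Fin 2) : cnt c W z ≤ W.card := by
  unfold cnt
  exact Finset.card_le_card (Finset.filter_subset _ _)

omit [Fintype V] in
private theorem NF2_sum_cnt (W : Finset V) : ∑ b, cnt c W (b, 0) + ∑ b, cnt c W (b, 1) = W.card := by
  classical
  have h1 : W.card = ∑ z : Fin q × Fin 2, cnt c W z := by
    unfold cnt
    exact Finset.card_eq_sum_card_fiberwise fun v _ => Finset.mem_univ (c v)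
  rw [h1, Fintype.sum_prod_type, ← Finset.sum_add_distrib]
  refine Finset.sum_congr rfl fun b _ => ?_
  rw [Fin.sum_univ_two]

theorem even_pS {S : Finset (Sym2 V)} (hSm : S ∈ mats G S.card) :
    Even (∑ b, pS c S b) := by
  have h1 := NF2_sum_cnt (c := c) (cov S)
  rw [cov_card hSm, ← Finset.sum_add_distrib] at h1
  have h2 : ∑ b, pS c S b + 2 * ∑ b, min (cnt c (cov S) (b, 0)) (cnt c (cov S) (b, 1)) =
      ∑ b, (cnt c (cov S) (b, 0) + cnt c (cov S) (b, 1)) := by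
    rw [Finset.mul_sum, ← Finset.sum_add_distrib]
    refine Finset.sum_congr rfl fun b _ => ?_
    unfold pS Nat.dist
    omega
  rw [h1] at h2
  refine ⟨S.card - ∑ b, min (cnt c (cov S) (b, 0)) (cnt c (cov S) (b, 1)), ?_⟩
  omega

private theorem NF2_dist (hc : Cells r c) (S : Finset (Sym2 V)) :
    (fun b => Nat.dist (r - cnt c (cov S) (b, 0)) (r - cnt c (cov S) (b, 1))) = pS c S := by
  funext b
  have h0 := NF2_cnt_le hc (cov S) (b, 0)
  have h1 := NF2_cnt_le hc (cov S) (b, 1)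
  unfold pS Nat.dist
  omega

private theorem NF2_sum (hc : Cells r c) {S : Finset (Sym2 V)} (hSm : S ∈ mats G S.card) :
    ∑ b, (r - cnt c (cov S) (b, 0)) + ∑ b, (r - cnt c (cov S) (b, 1)) + 2 * S.card = 2 * (q * r) := by
  have h1 := NF2_sum_cnt (c := c) (cov S)
  rw [cov_card hSm] at h1
  have h2 : ∀ i, ∑ b : Fin q, (r - cnt c (cov S) (b, i)) + ∑ b, cnt c (cov S) (b, i) = q * r := by
    intro i
    rw [← Finset.sum_add_distrib]
    have h3 : ∀ b ∈ (univ : Finset (Fin q)), r - cnt c (cov S) (b, i) + cnt c (cov S) (b, i) = r := by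
      intro b _
      have h0 := NF2_cnt_le hc (cov S) (b, i)
      omega
    rw [Finset.sum_congr rfl h3, Finset.sum_const, Finset.card_univ, Fintype.card_fin, smul_eq_mul]
  have h3 := h2 0
  have h4 := h2 1
  omega

private theorem NF2_deg (s t : ℕ) : (Kab s t).natDegree ≤ s := by
  rw [Polynomial.natDegree_le_iff_coeff_eq_zero]
  intro n hn
  rw [Kab_coeff, Nat.choose_eq_zero_of_lt hn]
  simp

private theorem NF2_supp {s t : Fin q → ℕ} {E : ℕ} (h : (∏ b, Kab (s b) (t b)).coeff E ≠ 0) :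
    E ≤ ∑ b, s b ∧ E ≤ ∑ b, t b := by
  constructor
  · by_contra hcon
    apply h
    refine Polynomial.coeff_eq_zero_of_natDegree_lt (lt_of_le_of_lt ?_ (not_le.1 hcon))
    exact (Polynomial.natDegree_prod_le _ _).trans (Finset.sum_le_sum fun b _ => NF2_deg _ _)
  · by_contra hcon
    apply h
    have h1 : ∏ b, Kab (s b) (t b) = ∏ b, Kab (t b) (s b) := Finset.prod_congr rfl fun b _ => Kab_symm _ _
    rw [h1]
    refine Polynomial.coeff_eq_zero_of_natDegree_lt (lt_of_le_of_lt ?_ (not_le.1 hcon))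
    exact (Polynomial.natDegree_prod_le _ _).trans (Finset.sum_le_sum fun b _ => NF2_deg _ _)

theorem zt_cN (hr : 1 ≤ r) (hV : Fintype.card V = 2 * (q * r)) (hc : Cells r c)
    {S : Finset (Sym2 V)} (hS : S ⊆ Ys G c) (hSm : S ∈ mats G S.card) {m : ℕ} (hm : m ≤ q * r)
    (h : zt G c S (q * r - m) ≠ 0) : cN (pS c S) m ≠ 0 := by
  have hk := (zt_zero h).2.1
  have h1 := zt_supp hV hc hS hSm h
  rw [mF_KG hc] at h1
  obtain ⟨h2, -⟩ := NF2_supp h1.ne'
  have h3 := NF2_sum hc hSm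
  have h4 := Kab_up (q := q) (r := r) (s := fun b => r - cnt c (cov S) (b, 0))
    (t := fun b => r - cnt c (cov S) (b, 1)) (fun b => Nat.sub_le _ _) (E := q * r - m - S.card) (l := m) h2
    (by omega)
  rw [NF2_dist hc S] at h4
  intro h0
  rw [h0, mul_zero] at h4
  exact absurd (lt_of_lt_of_le h1 h4) (lt_irrefl 0)

private theorem NF2_alg {A ρ R zm zl κl κm cl cm P : ℝ} {gl gm d N : ℕ} (hA : 0 < A) (hR : 0 < R) (hzm : 0 ≤ zm)
    (hzl : 0 ≤ zl) (hcl : 0 ≤ cl) (h1 : A * ρ ^ gl * cl ≤ κl) (h2 : κm ≤ A * R ^ gm * cm) (h3 : κl * zm ≤ zl * κm)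
    (hg : gl = gm + d) (hρ : 0 ≤ ρ) (hρR : ρ ≤ R) (hgN : gl ≤ N) (hP : P = ρ / R) :
    zm * (P ^ N * R ^ d * cl) ≤ zl * cm := by
  have hP0 : 0 ≤ P := by rw [hP]; positivity
  have hP1 : P ≤ 1 := by rw [hP]; exact div_le_one_of_le₀ hρR hR.le
  have e1 : (A * R ^ gm) * (zm * (P ^ gl * R ^ d * cl)) = A * ρ ^ gl * cl * zm := by
    have e2 : ρ = P * R := by rw [hP]; field_simp
    rw [e2, mul_pow, hg, pow_add R gm d]
    ring
  have e3 : A * ρ ^ gl * cl * zm ≤ κl * zm := mul_le_mul_of_nonneg_right h1 hzm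
  have e4 : zl * κm ≤ zl * (A * R ^ gm * cm) := mul_le_mul_of_nonneg_left h2 hzl
  have e5 : (A * R ^ gm) * (zm * (P ^ gl * R ^ d * cl)) ≤ (A * R ^ gm) * (zl * cm) := by
    rw [e1]
    calc A * ρ ^ gl * cl * zm ≤ κl * zm := e3
      _ ≤ zl * κm := h3
      _ ≤ zl * (A * R ^ gm * cm) := e4
      _ = (A * R ^ gm) * (zl * cm) := by ring
  have e6 : zm * (P ^ gl * R ^ d * cl) ≤ zl * cm := le_of_mul_le_mul_left e5 (by positivity)
  refine le_trans ?_ e6
  refine mul_le_mul_of_nonneg_left (mul_le_mul_of_nonneg_right (mul_le_mul_of_nonneg_right ?_ (by positivity)) hcl) hzm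
  exact pow_le_pow_of_le_one hP0 hP1 hgN

theorem zeta_low (hq : 1 ≤ q) (hr : 1 ≤ r) (hV : Fintype.card V = 2 * (q * r)) (hc : Cells r c)
    {S : Finset (Sym2 V)} (hS : S ⊆ Ys G c) (hSm : S ∈ mats G S.card) {m l m1 X0 : ℕ}
    (hml : m ≤ l) (hl : l ≤ m1) (hX : S.card ≤ X0) (hρ : 2 * X0 + 2 * m1 ≤ r) :
    zt G c S (q * r - m) * ((1 - (2 * (X0 : ℝ) + 2 * m1) / r) ^ (2 * m1) * (r : ℝ) ^ (l - m) *
      cN (pS c S) l) ≤ zt G c S (q * r - l) * cN (pS c S) m := by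
  by_cases h : zt G c S (q * r - m) = 0
  · rw [h, zero_mul]
    exact mul_nonneg (zt_nonneg _ _) (cN_nonneg _ _)
  have hk := (zt_zero h).2.1
  have hqr : r ≤ q * r := Nat.le_mul_of_pos_left r (by omega)
  have h1 := zt_supp hV hc hS hSm h
  rw [mF_KG hc] at h1
  obtain ⟨h2s, h2t⟩ := NF2_supp h1.ne'
  have h3 := NF2_sum hc hSm
  have hcs : ∀ z : Fin q × Fin 2, cnt c (cov S) z ≤ 2 * X0 := by
    intro z
    have h4 := NF2_cnt_le_card (c := c) (cov S) z
    rw [cov_card hSm] at h4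
    omega
  have hup := Kab_up (q := q) (r := r) (s := fun b => r - cnt c (cov S) (b, 0))
    (t := fun b => r - cnt c (cov S) (b, 1)) (fun b => Nat.sub_le _ _) (E := q * r - m - S.card) (l := m) h2s
    (by omega)
  have hlow := Kab_low (q := q) (ρ := r - (2 * X0 + 2 * m1)) (s := fun b => r - cnt c (cov S) (b, 0))
    (t := fun b => r - cnt c (cov S) (b, 1)) (E := q * r - l - S.card) (l := l)
    (le_trans (by omega) h2s) (by omega)
    (fun b => by have := hcs (b, 0); omega) (fun b => by have := hcs (b, 1); omega)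
  have hrat := zeta_ratio hV hc hS hSm (k := q * r - l) (k' := q * r - m) (by omega) (by omega)
  rw [NF2_dist hc S] at hup hlow
  rw [mF_KG hc, mF_KG hc] at hrat
  refine NF2_alg (A := ∏ b : Fin q, (((r - cnt c (cov S) (b, 1)).factorial : ℕ) : ℝ)) (ρ := ((r - (2 * X0 + 2 * m1) : ℕ) : ℝ))
    (R := (r : ℝ)) (gl := ∑ b : Fin q, (r - cnt c (cov S) (b, 0)) - (q * r - l - S.card))
    (gm := ∑ b : Fin q, (r - cnt c (cov S) (b, 0)) - (q * r - m - S.card))
    ?_ (by exact_mod_cast hr) (zt_nonneg _ _) (zt_nonneg _ _) (cN_nonneg _ _) hlow hup hrat ?_ (Nat.cast_nonneg _) ?_ ?_ ?_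
  · exact Finset.prod_pos fun b _ => by exact_mod_cast Nat.factorial_pos _
  · omega
  · exact_mod_cast Nat.sub_le _ _
  · omega
  · rw [Nat.cast_sub hρ]
    have hr0 : (0 : ℝ) < r := by exact_mod_cast hr
    push_cast
    field_simp

end

end Pool.Agent.Lib.MP_eeed5c_coK
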