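import Pool.Agent.Lib.MP_eeed5c_co_K.JC
import Pool.Agent.Lib.MP_eeed5c_co_U.TEa
import Pool.Agent.Lib.MP_eeed5c_co_U.TFa

/-!
# The coefficients of `(Lp r)^q` from the top, and the value of `Lp r`

PROOFS. `KP r` (file U/TEa) is the reversed polynomial, with the coefficients `Kh r h = ell r (r-h)` for `h ≤ r`, 0 otherwise, and `((KP r)^q).coeff t = Ph r q t = T r q (q r - t)` for `t ≤ q r` (`KP_coeff`, `KP_pow_coeff`).
* `Kh_eq`: `ell r (r-h) = C(r,h)^2 (r-h)! = r! (r)_h / (h!)^2`, where `(r)_h = r.descFactorial h` (`C(r,h) h! = (r)_h`, `(r)_h (r-h)! = r!`); for `h > r` both sides are 0.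
* `desc_two`: `(r)_h ≤ r^h` (`Nat.descFactorial_le_pow`) and `(r)_h ≥ r^h (1 - h^2/r)`: induction on `h`: if `h + 1 ≤ r`, `(r)_{h+1} = (r - h)(r)_h ≥ r^(h+1) (1 - h/r)(1 - h^2/r) ≥ r^(h+1)(1 - (h+1)^2/r)` (the product of the two brackets is `≥ 1 - h/r - h^2/r` ); if the
  bracket `1 - (h+1)^2/r` is `≤ 0` it is trivial; otherwise `(h+1)^2 ≤ r`, so `h + 1 ≤ r` and `1 - h^2/r ≥ 0`.
* `T_upper`: induction on `q` for all `m` (without the condition `m ≤ q r`): `((KP r)^q).coeff m ≤ (r!)^q r^m c0 q m`: `pow_succ`, `coeff_mul`, `c0_succ`, `Kh_eq`, `desc_two`.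
* `T_lower`: induction on `q` for all `m`: `(r!)^q r^m (1 - m^2/r) c0 q m ≤ ((KP r)^q).coeff m`. If `1 - m^2/r ≤ 0` trivial (coefficients are nonnegative). Otherwise for every `(i, j)` with `i + j = m` both `1 - i^2/r`, `1 - j^2/r` are `≥ 0` and their product is
  `≥ 1 - (i^2 + j^2)/r ≥ 1 - m^2/r`.
* `Lp_upper`: with `x = r / z^2`: `Lp r (x) = ∑_{h ≤ r} ell r (r-h) x^(r-h) = x^r ∑_h r! (r)_h/(h!)^2 (z^2/r)^h ≤ x^r r! ∑_h z^(2h)/(h!)^2 ≤ x^r r! Jv 0 z` (reflect the sum: `Finset.sum_range_reflect`; `Jc 0 (2h) = 1/(h!)^2`; a finite partial sum of `Jv 0 z`).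
-/

set_option autoImplicit false

namespace Pool.Agent.Lib.MP_eeed5c_coK

open Finset Pool.Agent.Lib.MP_eeed5c_co Pool.Agent.Lib.MP_eeed5c_coT Pool.Agent.Lib.MP_eeed5c_coX
  Pool.Agent.Lib.MP_eeed5c_coU

theorem Kh_eq (r h : ℕ) :
    Kh r h = (r.factorial : ℝ) * (r.descFactorial h : ℝ) / (h.factorial : ℝ) ^ 2 := by
  unfold Kh
  have hh0 : (h.factorial : ℝ) ≠ 0 := by exact_mod_cast h.factorial_ne_zero
  split_ifs with hh
  · unfold ell
    rw [Nat.choose_symm hh]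
    have e1 : ((r - h).factorial : ℝ) * (r.descFactorial h : ℝ) = (r.factorial : ℝ) := by
      exact_mod_cast Nat.factorial_mul_descFactorial hh
    have e2 : (r.descFactorial h : ℝ) = (h.factorial : ℝ) * (r.choose h : ℝ) := by
      exact_mod_cast Nat.descFactorial_eq_factorial_mul_choose r h
    rw [← e1, e2]
    field_simp
  · have e : r.descFactorial h = 0 := Nat.descFactorial_of_lt (by omega)
    rw [e]
    simp

theorem desc_two {r : ℕ} (hr : 1 ≤ r) (h : ℕ) : (r.descFactorial h : ℝ) ≤ (r : ℝ) ^ h ∧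
    (r : ℝ) ^ h * (1 - (h : ℝ) ^ 2 / r) ≤ (r.descFactorial h : ℝ) := by
  have hr0 : (0 : ℝ) < r := by exact_mod_cast hr
  refine ⟨by exact_mod_cast Nat.descFactorial_le_pow r h, ?_⟩
  induction h with
  | zero => simp
  | succ h ih =>
    by_cases hc : (1 : ℝ) - ((h + 1 : ℕ) : ℝ) ^ 2 / r ≤ 0
    · have h1 : (r : ℝ) ^ (h + 1) * (1 - ((h + 1 : ℕ) : ℝ) ^ 2 / r) ≤ 0 :=
        mul_nonpos_of_nonneg_of_nonpos (by positivity) hc
      exact h1.trans (Nat.cast_nonneg _)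
    · have hc' : ((h + 1 : ℕ) : ℝ) ^ 2 / r < 1 := by linarith [lt_of_not_ge hc]
      have h2 : ((h + 1 : ℕ) : ℝ) ^ 2 < r := by
        rw [div_lt_one hr0] at hc'
        exact hc'
      have h3 : (h + 1) ^ 2 < r := by exact_mod_cast h2
      have h4 : h ≤ r := by nlinarith
      have e : ((r - h : ℕ) : ℝ) = (r : ℝ) - h := by rw [Nat.cast_sub h4]
      rw [Nat.descFactorial_succ, Nat.cast_mul, e]
      have h5 : (0 : ℝ) ≤ (r : ℝ) - h := by
        have : (h : ℝ) ≤ r := by exact_mod_cast h4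
        linarith
      have h6 := mul_le_mul_of_nonneg_left ih h5
      refine le_trans ?_ h6
      have h7 : (1 : ℝ) - ((h + 1 : ℕ) : ℝ) ^ 2 / r ≤ (1 - (h : ℝ) / r) * (1 - (h : ℝ) ^ 2 / r) := by
        push_cast
        have h8 : (0 : ℝ) ≤ (h : ℝ) / r * ((h : ℝ) ^ 2 / r) := by positivity
        have h9 : ((h : ℝ) + 1) ^ 2 / r = (h : ℝ) ^ 2 / r + 2 * ((h : ℝ) / r) + 1 / r := by ring
        have h10 : (0 : ℝ) ≤ (h : ℝ) / r := by positivity
        have h11 : (0 : ℝ) ≤ 1 / (r : ℝ) := by positivity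
        nlinarith
      have h12 : (r : ℝ) ^ (h + 1) * (1 - ((h + 1 : ℕ) : ℝ) ^ 2 / r) ≤
          (r : ℝ) ^ (h + 1) * ((1 - (h : ℝ) / r) * (1 - (h : ℝ) ^ 2 / r)) :=
        mul_le_mul_of_nonneg_left h7 (by positivity)
      refine h12.trans (le_of_eq ?_)
      have h13 : (r : ℝ) * (1 - (h : ℝ) / r) = (r : ℝ) - h := by
        field_simp
      rw [← h13, pow_succ]
      ring

private theorem NG_Kc (r h : ℕ) : 0 ≤ (KP r).coeff h := by
  rw [KP_coeff, Kh_eq]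
  positivity

private theorem NG_Kp (r q : ℕ) : ∀ m : ℕ, 0 ≤ ((KP r) ^ q).coeff m := by
  induction q with
  | zero =>
    intro m
    rw [pow_zero, Polynomial.coeff_one]
    split_ifs <;> norm_num
  | succ q ih =>
    intro m
    rw [pow_succ', Polynomial.coeff_mul]
    exact Finset.sum_nonneg fun p _ => mul_nonneg (NG_Kc r p.1) (ih p.2)

private theorem NG_Ph (r q m : ℕ) : 0 ≤ Ph r q m := by
  rw [← KP_pow_coeff]
  exact NG_Kp r q m

private theorem NG_c0 (q m : ℕ) : 0 ≤ c0 q m := cN_nonneg _ _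

private theorem NG_up {r : ℕ} (hr : 1 ≤ r) (q : ℕ) : ∀ m : ℕ,
    ((KP r) ^ q).coeff m ≤ (r.factorial : ℝ) ^ q * (r : ℝ) ^ m * c0 q m := by
  induction q with
  | zero =>
    intro m
    rw [pow_zero (KP r), Polynomial.coeff_one, c0_zero]
    by_cases hm : m = 0
    · subst hm
      simp
    · rw [if_neg hm]
      simp
  | succ q ih =>
    intro m
    rw [pow_succ' (KP r) q, Polynomial.coeff_mul, c0_succ, Finset.mul_sum]
    refine Finset.sum_le_sum fun p hp => ?_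
    have hpm : p.1 + p.2 = m := Finset.HasAntidiagonal.mem_antidiagonal.mp hp
    have h1 : (KP r).coeff p.1 ≤ (r.factorial : ℝ) * (r : ℝ) ^ p.1 / (p.1.factorial : ℝ) ^ 2 := by
      rw [KP_coeff, Kh_eq]
      gcongr
      exact (desc_two hr p.1).1
    have h2 : 0 ≤ ((KP r) ^ q).coeff p.2 := by
      rw [KP_pow_coeff]
      exact NG_Ph r q p.2
    have h3 := mul_le_mul h1 (ih p.2) h2 (by positivity)
    refine h3.trans (le_of_eq ?_)
    rw [← hpm, pow_add]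
    ring

theorem T_upper {q r m : ℕ} (hr : 1 ≤ r) (hm : m ≤ q * r) :
    T r q (q * r - m) ≤ (r.factorial : ℝ) ^ q * (r : ℝ) ^ m * c0 q m := by
  have h := NG_up hr q m
  rw [KP_pow_coeff] at h
  unfold Ph at h
  rw [if_pos hm] at h
  exact h

private theorem NG_lo {r : ℕ} (hr : 1 ≤ r) (q : ℕ) : ∀ m : ℕ,
    (1 - (m : ℝ) ^ 2 / r) * ((r.factorial : ℝ) ^ q * (r : ℝ) ^ m * c0 q m) ≤
      ((KP r) ^ q).coeff m := by
  have hr0 : (0 : ℝ) < r := by exact_mod_cast hr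
  induction q with
  | zero =>
    intro m
    rw [pow_zero (KP r), Polynomial.coeff_one, c0_zero]
    by_cases hm : m = 0
    · subst hm
      simp
    · rw [if_neg hm]
      simp
  | succ q ih =>
    intro m
    by_cases hc : (1 : ℝ) - (m : ℝ) ^ 2 / r ≤ 0
    · refine le_trans (mul_nonpos_of_nonpos_of_nonneg hc ?_) (NG_Kp r (q + 1) m)
      have := NG_c0 (q + 1) m
      positivity
    · have hc' : 0 < (1 : ℝ) - (m : ℝ) ^ 2 / r := lt_of_not_ge hc
      rw [pow_succ' (KP r) q, Polynomial.coeff_mul, c0_succ, Finset.mul_sum, Finset.mul_sum]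
      refine Finset.sum_le_sum fun p hp => ?_
      have hpm : p.1 + p.2 = m := Finset.HasAntidiagonal.mem_antidiagonal.mp hp
      have hpr : (p.1 : ℝ) + p.2 = m := by exact_mod_cast hpm
      have a1 : (0 : ℝ) ≤ p.1 := Nat.cast_nonneg _
      have a2 : (0 : ℝ) ≤ p.2 := Nat.cast_nonneg _
      have hs : (p.1 : ℝ) ^ 2 / r + (p.2 : ℝ) ^ 2 / r ≤ (m : ℝ) ^ 2 / r := by
        rw [← add_div, ← hpr]
        have : (p.1 : ℝ) ^ 2 + (p.2 : ℝ) ^ 2 ≤ ((p.1 : ℝ) + p.2) ^ 2 := by nlinarith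
        gcongr
      have b1 : (0 : ℝ) ≤ (p.1 : ℝ) ^ 2 / r := by positivity
      have b2 : (0 : ℝ) ≤ (p.2 : ℝ) ^ 2 / r := by positivity
      have c1 : (0 : ℝ) ≤ 1 - (p.1 : ℝ) ^ 2 / r := by linarith
      have c2 : (0 : ℝ) ≤ 1 - (p.2 : ℝ) ^ 2 / r := by linarith
      have h1 : (r.factorial : ℝ) * (r : ℝ) ^ p.1 / (p.1.factorial : ℝ) ^ 2 *
          (1 - (p.1 : ℝ) ^ 2 / r) ≤ (KP r).coeff p.1 := by
        rw [KP_coeff, Kh_eq]
        have h2 := (desc_two hr p.1).2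
        have h3 : (r.factorial : ℝ) * ((r : ℝ) ^ p.1 * (1 - (p.1 : ℝ) ^ 2 / r)) /
            (p.1.factorial : ℝ) ^ 2 ≤
            (r.factorial : ℝ) * (r.descFactorial p.1 : ℝ) / (p.1.factorial : ℝ) ^ 2 := by
          gcongr
        refine le_trans (le_of_eq ?_) h3
        ring
      have hc0 := NG_c0 q p.2
      have h4 := mul_le_mul h1 (ih p.2)
        (mul_nonneg c2 (by positivity)) (NG_Kc r p.1)
      refine le_trans ?_ h4
      have h5 : (1 : ℝ) - (m : ℝ) ^ 2 / r ≤ (1 - (p.1 : ℝ) ^ 2 / r) * (1 - (p.2 : ℝ) ^ 2 / r) := by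
        nlinarith [mul_nonneg b1 b2]
      have h6 : (0 : ℝ) ≤ (r.factorial : ℝ) ^ (q + 1) * (r : ℝ) ^ m *
          (1 / (p.1.factorial : ℝ) ^ 2 * c0 q p.2) := by positivity
      refine (mul_le_mul_of_nonneg_right h5 h6).trans (le_of_eq ?_)
      rw [← hpm, pow_add, pow_succ]
      ring

theorem T_lower {q r m : ℕ} (hr : 1 ≤ r) (hm : m ≤ q * r) :
    (1 - (m : ℝ) ^ 2 / r) * ((r.factorial : ℝ) ^ q * (r : ℝ) ^ m * c0 q m) ≤
      T r q (q * r - m) := by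
  have h := NG_lo hr q m
  rw [KP_pow_coeff] at h
  unfold Ph at h
  rw [if_pos hm] at h
  exact h

theorem Lp_upper {r : ℕ} (hr : 1 ≤ r) {z : ℝ} (hz : 0 < z) :
    (Lp r).eval ((r : ℝ) / z ^ 2) ≤ ((r : ℝ) / z ^ 2) ^ r * (r.factorial : ℝ) * Jv 0 z := by
  have hr0 : (0 : ℝ) < r := by exact_mod_cast hr
  have hs : z ^ 2 / (r : ℝ) ≠ 0 := by positivity
  have e1 := KP_eval r hs
  have e2 : (z ^ 2 / (r : ℝ))⁻¹ = (r : ℝ) / z ^ 2 := by rw [inv_div]
  rw [e2] at e1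
  have e3 : (Lp r).eval ((r : ℝ) / z ^ 2) = ((r : ℝ) / z ^ 2) ^ r * (KP r).eval (z ^ 2 / (r : ℝ)) := by
    rw [e1, ← mul_assoc, ← mul_pow]
    have : (r : ℝ) / z ^ 2 * (z ^ 2 / (r : ℝ)) = 1 := by field_simp
    rw [this, one_pow, one_mul]
  have hd : (KP r).natDegree < r + 1 := by
    refine Nat.lt_succ_of_le (Polynomial.natDegree_le_iff_coeff_eq_zero.mpr fun N hN => ?_)
    rw [KP_coeff]
    unfold Kh
    rw [if_neg (by omega)]
  have h1 : (KP r).eval (z ^ 2 / (r : ℝ)) ≤ (r.factorial : ℝ) * Jv 0 z := by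
    rw [Polynomial.eval_eq_sum_range' hd]
    have h2 : ∀ h ∈ range (r + 1), (KP r).coeff h * (z ^ 2 / (r : ℝ)) ^ h ≤
        (r.factorial : ℝ) * (Jc 0 (2 * h) * z ^ (2 * h)) := by
      intro h _
      have h3 := Jc_at 0 h
      rw [Nat.add_zero, Nat.add_zero] at h3
      rw [KP_coeff, Kh_eq, h3]
      have h4 := (desc_two hr h).1
      have h5 : (r.factorial : ℝ) * (r.descFactorial h : ℝ) / (h.factorial : ℝ) ^ 2 *
          (z ^ 2 / (r : ℝ)) ^ h ≤ (r.factorial : ℝ) * (r : ℝ) ^ h / (h.factorial : ℝ) ^ 2 *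
          (z ^ 2 / (r : ℝ)) ^ h := by
        gcongr
      refine h5.trans (le_of_eq ?_)
      have hh0 : (h.factorial : ℝ) ≠ 0 := by exact_mod_cast h.factorial_ne_zero
      rw [div_pow, pow_mul]
      field_simp
    refine (Finset.sum_le_sum h2).trans ?_
    rw [← Finset.mul_sum]
    refine mul_le_mul_of_nonneg_left ?_ (Nat.cast_nonneg _)
    have h6 : ∑ h ∈ range (r + 1), Jc 0 (2 * h) * z ^ (2 * h) =
        ∑ n ∈ (range (r + 1)).image (fun h => 2 * h), Jc 0 n * z ^ n := by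
      rw [Finset.sum_image]
      intro a _ b _ hab
      have : 2 * a = 2 * b := hab
      omega
    rw [h6]
    unfold Jv
    exact (Jv_summable 0 hz.le).sum_le_tsum _
      (fun n _ => mul_nonneg (Jc_nonneg 0 n) (pow_nonneg hz.le n))
  rw [e3, mul_assoc]
  exact mul_le_mul_of_nonneg_left h1 (by positivity)

end Pool.Agent.Lib.MP_eeed5c_coK
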