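import Pool.Agent.Lib.MP_eeed5c_co_K.NF2
import Pool.Agent.Lib.MP_eeed5c_co_K.NG
import Pool.Agent.Lib.MP_eeed5c_co_K.FA

/-!
# The main inequality for graphs near a union of blocks

Let `n = q r`, `SP` the set of all matchings `S ⊆ Ys G c` with `|S| < X0`, `aS S = zt G c S (n-m) / ((r!)^q r^m cN (pS c S) m)`, `lam = (1 - (2 X0 + 2 m1)/r)^(2 m1)`.

PROOFS.
* `aS_nonneg`: all factors are nonnegative. `aS_mul`: `zt = (r!)^q r^m aS cN (pS) m`: if `cN (pS) m ≠ 0` this is the definition; otherwise `zt = 0` (`zt_cN`) and both sides are 0.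
* `small_large`: `sum_zt` for `k = n - m`; the sets `S` with `|S| ≥ X0` are `large_part`; for the others with `zt ≠ 0`, `S` is a matching (`zt_zero`), so `S ∈ SP`, and `aS_mul`.
* `star`: `x = r / z^2`, so `1/x = z^2/r`. For `m ≤ l ≤ m1` and `S ∈ SP`: `zt G c S (n-l) ≥ lam r^(l-m) cN p l zt(n-m)/cN p m = (r!)^q r^l lam aS cN p l` if `cN p m > 0` (`zeta_low`), and if `cN p m = 0` then `aS = 0` and it is trivial.
  Sum over `S ∈ SP` and over `l`: `mats G (n-l)` has at least `∑_{S ∈ SP} zt G c S (n-l)` elements (`sum_zt`), so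
  `(mp G).eval x ≥ ∑_{l=m}^{m1} |mats G (n-l)| x^(n-l) ≥ x^n ∑_l (z^2/r)^l ∑_S (r!)^q r^l lam aS cN p l = x^n (r!)^q ∑_S aS lam ∑_l cN p l z^(2l)` (`m1 ≤ n`: `2 m1 ≤ r`).
  On the other side `(mp G).eval x = exp (-Fg) (Lp r).eval x ^ q ≤ exp (-Fg) (x^r r! Jv 0 z)^q = exp (-Fg) x^n (r!)^q (Jv 0 z)^q` (`mp_exp`, `Lp_upper`). Divide by `x^n (r!)^q`.
-/

set_option autoImplicit false

namespace Pool.Agent.Lib.MP_eeed5c_coK

open Finset Pool.Agent.Lib.MP_eeed5c_co Pool.Agent.Lib.MP_eeed5c_coT Pool.Agent.Lib.MP_eeed5c_coX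

section

variable {V : Type*} [Fintype V]

/-- The small sets of additional edges. -/
noncomputable def SP {q : ℕ} (G : SimpleGraph V) (c : V → Fin q × Fin 2) (X0 : ℕ) :
    Finset (Finset (Sym2 V)) := by
  classical exact (Ys G c).powerset.filter (fun S => S.card < X0 ∧ S ∈ mats G S.card)

/-- The normalised numbers of matchings. -/
noncomputable def aS {q : ℕ} (G : SimpleGraph V) (c : V → Fin q × Fin 2) (r m : ℕ)
    (S : Finset (Sym2 V)) : ℝ :=
  zt G c S (q * r - m) / ((r.factorial : ℝ) ^ q * (r : ℝ) ^ m * cN (pS c S) m)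

variable {G : SimpleGraph V} {q r : ℕ} {c : V → Fin q × Fin 2}

theorem NI_SP {X0 : ℕ} {S : Finset (Sym2 V)} (hS : S ∈ SP G c X0) :
    S ⊆ Ys G c ∧ S.card < X0 ∧ S ∈ mats G S.card := by
  classical
  unfold SP at hS
  rw [Finset.mem_filter, Finset.mem_powerset] at hS
  exact ⟨hS.1, hS.2.1, hS.2.2⟩

theorem aS_nonneg (m : ℕ) (S : Finset (Sym2 V)) : 0 ≤ aS G c r m S := by
  unfold aS
  have h1 := zt_nonneg (G := G) (c := c) S (q * r - m)
  have h2 := cN_nonneg (pS c S) m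
  positivity

theorem aS_mul (hr : 1 ≤ r) (hV : Fintype.card V = 2 * (q * r)) (hc : Cells r c)
    {X0 m : ℕ} (hm : m ≤ q * r) {S : Finset (Sym2 V)} (hS : S ∈ SP G c X0) :
    zt G c S (q * r - m) =
      (r.factorial : ℝ) ^ q * (r : ℝ) ^ m * (aS G c r m S * cN (pS c S) m) := by
  obtain ⟨h1, h2, h3⟩ := NI_SP hS
  by_cases h0 : cN (pS c S) m = 0
  · rw [h0, mul_zero, mul_zero]
    by_contra h
    exact zt_cN hr hV hc h1 h3 hm h h0
  · unfold aS
    have h4 : (r.factorial : ℝ) ≠ 0 := Nat.cast_ne_zero.2 (Nat.factorial_ne_zero r)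
    have h5 : (r : ℝ) ≠ 0 := Nat.cast_ne_zero.2 (by omega)
    field_simp

theorem aS_zero (hr : 1 ≤ r) (hV : Fintype.card V = 2 * (q * r)) (hc : Cells r c)
    {X0 m : ℕ} (hm : m ≤ q * r) {S : Finset (Sym2 V)} (hS : S ∈ SP G c X0)
    (h : aS G c r m S ≠ 0) : cN (pS c S) m ≠ 0 := by
  intro h0
  apply h
  unfold aS
  rw [h0, mul_zero, div_zero]

theorem small_large (hr : 1 ≤ r) (hV : Fintype.card V = 2 * (q * r)) (hc : Cells r c)
    {X0 m : ℕ} (hX0 : 1 ≤ X0) (hm : m ≤ q * r) (h18 : 18 * ((Ys G c).card : ℝ) ≤ X0 * r) :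
    ((mats G (q * r - m)).card : ℝ) ≤ (r.factorial : ℝ) ^ q * (r : ℝ) ^ m *
      ∑ S ∈ SP G c X0, aS G c r m S * cN (pS c S) m + 2 * (1 / 2) ^ X0 * T r q (q * r - m) := by
  classical
  have h1 := large_part hc hr hX0 h18 (q * r - m)
  rw [sum_zt (c := c) (q * r - m),
    ← Finset.sum_filter_add_sum_filter_not (Ys G c).powerset (fun S => X0 ≤ S.card)]
  have h2 : ∑ S ∈ (Ys G c).powerset.filter (fun S => ¬ X0 ≤ S.card), zt G c S (q * r - m) ≤
      (r.factorial : ℝ) ^ q * (r : ℝ) ^ m * ∑ S ∈ SP G c X0, aS G c r m S * cN (pS c S) m := by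
    rw [Finset.mul_sum]
    have h3 : ∑ S ∈ SP G c X0, (r.factorial : ℝ) ^ q * (r : ℝ) ^ m *
        (aS G c r m S * cN (pS c S) m) = ∑ S ∈ SP G c X0, zt G c S (q * r - m) :=
      Finset.sum_congr rfl fun S hS => (aS_mul hr hV hc hm hS).symm
    rw [h3]
    refine le_of_eq (Finset.sum_subset ?_ ?_).symm
    · intro S hS
      obtain ⟨k1, k2, k3⟩ := NI_SP hS
      rw [Finset.mem_filter, Finset.mem_powerset]
      exact ⟨k1, by omega⟩
    · intro S hS hnS
      by_contra hz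
      apply hnS
      obtain ⟨k1, k2, k3⟩ := zt_zero hz
      rw [Finset.mem_filter, Finset.mem_powerset] at hS
      unfold SP
      rw [Finset.mem_filter, Finset.mem_powerset]
      exact ⟨k1, by omega, k3⟩
  linarith

theorem NI_term (hq : 1 ≤ q) (hr : 1 ≤ r) (hV : Fintype.card V = 2 * (q * r)) (hc : Cells r c)
    {X0 m m1 l : ℕ} (hm : m ≤ q * r) (hml : m ≤ l) (hl : l ≤ m1) (hρ : 2 * X0 + 2 * m1 ≤ r)
    {S : Finset (Sym2 V)} (hS : S ∈ SP G c X0) :
    (r.factorial : ℝ) ^ q * (r : ℝ) ^ l * (aS G c r m S *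
      ((1 - (2 * (X0 : ℝ) + 2 * m1) / r) ^ (2 * m1) * cN (pS c S) l)) ≤ zt G c S (q * r - l) := by
  obtain ⟨h1, h2, h3⟩ := NI_SP hS
  rcases eq_or_lt_of_le (cN_nonneg (pS c S) m) with h0 | h0
  · have h4 : aS G c r m S = 0 := by
      unfold aS
      rw [← h0, mul_zero, div_zero]
    rw [h4, zero_mul, mul_zero]
    exact zt_nonneg _ _
  · have h4 := zeta_low hq hr hV hc h1 h3 hml hl h2.le hρ
    rw [aS_mul hr hV hc hm hS] at h4
    have h5 : (r : ℝ) ^ l = (r : ℝ) ^ m * (r : ℝ) ^ (l - m) := by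
      rw [← pow_add]
      congr 1
      omega
    rw [h5]
    refine le_of_mul_le_mul_right ?_ h0
    refine le_trans (le_of_eq ?_) h4
    ring

theorem NI_eval {x : ℝ} (hx : 0 < x) {n m m1 : ℕ} (hV : Fintype.card V = 2 * n) (hn : m1 ≤ n) :
    ∑ l ∈ Ico m (m1 + 1), ((mats G (n - l)).card : ℝ) * x ^ (n - l) ≤ (mp G).eval x := by
  classical
  rw [mp_eval]
  have h1 : ∑ l ∈ Ico m (m1 + 1), ((mats G (n - l)).card : ℝ) * x ^ (n - l) =
      ∑ i ∈ (Ico m (m1 + 1)).image (fun l => n - l), ((mats G i).card : ℝ) * x ^ i := by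
    rw [Finset.sum_image]
    intro a ha b hb hab
    simp only [Finset.coe_Ico, Set.mem_Ico] at ha hb
    simp only at hab
    omega
  rw [h1]
  refine Finset.sum_le_sum_of_subset_of_nonneg ?_ fun i _ _ => by positivity
  intro i hi
  rw [Finset.mem_image] at hi
  obtain ⟨l, -, rfl⟩ := hi
  rw [Finset.mem_range]
  omega

theorem star (hq : 1 ≤ q) (hr : 1 ≤ r) (hV : Fintype.card V = 2 * (q * r)) (hc : Cells r c)
    {X0 m m1 : ℕ} (hm : m ≤ m1) (hρ : 2 * X0 + 2 * m1 ≤ r) {z : ℝ} (hz : 0 < z) :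
    ∑ S ∈ SP G c X0, aS G c r m S * ((1 - (2 * (X0 : ℝ) + 2 * m1) / r) ^ (2 * m1) *
      ∑ l ∈ Ico m (m1 + 1), cN (pS c S) l * z ^ (2 * l)) ≤
      Real.exp (-(Fg G q r ((r : ℝ) / z ^ 2))) * Jv 0 z ^ q := by
  have hrr : r ≤ q * r := Nat.le_mul_of_pos_left r hq
  have hm1 : m1 ≤ q * r := by omega
  have hr0 : (0 : ℝ) < r := Nat.cast_pos.2 hr
  obtain ⟨x, hxd⟩ : ∃ x : ℝ, x = (r : ℝ) / z ^ 2 := ⟨_, rfl⟩
  have hx : 0 < x := by rw [hxd]; positivity
  obtain ⟨K, hK⟩ : ∃ K : ℝ, K = (r.factorial : ℝ) ^ q := ⟨_, rfl⟩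
  have hK0 : 0 < K := by
    rw [hK]
    have := Nat.factorial_pos r
    positivity
  obtain ⟨lam, hlam⟩ : ∃ lam : ℝ, lam = (1 - (2 * (X0 : ℝ) + 2 * m1) / r) ^ (2 * m1) := ⟨_, rfl⟩
  rw [← hlam, ← hxd]
  -- the lower bound
  have h1 : x ^ (q * r) * K * ∑ S ∈ SP G c X0, aS G c r m S * (lam *
      ∑ l ∈ Ico m (m1 + 1), cN (pS c S) l * z ^ (2 * l)) ≤ (mp G).eval x := by
    refine le_trans ?_ (NI_eval (G := G) hx hV hm1 (m := m))
    have h2 : x ^ (q * r) * K * ∑ S ∈ SP G c X0, aS G c r m S * (lam *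
        ∑ l ∈ Ico m (m1 + 1), cN (pS c S) l * z ^ (2 * l)) =
        ∑ l ∈ Ico m (m1 + 1), ∑ S ∈ SP G c X0, x ^ (q * r) * K *
          (aS G c r m S * (lam * (cN (pS c S) l * z ^ (2 * l)))) := by
      rw [Finset.sum_comm, Finset.mul_sum]
      refine Finset.sum_congr rfl fun S _ => ?_
      rw [Finset.mul_sum, Finset.mul_sum, Finset.mul_sum]
    rw [h2]
    refine Finset.sum_le_sum fun l hl => ?_
    rw [Finset.mem_Ico] at hl
    have hxl : x ^ (q * r) * z ^ (2 * l) = (r : ℝ) ^ l * x ^ (q * r - l) := by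
      have h3 : x ^ (q * r) = x ^ (q * r - l) * x ^ l := by
        rw [← pow_add]
        congr 1
        omega
      have h4 : x * z ^ 2 = r := by
        rw [hxd]
        field_simp
      rw [h3, pow_mul, mul_assoc, ← mul_pow, h4, mul_comm]
    have h5 : ∑ S ∈ SP G c X0, zt G c S (q * r - l) ≤ ((mats G (q * r - l)).card : ℝ) := by
      rw [sum_zt (c := c) (q * r - l)]
      refine Finset.sum_le_sum_of_subset_of_nonneg ?_ fun S _ _ => zt_nonneg _ _
      intro S hS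
      rw [Finset.mem_powerset]
      exact (NI_SP hS).1
    refine le_trans ?_ (mul_le_mul_of_nonneg_right h5 (by positivity))
    rw [Finset.sum_mul]
    refine Finset.sum_le_sum fun S hS => ?_
    have h6 := NI_term hq hr hV hc (m := m) (by omega) hl.1 (by omega : l ≤ m1) hρ hS
    rw [← hlam, ← hK] at h6
    have h7 : x ^ (q * r) * K * (aS G c r m S * (lam * (cN (pS c S) l * z ^ (2 * l)))) =
        K * (r : ℝ) ^ l * (aS G c r m S * (lam * cN (pS c S) l)) * x ^ (q * r - l) := by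
      calc x ^ (q * r) * K * (aS G c r m S * (lam * (cN (pS c S) l * z ^ (2 * l)))) =
          (x ^ (q * r) * z ^ (2 * l)) * (K * (aS G c r m S * (lam * cN (pS c S) l))) := by ring
        _ = _ := by rw [hxl]; ring
    rw [h7]
    exact mul_le_mul_of_nonneg_right h6 (by positivity)
  -- the upper bound
  have h2 : (mp G).eval x ≤ x ^ (q * r) * K * (Real.exp (-(Fg G q r x)) * Jv 0 z ^ q) := by
    rw [mp_exp q r hx]
    have h3 : (Lp r).eval x ≤ x ^ r * (r.factorial : ℝ) * Jv 0 z := by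
      rw [hxd]
      exact Lp_upper hr hz
    have h4 : 0 ≤ (Lp r).eval x := by
      have := Lp_pos r hx.le
      linarith
    have h5 : (Lp r).eval x ^ q ≤ (x ^ r * (r.factorial : ℝ) * Jv 0 z) ^ q :=
      pow_le_pow_left₀ h4 h3 q
    refine (mul_le_mul_of_nonneg_left h5 (Real.exp_nonneg _)).trans (le_of_eq ?_)
    rw [mul_pow, mul_pow, ← pow_mul, hK, mul_comm q r]
    ring
  have h3 := h1.trans h2
  exact le_of_mul_le_mul_left h3 (by positivity)

end

end Pool.Agent.Lib.MP_eeed5c_coK
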