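import Pool.Agent.Lib.MP_eeed5c_co_K.NI
import Pool.Agent.Lib.MP_eeed5c_co_K.JE

/-!
# Nearly extremal graphs whose gap is not small

PROOF of `near_gap`. Let `θ = (m+1)/(m+2)`, `η = κ/(16 (m+2)) = (1-θ) κ/16 ≤ 1/32`, `J5 = Jv 0 z5 ^ q`, both `≥ 1`.
CHOICES (in this order):
- `Z ≥ 1` with `m (2m+1)/Z ≤ η/8` and `∑_{l<m} c0 q l Z^(2l) ≤ (η/8) Jv 0 Z ^ q` (`head_small`);
- `m1 ≥ m` with `trunc` at `z5` with the constant `κ/8`, and at `Z` with the constant `η/8` (take the maximum of the two `m1` and `m`, use `M = m1`);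
- `ε3 = η/(64 (m1+1))`, `ε = ε3/36`;
- `r1` such that for `r ≥ r1`: `r ≥ 1`, `r ≥ 64 m1^2/η`, `r ≥ 4 m1`, `r ≥ 4/ε3`, `m ≤ r`, `m^2/r ≤ η/2`, and with `X0 = ⌊ε3 r⌋₊` (so `X0 ≥ 1`, `ε3 r/2 ≤ X0 ≤ ε3 r`): `2 (1/2)^X0 ≤ η/2` (true if `X0 ≥ 4/η`, because `2^X0 ≥ X0`; so require `r ≥ 8/(η ε3)`).
CONSEQUENCES. `18 |Ys| ≤ 18 ε r^2 = ε3 r^2/2 ≤ X0 r`. `2 X0 + 2 m1 ≤ r` (`2 ε3 ≤ 1/2`, `2 m1 ≤ r/2`). `lam = (1 - (2 X0 + 2 m1)/r)^(2 m1) ≥ 1 - 2 m1 (2 X0 + 2 m1)/r ≥ 1 - η/8` (Bernoulli `one_add_mul_le_pow`: `4 m1 ε3 ≤ η/16`, `4 m1^2/r ≤ η/16`).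
Write `a = aS G c r m S ≥ 0`, `p = pS c S` (`∑ p` even for `S ∈ SP`: `even_pS`). `A0 = ∑_{S ∈ SP, p = 0} a`, `B = ∑_{S ∈ SP, p ≠ 0} a`.
(1) `star` at `z5`, keep only the terms with `p = 0` (all terms are nonnegative): `A0 lam ∑_{l=m}^{m1} c0 q l z5^(2l) ≤ exp (-κ) J5` (`κ ≤ Fg G q r (r/z5^2)`), and by `trunc` and the hypothesis `hhead` the sum is `≥ (1 - κ/4) J5`. `exp (-κ) ≤ 1 - κ/2` (`0 ≤ κ ≤ 1`; `exp (-κ) ≤ 1 - κ + κ^2/2`, or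
  `exp (-κ) ≤ 1/(1+κ+κ^2/2)`...) and `(1 - κ/8)(1 - κ/8)(1 - κ/4) ≥ 1 - κ/2`, `lam ≥ 1 - κ/8`. So `A0 ≤ 1 - κ/8`.
(2) `star` at `Z` with `Fg ≥ 0` (`Fg_nonneg`): `∑_S a lam ∑_l cN p l Z^(2l) ≤ Jv 0 Z ^ q`. If `a ≠ 0` then `cN p m ≠ 0` (`aS_zero`), so `∑ p ≤ 2 m` (`cN_zero`), and by `Jv_prod_low` and `trunc` the inner sum is `≥ (1 - η/8 - η/8 - η/8) Jv 0 Z ^ q`. So `(A0 + B)(1 - η/8)(1 - 3η/8) ≤ 1`,
  `A0 + B ≤ 1 + η` (`(1+η)(1-η/2) ≥ 1`).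
(3) `cN p m = c0 q m` if `p = 0`, `cN p m ≤ θ c0 q m` if `p ≠ 0` (`cN_theta`): `∑ a cN p m ≤ c0 q m (A0 + θ B) ≤ c0 q m ((1-θ)(1-κ/8) + θ (1+η)) ≤ c0 q m (1 - 2η + η) = c0 q m (1 - η)` (`(1-θ) κ/8 = 2 η`).
(4) `small_large`: `|mats G (n-m)| ≤ (r!)^q r^m c0 q m (1-η) + (η/2) P`, `P = T r q (n-m)`, and `(1 - η/2) (r!)^q r^m c0 q m ≤ (1 - m^2/r) ... ≤ P` (`T_lower`), so `(r!)^q r^m c0 q m (1-η) ≤ (1 - η/2) P` because `1 - η ≤ (1-η/2)^2`. Total `≤ P`.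
-/

set_option autoImplicit false

namespace Pool.Agent.Lib.MP_eeed5c_coK

open Finset Pool.Agent.Lib.MP_eeed5c_co Pool.Agent.Lib.MP_eeed5c_coT Pool.Agent.Lib.MP_eeed5c_coX

theorem NJ_exp {κ : ℝ} (h0 : 0 < κ) (h1 : κ ≤ 1) : Real.exp (-κ) ≤ 1 - κ / 2 := by
  have h2 : 1 + κ ≤ Real.exp κ := by
    have := Real.add_one_le_exp κ
    linarith
  have h3 : Real.exp (-κ) * Real.exp κ = 1 := by rw [← Real.exp_add, neg_add_cancel, Real.exp_zero]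
  have h4 : 0 < Real.exp (-κ) := Real.exp_pos _
  by_contra h
  push Not at h
  have h5 : (1 - κ / 2) * (1 + κ) < Real.exp (-κ) * Real.exp κ := by
    have h6 : (1 - κ / 2) * (1 + κ) < Real.exp (-κ) * (1 + κ) := mul_lt_mul_of_pos_right h (by linarith)
    exact h6.trans_le (mul_le_mul_of_nonneg_left h2 h4.le)
  rw [h3] at h5
  nlinarith

theorem NJ_A0 {κ A lam : ℝ} (h0 : 0 < κ) (h1 : κ ≤ 1) (hA : 0 ≤ A) (hl : 1 - κ / 8 ≤ lam)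
    (h : A * (lam * (1 - κ / 4)) ≤ 1 - κ / 2) : A ≤ 1 - κ / 8 := by
  by_contra hc
  push Not at hc
  have h2 : (1 - κ / 8) * (1 - κ / 4) ≤ lam * (1 - κ / 4) := mul_le_mul_of_nonneg_right hl (by linarith)
  have h3 : A * ((1 - κ / 8) * (1 - κ / 4)) ≤ A * (lam * (1 - κ / 4)) := mul_le_mul_of_nonneg_left h2 hA
  have h4 : 0 < (1 - κ / 8) * (1 - κ / 4) := mul_pos (by linarith) (by linarith)
  have h5 : (1 - κ / 8) * ((1 - κ / 8) * (1 - κ / 4)) < A * ((1 - κ / 8) * (1 - κ / 4)) :=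
    mul_lt_mul_of_pos_right hc h4
  have h6 : 1 - κ / 2 ≤ (1 - κ / 8) * ((1 - κ / 8) * (1 - κ / 4)) := by
    nlinarith [mul_pos h0 h0, mul_nonneg (mul_pos h0 h0).le (sub_nonneg.2 h1)]
  linarith

theorem NJ_AB {η A lam : ℝ} (h0 : 0 < η) (h1 : η ≤ 1) (hA : 0 ≤ A) (hl : 1 - η / 8 ≤ lam)
    (h : A * (lam * (1 - 3 * η / 8)) ≤ 1) : A ≤ 1 + η := by
  by_contra hc
  push Not at hc
  have h2 : (1 - η / 8) * (1 - 3 * η / 8) ≤ lam * (1 - 3 * η / 8) :=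
    mul_le_mul_of_nonneg_right hl (by linarith)
  have h3 : A * ((1 - η / 8) * (1 - 3 * η / 8)) ≤ A * (lam * (1 - 3 * η / 8)) :=
    mul_le_mul_of_nonneg_left h2 hA
  have h4 : 1 - η / 2 ≤ (1 - η / 8) * (1 - 3 * η / 8) := by nlinarith
  have h5 : A * (1 - η / 2) ≤ 1 := (mul_le_mul_of_nonneg_left h4 hA).trans (h3.trans h)
  have h6 : (1 + η) * (1 - η / 2) < A * (1 - η / 2) := mul_lt_mul_of_pos_right hc (by linarith)
  nlinarith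

/-- the estimate for one graph -/
theorem NJ_main {q m m1 X0 r : ℕ} (hq : 1 ≤ q) (hr : 1 ≤ r) {κ η z5 Z : ℝ} (hκ0 : 0 < κ) (hκ1 : κ ≤ 1)
    (hη : η = κ / (16 * ((m : ℝ) + 2)))
    (hz5 : 0 < z5) (hZ : 1 ≤ Z) (hm : m ≤ m1)
    (hhead : ∑ l ∈ range m, c0 q l * z5 ^ (2 * l) ≤ κ / 8 * Jv 0 z5 ^ q)
    (hZ1 : (m : ℝ) * (2 * m + 1) / Z ≤ η / 8)
    (hZ2 : ∑ l ∈ range m, c0 q l * Z ^ (2 * l) ≤ η / 8 * Jv 0 Z ^ q)
    (ht5 : ∀ p : Fin q → ℕ, Even (∑ b, p b) →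
      ∏ b, Jv (p b) z5 - ∑ l ∈ range m, c0 q l * z5 ^ (2 * l) - κ / 8 * Jv 0 z5 ^ q ≤
        ∑ l ∈ Ico m (m1 + 1), cN p l * z5 ^ (2 * l))
    (htZ : ∀ p : Fin q → ℕ, Even (∑ b, p b) →
      ∏ b, Jv (p b) Z - ∑ l ∈ range m, c0 q l * Z ^ (2 * l) - η / 8 * Jv 0 Z ^ q ≤
        ∑ l ∈ Ico m (m1 + 1), cN p l * Z ^ (2 * l))
    (hX0 : 1 ≤ X0) (hρ : 2 * X0 + 2 * m1 ≤ r) (hmr : m ≤ r)
    (hlam : 1 - η / 8 ≤ (1 - (2 * (X0 : ℝ) + 2 * m1) / r) ^ (2 * m1))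
    (hm2 : (m : ℝ) ^ 2 / r ≤ η / 2) (hhalf : 2 * (1 / 2 : ℝ) ^ X0 ≤ η / 2)
    {V : Type} [Fintype V] {G : SimpleGraph V} {c : V → Fin q × Fin 2}
    (hV : Fintype.card V = 2 * (q * r)) (hreg : Reg G r) (hc : Cells r c)
    (h18 : 18 * ((Ys G c).card : ℝ) ≤ X0 * r) (hF : κ ≤ Fg G q r ((r : ℝ) / z5 ^ 2)) :
    ((mats G (q * r - m)).card : ℝ) ≤ T r q (q * r - m) := by
  classical
  have hrr : r ≤ q * r := Nat.le_mul_of_pos_left r hq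
  have hr0 : (0 : ℝ) < r := Nat.cast_pos.2 hr
  have hm0 : (0 : ℝ) ≤ m := Nat.cast_nonneg m
  have hη0 : 0 < η := by rw [hη]; positivity
  have hη1 : η ≤ κ / 32 := by
    rw [hη]
    apply div_le_div_of_nonneg_left hκ0.le (by norm_num)
    linarith
  have hZ0 : 0 < Z := by linarith
  obtain ⟨J5, hJ5⟩ : ∃ J5 : ℝ, J5 = Jv 0 z5 ^ q := ⟨_, rfl⟩
  obtain ⟨JZ, hJZ⟩ : ∃ JZ : ℝ, JZ = Jv 0 Z ^ q := ⟨_, rfl⟩
  have hJ5p : 0 < J5 := by
    rw [hJ5]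
    have := one_le_Jv hz5.le
    positivity
  have hJZp : 0 < JZ := by
    rw [hJZ]
    have := one_le_Jv hZ0.le
    positivity
  obtain ⟨lam, hlamd⟩ : ∃ lam : ℝ, lam = (1 - (2 * (X0 : ℝ) + 2 * m1) / r) ^ (2 * m1) := ⟨_, rfl⟩
  have st5 := star (G := G) hq hr hV hc (X0 := X0) hm hρ hz5
  have stZ := star (G := G) hq hr hV hc (X0 := X0) hm hρ hZ0
  rw [← hlamd, ← hJ5] at st5
  rw [← hlamd, ← hJZ] at stZ
  rw [← hlamd] at hlam
  have hlam0 : 0 < lam := by linarith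
  rw [← hJ5] at hhead
  rw [← hJZ] at hZ2
  have ha0 : ∀ S, 0 ≤ aS G c r m S := fun S => aS_nonneg m S
  have hev : ∀ S ∈ SP G c X0, Even (∑ b, pS c S b) := fun S hS => even_pS (NI_SP hS).2.2
  obtain ⟨A, hA⟩ : ∃ A : ℝ, A = ∑ S ∈ (SP G c X0).filter (fun S => pS c S = fun _ => 0), aS G c r m S :=
    ⟨_, rfl⟩
  obtain ⟨B, hB⟩ : ∃ B : ℝ, B = ∑ S ∈ (SP G c X0).filter (fun S => ¬ pS c S = fun _ => 0), aS G c r m S :=
    ⟨_, rfl⟩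
  have hA0 : 0 ≤ A := by rw [hA]; exact Finset.sum_nonneg fun S _ => ha0 S
  have hB0 : 0 ≤ B := by rw [hB]; exact Finset.sum_nonneg fun S _ => ha0 S
  have hAB : ∑ S ∈ SP G c X0, aS G c r m S = A + B := by
    rw [hA, hB]
    exact (Finset.sum_filter_add_sum_filter_not _ _ _).symm
  -- step 1
  have e1 : A ≤ 1 - κ / 8 := by
    refine NJ_A0 hκ0 hκ1 hA0 (by linarith : 1 - κ / 8 ≤ lam) ?_
    have k1 : ∑ S ∈ (SP G c X0).filter (fun S => pS c S = fun _ => 0),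
        aS G c r m S * (lam * ((1 - κ / 4) * J5)) ≤
        ∑ S ∈ SP G c X0, aS G c r m S * (lam * ∑ l ∈ Ico m (m1 + 1), cN (pS c S) l * z5 ^ (2 * l)) := by
      refine le_trans (Finset.sum_le_sum (g := fun S => aS G c r m S * (lam *
        ∑ l ∈ Ico m (m1 + 1), cN (pS c S) l * z5 ^ (2 * l))) fun S hS => ?_)
        (Finset.sum_le_sum_of_subset_of_nonneg (Finset.filter_subset _ _) fun S _ _ => ?_)
      · rw [Finset.mem_filter] at hS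
        refine mul_le_mul_of_nonneg_left (mul_le_mul_of_nonneg_left ?_ hlam0.le) (ha0 S)
        have k2 := ht5 (pS c S) (hev S hS.1)
        rw [hS.2] at k2 ⊢
        simp only [Finset.prod_const, Finset.card_univ, Fintype.card_fin] at k2
        rw [← hJ5] at k2
        linarith
      · refine mul_nonneg (ha0 S) (mul_nonneg hlam0.le (Finset.sum_nonneg fun l _ => ?_))
        exact mul_nonneg (cN_nonneg _ _) (by positivity)
    rw [← Finset.sum_mul, ← hA] at k1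
    have k3 : Real.exp (-(Fg G q r ((r : ℝ) / z5 ^ 2))) ≤ 1 - κ / 2 :=
      (Real.exp_le_exp.2 (by linarith)).trans (NJ_exp hκ0 hκ1)
    have k4 : A * (lam * ((1 - κ / 4) * J5)) ≤ (1 - κ / 2) * J5 :=
      (k1.trans st5).trans (mul_le_mul_of_nonneg_right k3 hJ5p.le)
    refine le_of_mul_le_mul_right ?_ hJ5p
    refine le_trans (le_of_eq ?_) k4
    ring
  -- step 2
  have e2 : A + B ≤ 1 + η := by
    refine NJ_AB hη0 (by linarith) (by linarith) hlam ?_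
    have k1 : ∑ S ∈ SP G c X0, aS G c r m S * (lam * ((1 - 3 * η / 8) * JZ)) ≤
        ∑ S ∈ SP G c X0, aS G c r m S * (lam * ∑ l ∈ Ico m (m1 + 1), cN (pS c S) l * Z ^ (2 * l)) := by
      refine Finset.sum_le_sum fun S hS => ?_
      by_cases h0 : aS G c r m S = 0
      · rw [h0, zero_mul, zero_mul]
      · refine mul_le_mul_of_nonneg_left (mul_le_mul_of_nonneg_left ?_ hlam0.le) (ha0 S)
        have k2 := htZ (pS c S) (hev S hS)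
        have k3 : ∑ b, pS c S b ≤ 2 * m := by
          by_contra hcon
          push Not at hcon
          exact aS_zero hr hV hc (by omega : m ≤ q * r) hS h0 (cN_zero hcon)
        have k4 := Jv_prod_low k3 hZ0
        rw [← hJZ] at k2 k4
        have k5 : (1 - η / 8) * JZ ≤ (1 - (m : ℝ) * (2 * m + 1) / Z) * JZ :=
          mul_le_mul_of_nonneg_right (by linarith) hJZp.le
        linarith
    rw [← Finset.sum_mul, hAB] at k1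
    have k3 : Real.exp (-(Fg G q r ((r : ℝ) / Z ^ 2))) ≤ 1 := by
      rw [Real.exp_le_one_iff]
      have := Fg_nonneg (G := G) hr hV hreg (x := (r : ℝ) / Z ^ 2) (by positivity)
      linarith
    have k4 : (A + B) * (lam * ((1 - 3 * η / 8) * JZ)) ≤ 1 * JZ :=
      (k1.trans stZ).trans (mul_le_mul_of_nonneg_right k3 hJZp.le)
    refine le_of_mul_le_mul_right ?_ hJZp
    refine le_trans (le_of_eq ?_) k4
    ring
  -- step 3
  have hc0 : 0 < c0 q m := c0_pos hq m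
  have e3 : ∑ S ∈ SP G c X0, aS G c r m S * cN (pS c S) m ≤ c0 q m * (1 - η) := by
    rw [← Finset.sum_filter_add_sum_filter_not (SP G c X0) (fun S => pS c S = fun _ => 0)]
    have k1 : ∑ S ∈ (SP G c X0).filter (fun S => pS c S = fun _ => 0), aS G c r m S * cN (pS c S) m =
        A * c0 q m := by
      rw [hA, Finset.sum_mul]
      refine Finset.sum_congr rfl fun S hS => ?_
      rw [Finset.mem_filter] at hS
      rw [hS.2]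
      rfl
    have k2 : ∑ S ∈ (SP G c X0).filter (fun S => ¬ pS c S = fun _ => 0), aS G c r m S * cN (pS c S) m ≤
        B * (((m : ℝ) + 1) / (m + 2) * c0 q m) := by
      rw [hB, Finset.sum_mul]
      refine Finset.sum_le_sum fun S hS => ?_
      rw [Finset.mem_filter] at hS
      exact mul_le_mul_of_nonneg_left (cN_theta (hev S hS.1) hS.2 m) (ha0 S)
    have k3 : A + B * (((m : ℝ) + 1) / (m + 2)) ≤ 1 - η := by
      have k4 : ((m : ℝ) + 1) / (m + 2) = 1 - 1 / (m + 2) := by field_simp; ring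
      have k5 : 1 / ((m : ℝ) + 2) * (κ / 8) = 2 * η := by
        rw [hη]
        field_simp
        ring
      have k6 : 0 < 1 / ((m : ℝ) + 2) := by positivity
      have k7 : 1 / ((m : ℝ) + 2) ≤ 1 := by
        rw [div_le_one (by positivity)]
        linarith
      rw [k4]
      have k8 : 1 / ((m : ℝ) + 2) * A ≤ 1 / ((m : ℝ) + 2) * (1 - κ / 8) :=
        mul_le_mul_of_nonneg_left e1 k6.le
      have k9 : (1 - 1 / ((m : ℝ) + 2)) * (A + B) ≤ (1 - 1 / ((m : ℝ) + 2)) * (1 + η) :=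
        mul_le_mul_of_nonneg_left e2 (by linarith)
      have k10 : 0 ≤ 1 / ((m : ℝ) + 2) * η := by positivity
      nlinarith
    have k4 : c0 q m * (A + B * (((m : ℝ) + 1) / (m + 2))) ≤ c0 q m * (1 - η) :=
      mul_le_mul_of_nonneg_left k3 hc0.le
    nlinarith
  -- step 4
  have e4 := small_large (G := G) hr hV hc (m := m) hX0 (by omega) h18
  obtain ⟨P, hP⟩ : ∃ P : ℝ, P = T r q (q * r - m) := ⟨_, rfl⟩
  obtain ⟨Q, hQ⟩ : ∃ Q : ℝ, Q = (r.factorial : ℝ) ^ q * (r : ℝ) ^ m * c0 q m := ⟨_, rfl⟩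
  have hKr : (0 : ℝ) < (r.factorial : ℝ) ^ q * (r : ℝ) ^ m := by
    have := Nat.factorial_pos r
    positivity
  have hQ0 : 0 < Q := by rw [hQ]; exact mul_pos hKr hc0
  have e5 := T_lower (q := q) (m := m) hr (by omega)
  rw [← hP, ← hQ] at e5
  rw [← hP] at e4 ⊢
  have e6 : (1 - η / 2) * Q ≤ P := by
    refine le_trans (mul_le_mul_of_nonneg_right ?_ hQ0.le) e5
    linarith
  have e7 : (r.factorial : ℝ) ^ q * (r : ℝ) ^ m * ∑ S ∈ SP G c X0, aS G c r m S * cN (pS c S) m ≤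
      Q * (1 - η) := by
    refine (mul_le_mul_of_nonneg_left e3 hKr.le).trans (le_of_eq ?_)
    rw [hQ]
    ring
  have hP0 : 0 ≤ P := le_trans (mul_nonneg (by linarith) hQ0.le) e6
  have e8 : 2 * (1 / 2 : ℝ) ^ X0 * P ≤ η / 2 * P := mul_le_mul_of_nonneg_right hhalf hP0
  have e9 : Q * (1 - η) ≤ (1 - η / 2) * P := by
    have h1 : (1 - η / 2) * ((1 - η / 2) * Q) ≤ (1 - η / 2) * P := mul_le_mul_of_nonneg_left e6 (by linarith)
    nlinarith [mul_pos (mul_pos hη0 hη0) hQ0]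
  linarith

theorem near_gap {q m : ℕ} (hq : 1 ≤ q) {κ z5 : ℝ} (hκ0 : 0 < κ) (hκ1 : κ ≤ 1) (hz5 : 0 < z5)
    (hhead : ∑ l ∈ range m, c0 q l * z5 ^ (2 * l) ≤ κ / 8 * Jv 0 z5 ^ q) :
    ∃ (ε : ℝ) (r1 : ℕ), 0 < ε ∧ ∀ (r : ℕ) (V : Type) [Fintype V] (G : SimpleGraph V)
      (c : V → Fin q × Fin 2), r1 ≤ r → Fintype.card V = 2 * (q * r) → Reg G r → Cells r c →
      ((Ys G c).card : ℝ) ≤ ε * (r : ℝ) ^ 2 → κ ≤ Fg G q r ((r : ℝ) / z5 ^ 2) →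
      ((mats G (q * r - m)).card : ℝ) ≤ T r q (q * r - m) := by
  have hm0 : (0 : ℝ) ≤ m := Nat.cast_nonneg m
  obtain ⟨η, hη⟩ : ∃ η : ℝ, η = κ / (16 * ((m : ℝ) + 2)) := ⟨_, rfl⟩
  have hη0 : 0 < η := by rw [hη]; positivity
  have hη1 : η ≤ κ / 32 := by
    rw [hη]
    apply div_le_div_of_nonneg_left hκ0.le (by norm_num)
    linarith
  -- the choice of `Z`
  obtain ⟨Z0, hZ01, hZ02⟩ := head_small hq m (η := η / 8) (by positivity)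
  obtain ⟨Z, hZd⟩ : ∃ Z : ℝ, Z = max Z0 ((m : ℝ) * (2 * m + 1) / (η / 8)) := ⟨_, rfl⟩
  have hZZ : Z0 ≤ Z := by rw [hZd]; exact le_max_left _ _
  have hZ : 1 ≤ Z := by linarith
  have hZ1 : (m : ℝ) * (2 * m + 1) / Z ≤ η / 8 := by
    have h1 : (m : ℝ) * (2 * m + 1) / (η / 8) ≤ Z := by rw [hZd]; exact le_max_right _ _
    rw [div_le_iff₀ (by positivity)] at h1
    rw [div_le_iff₀ (by linarith)]
    linarith
  -- the choice of `m1`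
  obtain ⟨ma, hma⟩ := trunc q m (z := z5) (η := κ / 8) hz5.le (by positivity)
  obtain ⟨mb, hmb⟩ := trunc q m (z := Z) (η := η / 8) (by linarith) (by positivity)
  obtain ⟨m1, hm1d⟩ : ∃ m1 : ℕ, m1 = max (max ma mb) m := ⟨_, rfl⟩
  have hm1a : ma ≤ m1 := by omega
  have hm1b : mb ≤ m1 := by omega
  have hm1 : m ≤ m1 := by omega
  have hm10 : (0 : ℝ) ≤ m1 := Nat.cast_nonneg m1
  obtain ⟨ε3, hε3⟩ : ∃ ε3 : ℝ, ε3 = η / (64 * ((m1 : ℝ) + 1)) := ⟨_, rfl⟩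
  have hε30 : 0 < ε3 := by rw [hε3]; positivity
  have hε31 : ε3 ≤ 1 / 4 := by
    rw [hε3, div_le_iff₀ (by positivity)]
    nlinarith
  have hε32 : 4 * (m1 : ℝ) * ε3 ≤ η / 16 := by
    have h1 : ε3 * (64 * ((m1 : ℝ) + 1)) = η := by
      rw [hε3]
      field_simp
    nlinarith
  obtain ⟨Bd, hBd⟩ : ∃ Bd : ℝ, Bd = 1 + 64 * (m1 : ℝ) ^ 2 / η + 4 * m1 + 4 / ε3 + m + 2 * (m : ℝ) ^ 2 / η +
    8 / (η * ε3) := ⟨_, rfl⟩
  have p1 : 0 ≤ 64 * (m1 : ℝ) ^ 2 / η := by positivity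
  have p2 : 0 ≤ 4 / ε3 := by positivity
  have p3 : 0 ≤ 2 * (m : ℝ) ^ 2 / η := by positivity
  have p4 : 0 ≤ 8 / (η * ε3) := by positivity
  refine ⟨ε3 / 36, ⌈Bd⌉₊, by positivity, ?_⟩
  intro r V _ G c hr1 hV hreg hc hY hF
  have hBr : Bd ≤ r := (Nat.le_ceil Bd).trans (Nat.cast_le.2 hr1)
  have hr0 : (1 : ℝ) ≤ r := by linarith
  have hr : 1 ≤ r := by exact_mod_cast hr0
  have hrp : (0 : ℝ) < r := by linarith
  have g1 : 64 * (m1 : ℝ) ^ 2 / η ≤ r := by linarith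
  have g2 : 4 * (m1 : ℝ) ≤ r := by linarith
  have g3 : 4 / ε3 ≤ r := by linarith
  have g4 : (m : ℝ) ≤ r := by linarith
  have g5 : 2 * (m : ℝ) ^ 2 / η ≤ r := by linarith
  have g6 : 8 / (η * ε3) ≤ r := by linarith
  rw [div_le_iff₀ hη0] at g1 g5
  rw [div_le_iff₀ hε30] at g3
  rw [div_le_iff₀ (by positivity)] at g6
  obtain ⟨X0, hX0⟩ : ∃ X0 : ℕ, X0 = ⌊ε3 * r⌋₊ := ⟨_, rfl⟩
  have x1 : (X0 : ℝ) ≤ ε3 * r := by rw [hX0]; exact Nat.floor_le (by positivity)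
  have x2 : ε3 * r < X0 + 1 := by rw [hX0]; exact Nat.lt_floor_add_one _
  have x3 : ε3 * r / 2 ≤ X0 := by linarith
  have x4 : 1 ≤ X0 := by
    have : (1 : ℝ) ≤ X0 := by linarith
    exact_mod_cast this
  have x5 : 2 * X0 + 2 * m1 ≤ r := by
    have h1 : 2 * (X0 : ℝ) + 2 * m1 ≤ r := by nlinarith
    exact_mod_cast h1
  have x6 : 1 - η / 8 ≤ (1 - (2 * (X0 : ℝ) + 2 * m1) / r) ^ (2 * m1) := by
    have h1 : -2 ≤ -((2 * (X0 : ℝ) + 2 * m1) / r) := by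
      have h2 : (2 * (X0 : ℝ) + 2 * m1) / r ≤ 1 := by
        rw [div_le_one hrp]
        exact_mod_cast x5
      linarith
    have h3 := one_add_mul_le_pow h1 (2 * m1)
    rw [← sub_eq_add_neg] at h3
    refine le_trans ?_ h3
    have h4 : (2 * (X0 : ℝ) + 2 * m1) / r * (2 * m1) ≤ η / 8 := by
      rw [div_mul_eq_mul_div, div_le_iff₀ hrp]
      have h5 : (X0 : ℝ) * m1 ≤ ε3 * r * m1 := mul_le_mul_of_nonneg_right x1 hm10
      have h6 : 4 * (m1 : ℝ) * ε3 * r ≤ η / 16 * r := mul_le_mul_of_nonneg_right hε32 hrp.le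
      nlinarith
    push_cast
    nlinarith
  have x7 : (m : ℝ) ^ 2 / r ≤ η / 2 := by
    rw [div_le_iff₀ hrp]
    linarith
  have x8 : 2 * (1 / 2 : ℝ) ^ X0 ≤ η / 2 := by
    have h1 : (X0 : ℝ) ≤ 2 ^ X0 := by
      have := (Nat.lt_two_pow_self (n := X0)).le
      exact_mod_cast this
    have h2 : 4 ≤ η * X0 := by
      have h3 : η * (ε3 * r / 2) ≤ η * X0 := mul_le_mul_of_nonneg_left x3 hη0.le
      nlinarith
    have h3 : 4 ≤ η * 2 ^ X0 := h2.trans (mul_le_mul_of_nonneg_left h1 hη0.le)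
    rw [one_div, inv_pow]
    have h4 : (0 : ℝ) < 2 ^ X0 := by positivity
    have h5 : ((2 : ℝ) ^ X0)⁻¹ ≤ η / 4 := by
      rw [inv_le_iff_one_le_mul₀ h4]
      nlinarith
    linarith
  have x9 : 18 * ((Ys G c).card : ℝ) ≤ X0 * r := by
    have h1 : ε3 * r / 2 * r ≤ X0 * r := mul_le_mul_of_nonneg_right x3 hrp.le
    nlinarith
  exact NJ_main hq hr hκ0 hκ1 hη hz5 hZ hm1 hhead hZ1 (hZ02 Z hZZ) (fun p hp => hma m1 hm1a p hp)
    (fun p hp => hmb m1 hm1b p hp) x4 x5 (by exact_mod_cast g4) x6 x7 x8 hV hreg hc x9 hF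

end Pool.Agent.Lib.MP_eeed5c_coK
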