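import Pool.Agent.Lib.MP_eeed5c_co_K.NJ
import Pool.Agent.Lib.MP_eeed5c_co_T.PA

/-!
# The level `m2`

PROOFS.
* `head_choice`: let `C = ∑_{l<m} c0 q l`, `B = 8 C ((m+81)!)^2 q^81`. Take `m2 ≥ max M q 1` with `m2 ≥ B`. Let `w = (m2+1)/q ≥ 1`, `z = √w`, so `z^(2l) = w^l`. The left side is at most `C w^m`. `Jv 0 z ^ q ≥ Jv 0 z ≥ w^(m+81)/((m+81)!)^2` (`one_le_Jv`, `Jv_ge` with `j = m + 81`).
  So it is enough that `8 C ((m+81)!)^2 m2^80 ≤ w^81 = (m2+1)^81/q^81`, and `(m2+1)^81 ≥ m2^80 * m2 ≥ m2^80 B`.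
* `x_le`: `T_low` (file T/PA: `((t:ℝ) * r - m) * T r t m ≤ (m + 1) * T r t (m + 1)`) with `m := q r - m2 - 1`, `t := q`: `(m2+1) T (q r - m2 - 1) ≤ (q r - m2) T (q r - m2) ≤ q r T (q r - m2)`; divide by `T (q r - m2) > 0` (`T_pos`).
-/

set_option autoImplicit false

namespace Pool.Agent.Lib.MP_eeed5c_coK

open Finset Pool.Agent.Lib.MP_eeed5c_co Pool.Agent.Lib.MP_eeed5c_coT Pool.Agent.Lib.MP_eeed5c_coX

theorem ZA_sqrt_pow {w : ℝ} (hw : 0 ≤ w) (l : ℕ) : (√w) ^ (2 * l) = w ^ l := by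
  rw [pow_mul, Real.sq_sqrt hw]

theorem ZA_key {C f w Q m2 : ℝ} {m : ℕ} (hC : 0 ≤ C) (hf : 0 < f) (hQ : 0 < Q) (hm2 : 1 ≤ m2)
    (hw : w = (m2 + 1) / Q) (hB : 8 * C * f * Q ^ 81 ≤ m2) :
    C * w ^ m ≤ 1 / m2 ^ 80 / 8 * (w ^ (m + 81) / f) := by
  have hm0 : 0 < m2 := by linarith
  have hw0 : 0 < w := by rw [hw]; positivity
  have h1 : m2 ^ 81 ≤ (m2 + 1) ^ 81 := pow_le_pow_left₀ hm0.le (by linarith) 81
  have h2 : w ^ 81 * Q ^ 81 = (m2 + 1) ^ 81 := by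
    rw [hw, ← mul_pow, div_mul_cancel₀ _ hQ.ne']
  have h3 : 8 * C * f * m2 ^ 80 ≤ w ^ 81 := by
    have hQ81 : 0 < Q ^ 81 := by positivity
    have h80 : 0 < m2 ^ 80 := by positivity
    have h4 : 8 * C * f * m2 ^ 80 * Q ^ 81 ≤ w ^ 81 * Q ^ 81 := by
      rw [h2]
      calc 8 * C * f * m2 ^ 80 * Q ^ 81 = 8 * C * f * Q ^ 81 * m2 ^ 80 := by ring
        _ ≤ m2 * m2 ^ 80 := mul_le_mul_of_nonneg_right hB h80.le
        _ = m2 ^ 81 := by ring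
        _ ≤ (m2 + 1) ^ 81 := h1
    exact le_of_mul_le_mul_right h4 hQ81
  have h5 : 1 / m2 ^ 80 / 8 * (w ^ (m + 81) / f) = w ^ m * (w ^ 81 / (8 * f * m2 ^ 80)) := by
    rw [pow_add]
    field_simp
  rw [h5, mul_comm C]
  apply mul_le_mul_of_nonneg_left _ (by positivity)
  rw [le_div_iff₀ (by positivity)]
  calc C * (8 * f * m2 ^ 80) = 8 * C * f * m2 ^ 80 := by ring
    _ ≤ w ^ 81 := h3

theorem head_choice {q : ℕ} (hq : 1 ≤ q) (m M : ℕ) : ∃ m2 : ℕ, M ≤ m2 ∧ 1 ≤ m2 ∧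
    ∑ l ∈ range m, c0 q l * (√(((m2 : ℝ) + 1) / q)) ^ (2 * l) ≤
      1 / (m2 : ℝ) ^ 80 / 8 * Jv 0 (√(((m2 : ℝ) + 1) / q)) ^ q := by
  have hc : ∀ l, 0 ≤ c0 q l := fun l => cN_nonneg _ l
  have hC : 0 ≤ ∑ l ∈ range m, c0 q l := Finset.sum_nonneg fun l _ => hc l
  have hf : 0 < (((m + 81).factorial : ℝ)) ^ 2 := by positivity
  have hQ : (0 : ℝ) < q := by exact_mod_cast hq
  obtain ⟨K, hK⟩ := exists_nat_ge (8 * (∑ l ∈ range m, c0 q l) * (((m + 81).factorial : ℝ)) ^ 2 *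
    (q : ℝ) ^ 81)
  obtain ⟨m2, hm2⟩ : ∃ m2 : ℕ, m2 = M + q + K + 1 := ⟨_, rfl⟩
  refine ⟨m2, by omega, by omega, ?_⟩
  have hm2r : (1 : ℝ) ≤ (m2 : ℝ) := by
    have : 1 ≤ m2 := by omega
    exact_mod_cast this
  have hKm : (K : ℝ) ≤ (m2 : ℝ) := by
    have : K ≤ m2 := by omega
    exact_mod_cast this
  have hqm : (q : ℝ) ≤ (m2 : ℝ) := by
    have : q ≤ m2 := by omega
    exact_mod_cast this
  obtain ⟨w, hw⟩ : ∃ w : ℝ, w = ((m2 : ℝ) + 1) / q := ⟨_, rfl⟩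
  rw [← hw]
  have hw1 : 1 ≤ w := by
    rw [hw, le_div_iff₀ hQ]
    linarith
  have hw0 : 0 ≤ w := by linarith
  have h1 : ∑ l ∈ range m, c0 q l * (√w) ^ (2 * l) ≤ (∑ l ∈ range m, c0 q l) * w ^ m := by
    rw [Finset.sum_mul]
    apply Finset.sum_le_sum
    intro l hl
    rw [ZA_sqrt_pow hw0]
    exact mul_le_mul_of_nonneg_left (pow_le_pow_right₀ hw1 (Finset.mem_range.mp hl).le) (hc l)
  have h2 := ZA_key (m := m) hC hf hQ hm2r hw (hK.trans hKm)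
  have h3 : w ^ (m + 81) / (((m + 81).factorial : ℝ)) ^ 2 ≤ Jv 0 (√w) := by
    have h := Jv_ge (m + 81) (Real.sqrt_nonneg w)
    rw [ZA_sqrt_pow hw0] at h
    exact h
  have h4 : Jv 0 (√w) ≤ Jv 0 (√w) ^ q :=
    le_self_pow₀ (one_le_Jv (Real.sqrt_nonneg w)) (by omega)
  have h5 : (0 : ℝ) ≤ 1 / (m2 : ℝ) ^ 80 / 8 := by positivity
  exact (h1.trans h2).trans (mul_le_mul_of_nonneg_left (h3.trans h4) h5)

theorem x_le {q r m2 : ℕ} (hq : 1 ≤ q) (hm : m2 + 1 ≤ q * r) :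
    T r q (q * r - m2 - 1) / T r q (q * r - m2) ≤ (r : ℝ) / (√(((m2 : ℝ) + 1) / q)) ^ 2 := by
  have hQ : (0 : ℝ) < q := by exact_mod_cast hq
  have hm0 : (0 : ℝ) < (m2 : ℝ) + 1 := by positivity
  have hT : 0 < T r q (q * r - m2) := T_pos (by omega)
  have h := T_low r q (q * r - m2 - 1)
  have e1 : q * r - m2 - 1 + 1 = q * r - m2 := by omega
  have e2 : ((q * r - m2 - 1 : ℕ) : ℝ) = (q : ℝ) * r - m2 - 1 := by
    have e3 : q * r - m2 - 1 + (m2 + 1) = q * r := by omega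
    have e4 : ((q * r - m2 - 1 : ℕ) : ℝ) + ((m2 : ℝ) + 1) = (q : ℝ) * r := by
      exact_mod_cast e3
    linarith
  rw [e1, e2] at h
  rw [Real.sq_sqrt (by positivity), div_div_eq_mul_div, div_le_div_iff₀ hT hm0]
  have h1 : ((q : ℝ) * r - m2) * T r q (q * r - m2) ≤ (q : ℝ) * r * T r q (q * r - m2) :=
    mul_le_mul_of_nonneg_right (by linarith) hT.le
  calc T r q (q * r - m2 - 1) * ((m2 : ℝ) + 1)
      = ((q : ℝ) * r - ((q : ℝ) * r - m2 - 1)) * T r q (q * r - m2 - 1) := by ring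
    _ ≤ ((q : ℝ) * r - m2 - 1 + 1) * T r q (q * r - m2) := h
    _ = ((q : ℝ) * r - m2) * T r q (q * r - m2) := by ring
    _ ≤ (q : ℝ) * r * T r q (q * r - m2) := h1
    _ = (r : ℝ) * q * T r q (q * r - m2) := by ring

end Pool.Agent.Lib.MP_eeed5c_coK
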