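import Pool.Agent.Lib.MP_eeed5c_co_K.ZA
import Pool.Agent.Lib.MP_eeed5c_co_K.IG2

/-!
# Macroscopically far graphs, conclusion

PROOF of `far_case`. Let `C3 = log (2 (Jv 0 1)^q / c0 q m)` (`c0_pos`, `one_le_Jv`), `far` with `ε`, `C3` gives `X, r1`. For `r ≥ r1`, `r^2 ≥ X` (e.g. `r ≥ X`), `r ≥ 2 m^2`, `r ≥ m`, `r ≥ 1`: `C3 ≤ Fg (X/r) ≤ Fg r` (`Fg_mono`, `X / r ≤ r`). `mats_le_gap` at `x = r`, `k = q r - m`:
`|mats G k| r^k ≤ exp (-C3) (Lp r).eval r ^ q ≤ exp (-C3) (r^r r! Jv 0 1)^q` (`Lp_upper` with `z = 1`), so `|mats G k| ≤ exp (-C3) (r!)^q r^m (Jv 0 1)^q = (r!)^q r^m c0 q m / 2 ≤ T r q k` (`T_lower`, `1 - m^2/r ≥ 1/2`).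
-/

set_option autoImplicit false

namespace Pool.Agent.Lib.MP_eeed5c_coK

open Finset Pool.Agent.Lib.MP_eeed5c_co Pool.Agent.Lib.MP_eeed5c_coT Pool.Agent.Lib.MP_eeed5c_coX

theorem far_case {q : ℕ} (hq : 1 ≤ q) (m : ℕ) {ε : ℝ} (hε : 0 < ε) :
    ∃ r1 : ℕ, ∀ (r : ℕ) (V : Type) [Fintype V] (G : SimpleGraph V),
      r1 ≤ r → Fintype.card V = 2 * (q * r) → Reg G r → ε * (r : ℝ) ^ 2 ≤ Wt G r →
      ((mats G (q * r - m)).card : ℝ) ≤ T r q (q * r - m) := by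
  have hc0 := c0_pos hq m
  have hJ1 : 1 ≤ Jv 0 1 := one_le_Jv zero_le_one
  have hJ : 0 < Jv 0 1 := lt_of_lt_of_le one_pos hJ1
  obtain ⟨X, r0, hX, hr0, hfar⟩ := far hq hε (Real.log (2 * Jv 0 1 ^ q / c0 q m))
  refine ⟨r0 + ⌈X⌉₊ + 2 * m ^ 2 + m + 1, ?_⟩
  intro r V _ G hr hV hreg hW
  have hr1 : 1 ≤ r := by omega
  have hmr : m ≤ r := by omega
  have hr' : (1 : ℝ) ≤ r := by exact_mod_cast hr1
  have hr0' : (0 : ℝ) < r := by linarith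
  have hXr : X ≤ r := by
    have h1 : X ≤ (⌈X⌉₊ : ℝ) := Nat.le_ceil X
    have h2 : ((⌈X⌉₊ : ℕ) : ℝ) ≤ r := by
      have : ⌈X⌉₊ ≤ r := by omega
      exact_mod_cast this
    linarith
  have hm2 : 2 * (m : ℝ) ^ 2 ≤ r := by
    have : 2 * m ^ 2 ≤ r := by omega
    exact_mod_cast this
  have hmk : m ≤ q * r := by
    calc m ≤ r := hmr
      _ = 1 * r := (one_mul r).symm
      _ ≤ q * r := Nat.mul_le_mul hq le_rfl
  have h1 := hfar r V G (by omega) hV hreg hW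
  have hX0 : 0 < X / r := by positivity
  have hXr2 : X / r ≤ r := by
    rw [div_le_iff₀ hr0']
    nlinarith
  have h2 := h1.trans (Fg_mono hr1 hV hreg hX0 hXr2)
  have h3 := mats_le_gap hr0' h2 (q * r - m)
  have h4 : Real.exp (-(Real.log (2 * Jv 0 1 ^ q / c0 q m))) = c0 q m / (2 * Jv 0 1 ^ q) := by
    rw [Real.exp_neg, Real.exp_log (by positivity), inv_div]
  have h5 := Lp_upper (z := 1) hr1 one_pos
  rw [one_pow, div_one] at h5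
  have hL0 : 0 ≤ (Lp r).eval (r : ℝ) := le_trans zero_le_one (Lp_pos r hr0'.le)
  have h6 : (Lp r).eval (r : ℝ) ^ q ≤ ((r : ℝ) ^ r * (r.factorial : ℝ) * Jv 0 1) ^ q :=
    pow_le_pow_left₀ hL0 h5 q
  rw [h4] at h3
  have h7 : ((mats G (q * r - m)).card : ℝ) * (r : ℝ) ^ (q * r - m) ≤
      (c0 q m / 2 * ((r.factorial : ℝ) ^ q * (r : ℝ) ^ m)) * (r : ℝ) ^ (q * r - m) := by
    refine h3.trans ((mul_le_mul_of_nonneg_left h6 (by positivity)).trans (le_of_eq ?_))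
    have e : ((r : ℝ) ^ r) ^ q = (r : ℝ) ^ m * (r : ℝ) ^ (q * r - m) := by
      rw [← pow_mul, ← pow_add]
      congr 1
      have : r * q = q * r := mul_comm _ _
      omega
    rw [mul_pow, mul_pow, e]
    field_simp
  have h8 : ((mats G (q * r - m)).card : ℝ) ≤ c0 q m / 2 * ((r.factorial : ℝ) ^ q * (r : ℝ) ^ m) :=
    le_of_mul_le_mul_right h7 (by positivity)
  refine h8.trans (le_trans ?_ (T_lower hr1 hmk))
  have h9 : 1 / 2 ≤ 1 - (m : ℝ) ^ 2 / r := by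
    have : (m : ℝ) ^ 2 / r ≤ 1 / 2 := by
      rw [div_le_iff₀ hr0']
      linarith
    linarith
  calc c0 q m / 2 * ((r.factorial : ℝ) ^ q * (r : ℝ) ^ m) =
      1 / 2 * ((r.factorial : ℝ) ^ q * (r : ℝ) ^ m * c0 q m) := by ring
    _ ≤ (1 - (m : ℝ) ^ 2 / r) * ((r.factorial : ℝ) ^ q * (r : ℝ) ^ m * c0 q m) :=
      mul_le_mul_of_nonneg_right h9 (by positivity)

end Pool.Agent.Lib.MP_eeed5c_coK
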