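import Pool.Agent.Lib.MP_eeed5c_co_K.ZB
import Pool.Agent.Lib.MP_eeed5c_co_K.MB

/-!
# The corner

`S27` is the structure theorem of helper27 (library MP_eeed5c_co_D, theorem `blocks`).

PROOFS.
* `corner_one`: case `q = 1`: `block_le` (file T/UC: `CLe (mp G) (Lp r)`, `mp_coeff`; `T r 1 = coefficients of Lp r`). Let `q ≥ 2`. `head_choice` with `M = 10^42 + q + m + 10` gives `m2`; `κ = 1/m2^80 ≤ 1`, `z5 = √((m2+1)/q)`. `near_gap` with `κ, z5` gives `ε, r1`. `far_case` with `ε / 50^q` gives `r2`.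
  Let `r ≥ max r1 r2`, `r ≥ m2^20`, `r ≥ 6 m2 + 6` (so `m2 + 1 ≤ q r`, and `q r ≤ 6 (q r - m2)`, `q r ≤ 6 (q r - m)`). Let `x = T r q (q r - m2 - 1) / T r q (q r - m2)`, `k2 = q r - m2` (`k2 ≥ 1`, `q r - k2 = m2`).
  Case A: `Fg G q r x < 1/m2^80`: `S27` for `k2` (`10^42 ≤ m2`, `q ≤ 5 m2^2`, `m2^20 ≤ r`) gives `c` with `Cells r c`, `m2^9 |Xs G c| ≤ r`. `near` (file X/XI) for `k = q r - m`: `1000 (1 + m/q) |Xs| ≤ 1000 (1 + m) |Xs| ≤ m2^9 |Xs| ≤ r` because `m2 ≥ m + 10` and `m2 ≥ 10^42`.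
  Case B: `κ ≤ Fg G q r x`. `x ≤ r/z5^2` (`x_le`) and `x > 0`, so `κ ≤ Fg G q r (r/z5^2)` (`Fg_mono`). If `Wt G r ≥ ε/50^q r^2`: `far_case`. Otherwise `cells_of_Wt` gives `c` with `|Xs G c| ≤ 50^q Wt G r ≤ ε r^2`; `|Ys G c| = |Xs G c|` (`card_XY`, file X/XE); `near_gap`.
* `corner`: finite maximum of the `r0(q, m)` over `1 ≤ q ≤ q0`, `m ≤ m0` (choose `f q m` by `corner_one` and take the `Finset.sup` over `range (q0+1) ×ˢ range (m0+1)`), `k = q r - m` with `m = q r - k ≤ m0`.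
-/

set_option autoImplicit false

namespace Pool.Agent.Lib.MP_eeed5c_coK

open Finset Pool.Agent.Lib.MP_eeed5c_co Pool.Agent.Lib.MP_eeed5c_coT Pool.Agent.Lib.MP_eeed5c_coX

/-- The structure theorem for graphs with a small gap at one level. -/
def S27 : Prop := ∀ (q r k : ℕ) (V : Type) [Fintype V] (G : SimpleGraph V),
  Fintype.card V = 2 * (q * r) → Reg G r → 1 ≤ k → k < q * r → q * r ≤ 6 * k →
  10 ^ 42 ≤ q * r - k → q ≤ 5 * (q * r - k) ^ 2 → (q * r - k) ^ 20 ≤ r →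
  Fg G q r (T r q (k - 1) / T r q k) < 1 / (((q * r - k : ℕ) : ℝ)) ^ 80 →
  ∃ c : V → Fin q × Fin 2, Cells r c ∧ (q * r - k) ^ 9 * (Xs G c).card ≤ r

theorem corner_one (h27 : S27) {q : ℕ} (hq : 1 ≤ q) (m : ℕ) :
    ∃ r0 : ℕ, ∀ (r : ℕ) (V : Type) [Fintype V] (G : SimpleGraph V),
      r0 ≤ r → Fintype.card V = 2 * (q * r) → Reg G r →
      ((mats G (q * r - m)).card : ℝ) ≤ T r q (q * r - m) := by

  rcases Nat.lt_or_ge q 2 with hq2 | hq2
  · have hq1 : q = 1 := by omega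
    subst hq1
    refine ⟨0, fun r V _ G _ hV hreg => ?_⟩
    have h1 := block_le (G := G) (r := r) (by rw [hV, one_mul]) hreg (1 * r - m)
    rw [mp_coeff] at h1
    unfold T
    rw [pow_one]
    exact h1
  obtain ⟨m2, hM, hm2, hhead⟩ := head_choice hq m (10 ^ 42 + q + m + 10)
  have hm2R : (1 : ℝ) ≤ (m2 : ℝ) := by exact_mod_cast hm2
  have hm20 : (0 : ℝ) < (m2 : ℝ) := by linarith
  have hq0 : (0 : ℝ) < (q : ℝ) := by exact_mod_cast hq
  have hκ0 : (0 : ℝ) < 1 / (m2 : ℝ) ^ 80 := by positivity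
  have hκ1 : 1 / (m2 : ℝ) ^ 80 ≤ 1 := by
    rw [div_le_one (by positivity)]
    exact one_le_pow₀ hm2R
  have hz5 : 0 < √(((m2 : ℝ) + 1) / q) := Real.sqrt_pos.2 (by positivity)
  obtain ⟨ε, r1, hε, hnear⟩ := near_gap hq hκ0 hκ1 hz5 hhead
  have hε2 : 0 < ε / 50 ^ q := by positivity
  obtain ⟨r2, hfar⟩ := far_case hq m hε2
  refine ⟨r1 + r2 + m2 ^ 20 + (6 * m2 + 6), fun r V _ G hr0 hV hreg => ?_⟩
  have g1 : r1 ≤ r := by omega
  have g2 : r2 ≤ r := by omega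
  have g3 : m2 ^ 20 ≤ r := by omega
  have g4 : 6 * m2 + 6 ≤ r := by omega
  have g5 : r ≤ q * r := Nat.le_mul_of_pos_left r (by omega)
  have hr : 1 ≤ r := by omega
  have hmm2 : m + 10 ≤ m2 := by omega
  have hbig : 10 ^ 42 ≤ m2 := by omega
  have e1 : q * r - (q * r - m2) = m2 := by omega
  rcases lt_or_ge (Fg G q r (T r q (q * r - m2 - 1) / T r q (q * r - m2))) (1 / (m2 : ℝ) ^ 80) with hA | hB
  · have h1 := h27 q r (q * r - m2) V G hV hreg (by omega) (by omega) (by omega)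
      (by rw [e1]; exact hbig) (by rw [e1]; nlinarith) (by rw [e1]; exact g3) (by rw [e1]; exact hA)
    rw [e1] at h1
    obtain ⟨c, hc, hX⟩ := h1
    refine near hc hreg hq2 (Nat.sub_le _ _) (by omega) ?_
    have e2 : ((q * r - m : ℕ) : ℝ) = (q : ℝ) * r - m := by
      rw [Nat.cast_sub (by omega), Nat.cast_mul]
    rw [e2]
    have e3 : (q : ℝ) * r - ((q : ℝ) * r - m) = m := by ring
    rw [e3]
    have h2 : (m : ℝ) / q ≤ m := div_le_self (Nat.cast_nonneg _) (by exact_mod_cast hq)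
    have h3 : 1000 * (1 + m) ≤ m2 ^ 9 := by
      have h4 : m2 * m2 ≤ m2 ^ 9 := by
        calc m2 * m2 = m2 ^ 2 := (pow_two m2).symm
          _ ≤ m2 ^ 9 := Nat.pow_le_pow_right hm2 (by norm_num)
      have h5 : 1000 * (1 + m) ≤ m2 * m2 := Nat.mul_le_mul (le_trans (by norm_num) hbig) (by omega)
      exact h5.trans h4
    have h6 : (1000 * (1 + (m : ℝ))) ≤ (m2 : ℝ) ^ 9 := by exact_mod_cast h3
    have h7 : (m2 : ℝ) ^ 9 * ((Xs G c).card : ℝ) ≤ r := by exact_mod_cast hX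
    refine le_trans ?_ h7
    refine mul_le_mul_of_nonneg_right (le_trans ?_ h6) (Nat.cast_nonneg _)
    linarith
  · have hx0 : 0 < T r q (q * r - m2 - 1) / T r q (q * r - m2) :=
      div_pos (T_pos (by omega)) (T_pos (by omega))
    have hxle := x_le (r := r) (m2 := m2) hq (by omega)
    have hF := hB.trans (Fg_mono hr hV hreg hx0 hxle)
    rcases le_or_gt (ε / 50 ^ q * (r : ℝ) ^ 2) (Wt G r) with hW | hW
    · exact hfar r V G g2 hV hreg hW
    · obtain ⟨c, hc, hX⟩ := cells_of_Wt hr hq hV hreg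
      refine hnear r V G c g1 hV hreg hc ?_ hF
      rw [← card_XY hc hreg]
      refine hX.trans ?_
      have h1 : (50 : ℝ) ^ q * Wt G r ≤ 50 ^ q * (ε / 50 ^ q * (r : ℝ) ^ 2) :=
        mul_le_mul_of_nonneg_left hW.le (by positivity)
      refine h1.trans (le_of_eq ?_)
      have h2 : (50 : ℝ) ^ q ≠ 0 := by positivity
      rw [← mul_assoc, mul_div_cancel₀ _ h2]

theorem corner (h27 : S27) (q0 m0 : ℕ) :
    ∃ r0 : ℕ, ∀ (q r k : ℕ) (V : Type) [Fintype V] (G : SimpleGraph V),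
      r0 ≤ r → 1 ≤ q → q ≤ q0 → Fintype.card V = 2 * (q * r) → Reg G r →
      k ≤ q * r → q * r ≤ k + m0 → ((mats G k).card : ℝ) ≤ T r q k := by

  have hall : ∀ q m : ℕ, ∃ r0 : ℕ, 1 ≤ q → ∀ (r : ℕ) (V : Type) [Fintype V] (G : SimpleGraph V),
      r0 ≤ r → Fintype.card V = 2 * (q * r) → Reg G r →
      ((mats G (q * r - m)).card : ℝ) ≤ T r q (q * r - m) := by
    intro q m
    by_cases hq : 1 ≤ q
    · obtain ⟨r0, h0⟩ := corner_one h27 hq m
      exact ⟨r0, fun _ => h0⟩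
    · exact ⟨0, fun h => absurd h hq⟩
  choose f hf using hall
  refine ⟨(range (q0 + 1) ×ˢ range (m0 + 1)).sup fun p => f p.1 p.2, ?_⟩
  intro q r k V _ G hr hq hqq hV hreg hk hkm
  have hmem : (q, q * r - k) ∈ range (q0 + 1) ×ˢ range (m0 + 1) := by
    rw [mem_product, mem_range, mem_range]
    exact ⟨by omega, by show q * r - k < m0 + 1; omega⟩
  have h1 := Finset.le_sup (f := fun p : ℕ × ℕ => f p.1 p.2) hmem
  have h2 := hf q (q * r - k) hq r V G (le_trans h1 hr) hV hreg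
  have h3 : q * r - (q * r - k) = k := by omega
  rwa [h3] at h2

end Pool.Agent.Lib.MP_eeed5c_coK
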