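import Pool.Agent.Lib.MP_eeed5c_co_K.ZC
import Pool.Agent.Lib.MP_eeed5c_co_Z.ZC

/-!
# All but finitely many pairs `(q, r)`
-/

set_option autoImplicit false

namespace Pool.Agent.Lib.MP_eeed5c_coK

open Finset Pool.Agent.Lib.MP_eeed5c_co Pool.Agent.Lib.MP_eeed5c_coT Pool.Agent.Lib.MP_eeed5c_coX

theorem s27 : S27 := by
  intro q r k V _ G hV hreg hk1 hkn h6 hm hqm hr hF
  exact Pool.Agent.Lib.MP_eeed5c_coD.blocks hV hreg hk1 hkn h6 hm hqm hr rfl hF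

theorem corner_holds : Pool.Agent.Lib.MP_eeed5c_coZ.Corner := by
  intro q₀ m₀
  obtain ⟨r₀, h⟩ := corner s27 q₀ m₀
  refine ⟨r₀, fun q r k V _ G hV hreg hr hq hk hm => ?_⟩
  rcases small_or (k := k) hV hreg with h1 | ⟨_, _, _, _, hq1⟩
  · exact h1
  · have h2 := h q r k V G hr hq1 hq hV hreg hk hm
    rw [← card_mats_KK] at h2
    exact_mod_cast h2

theorem all_but_finite : ∃ n₀ : ℕ, ∀ (q r k : ℕ) (V : Type) [Fintype V] (G : SimpleGraph V),
    Fintype.card V = 2 * (q * r) → Reg G r → n₀ ≤ q * r →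
    (mats G k).card ≤ (mats (KK q r) k).card :=
  Pool.Agent.Lib.MP_eeed5c_coZ.abs_all Pool.Agent.Lib.MP_eeed5c_coZ.blocks_holds corner_holds

end Pool.Agent.Lib.MP_eeed5c_coK
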